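import Pool.Agent.LibBT65.Defs

set_option autoImplicit false

/-!
Row A1. Basic linear algebra: `K` has dimension 7, `V = K + π` (direct) for every member `π` other
than `U`; lemma F1. Everything follows from `nondeg` (dimension of an orthogonal space),
`opp` with `U` (`K ∩ π = 0`), `sing` (`U ≤ K`) and `ind`.
F1: apply `ind` to `U, π, π'` and `-(s - s') + s - s' = 0`.
-/

namespace Pool.Agent.LibBT65

open Module

variable {F V : Type*} [Field F] [Fintype F] [AddCommGroup V] [Module F V]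
  {B : V →ₗ[F] V →ₗ[F] F} {M : Finset (Submodule F V)} {U K : Submodule F V}

private theorem finV (hS : Sys B M) : FiniteDimensional F V := by
  apply FiniteDimensional.of_finrank_pos
  rw [hS.dimV]
  norm_num

private theorem refl' (hS : Sys B M) : LinearMap.IsRefl B := by
  intro x y h
  rw [hS.symm]
  exact h

private theorem nd' (hS : Sys B M) : LinearMap.Nondegenerate B := by
  refine ⟨fun x hx => hS.nondeg x hx, fun y hy => hS.nondeg y fun w => ?_⟩
  rw [hS.symm]
  exact hy w

private theorem K_eq (hS : Sys B M) (hb : Base B M U K) :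
    K = LinearMap.BilinForm.orthogonal B U := by
  ext v
  rw [hb.perp, LinearMap.BilinForm.mem_orthogonal_iff]
  constructor
  · intro h u hu
    rw [hS.symm]
    exact h u hu
  · intro h u hu
    rw [hS.symm]
    exact h u hu

theorem U_le_K (hS : Sys B M) (hb : Base B M U K) : U ≤ K := by
  intro v hv
  rw [hb.perp]
  intro u hu
  exact hS.sing U hb.mem v hv u hu

theorem K_dim (hS : Sys B M) (hb : Base B M U K) : finrank F K = 7 := by
  haveI := finV hS
  have h := LinearMap.BilinForm.finrank_orthogonal (B := B) (nd' hS) U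
  rw [K_eq hS hb]
  rw [h, hS.dimV, hS.dim U hb.mem]

/-- the orthogonal space of `K` is `U` -/
theorem K_perp (hS : Sys B M) (hb : Base B M U K) (v : V) (hv : ∀ k ∈ K, B v k = 0) :
    v ∈ U := by
  haveI := finV hS
  have h := LinearMap.BilinForm.orthogonal_orthogonal (B := B) (nd' hS) (refl' hS) U
  rw [← h, ← K_eq hS hb, LinearMap.BilinForm.mem_orthogonal_iff]
  intro k hk
  rw [hS.symm]
  exact hv k hk

theorem K_inter (hS : Sys B M) (hb : Base B M U K) {π : Submodule F V} (hπ : π ∈ M)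
    (hne : π ≠ U) {s : V} (hs : s ∈ π) (hsK : s ∈ K) : s = 0 := by
  apply hS.opp U hb.mem π hπ (Ne.symm hne) s hs
  exact (hb.perp s).1 hsK

theorem decomp (hS : Sys B M) (hb : Base B M U K) {π : Submodule F V} (hπ : π ∈ M)
    (hne : π ≠ U) (v : V) : ∃ s ∈ π, ∃ k ∈ K, v = s + k := by
  haveI := finV hS
  have hinf : π ⊓ K = ⊥ := by
    rw [Submodule.eq_bot_iff]
    intro x hx
    exact K_inter hS hb hπ hne hx.1 hx.2
  have h1 := Submodule.finrank_sup_add_finrank_inf_eq π K
  rw [hinf, finrank_bot, hS.dim π hπ, K_dim hS hb] at h1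
  have htop : π ⊔ K = ⊤ := by
    apply Submodule.eq_top_of_finrank_eq
    rw [hS.dimV]
    omega
  have hv : v ∈ π ⊔ K := by
    rw [htop]
    trivial
  obtain ⟨s, hs, k, hk, rfl⟩ := Submodule.mem_sup.1 hv
  exact ⟨s, hs, k, hk, rfl⟩

theorem F1 (hS : Sys B M) (hb : Base B M U K) {π π' : Submodule F V} (hπ : π ∈ M)
    (hπ' : π' ∈ M) (hne : π ≠ U) (hne' : π' ≠ U) (h : π ≠ π') {s s' : V} (hs : s ∈ π)
    (hs' : s' ∈ π') (hss : s - s' ∈ U) : s = 0 ∧ s' = 0 := by
  have h1 := hS.ind U hb.mem π hπ π' hπ' (Ne.symm hne) (Ne.symm hne') h (-(s - s'))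
    (U.neg_mem hss) s hs (-s') (π'.neg_mem hs') (by abel)
  exact ⟨h1.2.1, neg_eq_zero.1 h1.2.2⟩

/-- an isometry fixing `U` fixes `K`: `B (g k) u = B (g k) (g (g⁻¹ u)) = B k (g⁻¹ u) = 0` -/
theorem K_map (hS : Sys B M) (hb : Base B M U K) {g : V ≃ₗ[F] V} (hg : Aut B M U g) :
    K.map (g : V →ₗ[F] V) = K := by
  ext v
  constructor
  · rintro ⟨k, hk, rfl⟩
    show g k ∈ K
    rw [hb.perp]
    intro u hu
    rw [← hg.fix] at hu
    obtain ⟨u', hu', rfl⟩ := hu
    show B (g k) (g u') = 0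
    rw [hg.iso]
    exact (hb.perp k).1 hk u' hu'
  · intro hv
    refine ⟨g.symm v, ?_, g.apply_symm_apply v⟩
    show g.symm v ∈ K
    rw [hb.perp]
    intro u hu
    have h1 : B (g (g.symm v)) (g u) = 0 := by
      rw [g.apply_symm_apply]
      apply (hb.perp v).1 hv
      rw [← hg.fix]
      exact Submodule.mem_map_of_mem hu
    rw [hg.iso] at h1
    exact h1

/-- there are two different members other than `U` -/
theorem two_members (hS : Sys B M) (hb : Base B M U K) :
    ∃ π ∈ M, ∃ π' ∈ M, π ≠ U ∧ π' ≠ U ∧ π ≠ π' := by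
  classical
  have hq : 2 ≤ Fintype.card F := Fintype.one_lt_card
  have h16 : 2 ^ 4 ≤ Fintype.card F ^ 4 := Nat.pow_le_pow_left hq 4
  have hc : 1 < (M.erase U).card := by
    rw [Finset.card_erase_of_mem hb.mem, hS.card]
    omega
  obtain ⟨a, ha, b, hb', hab⟩ := Finset.one_lt_card.1 hc
  rw [Finset.mem_erase] at ha hb'
  exact ⟨a, ha.2, b, hb'.2, ha.1, hb'.1, hab⟩

end Pool.Agent.LibBT65
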