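import Pool.Agent.LibBT65.A1

set_option autoImplicit false

/-!
Row A2. Lemma F2: every vector outside `K` lies in `π + U` for some member `π ≠ U`.
Count. `(π, s, u) ↦ s + u` for `π ∈ M`, `π ≠ U`, `s ∈ π`, `s ≠ 0`, `u ∈ U` is injective (F1 for
`π ≠ π'`; for the same `π`: `s - s' ∈ π ∩ U ⊆ π ∩ K = 0`) with values outside `K` (`K_inter`).
The source has `q^4 (q^3 - 1) q^3 = q^10 - q^7` elements, the complement of `K` too
(`V` has `q^10`, `K` has `q^7` elements: `card_eq_pow_finrank`), so the map is onto.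
-/

namespace Pool.Agent.LibBT65

open Module

variable {F V : Type*} [Field F] [Fintype F] [AddCommGroup V] [Module F V]
  {B : V →ₗ[F] V →ₗ[F] F} {M : Finset (Submodule F V)} {U K : Submodule F V}

private theorem finV2 (hS : Sys B M) : FiniteDimensional F V := by
  apply FiniteDimensional.of_finrank_pos
  rw [hS.dimV]
  norm_num

theorem F2 (hS : Sys B M) (hb : Base B M U K) {v : V} (hv : v ∉ K) :
    ∃ π ∈ M, π ≠ U ∧ ∃ s ∈ π, v - s ∈ U := by
  classical
  have := finV2 hS
  have hfin : Finite V := Module.finite_of_finite F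
  let _ : Fintype V := Fintype.ofFinite V
  have hM : ∀ π : ↥(M.erase U), π.1 ∈ M ∧ π.1 ≠ U := by
    intro π
    have := Finset.mem_erase.1 π.2
    exact ⟨this.2, this.1⟩
  let f : (Σ π : ↥(M.erase U), {s : ↥(π.1) // s ≠ 0}) × ↥U → {v : V // v ∉ K} :=
    fun x => ⟨(x.1.2.1 : V) + x.2, by
      intro hK
      have h1 : (x.1.2.1 : V) ∈ K := by
        have := K.sub_mem hK (U_le_K hS hb x.2.2)
        rwa [add_sub_cancel_right] at this
      have h2 := K_inter hS hb (hM x.1.1).1 (hM x.1.1).2 x.1.2.1.2 h1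
      exact x.1.2.2 (Subtype.ext h2)⟩
  have hinj : Function.Injective f := by
    rintro ⟨⟨π, s, hs⟩, u⟩ ⟨⟨π', s', hs'⟩, u'⟩ h
    have h0 : (s : V) + u = (s' : V) + u' := congrArg Subtype.val h
    have hd : (s : V) - s' ∈ U := by
      have : (s : V) - s' = u' - u := by
        rw [sub_eq_sub_iff_add_eq_add, h0]
        abel
      rw [this]
      exact U.sub_mem u'.2 u.2
    by_cases hpp : π = π'
    · subst hpp
      have hz : (s : V) - s' = 0 :=
        K_inter hS hb (hM π).1 (hM π).2 (π.1.sub_mem s.2 s'.2) (U_le_K hS hb hd)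
      have hss : s = s' := Subtype.ext (sub_eq_zero.1 hz)
      subst hss
      have huu : u = u' := Subtype.ext (add_left_cancel h0)
      subst huu
      rfl
    · exfalso
      have hne : π.1 ≠ π'.1 := fun h => hpp (Subtype.ext h)
      have := F1 hS hb (hM π).1 (hM π').1 (hM π).2 (hM π').2 hne s.2 s'.2 hd
      exact hs (Subtype.ext this.1)
  have hV : Fintype.card V = Fintype.card F ^ 10 := by
    rw [Module.card_eq_pow_finrank (K := F) (V := V), hS.dimV]
  have hK : Fintype.card K = Fintype.card F ^ 7 := by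
    rw [Module.card_eq_pow_finrank (K := F) (V := K), K_dim hS hb]
  have hU : Fintype.card U = Fintype.card F ^ 3 := by
    rw [Module.card_eq_pow_finrank (K := F) (V := U), hS.dim U hb.mem]
  have hcM : (M.erase U).card = Fintype.card F ^ 4 := by
    rw [Finset.card_erase_of_mem hb.mem, hS.card]
    omega
  have hc1 : Fintype.card {v : V // v ∉ K} = Fintype.card F ^ 10 - Fintype.card F ^ 7 := by
    have h := Fintype.card_subtype_compl (fun v : V => v ∈ K)
    have h' : Fintype.card {v : V // v ∈ K} = Fintype.card F ^ 7 := by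
      rw [← hK]
    rw [hV, h'] at h
    rw [← h]
  have hc2 : Fintype.card ((Σ π : ↥(M.erase U), {s : ↥(π.1) // s ≠ 0}) × ↥U) =
      Fintype.card F ^ 4 * (Fintype.card F ^ 3 - 1) * Fintype.card F ^ 3 := by
    rw [Fintype.card_prod, Fintype.card_sigma, hU]
    congr 1
    have hterm : ∀ π : ↥(M.erase U), Fintype.card {s : ↥(π.1) // s ≠ 0} =
        Fintype.card F ^ 3 - 1 := by
      intro π
      have h := Fintype.card_subtype_compl (fun s : ↥(π.1) => s = 0)
      have hπ : Fintype.card ↥(π.1) = Fintype.card F ^ 3 := by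
        rw [Module.card_eq_pow_finrank (K := F) (V := ↥(π.1)), hS.dim _ (hM π).1]
      rw [hπ, Fintype.card_subtype_eq] at h
      rw [← h]
    rw [Finset.sum_congr rfl (fun π _ => hterm π), Finset.sum_const, Finset.card_univ,
      Fintype.card_coe, hcM, smul_eq_mul]
  have hbij : Function.Bijective f := by
    rw [Fintype.bijective_iff_injective_and_card]
    refine ⟨hinj, ?_⟩
    rw [hc1, hc2]
    have : ∀ q : ℕ, q ^ 4 * (q ^ 3 - 1) * q ^ 3 = q ^ 10 - q ^ 7 := by
      intro q
      rw [Nat.mul_sub, Nat.sub_mul]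
      congr 1 <;> ring
    exact this _
  obtain ⟨⟨⟨π, s, hs⟩, u⟩, hx⟩ := hbij.2 ⟨v, hv⟩
  have hx' : (s : V) + u = v := congrArg Subtype.val hx
  refine ⟨π.1, (hM π).1, (hM π).2, s, s.2, ?_⟩
  rw [← hx', add_sub_cancel_left]
  exact u.2

end Pool.Agent.LibBT65
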