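import Pool.Agent.LibBT65.A2

set_option autoImplicit false

/-!
Row A3. Lemma L1: an isometry `g` of `p`-power order, preserving `M` and fixing `U`, that is trivial
on `K` modulo `U`, is trivial on `V` modulo `K`.

Proof. `g K = K` (`g` preserves `U`, `B`). In characteristic `p`, `(g - 1)^(p^k) = g^(p^k) - 1 = 0`
(`sub_pow_char_pow` in the commutative subring generated by `g`, or
`Commute.sub_pow_char_pow`-type lemmas in `Module.End F V`; `g` and `1` commute).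
Suppose `(g - 1) V ⊄ K`. Let `n ≥ 2` be minimal with `(g - 1)^n V ⊆ K`. Take `v` with
`(g - 1)^(n - 1) v ∉ K`, `v₁ = (g - 1)^(n - 2) v`, `v₀ = g v₁ - v₁ ∉ K`, `g v₀ - v₀ ∈ K`.
For a member `π ≠ U` write `v₁ = s₁ + k₁`, `v₀ = s₀ + k₀` (`decomp`). Then
(*) `g s₁ - s₁ - s₀ = k₀ - (g k₁ - k₁)`, and `g k₁ - k₁ ∈ U`.
(a) By `F2` there are `π*` and `s* ∈ π*` with `v₀ - s* ∈ U`. For `π*` we have `s₀ = s*`
(`K_inter`), `k₀ ∈ U`, so `g s₁ - (s₁ + s₀) ∈ U`. If `g π* ≠ π*` then F1 gives `g s₁ = 0`,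
`s₁ + s₀ = 0`, so `s₀ = 0`, `v₀ ∈ K`, a contradiction. So `g π* = π*` and
`g s* - s* = (g v₀ - v₀) - (g (v₀ - s*) - (v₀ - s*)) ∈ K ∩ π* = 0`.
(b) For any member `π ≠ U` take `s ∈ π` with `s* - s ∈ K` (`decomp`), `s ≠ 0`;
`g s - s = (g (s - s*) - (s - s*)) ∈ U`, so `g π = π` by F1.
(c) So for every `π` the vector (*) is in `K ∩ π = 0`: `g s₁ - s₁ = s₀`. For two members
`π ≠ π'` (`two_members`): `s₀ - s₀' = g (s₁ - s₁') - (s₁ - s₁') ∈ U` since `s₁ - s₁' ∈ K`; F1 gives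
`s₀ = 0`, so `v₀ ∈ K`, a contradiction.
-/

namespace Pool.Agent.LibBT65

open Module

variable {F V : Type*} [Field F] [Fintype F] [AddCommGroup V] [Module F V]
  {B : V →ₗ[F] V →ₗ[F] F} {M : Finset (Submodule F V)} {U K : Submodule F V}

omit [Fintype F] in
private theorem A3_end [Nontrivial V] (p : ℕ) [Fact p.Prime] [CharP F p] (g : V ≃ₗ[F] V) {k : ℕ}
    (hgk : g ^ (p ^ k) = 1) : ((g : V →ₗ[F] V) - 1 : Module.End F V) ^ (p ^ k) = 0 := by
  have : CharP (Module.End F V) p :=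
    charP_of_injective_algebraMap (FaithfulSMul.algebraMap_injective F (Module.End F V)) p
  have h1 : ((g : V →ₗ[F] V) : Module.End F V) ^ (p ^ k) = 1 := by
    have h := congrArg (LinearEquiv.automorphismGroup.toLinearMapMonoidHom (R := F) (M := V)) hgk
    rw [map_pow, map_one] at h
    exact h
  rw [sub_pow_char_pow_of_commute p k (Commute.one_right _), h1, one_pow, sub_self]

/-- a vector moved out of `K` once but not twice -/
private theorem A3_vec (hS : Sys B M) (p : ℕ) [Fact p.Prime] [CharP F p]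
    {g : V ≃ₗ[F] V} {k : ℕ} (hgk : g ^ (p ^ k) = 1) (v : V) (hv : g v - v ∉ K) :
    ∃ v₁ : V, g v₁ - v₁ ∉ K ∧ g (g v₁ - v₁) - (g v₁ - v₁) ∈ K := by
  classical
  have : Nontrivial V := by
    apply Module.nontrivial_of_finrank_pos (R := F)
    rw [hS.dimV]
    norm_num
  let D : Module.End F V := (g : V →ₗ[F] V) - 1
  have hD : ∀ x, D x = g x - x := fun x => rfl
  have hex : ∃ n, ∀ x, (D ^ n) x ∈ K := by
    refine ⟨p ^ k, fun x => ?_⟩
    have h0 : D ^ (p ^ k) = 0 := A3_end p g hgk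
    rw [h0]
    exact K.zero_mem
  obtain ⟨n, hn, hm⟩ : ∃ n, (∀ x, (D ^ n) x ∈ K) ∧ ∀ m < n, ¬ ∀ x, (D ^ m) x ∈ K :=
    ⟨Nat.find hex, Nat.find_spec hex, fun m h => Nat.find_min hex h⟩
  match n, hn, hm with
  | 0, hn, _ => exact absurd (hn (g v - v)) hv
  | 1, hn, _ =>
    have h1 := hn v
    rw [pow_one, hD] at h1
    exact absurd h1 hv
  | n + 2, hn, hm =>
    have h1 := hm (n + 1) (Nat.lt_succ_self (n + 1))
    push Not at h1
    obtain ⟨x, hx⟩ := h1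
    refine ⟨(D ^ n) x, ?_, ?_⟩
    · rw [← hD, ← Module.End.mul_apply, ← pow_succ']
      exact hx
    · have h2 : D (D ((D ^ n) x)) = (D ^ (n + 2)) x := by
        rw [pow_succ', pow_succ']
        rfl
      rw [← hD, ← hD, h2]
      exact hn x

theorem L1 (hS : Sys B M) (hb : Base B M U K) (p : ℕ) [Fact p.Prime] [CharP F p]
    {g : V ≃ₗ[F] V} (hg : Aut B M U g) {k : ℕ} (hgk : g ^ (p ^ k) = 1)
    (hE : ∀ x ∈ K, g x - x ∈ U) (v : V) : g v - v ∈ K := by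
  by_contra hv
  obtain ⟨v₁, hv0, hv1⟩ := A3_vec hS p hgk v hv
  have hUK : U ≤ K := U_le_K hS hb
  have hmapne : ∀ π : Submodule F V, π ≠ U → π.map (g : V →ₗ[F] V) ≠ U := by
    intro π hπ h
    apply hπ
    rw [← hg.fix] at h
    exact Submodule.map_injective_of_injective (f := (g : V →ₗ[F] V)) g.injective h
  -- (a)
  obtain ⟨πs, hπs, hπsU, ss, hss, hvs⟩ := F2 hS hb hv0
  have hss0 : ss ≠ 0 := by
    intro h
    rw [h, sub_zero] at hvs
    exact hv0 (hUK hvs)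
  obtain ⟨s₁, hs₁, k₁, hk₁, h1⟩ := decomp hS hb hπs hπsU v₁
  have hstar : g s₁ - (s₁ + ss) = (g v₁ - v₁ - ss) - (g k₁ - k₁) := by
    rw [h1, map_add]
    abel
  have hstarU : g s₁ - (s₁ + ss) ∈ U := by
    rw [hstar]
    exact U.sub_mem hvs (hE k₁ hk₁)
  have hgπs : πs.map (g : V →ₗ[F] V) = πs := by
    by_contra hne
    have h2 := F1 hS hb (hg.pres πs hπs) hπs (hmapne πs hπsU) hπsU hne
      (Submodule.mem_map_of_mem (f := (g : V →ₗ[F] V)) hs₁) (πs.add_mem hs₁ hss) hstarU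
    have h3 : s₁ = 0 := by
      have h4 : g s₁ = 0 := h2.1
      exact (LinearEquiv.map_eq_zero_iff g).mp h4
    have h4 := h2.2
    rw [h3, zero_add] at h4
    exact hss0 h4
  have hgss : g ss - ss = 0 := by
    apply K_inter hS hb hπs hπsU
    · apply πs.sub_mem _ hss
      rw [← hgπs]
      exact Submodule.mem_map_of_mem (f := (g : V →ₗ[F] V)) hss
    · have h2 : g ss - ss = (g (g v₁ - v₁) - (g v₁ - v₁)) -
          (g (g v₁ - v₁ - ss) - (g v₁ - v₁ - ss)) := by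
        rw [map_sub g (g v₁ - v₁) ss]
        abel
      rw [h2]
      exact K.sub_mem hv1 (hUK (hE _ (hUK hvs)))
  -- (b)
  have hgπ : ∀ π ∈ M, π ≠ U → π.map (g : V →ₗ[F] V) = π := by
    intro π hπ hπU
    obtain ⟨s, hs, k', hk', h2⟩ := decomp hS hb hπ hπU ss
    have hs0 : s ≠ 0 := by
      intro h
      rw [h, zero_add] at h2
      apply hss0
      apply K_inter hS hb hπs hπsU hss
      rw [h2]
      exact hk'
    have h3 : g s - s = -(g k' - k') := by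
      have h4 : g ss - ss = (g s - s) + (g k' - k') := by
        rw [h2, map_add]
        abel
      rw [hgss] at h4
      exact eq_neg_of_add_eq_zero_left h4.symm
    have h4 : g s - s ∈ U := by
      rw [h3]
      exact U.neg_mem (hE k' hk')
    by_contra hne
    have h5 := F1 hS hb (hg.pres π hπ) hπ (hmapne π hπU) hπU hne
      (Submodule.mem_map_of_mem (f := (g : V →ₗ[F] V)) hs) hs h4
    exact hs0 h5.2
  -- (c)
  have hc : ∀ π ∈ M, π ≠ U → ∃ s₁ ∈ π, ∃ k₁ ∈ K, ∃ s₀ ∈ π, ∃ k₀ ∈ K, v₁ = s₁ + k₁ ∧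
      g v₁ - v₁ = s₀ + k₀ ∧ g s₁ - s₁ = s₀ := by
    intro π hπ hπU
    obtain ⟨s₁, hs₁, k₁, hk₁, h1⟩ := decomp hS hb hπ hπU v₁
    obtain ⟨s₀, hs₀, k₀, hk₀, h0⟩ := decomp hS hb hπ hπU (g v₁ - v₁)
    refine ⟨s₁, hs₁, k₁, hk₁, s₀, hs₀, k₀, hk₀, h1, h0, ?_⟩
    have h2 : g s₁ - s₁ - s₀ = k₀ - (g k₁ - k₁) := by
      have h3 : g s₁ - s₁ + (g k₁ - k₁) = s₀ + k₀ := by
        rw [← h0, h1, map_add]
        abel
      have h4 : g s₁ - s₁ = s₀ + k₀ - (g k₁ - k₁) := by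
        rw [← h3]
        abel
      rw [h4]
      abel
    apply sub_eq_zero.mp
    apply K_inter hS hb hπ hπU
    · apply π.sub_mem (π.sub_mem _ hs₁) hs₀
      have h3 : g s₁ ∈ π.map (g : V →ₗ[F] V) :=
        Submodule.mem_map_of_mem (f := (g : V →ₗ[F] V)) hs₁
      rw [hgπ π hπ hπU] at h3
      exact h3
    · rw [h2]
      exact K.sub_mem hk₀ (hUK (hE k₁ hk₁))
  obtain ⟨π, hπ, π', hπ', hπU, hπU', hne⟩ := two_members hS hb
  obtain ⟨s₁, hs₁, k₁, hk₁, s₀, hs₀, k₀, hk₀, h1, h0, h2⟩ := hc π hπ hπU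
  obtain ⟨s₁', hs₁', k₁', hk₁', s₀', hs₀', k₀', hk₀', h1', h0', h2'⟩ := hc π' hπ' hπU'
  have hK : s₁ - s₁' ∈ K := by
    have h3 : s₁ - s₁' = k₁' - k₁ := by
      rw [sub_eq_sub_iff_add_eq_add, ← h1, h1']
      abel
    rw [h3]
    exact K.sub_mem hk₁' hk₁
  have hU : s₀ - s₀' ∈ U := by
    have h3 : s₀ - s₀' = g (s₁ - s₁') - (s₁ - s₁') := by
      rw [← h2, ← h2', map_sub]
      abel
    rw [h3]
    exact hE _ hK
  have h3 := F1 hS hb hπ hπ' hπU hπU' hne hs₀ hs₀' hU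
  apply hv0
  rw [h0, h3.1, zero_add]
  exact hk₀

end Pool.Agent.LibBT65
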