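import Pool.Agent.LibBT65.A3

set_option autoImplicit false

/-!
Row A4. Lemmas L2 - L5 for an isometry `g` of `p`-power order, preserving `M`, fixing `U`, trivial on
`K` modulo `U` (so trivial on `V` modulo `K` by L1).

L2. `g u = u` on `U`: `B (g u - u) v = B u (g⁻¹ v - v) = 0` since `g⁻¹ v - v ∈ K` (if
`w = g⁻¹ v` then `g⁻¹ v - v = -(g w - w) ∈ K`), then `nondeg`.
L3. If `g π = π` for a member `π ≠ U` then `g = 1`: `g s - s ∈ K ∩ π = 0` on `π`; for `x ∈ K`,
`g x - x ∈ U` and for `s ∈ π`: `B (g x - x) s = B (g x) (g s) - B x s = 0`, so `g x = x` by `opp`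
(with the two members in the right order); `V = π + K`.
L4. `g ≠ 1`, `p ≠ 2`, `s ∉ K`: `g (g s) - 2 g s + s ≠ 0`. For `s = s' + x`, `s' ∈ π`, `x ∈ K` (any
member `π ≠ U`): `(g - 1)^2 x = 0` (L2), so `(g-1)^2 s = (g-1)^2 s'`. The members `π`, `g π`,
`g (g π)` are distinct: by L3 for `g` (and apply `g`), and for `g^2`, which is not 1 since the
order of `g` is odd (a power of `p`). If `g (g s') - 2 g s' + s' = 0` then `ind` gives `s' = 0`,
so `s ∈ K`.
L4'. `g ≠ 1`, `s ∉ K`: `g s - s ∉ U` (else `g (g s - s) = g s - s` by L2, contradiction to L4).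
L5. `B ((g-1)^2 s) v = - B ((g-1) s) ((g-1) v)`: with `d = g s - s ∈ K`,
`B (g d) v - B d v = B (g d) v - B (g d) (g v) = - B (g d) (g v - v)`, and
`B (g d - d) (g v - v) = 0` (`g d - d ∈ U`, `g v - v ∈ K`).
L5'. So if `B (g s - s) (g v - v) = 0` for all `v` then `s ∈ K` (when `g ≠ 1`).
-/

namespace Pool.Agent.LibBT65

open Module

variable {F V : Type*} [Field F] [Fintype F] [AddCommGroup V] [Module F V]
  {B : V →ₗ[F] V →ₗ[F] F} {M : Finset (Submodule F V)} {U K : Submodule F V}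

private theorem a4_BUK (hS : Sys B M) (hb : Base B M U K) {u x : V} (hu : u ∈ U) (hx : x ∈ K) :
    B u x = 0 := by
  rw [hS.symm]
  exact (hb.perp x).1 hx u hu

theorem L2 (hS : Sys B M) (hb : Base B M U K) (p : ℕ) [Fact p.Prime] [CharP F p]
    {g : V ≃ₗ[F] V} (hg : Aut B M U g) {k : ℕ} (hgk : g ^ (p ^ k) = 1)
    (hE : ∀ x ∈ K, g x - x ∈ U) {u : V} (hu : u ∈ U) : g u = u := by
  have h : ∀ v, B (g u - u) v = 0 := by
    intro v
    obtain ⟨w, rfl⟩ := g.surjective v
    have h1 := L1 hS hb p hg hgk hE w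
    have h2 := a4_BUK hS hb hu h1
    rw [map_sub, LinearMap.sub_apply, hg.iso, ← neg_eq_zero, neg_sub, ← map_sub]
    exact h2
  exact sub_eq_zero.1 (hS.nondeg _ h)

theorem L3 (hS : Sys B M) (hb : Base B M U K) (p : ℕ) [Fact p.Prime] [CharP F p]
    {g : V ≃ₗ[F] V} (hg : Aut B M U g) {k : ℕ} (hgk : g ^ (p ^ k) = 1)
    (hE : ∀ x ∈ K, g x - x ∈ U) {π : Submodule F V} (hπ : π ∈ M) (hne : π ≠ U)
    (hfix : π.map (g : V →ₗ[F] V) = π) : g = 1 := by
  have h1 : ∀ s ∈ π, g s = s := by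
    intro s hs
    have h2 : g s ∈ π := by
      rw [← hfix]
      exact Submodule.mem_map_of_mem hs
    exact sub_eq_zero.1 (K_inter hS hb hπ hne (π.sub_mem h2 hs) (L1 hS hb p hg hgk hE s))
  have h2 : ∀ x ∈ K, g x = x := by
    intro x hx
    refine sub_eq_zero.1 (hS.opp π hπ U hb.mem hne _ (hE x hx) ?_)
    intro s hs
    have h3 := hg.iso x s
    rw [h1 s hs] at h3
    rw [map_sub, LinearMap.sub_apply, h3, sub_self]
  apply LinearEquiv.ext
  intro v
  obtain ⟨s, hs, x, hx, rfl⟩ := decomp hS hb hπ hne v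
  rw [map_add, h1 s hs, h2 x hx]
  rfl

private theorem a4_mul {g h : V ≃ₗ[F] V} (hg : Aut B M U g) (hh : Aut B M U h) :
    Aut B M U (g * h) := by
  refine ⟨fun v w => ?_, fun π hπ => ?_, ?_⟩
  · show B (g (h v)) (g (h w)) = B v w
    rw [hg.iso, hh.iso]
  · have h1 := hg.pres _ (hh.pres π hπ)
    rw [← Submodule.map_comp] at h1
    exact h1
  · have h1 : (U.map (h : V →ₗ[F] V)).map (g : V →ₗ[F] V) = U := by
      rw [hh.fix, hg.fix]
    rw [← Submodule.map_comp] at h1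
    exact h1

private theorem a4_odd (hS : Sys B M) (p : ℕ) [hp : Fact p.Prime] [CharP F p]
    {g : V ≃ₗ[F] V} {k : ℕ} (hgk : g ^ (p ^ k) = 1) (h2 : g * g = 1) : g = 1 := by
  have hp2 : p ≠ 2 := by
    rintro rfl
    have h3 := CharP.cast_eq_zero F 2
    exact hS.two (by exact_mod_cast h3)
  have hodd : Odd p := hp.out.odd_of_ne_two hp2
  obtain ⟨j, hj⟩ := hodd.pow (n := k)
  rw [hj, pow_succ, pow_mul, sq, h2, one_pow, one_mul] at hgk
  exact hgk

theorem L4 (hS : Sys B M) (hb : Base B M U K) (p : ℕ) [Fact p.Prime] [CharP F p]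
    {g : V ≃ₗ[F] V} (hg : Aut B M U g) {k : ℕ} (hgk : g ^ (p ^ k) = 1)
    (hE : ∀ x ∈ K, g x - x ∈ U) (hne : g ≠ 1) {s : V} (hs : s ∉ K) :
    g (g s) - (2 : F) • g s + s ≠ 0 := by
  intro h0
  obtain ⟨π, hπ, -, -, hπU, -, -⟩ := two_members hS hb
  obtain ⟨s', hs', x, hx, rfl⟩ := decomp hS hb hπ hπU s
  have hx2 : g (g x) - (2 : F) • g x + x = 0 := by
    have h1 := L2 hS hb p hg hgk hE (hE x hx)
    rw [map_sub] at h1
    have h2 : g (g x) = g x - x + g x := by rw [← h1]; abel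
    rw [h2, two_smul]
    abel
  have h1 : g (g s') + (-((2 : F) • g s')) + s' = 0 := by
    have h2 : g (g (s' + x)) - (2 : F) • g (s' + x) + (s' + x) =
        (g (g s') + (-((2 : F) • g s')) + s') + (g (g x) - (2 : F) • g x + x) := by
      simp only [map_add, smul_add]
      abel
    rw [h2, hx2, add_zero] at h0
    exact h0
  have d1 : π.map (g : V →ₗ[F] V) ≠ π := fun h => hne (L3 hS hb p hg hgk hE hπ hπU h)
  have hinj : Function.Injective (Submodule.map (g : V →ₗ[F] V)) :=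
    Submodule.map_injective_of_injective g.injective
  have d2 : (π.map (g : V →ₗ[F] V)).map (g : V →ₗ[F] V) ≠ π.map (g : V →ₗ[F] V) :=
    fun h => d1 (hinj h)
  have d3 : (π.map (g : V →ₗ[F] V)).map (g : V →ₗ[F] V) ≠ π := by
    intro h
    have hKg := K_map hS hb hg
    have h3 : g * g = 1 := by
      refine L3 hS hb p (a4_mul hg hg) (k := k) ?_ ?_ hπ hπU ?_
      · have : (g * g) ^ (p ^ k) = (g ^ (p ^ k)) * (g ^ (p ^ k)) := by
          rw [← pow_two, ← pow_mul, mul_comm 2, pow_mul, pow_two]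
        rw [this, hgk, one_mul]
      · intro y hy
        have hgy : g y ∈ K := by
          rw [← hKg]
          exact Submodule.mem_map_of_mem hy
        have h4 := U.add_mem (hE (g y) hgy) (hE y hy)
        have h5 : g (g y) - g y + (g y - y) = (g * g) y - y := by
          show g (g y) - g y + (g y - y) = g (g y) - y
          abel
        rw [h5] at h4
        exact h4
      · rw [← Submodule.map_comp] at h
        exact h
    exact hne (a4_odd hS p hgk h3)
  have h2 := hS.ind _ (hg.pres _ (hg.pres π hπ)) _ (hg.pres π hπ) π hπ d2 d3 d1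
    (g (g s')) (Submodule.mem_map_of_mem (Submodule.mem_map_of_mem hs'))
    (-((2 : F) • g s')) (Submodule.neg_mem _ (Submodule.smul_mem _ _
      (Submodule.mem_map_of_mem hs'))) s' hs' h1
  apply hs
  rw [h2.2.2, zero_add]
  exact hx

theorem L4' (hS : Sys B M) (hb : Base B M U K) (p : ℕ) [Fact p.Prime] [CharP F p]
    {g : V ≃ₗ[F] V} (hg : Aut B M U g) {k : ℕ} (hgk : g ^ (p ^ k) = 1)
    (hE : ∀ x ∈ K, g x - x ∈ U) (hne : g ≠ 1) {s : V} (hs : s ∉ K) : g s - s ∉ U := by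
  intro h
  have h1 := L2 hS hb p hg hgk hE h
  apply L4 hS hb p hg hgk hE hne hs
  rw [map_sub] at h1
  have h2 : g (g s) = g s - s + g s := by rw [← h1]; abel
  rw [h2, two_smul]
  abel

theorem L5' (hS : Sys B M) (hb : Base B M U K) (p : ℕ) [Fact p.Prime] [CharP F p]
    {g : V ≃ₗ[F] V} (hg : Aut B M U g) {k : ℕ} (hgk : g ^ (p ^ k) = 1)
    (hE : ∀ x ∈ K, g x - x ∈ U) (hne : g ≠ 1) {s : V}
    (hs : ∀ v, B (g s - s) (g v - v) = 0) : s ∈ K := by
  by_contra hsK
  apply L4 hS hb p hg hgk hE hne hsK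
  have hd := L1 hS hb p hg hgk hE s
  have hdU := hE _ hd
  have h1 : g (g s) - (2 : F) • g s + s = g (g s - s) - (g s - s) := by
    rw [map_sub, two_smul]
    abel
  rw [h1]
  apply hS.nondeg
  intro v
  have h2 : B (g (g s - s) - (g s - s)) (g v - v) = 0 :=
    a4_BUK hS hb hdU (L1 hS hb p hg hgk hE v)
  have h3 := hs v
  have h4 := hg.iso (g s - s) v
  have e1 : B (g (g s - s) - (g s - s)) (g v) =
      B (g (g s - s)) (g v) - B (g s - s) (g v) := by
    rw [B.map_sub, LinearMap.sub_apply]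
  have e2 : B (g (g s - s) - (g s - s)) (g v - v) =
      B (g (g s - s) - (g s - s)) (g v) - B (g (g s - s) - (g s - s)) v :=
    (B (g (g s - s) - (g s - s))).map_sub _ _
  have e3 : B (g s - s) (g v - v) = B (g s - s) (g v) - B (g s - s) v :=
    (B (g s - s)).map_sub _ _
  linear_combination e1 - h2 + e2 + h4 - h3 + e3

end Pool.Agent.LibBT65
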