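import Pool.Agent.LibBT65.A1

set_option autoImplicit false

/-!
Row A5. Isotropic vectors.

`isotropic` (`isotropic` is pure linear algebra): restrict `β` to `X` of dimension `≥ 3`; take an
orthogonal basis (`LinearMap.BilinForm.exists_orthogonal_basis`, `2` invertible); if some diagonal
value is 0 that basis vector is isotropic; otherwise `a x^2 + b y^2 + c = 0` has a solution
(`FiniteField.exists_root_sum_quadratic`), `x e₁ + y e₂ + e₃ ≠ 0` is isotropic.
`exists_n`: `K` has dimension 7, `U` has dimension 3; apply `isotropic` to a complement `W` of `U` in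
`K` (for example the image in `V` of a complement of the submodule `U` inside `K`,
`Submodule.exists_isCompl`, or a complement `W'` of `U` in `V` and `W = W' ⊓ K`), `W ≤ K`,
`W ⊓ U = ⊥`, dimension 4.
-/

namespace Pool.Agent.LibBT65

open Module

theorem isotropic {F X : Type*} [Field F] [Fintype F] [AddCommGroup X] [Module F X]
    [FiniteDimensional F X] (two : (2 : F) ≠ 0) (β : X →ₗ[F] X →ₗ[F] F)
    (hsymm : ∀ x y, β x y = β y x) (hd : 3 ≤ finrank F X) : ∃ x, x ≠ 0 ∧ β x x = 0 := by
  classical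
  have : Invertible (2 : F) := invertibleOfNonzero two
  obtain ⟨v, hv⟩ := LinearMap.BilinForm.exists_orthogonal_basis (B := β) ⟨fun x y => by
    simpa using hsymm x y⟩
  have ho : ∀ i j, i ≠ j → β (v i) (v j) = 0 := fun i j hij => hv hij
  set e1 := v ⟨0, by omega⟩ with he1
  set e2 := v ⟨1, by omega⟩ with he2
  set e3 := v ⟨2, by omega⟩ with he3
  have h12 : β e1 e2 = 0 := ho _ _ (by simp)
  have h13 : β e1 e3 = 0 := ho _ _ (by simp)
  have h21 : β e2 e1 = 0 := ho _ _ (by simp)
  have h23 : β e2 e3 = 0 := ho _ _ (by simp)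
  have h31 : β e3 e1 = 0 := ho _ _ (by simp)
  have h32 : β e3 e2 = 0 := ho _ _ (by simp)
  by_cases ha : β e1 e1 = 0
  · exact ⟨e1, v.ne_zero _, ha⟩
  by_cases hb : β e2 e2 = 0
  · exact ⟨e2, v.ne_zero _, hb⟩
  by_cases hc : β e3 e3 = 0
  · exact ⟨e3, v.ne_zero _, hc⟩
  have hchar : ringChar F ≠ 2 := by
    intro h
    have h1 := ringChar.Nat.cast_ringChar (R := F)
    rw [h] at h1
    exact two (by exact_mod_cast h1)
  have hodd := FiniteField.odd_card_of_char_ne_two hchar
  have hf2 : (Polynomial.C (β e1 e1) * Polynomial.X ^ 2 : Polynomial F).degree = 2 :=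
    Polynomial.degree_C_mul_X_pow 2 ha
  have hg2 : (Polynomial.C (β e2 e2) * Polynomial.X ^ 2 + Polynomial.C (β e3 e3) :
      Polynomial F).degree = 2 := by
    rw [Polynomial.degree_add_eq_left_of_degree_lt]
    · exact Polynomial.degree_C_mul_X_pow 2 hb
    · rw [Polynomial.degree_C_mul_X_pow 2 hb]
      exact lt_of_le_of_lt Polynomial.degree_C_le (by norm_num)
  obtain ⟨x, y, hxy⟩ := FiniteField.exists_root_sum_quadratic hf2 hg2 hodd
  simp only [Polynomial.eval_add, Polynomial.eval_mul, Polynomial.eval_C, Polynomial.eval_pow,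
    Polynomial.eval_X] at hxy
  refine ⟨x • e1 + y • e2 + e3, ?_, ?_⟩
  · intro h0
    have h1 : β (x • e1 + y • e2 + e3) e3 = 0 := by rw [h0, map_zero, LinearMap.zero_apply]
    simp only [map_add, map_smul, LinearMap.add_apply, LinearMap.smul_apply, smul_eq_mul, h13,
      h23, mul_zero, zero_add] at h1
    exact hc h1
  · simp only [map_add, map_smul, LinearMap.add_apply, LinearMap.smul_apply, smul_eq_mul, h12,
      h13, h21, h23, h31, h32, mul_zero, add_zero, zero_add]
    linear_combination hxy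

variable {F V : Type*} [Field F] [Fintype F] [AddCommGroup V] [Module F V]
  {B : V →ₗ[F] V →ₗ[F] F} {M : Finset (Submodule F V)} {U K : Submodule F V}

theorem exists_n (hS : Sys B M) (hb : Base B M U K) : ∃ n ∈ K, n ∉ U ∧ B n n = 0 := by
  have : FiniteDimensional F V := by
    apply FiniteDimensional.of_finrank_pos
    rw [hS.dimV]
    norm_num
  have hUK := U_le_K hS hb
  obtain ⟨W, hW⟩ := Submodule.exists_isCompl (U.comap K.subtype)
  have h1 := Submodule.finrank_add_eq_of_isCompl hW
  have h2 : finrank F (U.comap K.subtype) = 3 := by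
    rw [(Submodule.comapSubtypeEquivOfLe hUK).finrank_eq, hS.dim U hb.mem]
  rw [h2, K_dim hS hb] at h1
  obtain ⟨x, hx0, hx⟩ := isotropic hS.two
    (B.compl₁₂ (K.subtype ∘ₗ W.subtype) (K.subtype ∘ₗ W.subtype))
    (fun a b => hS.symm _ _) (by omega)
  refine ⟨((x : K) : V), (x : K).2, fun hU => hx0 ?_, hx⟩
  have h3 : (x : K) ∈ U.comap K.subtype ⊓ W := ⟨hU, x.2⟩
  rw [hW.inf_eq_bot] at h3
  exact Subtype.ext ((Submodule.mem_bot F).1 h3)

end Pool.Agent.LibBT65
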