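import Mathlib

set_option autoImplicit false

/-!
Row A6 (ONLY MATHLIB). Pure linear algebra over a finite field of characteristic `p`.

`exists_fixed`: a finite `p`-group acting linearly on a nonzero space `X` over `F` has a nonzero fixed
vector: `IsPGroup.exists_fixed_point_of_prime_dvd_card_of_fixed_point` (the cardinal of `X` is a
positive power of `p`, `0` is fixed).
`card_le_gl`: a `p`-subgroup of `GL_3` has at most `q^3` elements: the cardinal is a power of `p`
(`IsPGroup.iff_card`) dividing `∏ i < 3, (q^3 - q^i) = q^3 (q^3-1)(q^2-1)(q-1)` (`Matrix.card_GL_field`,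
after the choice of a basis; or do everything with `X = Fin 3 → F`), prime to the last factors.
-/

namespace Pool.Agent.LibBT65

open Module

theorem exists_fixed {F X G : Type*} [Field F] [Fintype F] [AddCommGroup X] [Module F X]
    [FiniteDimensional F X] [Nontrivial X] (p : ℕ) [Fact p.Prime] [CharP F p] [Group G]
    (hG : IsPGroup p G) (h : G →* (X ≃ₗ[F] X)) : ∃ x : X, x ≠ 0 ∧ ∀ g, h g x = x := by
  have hfin : Finite X := Module.finite_of_finite F
  letI act : MulAction G X := MulAction.compHom X h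
  have hsmul : ∀ (g : G) (x : X), g • x = h g x := fun g x => rfl
  obtain ⟨n, hp, hn⟩ := FiniteField.card F p
  have hcard : p ∣ Nat.card X := by
    rw [Module.natCard_eq_pow_finrank (K := F) (V := X), Nat.card_eq_fintype_card, hn]
    have h1 : 0 < finrank F X := Module.finrank_pos
    exact dvd_pow (dvd_pow_self p n.ne_zero) h1.ne'
  have h0 : (0 : X) ∈ MulAction.fixedPoints G X := by
    intro g
    rw [hsmul, map_zero]
  obtain ⟨x, hx, hne⟩ := hG.exists_fixed_point_of_prime_dvd_card_of_fixed_point X hcard h0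
  exact ⟨x, hne.symm, fun g => by rw [← hsmul]; exact hx g⟩

theorem card_le_gl {F X : Type*} [Field F] [Fintype F] [AddCommGroup X] [Module F X]
    [FiniteDimensional F X] (p : ℕ) [Fact p.Prime] [CharP F p] (hd : finrank F X = 3)
    (P : Subgroup (X ≃ₗ[F] X)) (hP : IsPGroup p P) : Nat.card P ≤ Fintype.card F ^ 3 := by
  classical
  have hfr : finrank F X = finrank F (Fin 3 → F) := by
    rw [hd, Module.finrank_fintype_fun_eq_card, Fintype.card_fin]
  let e : X ≃ₗ[F] (Fin 3 → F) := LinearEquiv.ofFinrankEq _ _ hfr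
  have hcard : Nat.card (X ≃ₗ[F] X) =
      ∏ i : Fin 3, (Fintype.card F ^ 3 - Fintype.card F ^ (i : ℕ)) := by
    rw [← Matrix.card_GL_field 3]
    exact Nat.card_congr (((LinearMap.GeneralLinearGroup.generalLinearEquiv F X).symm.trans
      ((LinearMap.GeneralLinearGroup.congrLinearEquiv e).trans
        (Matrix.GeneralLinearGroup.toLin (n := Fin 3) (R := F)).symm)).toEquiv)
  obtain ⟨m, hp, hm⟩ := FiniteField.card F p
  set q := Fintype.card F with hq
  have hq1 : 1 < q := Fintype.one_lt_card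
  have hpq : p ∣ q := by rw [hm]; exact dvd_pow_self p m.ne_zero
  have hfinG : Finite (X ≃ₗ[F] X) := by
    apply Nat.finite_of_card_ne_zero
    rw [hcard]
    refine Finset.prod_ne_zero_iff.mpr (fun i _ => ?_)
    have h1 : q ^ (i : ℕ) < q ^ 3 := Nat.pow_lt_pow_right hq1 i.isLt
    omega
  have hfinP : Finite P := inferInstance
  obtain ⟨n, hn⟩ := (IsPGroup.iff_card).mp hP
  have hdvd : Nat.card P ∣ Nat.card (X ≃ₗ[F] X) := Subgroup.card_subgroup_dvd_card P
  have hprod : Nat.card (X ≃ₗ[F] X) = q ^ 3 * ((q ^ 3 - 1) * ((q ^ 2 - 1) * (q - 1))) := by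
    rw [hcard, Fin.prod_univ_three]
    obtain ⟨r, hr⟩ : ∃ r, q = r + 1 := ⟨q - 1, by omega⟩
    have e1 : q ^ 3 - q ^ ((1 : Fin 3) : ℕ) = q * (q ^ 2 - 1) := by
      rw [Nat.mul_sub, mul_one]
      change q ^ 3 - q ^ 1 = _
      rw [pow_one]
      congr 1
      ring
    have e2 : q ^ 3 - q ^ ((2 : Fin 3) : ℕ) = q ^ 2 * (q - 1) := by
      rw [Nat.mul_sub, mul_one]
      change q ^ 3 - q ^ 2 = _
      congr 1
    have e0 : q ^ 3 - q ^ ((0 : Fin 3) : ℕ) = q ^ 3 - 1 := by
      change q ^ 3 - q ^ 0 = _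
      rw [pow_zero]
    rw [e0, e1, e2]
    ring
  have hcop : ∀ k, 1 ≤ k → Nat.Coprime p (q ^ k - 1) := by
    intro k hk
    rw [Nat.Prime.coprime_iff_not_dvd hp]
    intro hdv
    have h1 : p ∣ q ^ k := dvd_pow hpq (by omega)
    have h2 : 1 ≤ q ^ k := Nat.one_le_pow _ _ (by omega)
    have h3 : p ∣ q ^ k - (q ^ k - 1) := Nat.dvd_sub h1 hdv
    have h4 : q ^ k - (q ^ k - 1) = 1 := by omega
    rw [h4] at h3
    exact hp.one_lt.ne' (Nat.dvd_one.mp h3)
  rw [hn, hprod] at hdvd
  have c3 : Nat.Coprime (p ^ n) ((q ^ 3 - 1) * ((q ^ 2 - 1) * (q - 1))) := by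
    apply Nat.Coprime.pow_left
    have hc1 := hcop 1 le_rfl
    rw [pow_one] at hc1
    exact Nat.Coprime.mul_right (hcop 3 (by norm_num))
      (Nat.Coprime.mul_right (hcop 2 (by norm_num)) hc1)
  have hd3 : p ^ n ∣ q ^ 3 := c3.dvd_of_dvd_mul_right hdvd
  rw [hn]
  exact Nat.le_of_dvd (by positivity) hd3

end Pool.Agent.LibBT65
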