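import Pool.Agent.LibBT65.A6

set_option autoImplicit false

/-!
Row A9 (pure linear algebra over a finite field). Lemma A of the paper.

Fixed vector `n ≠ 0` of `P` in `W`; `N = {v | β n v = 0}` has dimension 3 and is preserved
(`β n (g v) = β (g n) (g v) = β n v`); restriction to `N` is injective on `P`: if `g = 1` on `N`, then
for `v ∈ W`, `β (g v - v) w = β v (g⁻¹ w - w) = 0` for `w ∈ N`, so `g v - v ∈ N^⊥ = ⟨n⟩`,
`g v = v + a n`; `β (g v) (g n) = β v n` gives `a β n n = 0`, `β (g v) (g v) = β v v` gives
`2 a β n v = 0`; if `a ≠ 0` then `β n v = 0`, so `v ∈ N`, so `g v = v`, contradiction. So `g = 1`.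
Then `card_le_gl` for the group of the restrictions (`IsPGroup.map`).
-/

namespace Pool.Agent.LibBT65

open Module

theorem A9 {F W : Type*} [Field F] [Fintype F] [AddCommGroup W] [Module F W]
    [FiniteDimensional F W] (p : ℕ) [Fact p.Prime] [CharP F p] (two : (2 : F) ≠ 0)
    (β : W →ₗ[F] W →ₗ[F] F) (hsymm : ∀ x y, β x y = β y x)
    (hnd : ∀ x, (∀ y, β x y = 0) → x = 0) (hd : finrank F W = 4)
    (P : Subgroup (W ≃ₗ[F] W)) (hP : IsPGroup p P)
    (hiso : ∀ g ∈ P, ∀ x y, β (g x) (g y) = β x y) :
    Nat.card P ≤ Fintype.card F ^ 3 := by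
  classical
  have hnt : Nontrivial W := Module.nontrivial_of_finrank_pos (R := F) (by rw [hd]; norm_num)
  obtain ⟨n, hn0, hfix⟩ := exists_fixed (F := F) (X := W) p hP P.subtype
  have hfix' : ∀ g ∈ P, g n = n := fun g hg => hfix ⟨g, hg⟩
  have hβn : β n ≠ 0 := by
    intro h
    exact hn0 (hnd n fun y => by rw [h, LinearMap.zero_apply])
  obtain ⟨v0, hv0⟩ : ∃ v0, β n v0 ≠ 0 := by
    by_contra h
    push Not at h
    exact hn0 (hnd n h)
  have hN : finrank F (LinearMap.ker (β n)) = 3 := by
    have := Module.Dual.finrank_ker_add_one_of_ne_zero (f := β n) hβn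
    omega
  have hmem : ∀ w, w ∈ LinearMap.ker (β n) ↔ β n w = 0 := fun w => LinearMap.mem_ker
  have hpres : ∀ g ∈ P, ∀ w ∈ LinearMap.ker (β n), (g : W →ₗ[F] W) w ∈ LinearMap.ker (β n) := by
    intro g hg w hw
    rw [hmem] at hw ⊢
    have h := hiso g hg n w
    rw [hfix' g hg, hw] at h
    exact h
  have key : ∀ g ∈ P, (∀ w, β n w = 0 → g w = w) → ∀ v, g v = v := by
    intro g hg h1 v
    have h2 : ∀ w, β n w = 0 → β (g v - v) w = 0 := by
      intro w hw
      have h := hiso g hg v w
      rw [h1 w hw] at h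
      rw [map_sub, LinearMap.sub_apply, h, sub_self]
    obtain ⟨a, ha⟩ : ∃ a : F, a = β (g v - v) v0 / β n v0 := ⟨_, rfl⟩
    have h3 : g v - v - a • n = 0 := by
      refine hnd _ fun w => ?_
      have h4 : β n (w - (β n w / β n v0) • v0) = 0 := by
        rw [map_sub, map_smul, smul_eq_mul, div_mul_cancel₀ _ hv0, sub_self]
      have h5 := h2 _ h4
      rw [map_sub (β (g v - v)), map_smul (β (g v - v)), smul_eq_mul, sub_eq_zero] at h5
      rw [map_sub β, map_smul β, LinearMap.sub_apply, LinearMap.smul_apply, smul_eq_mul, h5, ha]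
      field_simp
      ring
    have h6 : g v = v + a • n := by
      rw [sub_sub, sub_eq_zero] at h3
      exact h3
    have h7 : a * β n n = 0 := by
      have h := hiso g hg v n
      rw [hfix' g hg, h6, map_add, map_smul, LinearMap.add_apply, LinearMap.smul_apply,
        smul_eq_mul] at h
      exact add_eq_left.mp h
    have h8 : a * β n v = 0 := by
      have h := hiso g hg v v
      rw [h6] at h
      simp only [map_add, map_smul, LinearMap.add_apply, LinearMap.smul_apply, smul_eq_mul] at h
      rw [hsymm v n] at h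
      have h9 : (2 : F) * (a * β n v) = 0 := by linear_combination h - a * h7
      exact (mul_eq_zero.mp h9).resolve_left two
    rcases mul_eq_zero.mp h8 with h9 | h9
    · rw [h6, h9, zero_smul, add_zero]
    · exact h1 v h9
  let r : P →* (LinearMap.ker (β n) ≃ₗ[F] LinearMap.ker (β n)) :=
    { toFun := fun g => LinearEquiv.ofLinearMap
        (((g : W ≃ₗ[F] W) : W →ₗ[F] W).restrict (hpres g g.2))
        ((((g⁻¹ : P) : W ≃ₗ[F] W) : W →ₗ[F] W).restrict (hpres (g⁻¹ : P) (g⁻¹ : P).2))
        (by
          ext w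
          exact (g : W ≃ₗ[F] W).apply_symm_apply w)
        (by
          ext w
          exact (g : W ≃ₗ[F] W).symm_apply_apply w)
      map_one' := by
        ext w
        rfl
      map_mul' := by
        intro g h
        ext w
        rfl }
  have hr : ∀ (g : P) (w : LinearMap.ker (β n)), ((r g w : LinearMap.ker (β n)) : W) =
      (g : W ≃ₗ[F] W) w := fun g w => rfl
  have hinj : Function.Injective r := by
    rw [injective_iff_map_eq_one]
    intro g hg
    have h1 : ∀ w, β n w = 0 → (g : W ≃ₗ[F] W) w = w := by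
      intro w hw
      have h2 := hr g ⟨w, (hmem w).mpr hw⟩
      rw [hg] at h2
      exact h2.symm
    apply Subtype.ext
    ext v
    exact key g g.2 h1 v
  have hcard : Nat.card P = Nat.card r.range := Nat.card_congr (MonoidHom.ofInjective hinj).toEquiv
  rw [hcard]
  exact card_le_gl p hN r.range (hP.of_surjective r.rangeRestrict r.rangeRestrict_surjective)

end Pool.Agent.LibBT65
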