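import Pool.Agent.LibBT65.A1
import Pool.Agent.LibBT65.A9

set_option autoImplicit false

/-!
Row A7. If `EE U K P` is trivial then `|P| ≤ q^3`.

`W = K ⧸ U'`, `U' = U.comap K.subtype` (or `U.submoduleOf K`), has dimension `7 - 3 = 4`; the form `B`
descends to `W` (`U` is orthogonal to `K`), nondegenerate by `K_perp`. Every `g ∈ P` preserves `U`,
so also `K` (`K_map`), so acts on `W` by an
isometry; this gives a homomorphism `P →* (W ≃ₗ[F] W)` (`MonoidHom.mk'` or by the values on
representatives; `Submodule.Quotient.equiv`, `Submodule.mapQ`) with kernel `EE U K P` (as a subgroup of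
`P`), so injective. Apply `A9` to its range (`IsPGroup.map`, `IsPGroup.of_surjective`).
Another way without quotients: choose a complement `W` of `U` in `K`, the projection
`pr : K → W` along `U`, and the action `w ↦ pr (g w)`.
-/

namespace Pool.Agent.LibBT65

open Module

variable {F V : Type*} [Field F] [Fintype F] [AddCommGroup V] [Module F V]
  {B : V →ₗ[F] V →ₗ[F] F} {M : Finset (Submodule F V)} {U K : Submodule F V}

theorem A7 (hS : Sys B M) (hb : Base B M U K) (p : ℕ) [Fact p.Prime] [CharP F p]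
    (P : Subgroup (V ≃ₗ[F] V)) (hP : IsPGroup p P) (hA : ∀ g ∈ P, Aut B M U g)
    (hE : ∀ g ∈ EE U K P, g = 1) : Nat.card P ≤ Fintype.card F ^ 3 := by
  have hfV : FiniteDimensional F V := by
    apply FiniteDimensional.of_finrank_pos
    rw [hS.dimV]
    norm_num
  have hUK : U ≤ K := U_le_K hS hb
  set U' : Submodule F K := U.submoduleOf K with hU'
  have memU' : ∀ k : K, k ∈ U' ↔ (k : V) ∈ U := fun k => Iff.rfl
  -- the form on the quotient
  let B1 : K →ₗ[F] K →ₗ[F] F := B.compl₁₂ K.subtype K.subtype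
  have hB1 : ∀ x y : K, B1 x y = B x y := fun x y => rfl
  have h1 : U' ≤ LinearMap.ker B1 := by
    intro x hx
    rw [LinearMap.mem_ker]
    ext y
    rw [hB1, hS.symm]
    exact (hb.perp y).1 y.2 x hx
  let B2 : (K ⧸ U') →ₗ[F] K →ₗ[F] F := U'.liftQ B1 h1
  have hB2 : ∀ x y : K, B2 (Submodule.Quotient.mk x) y = B x y := fun x y => rfl
  have h3 : U' ≤ LinearMap.ker B2.flip := by
    intro y hy
    rw [LinearMap.mem_ker]
    ext x
    show B x y = 0
    exact (hb.perp x).1 x.2 y hy
  let β : (K ⧸ U') →ₗ[F] (K ⧸ U') →ₗ[F] F := U'.liftQ B2.flip h3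
  have hβ : ∀ x y : K, β (Submodule.Quotient.mk y) (Submodule.Quotient.mk x) = B x y :=
    fun x y => rfl
  have hsymm : ∀ x y, β x y = β y x := by
    intro x y
    obtain ⟨x, rfl⟩ := Submodule.Quotient.mk_surjective _ x
    obtain ⟨y, rfl⟩ := Submodule.Quotient.mk_surjective _ y
    rw [hβ, hβ, hS.symm]
  have hnd : ∀ x, (∀ y, β x y = 0) → x = 0 := by
    intro x hx
    obtain ⟨x, rfl⟩ := Submodule.Quotient.mk_surjective _ x
    rw [Submodule.Quotient.mk_eq_zero, memU']
    apply K_perp hS hb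
    intro k hk
    have h5 := hx (Submodule.Quotient.mk ⟨k, hk⟩)
    rw [hβ, hS.symm] at h5
    exact h5
  have hd : finrank F (K ⧸ U') = 4 := by
    have h6 := Submodule.finrank_quotient_add_finrank U'
    have h7 : finrank F U' = finrank F U := (Submodule.submoduleOfEquivOfLe hUK).finrank_eq
    rw [h7, hS.dim U hb.mem, K_dim hS hb] at h6
    omega
  -- the action on the quotient
  have hK : ∀ g : P, K.map ((g : V ≃ₗ[F] V) : V →ₗ[F] V) = K := fun g => K_map hS hb (hA g g.2)
  let e : P → (K ≃ₗ[F] K) := fun g => LinearEquiv.ofSubmodules (g : V ≃ₗ[F] V) K K (hK g)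
  have he : ∀ (g : P) (k : K), ((e g k : K) : V) = (g : V ≃ₗ[F] V) k := fun g k => rfl
  have heU : ∀ g : P, U'.map ((e g : K ≃ₗ[F] K) : K →ₗ[F] K) = U' := by
    intro g
    have hfix := (hA g g.2).fix
    ext k
    constructor
    · rintro ⟨u, hu, rfl⟩
      rw [memU']
      show (g : V ≃ₗ[F] V) u ∈ U
      rw [← hfix]
      exact Submodule.mem_map_of_mem hu
    · intro hk
      rw [memU', ← hfix] at hk
      obtain ⟨u, hu, hug⟩ := hk
      refine ⟨⟨u, hUK hu⟩, hu, Subtype.ext hug⟩
  let φ : P →* ((K ⧸ U') ≃ₗ[F] (K ⧸ U')) :=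
    { toFun := fun g => Submodule.Quotient.equiv U' U' (e g) (heU g)
      map_one' := by
        ext x
        obtain ⟨x, rfl⟩ := Submodule.Quotient.mk_surjective _ x
        rfl
      map_mul' := by
        intro g h
        ext x
        obtain ⟨x, rfl⟩ := Submodule.Quotient.mk_surjective _ x
        rfl }
  have hφ : ∀ (g : P) (k : K), φ g (Submodule.Quotient.mk k) = Submodule.Quotient.mk (e g k) :=
    fun g k => rfl
  have hinj : Function.Injective φ := by
    rw [injective_iff_map_eq_one]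
    intro g hg
    apply Subtype.ext
    apply hE
    refine ⟨g.2, hK g, ?_⟩
    intro k hk
    have h8 := LinearEquiv.congr_fun hg (Submodule.Quotient.mk ⟨k, hk⟩)
    rw [hφ] at h8
    have h9 : (Submodule.Quotient.mk (e g ⟨k, hk⟩) : K ⧸ U') = Submodule.Quotient.mk ⟨k, hk⟩ := h8
    rw [Submodule.Quotient.eq, memU'] at h9
    exact h9
  have hcard : Nat.card P = Nat.card φ.range :=
    Nat.card_congr (MonoidHom.ofInjective hinj).toEquiv
  rw [hcard]
  apply A9 p hS.two β hsymm hnd hd φ.range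
    (IsPGroup.of_surjective hP φ.rangeRestrict φ.rangeRestrict_surjective)
  rintro _ ⟨g, rfl⟩ x y
  obtain ⟨x, rfl⟩ := Submodule.Quotient.mk_surjective _ x
  obtain ⟨y, rfl⟩ := Submodule.Quotient.mk_surjective _ y
  rw [hφ, hφ, hβ, hβ, he, he]
  exact (hA g g.2).iso _ _

end Pool.Agent.LibBT65
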