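import Pool.Agent.LibBT65.A4
import Pool.Agent.LibBT65.A5

set_option autoImplicit false

/-!
Row A8. Lemma L6: `|EE U K P| ≤ q^3` for a `p`-group `P` of isometries preserving `M` and fixing `U`.

`n` from `exists_n`. For `g ∈ E` put `λ_g (v) = B n (g v - v)`; `λ_g` vanishes on `K`
(`g k - k ∈ U`, `n ∈ K`), additive in `g` (`(g h - 1) v = (g - 1) v + (g - 1)(h v - v) + (h - 1) v`,
with `h v - v ∈ K` by L1). If `g ≠ 1` and `λ_g = 0`: the linear map `V → V, s ↦ g s - s` maps `V` to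
`K ∩ n^⊥` (dimension 6, contains `U`); `(g s - s ∈ U → s ∈ K)` by L4'. So the induced map
`V/K → (K ∩ n^⊥)/U` is injective between spaces of dimension 3, so onto, and since `B n n = 0`, `n`
lies in the target: there is `s` with `g s - s - n ∈ U`, `s ∉ K` (if `s ∈ K` then `n ∈ U`); then
`B (g s - s) (g v - v) = λ_g v + B u (g v - v) = 0` for all `v`, contradiction to L5'. (Instead of
quotients: the subspace `{g s - s} + U` has dimension `3 + 3` and lies in `K ∩ n^⊥` of dimension 6,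
so they are equal.) So `g ↦ λ_g` is injective from `E` to the functionals on `V ⧸ K`, or to the
functionals on one member `π` (`V = π + K`), which are `q^3` many
(`Module.card_eq_pow_finrank`, `Subspace.dual_finrank_eq`).
-/

namespace Pool.Agent.LibBT65

open Module

variable {F V : Type*} [Field F] [Fintype F] [AddCommGroup V] [Module F V]
  {B : V →ₗ[F] V →ₗ[F] F} {M : Finset (Submodule F V)} {U K : Submodule F V}

private theorem a8_fin (hS : Sys B M) : FiniteDimensional F V := by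
  apply FiniteDimensional.of_finrank_pos
  rw [hS.dimV]
  norm_num

private theorem a8_pow {p : ℕ} {P : Subgroup (V ≃ₗ[F] V)} (hP : IsPGroup p P)
    {g : V ≃ₗ[F] V} (hg : g ∈ P) : ∃ k : ℕ, g ^ (p ^ k) = 1 := by
  obtain ⟨k, hk⟩ := hP ⟨g, hg⟩
  exact ⟨k, by simpa using congrArg Subtype.val hk⟩

/-- the key step: a nontrivial element has a nonzero functional -/
private theorem a8_key (hS : Sys B M) (hb : Base B M U K) (p : ℕ) [Fact p.Prime] [CharP F p]
    {g : V ≃ₗ[F] V} (hg : Aut B M U g) {k : ℕ} (hgk : g ^ (p ^ k) = 1)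
    (hE : ∀ x ∈ K, g x - x ∈ U) {n : V} (hn : n ∈ K) (hnU : n ∉ U) (hnn : B n n = 0)
    (hl : ∀ v, B n (g v - v) = 0) : g = 1 := by
  by_contra hne
  have hfd := a8_fin hS
  obtain ⟨π, hπ, -, -, hπU, -, -⟩ := two_members hS hb
  obtain ⟨T, hT⟩ : ∃ T : V →ₗ[F] V, ∀ v, T v = g v - v :=
    ⟨(g : V →ₗ[F] V) - LinearMap.id, fun v => rfl⟩
  obtain ⟨S, hSd⟩ : ∃ S : (π × U) →ₗ[F] V, ∀ x, S x = T x.1 + x.2 :=
    ⟨(T.domRestrict π).coprod U.subtype, fun x => rfl⟩
  have hinj : Function.Injective S := by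
    rw [← LinearMap.ker_eq_bot, LinearMap.ker_eq_bot']
    rintro ⟨s, u⟩ h
    rw [hSd, hT] at h
    have h1 : g (s : V) - s ∈ U := by
      have : g (s : V) - s = -(u : V) := eq_neg_of_add_eq_zero_left h
      rw [this]
      exact U.neg_mem u.2
    have h2 : (s : V) ∈ K := by
      by_contra hsK
      exact L4' hS hb p hg hgk hE hne hsK h1
    have h3 : (s : V) = 0 := K_inter hS hb hπ hπU s.2 h2
    have h4 : (u : V) = 0 := by
      have h' : g (s : V) - s + (u : V) = 0 := h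
      rw [h3, map_zero, sub_zero, zero_add] at h'
      exact h'
    exact Prod.ext (Subtype.ext h3) (Subtype.ext h4)
  have hr : finrank F (LinearMap.range S) = 6 := by
    rw [LinearMap.finrank_range_of_inj hinj, Module.finrank_prod, hS.dim π hπ, hS.dim U hb.mem]
  obtain ⟨Kn, hKn⟩ : ∃ Kn : Submodule F V, ∀ v, v ∈ Kn ↔ v ∈ K ∧ B n v = 0 :=
    ⟨K ⊓ LinearMap.ker (B n), fun v => by rw [Submodule.mem_inf, LinearMap.mem_ker]⟩
  have hlt : Kn < K := by
    refine lt_of_le_of_ne (fun v hv => ((hKn v).1 hv).1) ?_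
    intro h
    apply hnU
    apply K_perp hS hb
    intro v hv
    rw [← h] at hv
    exact ((hKn v).1 hv).2
  have h6 : finrank F Kn ≤ 6 := by
    have h1 := Submodule.finrank_lt_finrank_of_lt hlt
    rw [K_dim hS hb] at h1
    omega
  have hle : LinearMap.range S ≤ Kn := by
    rintro _ ⟨⟨s, u⟩, rfl⟩
    rw [hSd, hKn, hT]
    refine ⟨K.add_mem (L1 hS hb p hg hgk hE _) (U_le_K hS hb u.2), ?_⟩
    rw [map_add, hl, zero_add]
    exact (hb.perp n).1 hn u u.2
  have heq : LinearMap.range S = Kn := by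
    apply Submodule.eq_of_le_of_finrank_le hle
    rw [hr]
    exact h6
  have hmem : n ∈ LinearMap.range S := by
    rw [heq, hKn]
    exact ⟨hn, hnn⟩
  obtain ⟨⟨s, u⟩, hsu⟩ := hmem
  rw [hSd, hT] at hsu
  have hsu' : g (s : V) - s = n - u := eq_sub_of_add_eq hsu
  have h5 : (s : V) ∈ K := by
    apply L5' hS hb p hg hgk hE hne
    intro v
    have h8 : B (n - (u : V)) (g v - v) = B n (g v - v) - B (u : V) (g v - v) := by
      exact LinearMap.map_sub₂ B n (u : V) (g v - v)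
    rw [hsu', h8, hl, zero_sub, neg_eq_zero, hS.symm]
    exact (hb.perp _).1 (L1 hS hb p hg hgk hE v) u u.2
  apply hnU
  have h7 := U.add_mem (hE _ h5) u.2
  rw [hsu', sub_add_cancel] at h7
  exact h7

theorem L6 (hS : Sys B M) (hb : Base B M U K) (p : ℕ) [Fact p.Prime] [CharP F p]
    (P : Subgroup (V ≃ₗ[F] V)) (hP : IsPGroup p P) (hA : ∀ g ∈ P, Aut B M U g) :
    Nat.card (EE U K P) ≤ Fintype.card F ^ 3 := by
  classical
  have hfd := a8_fin hS
  obtain ⟨n, hn, hnU, hnn⟩ := exists_n hS hb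
  obtain ⟨π, hπ, -, -, hπU, -, -⟩ := two_members hS hb
  have hmemP : ∀ g : EE U K P, (g : V ≃ₗ[F] V) ∈ P := fun g => g.2.1
  have hEg : ∀ g : EE U K P, ∀ x ∈ K, (g : V ≃ₗ[F] V) x - x ∈ U := fun g => g.2.2.2
  have hL1 : ∀ g : EE U K P, ∀ v, (g : V ≃ₗ[F] V) v - v ∈ K := by
    intro g v
    obtain ⟨k, hk⟩ := a8_pow hP (hmemP g)
    exact L1 hS hb p (hA _ (hmemP g)) hk (hEg g) v
  have hadd : ∀ g h : EE U K P, ∀ v, B n (((g * h : EE U K P) : V ≃ₗ[F] V) v - v) =
      B n ((g : V ≃ₗ[F] V) v - v) + B n ((h : V ≃ₗ[F] V) v - v) := by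
    intro g h v
    have h1 : ((g * h : EE U K P) : V ≃ₗ[F] V) v = (g : V ≃ₗ[F] V) ((h : V ≃ₗ[F] V) v) := rfl
    have h2 : B n ((g : V ≃ₗ[F] V) ((h : V ≃ₗ[F] V) v - v) - ((h : V ≃ₗ[F] V) v - v)) = 0 :=
      (hb.perp n).1 hn _ (hEg g _ (hL1 h v))
    have h3 : (g : V ≃ₗ[F] V) ((h : V ≃ₗ[F] V) v) - v =
        ((g : V ≃ₗ[F] V) v - v) + ((h : V ≃ₗ[F] V) v - v) +
        ((g : V ≃ₗ[F] V) ((h : V ≃ₗ[F] V) v - v) - ((h : V ≃ₗ[F] V) v - v)) := by
      rw [map_sub]
      abel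
    rw [h1, h3, map_add, map_add, h2, add_zero]
  obtain ⟨lam, hlam⟩ : ∃ lam : EE U K P → Module.Dual F π, ∀ g s,
      lam g s = B n ((g : V ≃ₗ[F] V) s - s) :=
    ⟨fun g => (B n).comp (((g : V ≃ₗ[F] V) : V →ₗ[F] V).comp π.subtype - π.subtype),
      fun g s => rfl⟩
  have hinj : Function.Injective lam := by
    intro g h hgh
    have h0 : ∀ s : π, B n (((g * h⁻¹ : EE U K P) : V ≃ₗ[F] V) s - s) = 0 := by
      intro s
      have h1 := hadd h h⁻¹ s
      rw [mul_inv_cancel] at h1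
      have h2 : (((1 : EE U K P) : V ≃ₗ[F] V) s : V) - s = 0 := sub_self _
      rw [h2, map_zero] at h1
      have h3 := hadd g h⁻¹ s
      have h4 : B n ((g : V ≃ₗ[F] V) s - s) = B n ((h : V ≃ₗ[F] V) s - s) := by
        rw [← hlam, ← hlam, hgh]
      rw [h3, h4]
      exact h1.symm
    obtain ⟨k, hk⟩ := a8_pow hP (hmemP (g * h⁻¹))
    have h5 : ((g * h⁻¹ : EE U K P) : V ≃ₗ[F] V) = 1 := by
      apply a8_key hS hb p (hA _ (hmemP (g * h⁻¹))) hk (hEg (g * h⁻¹)) hn hnU hnn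
      intro v
      obtain ⟨s, hs, x, hx, rfl⟩ := decomp hS hb hπ hπU v
      have h6 : ((g * h⁻¹ : EE U K P) : V ≃ₗ[F] V) (s + x) - (s + x) =
          (((g * h⁻¹ : EE U K P) : V ≃ₗ[F] V) s - s) +
          (((g * h⁻¹ : EE U K P) : V ≃ₗ[F] V) x - x) := by
        rw [map_add]
        abel
      rw [h6, map_add, h0 ⟨s, hs⟩, zero_add]
      exact (hb.perp n).1 hn _ (hEg (g * h⁻¹) x hx)
    have h7 : g * h⁻¹ = 1 := Subtype.ext h5
    exact mul_inv_eq_one.1 h7
  have hfD : Finite (Module.Dual F π) := Module.finite_of_finite F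
  have hcard : Nat.card (Module.Dual F π) = Fintype.card F ^ 3 := by
    rw [Module.natCard_eq_pow_finrank (K := F), Subspace.dual_finrank_eq, hS.dim π hπ,
      Nat.card_eq_fintype_card]
  rw [← hcard]
  exact Nat.card_le_card_of_injective lam hinj

end Pool.Agent.LibBT65
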