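import Pool.Agent.LibBT65.A4

set_option autoImplicit false

/-!
Row B1. Here `c ∈ EE U K P`, `c ≠ 1`, commutes with the elements of the `p`-group `P`.

`exists_w`: let `Y = {c v - v} + U ≤ K`. The map `v ↦ c v - v` sends `K` to `U` and only `K` to `U`
(L4'), so `Y` has dimension `3 + 3 = 6` (for a member `π ≠ U` the vectors `c s - s`, `s ∈ π`, form a
space of dimension 3 with `⊓ U = ⊥`; `Y` = this + `U`, since `c k - k ∈ U` for `k ∈ K`). The
orthogonal space of `Y` has dimension 4, contains `U`, lies in `K` (`U ≤ Y`), and meets `Y` in `U`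
(if `y = c s - s + u ⊥ Y`, then `B (c s - s) (c v - v) = 0` for all `v` (`u ⊥ K`), so `s ∈ K` by L5',
so `y ∈ U`). Take `w ∈ Y^⊥`, `w ∉ U`; then `w ∈ K`, `w ∉ Y`, so `K = Y + ⟨w⟩` by dimension 7 = 6 + 1,
and `Y^⊥ = U + ⟨w⟩` (dimension 4). For `g ∈ P`, `g Y = Y` (`g (c v - v) = c (g v) - g v`, `g U = U`),
so `g (Y^⊥) = Y^⊥`, `g w = ε • w + u` with `u ∈ U`; by iteration `g^(p^k) w = ε^(p^k) • w` modulo `U`,
so `ε^(p^k) = 1` (`w ∉ U`), `(ε - 1)^(p^k) = 0` (`sub_pow_char_pow`), `ε = 1`.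
`B1`: if `g ∈ P` and `g v - v ∈ K` for all `v` then `g ∈ EE U K P`: `g K = K` (`K_map`); for `k ∈ K`
write `k = c v - v + a • w + u`; `g (c v - v) - (c v - v) = c (g v - v) - (g v - v) ∈ U`
(`g v - v ∈ K`, `c ∈ EE`), `g (a • w) - a • w ∈ U`, `g u - u ∈ U`.
-/

namespace Pool.Agent.LibBT65

open Module

variable {F V : Type*} [Field F] [Fintype F] [AddCommGroup V] [Module F V]
  {B : V →ₗ[F] V →ₗ[F] F} {M : Finset (Submodule F V)} {U K : Submodule F V}

private theorem B1_finV (hS : Sys B M) : FiniteDimensional F V := by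
  apply FiniteDimensional.of_finrank_pos
  rw [hS.dimV]
  norm_num

private theorem B1_nd (hS : Sys B M) : LinearMap.Nondegenerate B := by
  refine ⟨fun x hx => hS.nondeg x hx, fun y hy => hS.nondeg y fun w => ?_⟩
  rw [hS.symm]
  exact hy w

/-- the map `v ↦ c v - v` -/
private def TT (c : V ≃ₗ[F] V) : V →ₗ[F] V := (c : V →ₗ[F] V) - LinearMap.id

omit [Fintype F] in
private theorem TT_apply (c : V ≃ₗ[F] V) (v : V) : TT c v = c v - v := rfl

theorem exists_w (hS : Sys B M) (hb : Base B M U K) (p : ℕ) [Fact p.Prime] [CharP F p]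
    (P : Subgroup (V ≃ₗ[F] V)) (hP : IsPGroup p P) (hA : ∀ g ∈ P, Aut B M U g)
    {c : V ≃ₗ[F] V} (hc : c ∈ EE U K P) (hc1 : c ≠ 1) (hcomm : ∀ g ∈ P, ∀ v, g (c v) = c (g v)) :
    ∃ w ∈ K, w ∉ U ∧ (∀ v, B w (c v - v) = 0) ∧ (∀ g ∈ P, g w - w ∈ U) ∧
      ∀ k ∈ K, ∃ (v : V) (a : F), k - (c v - v) - a • w ∈ U := by
  classical
  have := B1_finV hS
  obtain ⟨hcP, hcK, hcU⟩ := hc
  obtain ⟨j, hj⟩ := hP ⟨c, hcP⟩
  have hcj : c ^ (p ^ j) = 1 := congrArg Subtype.val hj
  have hcA := hA c hcP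
  -- basic properties of the map `T`
  have hTK : ∀ v, TT c v ∈ K := fun v => L1 hS hb p hcA hcj hcU v
  have hTU : ∀ k ∈ K, TT c k ∈ U := fun k hk => hcU k hk
  have hTinv : ∀ v, TT c v ∈ U → v ∈ K := by
    intro v hv
    by_contra h
    exact L4' hS hb p hcA hcj hcU hc1 h hv
  obtain ⟨π, hπ, -, -, hπU, -, -⟩ := two_members hS hb
  set Y : Submodule F V := LinearMap.range (TT c) ⊔ U with hY
  have hY2 : Y = π.map (TT c) ⊔ U := by
    apply le_antisymm
    · rw [hY, sup_le_iff]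
      refine ⟨?_, le_sup_right⟩
      rintro _ ⟨v, rfl⟩
      obtain ⟨s, hs, k, hk, rfl⟩ := decomp hS hb hπ hπU v
      rw [map_add]
      exact Submodule.add_mem_sup (Submodule.mem_map_of_mem hs) (hTU k hk)
    · rw [sup_le_iff]
      refine ⟨?_, le_sup_right⟩
      rintro _ ⟨s, -, rfl⟩
      exact Submodule.mem_sup_left ⟨s, rfl⟩
  have hinf : π.map (TT c) ⊓ U = ⊥ := by
    rw [Submodule.eq_bot_iff]
    rintro x ⟨⟨s, hs, rfl⟩, hx⟩
    have h1 := hTinv s hx
    have h2 := K_inter hS hb hπ hπU hs h1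
    rw [h2, map_zero]
  have hmapdim : finrank F (π.map (TT c)) = 3 := by
    have hinj : Function.Injective ((TT c).domRestrict π) := by
      rw [← LinearMap.ker_eq_bot, Submodule.eq_bot_iff]
      intro s hs
      have h1 : TT c (s : V) = 0 := LinearMap.mem_ker.1 hs
      have h2 : (s : V) ∈ K := hTinv _ (by rw [h1]; exact U.zero_mem)
      exact Subtype.ext (K_inter hS hb hπ hπU s.2 h2)
    have h1 : π.map (TT c) = LinearMap.range ((TT c).domRestrict π) := by
      rw [LinearMap.range_domRestrict]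
    rw [h1, LinearMap.finrank_range_of_inj hinj, hS.dim π hπ]
  have hYdim : finrank F Y = 6 := by
    have h1 := Submodule.finrank_sup_add_finrank_inf_eq (π.map (TT c)) U
    rw [hinf, finrank_bot, hmapdim, hS.dim U hb.mem, ← hY2] at h1
    omega
  have hYK : Y ≤ K := by
    rw [hY, sup_le_iff]
    refine ⟨?_, U_le_K hS hb⟩
    rintro _ ⟨v, rfl⟩
    exact hTK v
  have hUY : U ≤ Y := le_sup_right
  set Z : Submodule F V := LinearMap.BilinForm.orthogonal B Y with hZ
  have hZmem : ∀ v, v ∈ Z ↔ ∀ y ∈ Y, B v y = 0 := by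
    intro v
    rw [hZ, LinearMap.BilinForm.mem_orthogonal_iff]
    constructor
    · intro h y hy
      rw [hS.symm]
      exact h y hy
    · intro h y hy
      change B y v = 0
      rw [hS.symm]
      exact h y hy
  have hZdim : finrank F Z = 4 := by
    have h := LinearMap.BilinForm.finrank_orthogonal (B := B) (B1_nd hS) Y
    rw [hZ, h, hS.dimV, hYdim]
  have hUZ : U ≤ Z := by
    intro u hu
    rw [hZmem]
    intro y hy
    rw [hS.symm]
    exact (hb.perp y).1 (hYK hy) u hu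
  have hZK : Z ≤ K := by
    intro z hz
    rw [hb.perp]
    intro u hu
    exact (hZmem z).1 hz u (hUY hu)
  have hYZ : ∀ y ∈ Y, y ∈ Z → y ∈ U := by
    intro y hy hyZ
    obtain ⟨_, ⟨s, rfl⟩, u, hu, rfl⟩ := Submodule.mem_sup.1 hy
    have h1 : ∀ v, B (c s - s) (c v - v) = 0 := by
      intro v
      have h2 := (hZmem _).1 hyZ (TT c v) (Submodule.mem_sup_left ⟨v, rfl⟩)
      have h3 : B u (TT c v) = 0 := by
        rw [hS.symm]
        exact (hb.perp _).1 (hTK v) u hu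
      rw [map_add, LinearMap.add_apply, h3, add_zero] at h2
      exact h2
    have h2 := L5' hS hb p hcA hcj hcU hc1 h1
    exact U.add_mem (hTU s h2) hu
  obtain ⟨w, hwZ, hwU⟩ : ∃ w ∈ Z, w ∉ U := by
    by_contra h
    push Not at h
    have h1 : Z ≤ U := h
    have h2 := Submodule.finrank_mono h1
    rw [hZdim, hS.dim U hb.mem] at h2
    omega
  have hwY : w ∉ Y := fun h => hwU (hYZ w h hwZ)
  have hspan : ∀ (X : Submodule F V), w ∉ X → finrank F (X ⊔ F ∙ w : Submodule F V) =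
      finrank F X + 1 := by
    intro X hX
    have hw0 : w ≠ 0 := by
      rintro rfl
      exact hX X.zero_mem
    have h1 := Submodule.finrank_sup_add_finrank_inf_eq X (F ∙ w)
    have h2 : X ⊓ (F ∙ w) = ⊥ := by
      rw [Submodule.eq_bot_iff]
      rintro x ⟨hx, hx'⟩
      obtain ⟨a, rfl⟩ := Submodule.mem_span_singleton.1 hx'
      by_cases ha : a = 0
      · rw [ha, zero_smul]
      · exact absurd ((X.smul_mem_iff ha).1 hx) hX
    rw [h2, finrank_bot, finrank_span_singleton hw0] at h1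
    omega
  have hK7 : Y ⊔ (F ∙ w) = K := by
    apply Submodule.eq_of_le_of_finrank_eq
    · rw [sup_le_iff]
      refine ⟨hYK, ?_⟩
      rw [Submodule.span_singleton_le_iff_mem]
      exact hZK hwZ
    · rw [hspan Y hwY, hYdim, K_dim hS hb]
  have hZ4 : U ⊔ (F ∙ w) = Z := by
    apply Submodule.eq_of_le_of_finrank_eq
    · rw [sup_le_iff]
      refine ⟨hUZ, ?_⟩
      rw [Submodule.span_singleton_le_iff_mem]
      exact hwZ
    · rw [hspan U hwU, hS.dim U hb.mem, hZdim]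
  -- the elements of `P` preserve `Y` and `Z`
  have hgU : ∀ g ∈ P, ∀ u ∈ U, g u ∈ U := by
    intro g hg u hu
    rw [← (hA g hg).fix]
    exact Submodule.mem_map_of_mem hu
  have hgY : ∀ g ∈ P, ∀ y ∈ Y, g y ∈ Y := by
    intro g hg y hy
    obtain ⟨_, ⟨s, rfl⟩, u, hu, rfl⟩ := Submodule.mem_sup.1 hy
    have h1 : g (TT c s) = TT c (g s) := by
      rw [TT_apply, TT_apply, map_sub, hcomm g hg]
    rw [map_add, h1]
    exact Submodule.add_mem_sup ⟨g s, rfl⟩ (hgU g hg u hu)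
  have hgZ : ∀ g ∈ P, ∀ z ∈ Z, g z ∈ Z := by
    intro g hg z hz
    rw [hZmem]
    intro y hy
    have h1 : (g⁻¹ : V ≃ₗ[F] V) y ∈ Y := hgY g⁻¹ (P.inv_mem hg) y hy
    have h2 : g ((g⁻¹ : V ≃ₗ[F] V) y) = y := g.apply_symm_apply y
    rw [← h2, (hA g hg).iso]
    exact (hZmem z).1 hz _ h1
  refine ⟨w, hZK hwZ, hwU, ?_, ?_, ?_⟩
  · intro v
    exact (hZmem w).1 hwZ (TT c v) (Submodule.mem_sup_left ⟨v, rfl⟩)
  · intro g hg
    have h1 := hgZ g hg w hwZ
    rw [← hZ4] at h1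
    obtain ⟨u, hu, x, hx, hux⟩ := Submodule.mem_sup.1 h1
    obtain ⟨e, rfl⟩ := Submodule.mem_span_singleton.1 hx
    -- iteration
    have hit : ∀ n : ℕ, (g ^ n : V ≃ₗ[F] V) w - e ^ n • w ∈ U := by
      intro n
      induction n with
      | zero =>
        have h2 : (g ^ 0 : V ≃ₗ[F] V) w - e ^ 0 • w = 0 := by
          rw [pow_zero, pow_zero, one_smul]
          exact sub_self w
        rw [h2]
        exact U.zero_mem
      | succ n ih =>
        have h2 : (g ^ (n + 1) : V ≃ₗ[F] V) w - e ^ (n + 1) • w =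
            g ((g ^ n : V ≃ₗ[F] V) w - e ^ n • w) + e ^ n • u := by
          have h3 : (g ^ (n + 1) : V ≃ₗ[F] V) w = g ((g ^ n : V ≃ₗ[F] V) w) := by
            rw [pow_succ']
            rfl
          rw [h3, map_sub, map_smul, ← hux, smul_add, smul_smul, pow_succ]
          abel
        rw [h2]
        exact U.add_mem (hgU g hg _ ih) (U.smul_mem _ hu)
    obtain ⟨m, hm⟩ := hP ⟨g, hg⟩
    have hgm : g ^ (p ^ m) = 1 := congrArg Subtype.val hm
    have h2 := hit (p ^ m)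
    rw [hgm] at h2
    have h3 : (1 - e ^ (p ^ m)) • w ∈ U := by
      rw [sub_smul, one_smul]
      exact h2
    have h4 : 1 - e ^ (p ^ m) = 0 := by
      by_contra h
      exact hwU ((U.smul_mem_iff h).1 h3)
    have h5 : (e - 1) ^ (p ^ m) = 0 := by
      rw [sub_pow_char_pow, one_pow, ← neg_sub, h4, neg_zero]
    have h6 : e = 1 := sub_eq_zero.1
      ((pow_eq_zero_iff (pow_ne_zero m (Fact.out : p.Prime).ne_zero)).1 h5)
    rw [← hux, h6, one_smul, add_sub_cancel_right]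
    exact hu
  · intro k hk
    rw [← hK7] at hk
    obtain ⟨y, hy, x, hx, rfl⟩ := Submodule.mem_sup.1 hk
    obtain ⟨a, rfl⟩ := Submodule.mem_span_singleton.1 hx
    obtain ⟨_, ⟨v, rfl⟩, u, hu, rfl⟩ := Submodule.mem_sup.1 hy
    refine ⟨v, a, ?_⟩
    have h1 : TT c v + u + a • w - (c v - v) - a • w = u := by
      rw [TT_apply]
      abel
    rw [h1]
    exact hu

theorem B1 (hS : Sys B M) (hb : Base B M U K) (p : ℕ) [Fact p.Prime] [CharP F p]
    (P : Subgroup (V ≃ₗ[F] V)) (hP : IsPGroup p P) (hA : ∀ g ∈ P, Aut B M U g)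
    {c : V ≃ₗ[F] V} (hc : c ∈ EE U K P) (hc1 : c ≠ 1) (hcomm : ∀ g ∈ P, ∀ v, g (c v) = c (g v))
    {g : V ≃ₗ[F] V} (hg : g ∈ P) (hgK : ∀ v, g v - v ∈ K) : g ∈ EE U K P := by
  obtain ⟨w, -, -, -, hw, hk⟩ := exists_w hS hb p P hP hA hc hc1 hcomm
  refine ⟨hg, K_map hS hb (hA g hg), ?_⟩
  intro k hkK
  obtain ⟨v, a, hva⟩ := hk k hkK
  obtain ⟨u, hu⟩ : ∃ u, u = k - (c v - v) - a • w := ⟨_, rfl⟩
  rw [← hu] at hva
  have h1 : c (g v - v) - (g v - v) ∈ U := hc.2.2 _ (hgK v)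
  have h2 : g u ∈ U := by
    rw [← (hA g hg).fix]
    exact Submodule.mem_map_of_mem hva
  have h3 : k = (c v - v) + a • w + u := by
    rw [hu]
    abel
  have h4 : g k - k = (c (g v - v) - (g v - v)) + a • (g w - w) + (g u - u) := by
    have h5 : g k = (c (g v) - g v) + a • g w + g u := by
      rw [h3, map_add, map_add, map_sub, map_smul, hcomm g hg v]
    have h6 : g k - k = ((c (g v) - g v) + a • g w + g u) - ((c v - v) + a • w + u) := by
      rw [h5, ← h3]
    rw [h6, map_sub, smul_sub]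
    abel
  rw [h4]
  exact U.add_mem (U.add_mem h1 (U.smul_mem a (hw g hg))) (U.sub_mem h2 hva)

end Pool.Agent.LibBT65
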