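import Mathlib

set_option autoImplicit false

/-!
Row B2 (pure linear algebra, two lemmas on a 3-dimensional space `X` with a nondegenerate symmetric form).

`B2`: `h` an isometry with `(h - 1)^2 = 0`; then `h = 1`. Put `N = h - 1`. `β (h x) (h x) = β x x` gives
`2 β (N x) x + β (N x) (N x) = 0`. From `N^2 = 0`: `h (N x) = N x`, so
`β (N x) (N x) = β (h N x) (h x) - β (N x) x = β (N x) x - β (N x) x = 0`
(`N x = h x - x`; `β (N x) (h x) = β (h (N x)) (h x) = β (N x) x`). So `β (N x) x = 0` for all `x`,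
and `(x, y) ↦ β (N x) y` is alternating; also `β (N x) (N y) = 0` for all `x, y`. If `N ≠ 0`, the range
of `N` has dimension 1 (`range N ≤ ker N`, dimension 3), `N x = ℓ x • w` with `w ≠ 0`, and
`ℓ x * β w x = 0` for all `x`, so (polarise: `ℓ x β w y + ℓ y β w x = 0`; take `ℓ x ≠ 0`, then
`β w x = 0`, then `β w y = 0` for all `y`) `w = 0`, contradiction.
`B2'`: `h` an isometry of `p`-power order fixing two independent vectors `f₁, f₂` is 1: `N = h - 1` kills
a plane, so `N x = ℓ x • w` (rank at most 1); `N^(p^k) = 0` (`sub_pow_char_pow` / `Commute`),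
`N^m x = ℓ x (ℓ w)^(m-1) w`, so `ℓ w = 0` or `N = 0`; in both cases `N^2 = 0`, then `B2`.
-/

namespace Pool.Agent.LibBT65

open Module

/-- in a submodule of dimension at most one any two vectors are proportional -/
private theorem B2_prop {F X : Type*} [Field F] [AddCommGroup X] [Module F X] (W : Submodule F X)
    [FiniteDimensional F X] (hW : finrank F W ≤ 1) {w y : X} (hw : w ∈ W) (hw0 : w ≠ 0)
    (hy : y ∈ W) : ∃ c : F, y = c • w := by
  obtain ⟨v, hv⟩ := (finrank_le_one_iff).1 hW
  obtain ⟨a, ha⟩ := hv ⟨w, hw⟩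
  obtain ⟨b, hb⟩ := hv ⟨y, hy⟩
  have ha' : a • (v : X) = w := congrArg Subtype.val ha
  have hb' : b • (v : X) = y := congrArg Subtype.val hb
  have ha0 : a ≠ 0 := by
    rintro rfl
    rw [zero_smul] at ha'
    exact hw0 ha'.symm
  refine ⟨b * a⁻¹, ?_⟩
  rw [← ha', ← hb', smul_smul, mul_assoc, inv_mul_cancel₀ ha0, mul_one]

theorem B2 {F X : Type*} [Field F] [AddCommGroup X] [Module F X]
    (two : (2 : F) ≠ 0) (β : X →ₗ[F] X →ₗ[F] F) (hsymm : ∀ x y, β x y = β y x)
    (hnd : ∀ x, (∀ y, β x y = 0) → x = 0) (hd : finrank F X = 3) (h : X ≃ₗ[F] X)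
    (hiso : ∀ x y, β (h x) (h y) = β x y) (h2 : ∀ x, h (h x) - (2 : F) • h x + x = 0) :
    h = 1 := by
  haveI : FiniteDimensional F X := FiniteDimensional.of_finrank_pos (by rw [hd]; norm_num)
  set N : X →ₗ[F] X := (h : X →ₗ[F] X) - LinearMap.id with hN
  have hNx : ∀ x, N x = h x - x := fun x => rfl
  have hNN : ∀ x, N (N x) = 0 := by
    intro x
    rw [hNx, hNx, map_sub]
    have := h2 x
    rw [two_smul] at this
    rw [← this]
    abel
  have hhN : ∀ x, h (N x) = N x := by
    intro x
    have := hNN x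
    rw [hNx (N x)] at this
    exact sub_eq_zero.1 this
  have hββ : ∀ x y, β (N x) (N y) = 0 := by
    intro x y
    have h1 : β (N x) (h y) = β (N x) y := by
      have h3 := hiso (N x) y
      rw [hhN] at h3
      exact h3
    rw [hNx y, map_sub, h1, sub_self]
  have hβx : ∀ x, β (N x) x = 0 := by
    intro x
    have h1 := hiso x x
    have h3 : h x = x + N x := by rw [hNx]; abel
    rw [h3] at h1
    simp only [map_add, LinearMap.add_apply] at h1
    rw [hββ x x, hsymm x (N x)] at h1
    have h4 : (2 : F) * β (N x) x = 0 := by linear_combination h1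
    exact (mul_eq_zero.1 h4).resolve_left two
  have hpol : ∀ x y, β (N x) y + β (N y) x = 0 := by
    intro x y
    have h1 := hβx (x + y)
    simp only [map_add, LinearMap.add_apply] at h1
    rw [hβx x, hβx y] at h1
    linear_combination h1
  have hrange : finrank F (LinearMap.range N) ≤ 1 := by
    have h1 := LinearMap.finrank_range_add_finrank_ker N
    have h3 : LinearMap.range N ≤ LinearMap.ker N := by
      rintro _ ⟨x, rfl⟩
      exact hNN x
    have h4 := Submodule.finrank_mono h3
    omega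
  have hzero : ∀ x, N x = 0 := by
    intro x
    by_contra hx
    apply hx
    apply hnd
    intro y
    obtain ⟨c, hc⟩ := B2_prop (LinearMap.range N) hrange (w := N x) (y := N y) ⟨x, rfl⟩ hx ⟨y, rfl⟩
    have h1 := hpol x y
    rw [hc, map_smul, LinearMap.smul_apply, hβx x, smul_zero, add_zero] at h1
    exact h1
  ext x
  have := hzero x
  rw [hNx] at this
  exact sub_eq_zero.1 this

theorem B2' {F X : Type*} [Field F] [AddCommGroup X] [Module F X] (p : ℕ) [Fact p.Prime]
    [CharP F p] (two : (2 : F) ≠ 0) (β : X →ₗ[F] X →ₗ[F] F) (hsymm : ∀ x y, β x y = β y x)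
    (hnd : ∀ x, (∀ y, β x y = 0) → x = 0) (hd : finrank F X = 3) (h : X ≃ₗ[F] X) {k : ℕ}
    (hk : h ^ (p ^ k) = 1) (hiso : ∀ x y, β (h x) (h y) = β x y) {f₁ f₂ : X} (h1 : f₁ ≠ 0)
    (h12 : ∀ a : F, f₂ ≠ a • f₁) (hf₁ : h f₁ = f₁) (hf₂ : h f₂ = f₂) : h = 1 := by
  haveI : FiniteDimensional F X := FiniteDimensional.of_finrank_pos (by rw [hd]; norm_num)
  haveI : Nontrivial X := ⟨⟨f₁, 0, h1⟩⟩
  haveI : CharP (Module.End F X) p :=
    charP_of_injective_algebraMap (algebraMap F (Module.End F X)).injective p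
  set N : Module.End F X := (h : X →ₗ[F] X) - 1 with hN
  have hNx : ∀ x, N x = h x - x := fun x => rfl
  have hpow : ∀ m : ℕ, ((h : X →ₗ[F] X) : Module.End F X) ^ m = ((h ^ m : X ≃ₗ[F] X) : X →ₗ[F] X) := by
    intro m
    induction m with
    | zero => rfl
    | succ m ih =>
      rw [pow_succ, ih, pow_succ]
      rfl
  have hNp : N ^ (p ^ k) = 0 := by
    rw [hN, sub_pow_char_pow_of_commute _ _ (Commute.one_right _), hpow, hk, one_pow]
    exact sub_self _
  have hker : 2 ≤ finrank F (LinearMap.ker N) := by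
    by_contra hlt
    have h3 : finrank F (LinearMap.ker N) ≤ 1 := by omega
    have m1 : f₁ ∈ LinearMap.ker N := by
      rw [LinearMap.mem_ker, hNx, hf₁, sub_self]
    have m2 : f₂ ∈ LinearMap.ker N := by
      rw [LinearMap.mem_ker, hNx, hf₂, sub_self]
    obtain ⟨c, hc⟩ := B2_prop (LinearMap.ker N) h3 m1 h1 m2
    exact h12 c hc
  have hrange : finrank F (LinearMap.range N) ≤ 1 := by
    have h3 := LinearMap.finrank_range_add_finrank_ker N
    omega
  have hNN : ∀ x, N (N x) = 0 := by
    intro x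
    by_cases hx : N x = 0
    · rw [hx, map_zero]
    · obtain ⟨c, hc⟩ := B2_prop (LinearMap.range N) hrange (w := N x) (y := N (N x))
        ⟨x, rfl⟩ hx ⟨N x, rfl⟩
      have hm : ∀ m : ℕ, (N ^ m) (N x) = c ^ m • N x := by
        intro m
        induction m with
        | zero => rw [pow_zero, pow_zero, one_smul]; rfl
        | succ m ih =>
          have e : (N ^ (m + 1)) (N x) = N ((N ^ m) (N x)) := by
            rw [pow_succ']
            rfl
          rw [e, ih, map_smul, hc, smul_smul, pow_succ]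
      have h3 := hm (p ^ k)
      rw [hNp] at h3
      have h4 : c ^ (p ^ k) • N x = 0 := h3.symm
      have h5 : c ^ (p ^ k) = 0 := (smul_eq_zero.1 h4).resolve_right hx
      have h6 : c = 0 := pow_eq_zero_iff (pow_ne_zero k (Fact.out : p.Prime).ne_zero) |>.1 h5
      rw [hc, h6, zero_smul]
  refine B2 two β hsymm hnd hd h hiso (fun x => ?_)
  have h3 := hNN x
  rw [hNx, hNx, map_sub] at h3
  rw [two_smul, ← h3]
  abel

end Pool.Agent.LibBT65
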