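import Pool.Agent.LibBT65.A6
import Pool.Agent.LibBT65.B2

set_option autoImplicit false

/-!
Row B3 (pure linear algebra; cites `exists_fixed` and `B2'`).

`B3`: `|P| ≤ q |ker h|`. `f₁ ≠ 0` fixed by `P` (`exists_fixed`); `f₂`, outside `⟨f₁⟩`, fixed modulo
`f₁` (`exists_fixed` for `X ⧸ ⟨f₁⟩`, dimension 2, with the induced action); `h g f₂ = f₂ + φ g • f₁`,
`φ (g g') = φ g + φ g'`, and `φ g = 0` gives `h g = 1` by `B2'`. So the fibres of `φ` are cosets of
`ker h` (`Subgroup.card_eq_card_quotient_mul_card_subgroup`; `P ⧸ ker h` injects into `F`).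
-/

namespace Pool.Agent.LibBT65

open Module

/-- The action induced on the quotient by a fixed line. -/
private noncomputable def quotHom {F X G : Type*} [Field F] [AddCommGroup X] [Module F X] [Group G]
    (h : G →* (X ≃ₗ[F] X)) (W : Submodule F X)
    (hW : ∀ g, W.map (h g : X →ₗ[F] X) = W) : G →* ((X ⧸ W) ≃ₗ[F] (X ⧸ W)) where
  toFun g := Submodule.Quotient.equiv W W (h g) (hW g)
  map_one' := by
    apply LinearEquiv.ext
    intro x
    obtain ⟨y, rfl⟩ := Submodule.Quotient.mk_surjective W x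
    simp
  map_mul' a b := by
    apply LinearEquiv.ext
    intro x
    obtain ⟨y, rfl⟩ := Submodule.Quotient.mk_surjective W x
    simp

private theorem quotHom_mk {F X G : Type*} [Field F] [AddCommGroup X] [Module F X] [Group G]
    (h : G →* (X ≃ₗ[F] X)) (W : Submodule F X)
    (hW : ∀ g, W.map (h g : X →ₗ[F] X) = W) (g : G) (x : X) :
    quotHom h W hW g (Submodule.Quotient.mk x) = Submodule.Quotient.mk (h g x) := by
  simp [quotHom]

theorem B3 {F X G : Type*} [Field F] [Fintype F] [AddCommGroup X] [Module F X] (p : ℕ)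
    [Fact p.Prime] [CharP F p] (two : (2 : F) ≠ 0) (β : X →ₗ[F] X →ₗ[F] F)
    (hsymm : ∀ x y, β x y = β y x) (hnd : ∀ x, (∀ y, β x y = 0) → x = 0)
    (hd : finrank F X = 3) [Group G] [Finite G] (hG : IsPGroup p G) (h : G →* (X ≃ₗ[F] X))
    (hiso : ∀ g x y, β (h g x) (h g y) = β x y) :
    Nat.card G ≤ Fintype.card F * Nat.card h.ker := by
  have : FiniteDimensional F X := Module.finite_of_finrank_pos (by omega)
  have : Nontrivial X := Module.nontrivial_of_finrank_pos (R := F) (by omega)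
  obtain ⟨f₁, hf₁0, hf₁⟩ := exists_fixed p hG h
  set W : Submodule F X := Submodule.span F {f₁} with hWdef
  have hW : ∀ g, W.map (h g : X →ₗ[F] X) = W := by
    intro g
    rw [hWdef, Submodule.map_span, Set.image_singleton]
    congr 2
    exact hf₁ g
  have hWr : finrank F W = 1 := finrank_span_singleton hf₁0
  have hq : finrank F (X ⧸ W) = 2 := by
    have := Submodule.finrank_quotient_add_finrank W
    omega
  have : Nontrivial (X ⧸ W) := Module.nontrivial_of_finrank_pos (R := F) (by omega)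
  obtain ⟨x, hx0, hx⟩ := exists_fixed p hG (quotHom h W hW)
  obtain ⟨f₂, rfl⟩ := Submodule.Quotient.mk_surjective W x
  have hf₂W : f₂ ∉ W := fun hm => hx0 ((Submodule.Quotient.mk_eq_zero W).mpr hm)
  have h12 : ∀ a : F, f₂ ≠ a • f₁ := by
    intro a ha
    exact hf₂W (by rw [ha, hWdef]; exact Submodule.smul_mem _ _ (Submodule.mem_span_singleton_self f₁))
  have hφ : ∀ g, ∃ a : F, h g f₂ = f₂ + a • f₁ := by
    intro g
    have h1 := hx g
    rw [quotHom_mk] at h1
    have h2 : h g f₂ - f₂ ∈ W := (Submodule.Quotient.eq W).mp h1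
    rw [hWdef, Submodule.mem_span_singleton] at h2
    obtain ⟨a, ha⟩ := h2
    exact ⟨a, by rw [ha]; abel⟩
  choose φ hφ using hφ
  have key : ∀ g g', φ g = φ g' → g⁻¹ * g' ∈ h.ker := by
    intro g g' hgg
    rw [MonoidHom.mem_ker]
    have hfix : h (g⁻¹ * g') f₂ = f₂ := by
      have h3 : h g f₂ = h g' f₂ := by rw [hφ g, hφ g', hgg]
      rw [map_mul, LinearEquiv.mul_apply, ← h3, ← LinearEquiv.mul_apply, ← map_mul,
        inv_mul_cancel, map_one, LinearEquiv.coe_one, id]
    obtain ⟨k, hk⟩ := hG (g⁻¹ * g')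
    have hk' : h (g⁻¹ * g') ^ p ^ k = 1 := by rw [← map_pow, hk, map_one]
    exact B2' p two β hsymm hnd hd (h (g⁻¹ * g')) hk' (hiso _) hf₁0 h12 (hf₁ _) hfix
  have hle : Nat.card (G ⧸ h.ker) ≤ Fintype.card F := by
    rw [← Nat.card_eq_fintype_card]
    refine Nat.card_le_card_of_injective (fun q : G ⧸ h.ker => φ (Quotient.out q)) ?_
    intro q q' hqq
    have h4 := key _ _ hqq
    have h5 : (QuotientGroup.mk (Quotient.out q) : G ⧸ h.ker) = QuotientGroup.mk (Quotient.out q') :=
      QuotientGroup.eq.mpr h4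
    rwa [QuotientGroup.out_eq', QuotientGroup.out_eq'] at h5
  rw [Subgroup.card_eq_card_quotient_mul_card_subgroup h.ker]
  exact Nat.mul_le_mul_right _ hle

end Pool.Agent.LibBT65
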