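import Pool.Agent.LibBT65.A4

set_option autoImplicit false

/-!
Row B4. The action on `V ⧸ K` and the forms on it.

`card_quot`: `V ⧸ K` has dimension `10 - 7 = 3`.
`exists_h`: every `g ∈ P` maps `K` to `K` (`K_map`), so acts on `V ⧸ K` (`Submodule.mapQ` or
`Submodule.Quotient.equiv`); multiplicative.
`exists_beta`: for `c ∈ EE U K P` the form `B (c v - v) (c w - w)` vanishes when `v ∈ K` (then
`c v - v ∈ U` and `c w - w ∈ K` by L1), so it descends to `V ⧸ K` (twice `Submodule.liftQ`, or through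
a linear section of `mkQ`). It is nondegenerate when `c ≠ 1` by L5'.
`exists_T`: for `x ∈ EE U K P` the form `B (x v - v) (c w - w)` descends too (same reason; in `w`: if
`w ∈ K`, `c w - w ∈ U`, `x v - v ∈ K`); since `β` is nondegenerate on the finite dimensional `V ⧸ K`
there is `T` with `β (T v) w = B (x v - v) (c w - w)` (`β.toDual` or injective = surjective for
`X → Dual X`).
-/

namespace Pool.Agent.LibBT65

open Module

variable {F V : Type*} [Field F] [Fintype F] [AddCommGroup V] [Module F V]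
  {B : V →ₗ[F] V →ₗ[F] F} {M : Finset (Submodule F V)} {U K : Submodule F V}

private theorem finV4 (hS : Sys B M) : FiniteDimensional F V := by
  apply FiniteDimensional.of_finrank_pos
  rw [hS.dimV]
  norm_num

theorem finrank_quot (hS : Sys B M) (hb : Base B M U K) : finrank F (V ⧸ K) = 3 := by
  have := finV4 hS
  have h := Submodule.finrank_quotient_add_finrank K
  rw [K_dim hS hb, hS.dimV] at h
  omega

theorem exists_h (hS : Sys B M) (hb : Base B M U K)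
    (P : Subgroup (V ≃ₗ[F] V)) (hA : ∀ g ∈ P, Aut B M U g) :
    ∃ h : P →* ((V ⧸ K) ≃ₗ[F] (V ⧸ K)),
      ∀ (g : P) (v : V), h g (Submodule.Quotient.mk v) =
        Submodule.Quotient.mk ((g : V ≃ₗ[F] V) v) := by
  refine ⟨MonoidHom.mk' (fun g : P => Submodule.Quotient.equiv K K (g : V ≃ₗ[F] V)
    (K_map hS hb (hA g g.2))) ?_, ?_⟩
  · intro a b
    apply LinearEquiv.ext
    intro x
    obtain ⟨v, rfl⟩ := Submodule.Quotient.mk_surjective K x
    rfl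
  · intro g v
    rfl

/-- a form `B (f₁ v) (f₂ w)` descends to `V ⧸ K` -/
private theorem desc4 (hS : Sys B M) (hb : Base B M U K) (f₁ f₂ : V →ₗ[F] V)
    (h1 : ∀ v, f₁ v ∈ K) (h1' : ∀ v ∈ K, f₁ v ∈ U) (h2 : ∀ v, f₂ v ∈ K)
    (h2' : ∀ v ∈ K, f₂ v ∈ U) :
    ∃ β : (V ⧸ K) →ₗ[F] (V ⧸ K) →ₗ[F] F,
      ∀ v w : V, β (Submodule.Quotient.mk v) (Submodule.Quotient.mk w) = B (f₁ v) (f₂ w) := by
  let Ψ : V →ₗ[F] V →ₗ[F] F := (B.comp f₁).compl₂ f₂
  have hΨ : ∀ v w, Ψ v w = B (f₁ v) (f₂ w) := fun v w => rfl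
  have hk1 : K ≤ LinearMap.ker Ψ := by
    intro v hv
    rw [LinearMap.mem_ker]
    apply LinearMap.ext
    intro w
    rw [hΨ, hS.symm]
    exact (hb.perp _).1 (h2 w) _ (h1' v hv)
  let Ψ1 : (V ⧸ K) →ₗ[F] V →ₗ[F] F := K.liftQ Ψ hk1
  have hΨ1 : ∀ v w, Ψ1 (Submodule.Quotient.mk v) w = B (f₁ v) (f₂ w) := fun v w => rfl
  have hk2 : K ≤ LinearMap.ker Ψ1.flip := by
    intro w hw
    rw [LinearMap.mem_ker]
    apply LinearMap.ext
    intro x
    obtain ⟨v, rfl⟩ := Submodule.Quotient.mk_surjective K x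
    rw [LinearMap.flip_apply, hΨ1]
    exact (hb.perp _).1 (h1 v) _ (h2' w hw)
  refine ⟨(K.liftQ Ψ1.flip hk2).flip, fun v w => rfl⟩

private theorem sub4 (hS : Sys B M) (hb : Base B M U K) (p : ℕ) [Fact p.Prime] [CharP F p]
    (P : Subgroup (V ≃ₗ[F] V)) (hP : IsPGroup p P) (hA : ∀ g ∈ P, Aut B M U g)
    {c : V ≃ₗ[F] V} (hc : c ∈ EE U K P) :
    ∃ f : V →ₗ[F] V, (∀ v, f v = c v - v) ∧ (∀ v, f v ∈ K) ∧ ∀ v ∈ K, f v ∈ U := by
  obtain ⟨hcP, hcK, hcU⟩ := hc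
  obtain ⟨k, hk⟩ := hP ⟨c, hcP⟩
  have hk' : c ^ (p ^ k) = 1 := congrArg Subtype.val hk
  refine ⟨(c : V →ₗ[F] V) - LinearMap.id, fun v => rfl, fun v => ?_, fun v hv => hcU v hv⟩
  exact L1 hS hb p (hA c hcP) hk' hcU v

theorem exists_beta (hS : Sys B M) (hb : Base B M U K) (p : ℕ) [Fact p.Prime] [CharP F p]
    (P : Subgroup (V ≃ₗ[F] V)) (hP : IsPGroup p P) (hA : ∀ g ∈ P, Aut B M U g)
    {c : V ≃ₗ[F] V} (hc : c ∈ EE U K P) (hc1 : c ≠ 1) :
    ∃ β : (V ⧸ K) →ₗ[F] (V ⧸ K) →ₗ[F] F,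
      (∀ v w : V, β (Submodule.Quotient.mk v) (Submodule.Quotient.mk w) =
        B (c v - v) (c w - w)) ∧
      (∀ x y, β x y = β y x) ∧ ∀ x, (∀ y, β x y = 0) → x = 0 := by
  obtain ⟨f, hf, hf1, hf2⟩ := sub4 hS hb p P hP hA hc
  obtain ⟨β, hβ⟩ := desc4 hS hb f f hf1 hf2 hf1 hf2
  refine ⟨β, ?_, ?_, ?_⟩
  · intro v w
    rw [hβ, hf, hf]
  · intro x y
    obtain ⟨v, rfl⟩ := Submodule.Quotient.mk_surjective K x
    obtain ⟨w, rfl⟩ := Submodule.Quotient.mk_surjective K y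
    rw [hβ, hβ, hS.symm]
  · intro x hx
    obtain ⟨v, rfl⟩ := Submodule.Quotient.mk_surjective K x
    rw [Submodule.Quotient.mk_eq_zero]
    obtain ⟨hcP, hcK, hcU⟩ := hc
    obtain ⟨k, hk⟩ := hP ⟨c, hcP⟩
    have hk' : c ^ (p ^ k) = 1 := congrArg Subtype.val hk
    apply L5' hS hb p (hA c hcP) hk' hcU hc1
    intro w
    have h := hx (Submodule.Quotient.mk w)
    rw [hβ, hf, hf] at h
    exact h

theorem exists_T (hS : Sys B M) (hb : Base B M U K) (p : ℕ) [Fact p.Prime] [CharP F p]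
    (P : Subgroup (V ≃ₗ[F] V)) (hP : IsPGroup p P) (hA : ∀ g ∈ P, Aut B M U g)
    {c : V ≃ₗ[F] V} (hc : c ∈ EE U K P) (hc1 : c ≠ 1) {x : V ≃ₗ[F] V} (hx : x ∈ EE U K P) :
    ∃ T : (V ⧸ K) →ₗ[F] (V ⧸ K), ∀ β : (V ⧸ K) →ₗ[F] (V ⧸ K) →ₗ[F] F,
      (∀ v w : V, β (Submodule.Quotient.mk v) (Submodule.Quotient.mk w) =
        B (c v - v) (c w - w)) →
      ∀ v w : V, β (T (Submodule.Quotient.mk v)) (Submodule.Quotient.mk w) =
        B (x v - v) (c w - w) := by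
  have := finV4 hS
  obtain ⟨β, hβ, hβs, hβn⟩ := exists_beta hS hb p P hP hA hc hc1
  obtain ⟨f, hf, hf1, hf2⟩ := sub4 hS hb p P hP hA hc
  obtain ⟨f', hf', hf1', hf2'⟩ := sub4 hS hb p P hP hA hx
  obtain ⟨γ, hγ⟩ := desc4 hS hb f' f hf1' hf2' hf1 hf2
  have hinj : Function.Injective β := by
    rw [injective_iff_map_eq_zero]
    intro y hy
    apply hβn
    intro z
    rw [hy]
    rfl
  have hfr : finrank F (V ⧸ K) = finrank F ((V ⧸ K) →ₗ[F] F) :=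
    (Subspace.dual_finrank_eq (K := F) (V := V ⧸ K)).symm
  let e : (V ⧸ K) ≃ₗ[F] ((V ⧸ K) →ₗ[F] F) := LinearEquiv.ofInjectiveOfFinrankEq β hinj hfr
  have he : ∀ y, e y = β y := fun y => rfl
  refine ⟨(e.symm : ((V ⧸ K) →ₗ[F] F) →ₗ[F] (V ⧸ K)).comp γ, ?_⟩
  intro β' hβ' v w
  have hbb : β' = β := by
    apply LinearMap.ext
    intro y
    apply LinearMap.ext
    intro z
    obtain ⟨v, rfl⟩ := Submodule.Quotient.mk_surjective K y
    obtain ⟨w, rfl⟩ := Submodule.Quotient.mk_surjective K z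
    rw [hβ', hβ]
  rw [hbb]
  have h1 : β (e.symm (γ (Submodule.Quotient.mk v))) = γ (Submodule.Quotient.mk v) := by
    rw [← he, LinearEquiv.apply_symm_apply]
  change β (e.symm (γ (Submodule.Quotient.mk v))) (Submodule.Quotient.mk w) = _
  rw [h1, hγ, hf', hf]

end Pool.Agent.LibBT65
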