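import Pool.Agent.LibBT65.B1

set_option autoImplicit false

/-!
Row B5. `c` as in row B1, `x ∈ EE U K P` commutes with `g ∈ P`, `e = g e' - e' ∉ K`, and
`x e - e` is orthogonal to all `c v - v`. Then `x = 1`.
Proof. `w` from `exists_w`. `B w (x e - e) = 0`: `x e - e = x (g e') - x e' - g e' + e' =
g d - d` with `d = x e' - e' ∈ K` (L1), and `B w (g d) - B w d = B (g⁻¹ w - w) d`, `g⁻¹ w - w ∈ U`
(`g⁻¹ ∈ P`), `d ∈ K`, so it is 0. `x e - e ∈ K` (L1) is also orthogonal to `U`; so it is orthogonal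
to all of `K` (last clause of `exists_w`), so `x e - e ∈ U` by `K_perp`; by L4' `x = 1` or `e ∈ K`.
-/

namespace Pool.Agent.LibBT65

open Module

variable {F V : Type*} [Field F] [Fintype F] [AddCommGroup V] [Module F V]
  {B : V →ₗ[F] V →ₗ[F] F} {M : Finset (Submodule F V)} {U K : Submodule F V}

theorem B5 (hS : Sys B M) (hb : Base B M U K) (p : ℕ) [Fact p.Prime] [CharP F p]
    (P : Subgroup (V ≃ₗ[F] V)) (hP : IsPGroup p P) (hA : ∀ g ∈ P, Aut B M U g)
    {c : V ≃ₗ[F] V} (hc : c ∈ EE U K P) (hc1 : c ≠ 1) (hcomm : ∀ g ∈ P, ∀ v, g (c v) = c (g v))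
    {x g : V ≃ₗ[F] V} (hx : x ∈ EE U K P) (hg : g ∈ P) (hxg : ∀ v, g (x v) = x (g v))
    {e' : V} (he : g e' - e' ∉ K)
    (h0 : ∀ v, B (x (g e' - e') - (g e' - e')) (c v - v) = 0) : x = 1 := by
  obtain ⟨w, hwK, -, -, hwP, hwspan⟩ := exists_w hS hb p P hP hA hc hc1 hcomm
  have hxA : Aut B M U x := hA x hx.1
  obtain ⟨k, hk⟩ := hP ⟨x, hx.1⟩
  have hxk : x ^ (p ^ k) = 1 := by
    have h1 := congrArg (Subtype.val : P → (V ≃ₗ[F] V)) hk
    simpa using h1
  have hxK : ∀ v, x v - v ∈ K := fun v => L1 hS hb p hxA hxk hx.2.2 v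
  have hUK : ∀ y ∈ K, ∀ u ∈ U, B y u = 0 := fun y hy => (hb.perp y).1 hy
  have hd : x e' - e' ∈ K := hxK e'
  have hgd : g (x e' - e') ∈ K := by
    rw [← K_map hS hb (hA g hg)]
    exact Submodule.mem_map_of_mem hd
  have hy : x (g e' - e') - (g e' - e') = g (x e' - e') - (x e' - e') := by
    rw [map_sub, map_sub, hxg]
    abel
  have hw0 : B (x (g e' - e') - (g e' - e')) w = 0 := by
    have h1 : B (g (x e' - e')) (g w) = B (x e' - e') w := (hA g hg).iso _ _
    have h2 : B (g (x e' - e')) (g w - w) = 0 := hUK _ hgd _ (hwP g hg)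
    rw [map_sub] at h2
    rw [hy, map_sub, LinearMap.sub_apply, ← h1]
    linear_combination -h2
  have hyU : x (g e' - e') - (g e' - e') ∈ U := by
    apply K_perp hS hb
    intro y hyK
    obtain ⟨v, a, hu⟩ := hwspan y hyK
    have h1 := hUK _ (hxK (g e' - e')) _ hu
    rw [map_sub, map_sub, map_smul, h0 v, hw0, smul_zero, sub_zero, sub_zero] at h1
    exact h1
  by_contra hne
  exact L4' hS hb p hxA hxk hx.2.2 hne he hyU

end Pool.Agent.LibBT65
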