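import Pool.Agent.LibBT65.B2

set_option autoImplicit false

/-!
Row B6 (pure linear algebra; cites B2).

`B6`: `N = h - 1`; `N` is nilpotent (`N^(p^k) = h^(p^k) - 1 = 0`) on a space of dimension 3, so
`N^3 = 0`; `N^2 ≠ 0` by `B2`. Choose `e₃` with `N (N e₃) ≠ 0`, `e₂ = N e₃`, `e₁ = N e₂`:
`(e₁, e₂, e₃)` is a basis (`N e₁ = 0`). `T` commutes with `N`; `T e₃ = a e₃ + b e₂ + c e₁`, so
`T e₂ = a e₂ + b e₁`, `T e₁ = a e₁`, and the trace (matrix in this basis:
`LinearMap.trace_eq_matrix_trace`) is `3 a`.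
-/

namespace Pool.Agent.LibBT65

open Module

theorem B6 {F X : Type*} [Field F] [AddCommGroup X] [Module F X] (p : ℕ) [Fact p.Prime]
    [CharP F p] (two : (2 : F) ≠ 0) (β : X →ₗ[F] X →ₗ[F] F) (hsymm : ∀ x y, β x y = β y x)
    (hnd : ∀ x, (∀ y, β x y = 0) → x = 0) (hd : finrank F X = 3) (h : X ≃ₗ[F] X) {k : ℕ}
    (hk : h ^ (p ^ k) = 1) (hiso : ∀ x y, β (h x) (h y) = β x y) (hne : h ≠ 1) :
    ∃ e₂ : X, h e₂ - e₂ ≠ 0 ∧ ∀ T : X →ₗ[F] X, (∀ x, T (h x) = h (T x)) →
      ∃ a : F, T (h e₂ - e₂) = a • (h e₂ - e₂) ∧ LinearMap.trace F X T = 3 * a := by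
  classical
  have : Module.Finite F X := Module.finite_of_finrank_pos (by omega)
  have : Nontrivial X := Module.nontrivial_of_finrank_pos (R := F) (by omega)
  have : CharP (Module.End F X) p :=
    charP_of_injective_algebraMap (algebraMap F (Module.End F X)).injective p
  obtain ⟨N, hNdef⟩ : ∃ N : Module.End F X, N = ((h : X →ₗ[F] X) : Module.End F X) - 1 :=
    ⟨_, rfl⟩
  have hNx : ∀ x, N x = h x - x := by
    intro x
    rw [hNdef]
    rfl
  have hpow : (((h : X →ₗ[F] X) : Module.End F X)) ^ (p ^ k) = 1 := by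
    have h1 := congrArg (LinearEquiv.automorphismGroup.toLinearMapMonoidHom (R := F) (M := X)) hk
    rw [map_pow, map_one] at h1
    exact h1
  have hnil : N ^ (p ^ k) = 0 := by
    rw [hNdef, sub_pow_char_pow_of_commute _ _ (Commute.one_right _), hpow, one_pow, sub_self]
  have hchar : N.charpoly = Polynomial.X ^ finrank F X := by
    rw [LinearMap.charpoly_eq_X_pow_iff]
    intro m
    exact ⟨p ^ k, by rw [hnil]; rfl⟩
  have hN3 : N ^ 3 = 0 := by
    have h1 := LinearMap.aeval_self_charpoly N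
    rw [hchar, hd] at h1
    simpa using h1
  have hN2 : ∃ x, N (N x) ≠ 0 := by
    by_contra hcon
    push Not at hcon
    apply hne
    apply B2 two β hsymm hnd hd h hiso
    intro x
    have h1 := hcon x
    rw [hNx, hNx, map_sub] at h1
    rw [two_smul, ← h1]
    abel
  obtain ⟨e₃, he₃⟩ := hN2
  have hN3x : ∀ x, N (N (N x)) = 0 := by
    intro x
    have h1 := congrArg (fun S : Module.End F X => S x) hN3
    simpa [pow_succ] using h1
  refine ⟨N e₃, ?_, ?_⟩
  · rw [← hNx]
    exact he₃
  · intro T hT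
    have hTN : ∀ x, T (N x) = N (T x) := by
      intro x
      rw [hNx, hNx, map_sub, hT]
    rw [← hNx]
    have hli : LinearIndependent F ![N (N e₃), N e₃, e₃] := by
      rw [Fintype.linearIndependent_iff]
      intro g hg
      rw [Fin.sum_univ_three] at hg
      simp only [Matrix.cons_val_zero, Matrix.cons_val_one, Matrix.cons_val] at hg
      have hg1 := congrArg N hg
      rw [map_add, map_add, map_smul, map_smul, map_smul, hN3x, smul_zero, zero_add,
        map_zero] at hg1
      have hg2 := congrArg N hg1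
      rw [map_add, map_smul, map_smul, hN3x, smul_zero, zero_add, map_zero] at hg2
      have h2 : g 2 = 0 := (smul_eq_zero.1 hg2).resolve_right he₃
      rw [h2, zero_smul, add_zero] at hg1
      have h1 : g 1 = 0 := (smul_eq_zero.1 hg1).resolve_right he₃
      rw [h1, h2, zero_smul, zero_smul, add_zero, add_zero] at hg
      have h0 : g 0 = 0 := (smul_eq_zero.1 hg).resolve_right he₃
      intro i
      fin_cases i
      · exact h0
      · exact h1
      · exact h2
    obtain ⟨b, hb⟩ : ∃ b : Basis (Fin 3) F X, ⇑b = ![N (N e₃), N e₃, e₃] :=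
      ⟨basisOfLinearIndependentOfCardEqFinrank hli (by simp [hd]), by simp⟩
    have hb0 : b 0 = N (N e₃) := by rw [hb]; rfl
    have hb1 : b 1 = N e₃ := by rw [hb]; rfl
    have hb2 : b 2 = e₃ := by rw [hb]; rfl
    have hT2 := b.sum_repr (T e₃)
    rw [Fin.sum_univ_three] at hT2
    generalize b.repr (T e₃) 0 = c at hT2
    generalize b.repr (T e₃) 1 = d at hT2
    generalize b.repr (T e₃) 2 = a at hT2
    have hT1 : T (b 1) = d • b 0 + a • b 1 := by
      rw [hb1, hTN, ← hT2, map_add, map_add, map_smul, map_smul, map_smul, hb0, hb1, hb2,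
        hN3x, smul_zero, zero_add]
    have hT0 : T (b 0) = a • b 0 := by
      rw [hb0, hTN, ← hb1, hT1, map_add, map_smul, map_smul, hb0, hN3x, smul_zero, zero_add, hb1]
    refine ⟨a, ?_, ?_⟩
    · rw [← hb0]
      exact hT0
    · rw [LinearMap.trace_eq_matrix_trace F b T, Matrix.trace, Fin.sum_univ_three]
      simp only [Matrix.diag_apply, LinearMap.toMatrix_apply]
      rw [hT0, hT1, hb2, ← hT2]
      simp
      ring

end Pool.Agent.LibBT65
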