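import Pool.Agent.LibBT65.B6

set_option autoImplicit false

/-!
Row B7 (pure algebra; cites B6).

`B7`: `G` a finite `p`-group, `E` a normal subgroup, `h : G →* (X ≃ₗ X)` isometries, `T` additive on
`E` and equivariant, `NV`: for `x ∈ E` central, if `T x` kills a nonzero vector of the form
`h g e' - e'` then `x = 1`. Suppose `h g₀ ≠ 1` for some `g₀`. Then `E` is central and `|E| ≤ q`.
Proof. Fix `g₀`, `e₁ = N e₂ ≠ 0` of B6 for `h g₀` (the vectors do not depend on `T`: use `B6`, which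
gives one vector `e₂` for all `T`). For `x ∈ E` central `T x` commutes with every `h g`
(equivariance, `g x g⁻¹ = x`), so `T x e₁ = a e₁`, `tr (T x) = 3 a`.
(i) `x ∈ E` central with `tr (T x) = 0` is 1 (`3 ≠ 0`, NV).
(ii) if `x ∈ E` and `g x g⁻¹ x⁻¹` is central for all `g` then `x` is central:
`T (g x g⁻¹ x⁻¹) = h g (T x) (h g)⁻¹ - T x` (`T (x⁻¹) = - T x`, `T 1 = 0`) has trace 0.
(iii) By induction on `n`, `E ⊓ upperCentralSeries G n ≤ center G`; `G` is nilpotent
(`IsPGroup.isNilpotent`).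
(iv) `x ↦ tr (T x)` is injective on `E`: if `tr (T x) = tr (T y)` then `tr (T (x y⁻¹)) = 0`.
-/

namespace Pool.Agent.LibBT65

open Module

theorem B7 {F X G : Type*} [Field F] [Fintype F] [AddCommGroup X] [Module F X] (p : ℕ)
    [Fact p.Prime] [CharP F p] (two : (2 : F) ≠ 0) (three : (3 : F) ≠ 0)
    (β : X →ₗ[F] X →ₗ[F] F) (hsymm : ∀ x y, β x y = β y x)
    (hnd : ∀ x, (∀ y, β x y = 0) → x = 0)
    (hd : finrank F X = 3) [Group G] [Finite G] (hG : IsPGroup p G) (h : G →* (X ≃ₗ[F] X))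
    (hiso : ∀ g x y, β (h g x) (h g y) = β x y) (E : Subgroup G) [E.Normal]
    (T : G → (X →ₗ[F] X)) (hadd : ∀ x ∈ E, ∀ y ∈ E, T (x * y) = T x + T y)
    (hequiv : ∀ g, ∀ x ∈ E, ∀ v, T (g * x * g⁻¹) v = h g (T x ((h g)⁻¹ v)))
    (hNV : ∀ x ∈ E, (∀ g, g * x = x * g) → ∀ g e', h g e' - e' ≠ 0 → T x (h g e' - e') = 0 →
      x = 1)
    (hne : ∃ g, h g ≠ 1) : Nat.card E ≤ Fintype.card F := by
  classical
  obtain ⟨g₀, hg₀⟩ := hne
  obtain ⟨k, hk⟩ := hG g₀
  have hk' : (h g₀) ^ (p ^ k) = 1 := by rw [← map_pow, hk, map_one]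
  obtain ⟨e₂, he₂, hB6⟩ := B6 p two β hsymm hnd hd (h g₀) hk' (hiso g₀) hg₀
  -- `T 1 = 0`
  have hT1 : T 1 = 0 := by
    have h1 := hadd 1 E.one_mem 1 E.one_mem
    rw [mul_one] at h1
    exact left_eq_add.mp h1
  have hTinv : ∀ x ∈ E, T x⁻¹ = - T x := by
    intro x hx
    have h1 := hadd x hx x⁻¹ (E.inv_mem hx)
    rw [mul_inv_cancel, hT1] at h1
    exact eq_neg_of_add_eq_zero_right h1.symm
  -- (i)
  have hi : ∀ x ∈ E, (∀ g, g * x = x * g) → LinearMap.trace F X (T x) = 0 → x = 1 := by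
    intro x hx hc htr
    have hcomm : ∀ w, T x (h g₀ w) = h g₀ (T x w) := by
      intro w
      have h1 := hequiv g₀ x hx (h g₀ w)
      have h2 : g₀ * x * g₀⁻¹ = x := by rw [hc g₀, mul_assoc, mul_inv_cancel, mul_one]
      have h3 : (h g₀)⁻¹ (h g₀ w) = w := (h g₀).symm_apply_apply w
      rw [h2, h3] at h1
      exact h1
    obtain ⟨a, ha1, ha2⟩ := hB6 (T x) hcomm
    have ha : a = 0 := by
      rw [htr] at ha2
      exact (mul_eq_zero.mp ha2.symm).resolve_left three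
    rw [ha, zero_smul] at ha1
    exact hNV x hx hc g₀ e₂ he₂ ha1
  -- the trace is invariant
  have htrinv : ∀ g, ∀ x ∈ E, LinearMap.trace F X (T (g * x * g⁻¹ * x⁻¹)) = 0 := by
    intro g x hx
    have hgx : g * x * g⁻¹ ∈ E := Subgroup.Normal.conj_mem inferInstance x hx g
    have h1 : T (g * x * g⁻¹) = (h g).conj (T x) := by
      refine LinearMap.ext fun v => ?_
      rw [hequiv g x hx v, LinearEquiv.conj_apply]
      rfl
    rw [hadd _ hgx _ (E.inv_mem hx), hTinv x hx, h1, map_add, map_neg,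
      LinearMap.trace_conj', add_neg_cancel]
  -- (ii)
  have hii : ∀ x ∈ E, (∀ g, g * x * g⁻¹ * x⁻¹ ∈ Subgroup.center G) → x ∈ Subgroup.center G := by
    intro x hx hc
    rw [Subgroup.mem_center_iff]
    intro g
    have hgx : g * x * g⁻¹ * x⁻¹ ∈ E :=
      E.mul_mem (Subgroup.Normal.conj_mem inferInstance x hx g) (E.inv_mem hx)
    have h1 := hi _ hgx (fun g' => Subgroup.mem_center_iff.mp (hc g) g') (htrinv g x hx)
    have h2 : g * x * g⁻¹ = x := mul_inv_eq_one.mp h1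
    exact mul_inv_eq_iff_eq_mul.mp h2
  -- (iii)
  have hiii : ∀ n : ℕ, ∀ x ∈ E, x ∈ Subgroup.upperCentralSeries G n → x ∈ Subgroup.center G := by
    intro n
    induction n with
    | zero =>
      intro x _ hx0
      rw [Subgroup.upperCentralSeries_zero, Subgroup.mem_bot] at hx0
      rw [hx0]
      exact Subgroup.one_mem _
    | succ n ih =>
      intro x hx hxn
      refine hii x hx fun g => ih _
        (E.mul_mem (Subgroup.Normal.conj_mem inferInstance x hx g) (E.inv_mem hx)) ?_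
      have h1 := (Subgroup.mem_upperCentralSeries_succ_iff.mp hxn) g
      have h2 : g * x * g⁻¹ * x⁻¹ = (x * g * x⁻¹ * g⁻¹)⁻¹ := by group
      rw [h2]
      exact Subgroup.inv_mem _ h1
  have hcen : ∀ x ∈ E, x ∈ Subgroup.center G := by
    intro x hx
    have hnil : Group.IsNilpotent G := hG.isNilpotent
    obtain ⟨n, hn⟩ := hnil.nilpotent'
    exact hiii n x hx (by rw [hn]; exact Subgroup.mem_top x)
  -- (iv)
  rw [← Nat.card_eq_fintype_card]
  refine Nat.card_le_card_of_injective (fun x : E => LinearMap.trace F X (T x)) ?_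
  intro x y hxy
  have hxy' : LinearMap.trace F X (T (x : G)) = LinearMap.trace F X (T (y : G)) := hxy
  have h1 : LinearMap.trace F X (T ((x : G) * (y : G)⁻¹)) = 0 := by
    rw [hadd _ x.2 _ (E.inv_mem y.2), hTinv _ y.2, map_add, map_neg, hxy', add_neg_cancel]
  have hmem : (x : G) * (y : G)⁻¹ ∈ E := E.mul_mem x.2 (E.inv_mem y.2)
  have h2 := hi _ hmem (fun g => Subgroup.mem_center_iff.mp (hcen _ hmem) g) h1
  exact Subtype.ext (mul_inv_eq_one.mp h2)

end Pool.Agent.LibBT65
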