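import Pool.Agent.LibBT65.A1

set_option autoImplicit false

/-!
Row C0. Two group theoretic facts.

`EE_conj`: `EE U K P` is normalised by `P` (`g x g⁻¹ k - k = g (x - 1) (g⁻¹ k)`, `K_map`).
`EE_central`: if `EE U K P` has an element `≠ 1` then it has an element `c ≠ 1` commuting with `P`:
a nontrivial normal subgroup of a finite `p`-group meets the centre
(`IsPGroup.bot_lt_center`-type lemmas for normal subgroups: or the conjugation action of `P` on
`EE U K P` (cardinal divisible by `p`, `1` fixed),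
`IsPGroup.exists_fixed_point_of_prime_dvd_card_of_fixed_point`). `P` is finite since `V` is.
-/

namespace Pool.Agent.LibBT65

open Module

variable {F V : Type*} [Field F] [Fintype F] [AddCommGroup V] [Module F V]
  {B : V →ₗ[F] V →ₗ[F] F} {M : Finset (Submodule F V)} {U K : Submodule F V}

theorem EE_conj (hS : Sys B M) (hb : Base B M U K)
    (P : Subgroup (V ≃ₗ[F] V)) (hA : ∀ g ∈ P, Aut B M U g) {g x : V ≃ₗ[F] V} (hg : g ∈ P)
    (hx : x ∈ EE U K P) : g * x * g⁻¹ ∈ EE U K P := by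
  have hg' := P.inv_mem hg
  have hKg : K.map (g : V →ₗ[F] V) = K := K_map hS hb (hA g hg)
  have hKg' : K.map ((g⁻¹ : V ≃ₗ[F] V) : V →ₗ[F] V) = K := K_map hS hb (hA _ hg')
  refine ⟨P.mul_mem (P.mul_mem hg hx.1) hg', ?_, ?_⟩
  · have e : ((g * x * g⁻¹ : V ≃ₗ[F] V) : V →ₗ[F] V) =
        (g : V →ₗ[F] V) ∘ₗ ((x : V →ₗ[F] V) ∘ₗ ((g⁻¹ : V ≃ₗ[F] V) : V →ₗ[F] V)) := rfl
    rw [e, Submodule.map_comp, Submodule.map_comp, hKg', hx.2.1, hKg]
  · intro k hk
    have hk' : (g⁻¹ : V ≃ₗ[F] V) k ∈ K := by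
      rw [← hKg']
      exact Submodule.mem_map_of_mem hk
    have h1 := hx.2.2 _ hk'
    have h2 : g (x ((g⁻¹ : V ≃ₗ[F] V) k) - (g⁻¹ : V ≃ₗ[F] V) k) ∈ U := by
      rw [← (hA g hg).fix]
      exact Submodule.mem_map_of_mem h1
    have e : g ((g⁻¹ : V ≃ₗ[F] V) k) = k := g.apply_symm_apply k
    rw [map_sub, e] at h2
    exact h2

theorem EE_central (hS : Sys B M) (hb : Base B M U K) (p : ℕ) [Fact p.Prime] [CharP F p]
    (P : Subgroup (V ≃ₗ[F] V)) (hP : IsPGroup p P) (hA : ∀ g ∈ P, Aut B M U g)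
    (hE : ¬ ∀ g ∈ EE U K P, g = 1) :
    ∃ c ∈ EE U K P, c ≠ 1 ∧ ∀ g ∈ P, ∀ v, g (c v) = c (g v) := by
  have hfd : FiniteDimensional F V := by
    apply FiniteDimensional.of_finrank_pos
    rw [hS.dimV]
    norm_num
  have hfV : Finite V := Module.finite_of_finite F
  have hfE : Finite (V ≃ₗ[F] V) :=
    Finite.of_injective (fun e : V ≃ₗ[F] V => (e : V → V)) DFunLike.coe_injective
  let N : Subgroup P := (EE U K P).subgroupOf P
  have hN : N.Normal := by
    refine ⟨fun n hn g => ?_⟩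
    exact EE_conj hS hb P hA g.2 hn
  let _ : MulAction P N := MulAction.compHom N (MulAut.conjNormal : P →* MulAut N)
  have hsm : ∀ (g : P) (x : N), (((g • x : N) : P) : V ≃ₗ[F] V) = g * ((x : P) : V ≃ₗ[F] V) * g⁻¹ := by
    intro g x
    have h1 : ((g • x : N) : P) = g * (x : P) * g⁻¹ := MulAut.conjNormal_apply g x
    rw [h1]
    rfl
  have hne : Nat.card N ≠ 1 := by
    intro h
    apply hE
    intro g hg
    have hs : Subsingleton N := (Nat.card_eq_one_iff_unique.1 h).1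
    have h1 : (⟨⟨g, hg.1⟩, hg⟩ : N) = 1 := Subsingleton.elim _ _
    exact congrArg (fun z : N => ((z : P) : V ≃ₗ[F] V)) h1
  have hdvd : p ∣ Nat.card N := ((hP.to_subgroup N).card_eq_or_dvd).resolve_left hne
  have hone : (1 : N) ∈ MulAction.fixedPoints P N := by
    intro g
    refine Subtype.ext (Subtype.ext ?_)
    rw [hsm]
    simp
  obtain ⟨b, hb1, hb2⟩ := hP.exists_fixed_point_of_prime_dvd_card_of_fixed_point N hdvd hone
  refine ⟨((b : P) : V ≃ₗ[F] V), b.2, ?_, ?_⟩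
  · intro h
    exact hb2 (Subtype.ext (Subtype.ext h.symm))
  · intro g hg v
    have h1 := congrArg (fun z : N => ((z : P) : V ≃ₗ[F] V)) (hb1 ⟨g, hg⟩)
    simp only [hsm] at h1
    have h2 : g * ((b : P) : V ≃ₗ[F] V) = ((b : P) : V ≃ₗ[F] V) * g := by
      rw [← mul_inv_eq_iff_eq_mul]
      exact h1
    exact LinearEquiv.congr_fun h2 v

end Pool.Agent.LibBT65
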