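import Pool.Agent.LibBT65.A7
import Pool.Agent.LibBT65.A8
import Pool.Agent.LibBT65.B3
import Pool.Agent.LibBT65.B4
import Pool.Agent.LibBT65.B5
import Pool.Agent.LibBT65.B7
import Pool.Agent.LibBT65.C0

set_option autoImplicit false

/-!
Row C. Assembly: `|P| ≤ q^3` for every `p`-group `P` of isometries preserving `M` and fixing `U`,
`p ≥ 5` (`2 ≠ 0` is in `Sys`, `3 ≠ 0` in `F`).

`C`: if all elements of `EE` are 1: `A7`. If `P ≤ EE U K P`: `L6` (`Nat.card_le_card_of_injective`).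
Otherwise take `c` of `EE_central`; `h` of `exists_h`, `β` of `exists_beta`, `T x` of `exists_T` for
`x ∈ EE` (and 0 otherwise). `β` is invariant under `h` (`c g = g c`). `T` is additive on `E`
(`(x y - 1) v = (x - 1) v + (x - 1)(y v - v) + (y - 1) v`; `y v - v ∈ K`, so the middle term is in
`U`, orthogonal to `c w - w ∈ K`) and equivariant, both by nondegeneracy of `β`
(`B ((g x g⁻¹ - 1) s) (c v - v) = B ((x - 1) (g⁻¹ s)) ((c - 1) (g⁻¹ v))`). `hNV` is `B5`; `hne`: for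
`g ∈ P`, `g ∉ EE`, `h g ≠ 1` by `B1`. So `B7` (with `E = (EE U K P).subgroupOf P`) gives `|E| ≤ q`,
`B3` gives `|P| ≤ q |ker h|`, `ker h ≤ E` by `B1`. So `|P| ≤ q * q ≤ q^3`.
-/

namespace Pool.Agent.LibBT65

open Module

variable {F V : Type*} [Field F] [Fintype F] [AddCommGroup V] [Module F V]
  {B : V →ₗ[F] V →ₗ[F] F} {M : Finset (Submodule F V)} {U K : Submodule F V}

private theorem pow_of (p : ℕ) {P : Subgroup (V ≃ₗ[F] V)} (hP : IsPGroup p P) {g : V ≃ₗ[F] V}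
    (hg : g ∈ P) : ∃ k : ℕ, g ^ (p ^ k) = 1 := by
  obtain ⟨k, hk⟩ := hP ⟨g, hg⟩
  exact ⟨k, congrArg Subtype.val hk⟩

private theorem UK (hS : Sys B M) (hb : Base B M U K) {u k : V} (hu : u ∈ U) (hk : k ∈ K) :
    B u k = 0 := by
  rw [hS.symm]
  exact (hb.perp k).1 hk u hu

theorem C (hS : Sys B M) (hb : Base B M U K) (p : ℕ) [Fact p.Prime] [CharP F p]
    (three : (3 : F) ≠ 0)
    (P : Subgroup (V ≃ₗ[F] V)) (hP : IsPGroup p P) (hA : ∀ g ∈ P, Aut B M U g) :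
    Nat.card P ≤ Fintype.card F ^ 3 := by
  classical
  by_cases hE : ∀ g ∈ EE U K P, g = 1
  · exact A7 hS hb p P hP hA hE
  have hfd : FiniteDimensional F V := by
    apply FiniteDimensional.of_finrank_pos
    rw [hS.dimV]
    norm_num
  have hfin : Finite V := Module.finite_of_finite F
  have hfinE : Finite (V ≃ₗ[F] V) :=
    Finite.of_injective (fun g : V ≃ₗ[F] V => (g : V → V)) DFunLike.coe_injective
  by_cases hall : ∀ g ∈ P, g ∈ EE U K P
  · have h6 := L6 hS hb p P hP hA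
    have h7 : Nat.card P ≤ Nat.card (EE U K P) := by
      apply Nat.card_le_card_of_injective (fun g : P => (⟨g.1, hall g.1 g.2⟩ : EE U K P))
      intro a b hab
      exact Subtype.ext (congrArg (fun z : EE U K P => z.1) hab)
    exact h7.trans h6
  push Not at hall
  obtain ⟨g0, hg0, hg0E⟩ := hall
  obtain ⟨c, hc, hc1, hcomm⟩ := EE_central hS hb p P hP hA hE
  obtain ⟨h, hh⟩ := exists_h hS hb P hA
  obtain ⟨β, hβ, hβs, hβn⟩ := exists_beta hS hb p P hP hA hc hc1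
  have hT0 : ∀ x : P, ∃ T : (V ⧸ K) →ₗ[F] (V ⧸ K), (x : V ≃ₗ[F] V) ∈ EE U K P →
      ∀ v w : V, β (T (Submodule.Quotient.mk v)) (Submodule.Quotient.mk w) =
        B ((x : V ≃ₗ[F] V) v - v) (c w - w) := by
    intro x
    by_cases hx : (x : V ≃ₗ[F] V) ∈ EE U K P
    · obtain ⟨T, hT⟩ := exists_T hS hb p P hP hA hc hc1 hx
      exact ⟨T, fun _ => hT β hβ⟩
    · exact ⟨0, fun h => absurd h hx⟩
  choose T hT using hT0
  have hcK : ∀ v, c v - v ∈ K := by
    obtain ⟨k, hk⟩ := pow_of p hP hc.1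
    exact fun v => L1 hS hb p (hA c hc.1) hk hc.2.2 v
  have hxK : ∀ x ∈ EE U K P, ∀ v, x v - v ∈ K := by
    intro x hx v
    obtain ⟨k, hk⟩ := pow_of p hP hx.1
    exact L1 hS hb p (hA x hx.1) hk hx.2.2 v
  have hiso : ∀ (g : P) x y, β (h g x) (h g y) = β x y := by
    intro g x y
    obtain ⟨v, rfl⟩ := Submodule.Quotient.mk_surjective K x
    obtain ⟨w, rfl⟩ := Submodule.Quotient.mk_surjective K y
    rw [hh, hh, hβ, hβ, ← hcomm g g.2, ← hcomm g g.2, ← map_sub, ← map_sub, (hA g g.2).iso]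
  have hext : ∀ x y : V ⧸ K, (∀ w : V, β x (Submodule.Quotient.mk w) =
      β y (Submodule.Quotient.mk w)) → x = y := by
    intro x y hxy
    have h0 : x - y = 0 := by
      apply hβn
      intro z
      obtain ⟨w, rfl⟩ := Submodule.Quotient.mk_surjective K z
      rw [map_sub, LinearMap.sub_apply, hxy w, sub_self]
    exact sub_eq_zero.1 h0
  set E : Subgroup P := (EE U K P).subgroupOf P with hEdef
  have hmem : ∀ x : P, x ∈ E ↔ (x : V ≃ₗ[F] V) ∈ EE U K P := fun x => Subgroup.mem_subgroupOf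
  have hnorm : E.Normal := by
    constructor
    intro x hx g
    rw [hmem] at hx ⊢
    exact EE_conj hS hb P hA g.2 hx
  have hadd : ∀ x ∈ E, ∀ y ∈ E, T (x * y) = T x + T y := by
    intro x hx y hy
    have hxE := (hmem x).1 hx
    have hyE := (hmem y).1 hy
    have hxy := (hmem (x * y)).1 (E.mul_mem hx hy)
    apply LinearMap.ext
    intro z
    obtain ⟨v, rfl⟩ := Submodule.Quotient.mk_surjective K z
    apply hext
    intro w
    rw [hT _ hxy, LinearMap.add_apply, map_add, LinearMap.add_apply, hT _ hxE, hT _ hyE]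
    have h1 : B ((x : V ≃ₗ[F] V) ((y : V ≃ₗ[F] V) v - v) - ((y : V ≃ₗ[F] V) v - v)) (c w - w) = 0 :=
      UK hS hb (hxE.2.2 _ (hxK _ hyE v)) (hcK w)
    have h2 : ((x * y : P) : V ≃ₗ[F] V) v - v =
        ((x : V ≃ₗ[F] V) ((y : V ≃ₗ[F] V) v - v) - ((y : V ≃ₗ[F] V) v - v)) +
          (((x : V ≃ₗ[F] V) v - v) + ((y : V ≃ₗ[F] V) v - v)) := by
      have h3 : ((x * y : P) : V ≃ₗ[F] V) v = (x : V ≃ₗ[F] V) ((y : V ≃ₗ[F] V) v) := rfl
      rw [h3, map_sub]
      abel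
    rw [h2, map_add, LinearMap.add_apply, h1, zero_add, map_add, LinearMap.add_apply]
  have hinv : ∀ (g : P) (v : V), (h g)⁻¹ (Submodule.Quotient.mk v) =
      (Submodule.Quotient.mk (((g⁻¹ : P) : V ≃ₗ[F] V) v) : V ⧸ K) := by
    intro g v
    rw [← map_inv, hh]
  have hgg : ∀ (g : P) (v : V), (g : V ≃ₗ[F] V) (((g⁻¹ : P) : V ≃ₗ[F] V) v) = v := by
    intro g v
    exact (g : V ≃ₗ[F] V).apply_symm_apply v
  have hequiv : ∀ g, ∀ x ∈ E, ∀ v, T (g * x * g⁻¹) v = h g (T x ((h g)⁻¹ v)) := by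
    intro g x hx z
    have hxE := (hmem x).1 hx
    have hgx := (hmem (g * x * g⁻¹)).1 (hnorm.conj_mem x hx g)
    obtain ⟨v, rfl⟩ := Submodule.Quotient.mk_surjective K z
    apply hext
    intro w
    rw [hT _ hgx, hinv]
    have h1 : (Submodule.Quotient.mk w : V ⧸ K) =
        h g (Submodule.Quotient.mk (((g⁻¹ : P) : V ≃ₗ[F] V) w)) := by
      rw [hh, hgg]
    rw [h1, hiso, hT _ hxE]
    have h2 : ((g * x * g⁻¹ : P) : V ≃ₗ[F] V) v - v =
        (g : V ≃ₗ[F] V) ((x : V ≃ₗ[F] V) (((g⁻¹ : P) : V ≃ₗ[F] V) v) -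
          ((g⁻¹ : P) : V ≃ₗ[F] V) v) := by
      have h3 : ((g * x * g⁻¹ : P) : V ≃ₗ[F] V) v =
        (g : V ≃ₗ[F] V) ((x : V ≃ₗ[F] V) (((g⁻¹ : P) : V ≃ₗ[F] V) v)) := rfl
      rw [map_sub, hgg, h3]
    have h4 : c w - w = (g : V ≃ₗ[F] V) (c (((g⁻¹ : P) : V ≃ₗ[F] V) w) -
        ((g⁻¹ : P) : V ≃ₗ[F] V) w) := by
      rw [map_sub, hcomm g g.2, hgg]
    rw [h2, h4, (hA g g.2).iso]
  have hNV : ∀ x ∈ E, (∀ g, g * x = x * g) → ∀ g e', h g e' - e' ≠ 0 →
      T x (h g e' - e') = 0 → x = 1 := by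
    intro x hx hxc g e' he h0
    have hxE := (hmem x).1 hx
    obtain ⟨v, rfl⟩ := Submodule.Quotient.mk_surjective K e'
    rw [hh, ← Submodule.Quotient.mk_sub] at he h0
    have hv : (g : V ≃ₗ[F] V) v - v ∉ K := by
      intro hK
      exact he ((Submodule.Quotient.mk_eq_zero K).2 hK)
    have h1 : ∀ w, B ((x : V ≃ₗ[F] V) ((g : V ≃ₗ[F] V) v - v) - ((g : V ≃ₗ[F] V) v - v))
        (c w - w) = 0 := by
      intro w
      rw [← hT x hxE, h0, map_zero, LinearMap.zero_apply]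
    have hxg : ∀ v, (g : V ≃ₗ[F] V) ((x : V ≃ₗ[F] V) v) = (x : V ≃ₗ[F] V) ((g : V ≃ₗ[F] V) v) := by
      intro v
      have := congrArg (fun y : P => (y : V ≃ₗ[F] V) v) (hxc g)
      exact this
    exact Subtype.ext (B5 hS hb p P hP hA hc hc1 hcomm hxE g.2 hxg hv h1)
  have hker : ∀ g : P, h g = 1 → g ∈ E := by
    intro g hg
    rw [hmem]
    apply B1 hS hb p P hP hA hc hc1 hcomm g.2
    intro v
    have h1 := hh g v
    rw [hg] at h1
    rw [← Submodule.Quotient.eq]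
    exact h1.symm
  have hne : ∃ g, h g ≠ 1 := ⟨⟨g0, hg0⟩, fun h1 => hg0E ((hmem _).1 (hker _ h1))⟩
  have h7 := B7 p hS.two three β hβs hβn (finrank_quot hS hb) hP h hiso E T hadd hequiv hNV hne
  have h3 := B3 p hS.two β hβs hβn (finrank_quot hS hb) hP h hiso
  have h8 : Nat.card h.ker ≤ Nat.card E := by
    apply Nat.card_le_card_of_injective (fun g : h.ker => (⟨g.1, hker g.1 g.2⟩ : E))
    intro a b hab
    exact Subtype.ext (congrArg (fun z : E => z.1) hab)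
  have hq : 1 ≤ Fintype.card F := Fintype.card_pos
  calc Nat.card P ≤ Fintype.card F * Nat.card h.ker := h3
    _ ≤ Fintype.card F * Fintype.card F := Nat.mul_le_mul le_rfl (h8.trans h7)
    _ ≤ Fintype.card F * Fintype.card F * Fintype.card F := Nat.le_mul_of_pos_right _ hq
    _ = Fintype.card F ^ 3 := by ring

end Pool.Agent.LibBT65
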