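import Mathlib

set_option autoImplicit false

/-!
Row S5 (ONLY MATHLIB; finite fields of characteristic 3; second batch).

`A` is a finite additive group with three additive coordinates `τ1 τ2 τ3 : A → F`, together
injective; `Φ` an additive subgroup of `F`; `hrel` is the relation (R): for `t ∈ Φ` and `a ∈ A` with
`τ3 a = 0` there is `a'` with coordinates `(t τ2 a, 0, 0)` and
`Γ a' = μ (τ2 a) t^3 + t^2 C a + t α a`.

(C) Consequence: let `ρ ∈ F`, `a, a₁ ∈ A` with `τ3 a = τ3 a₁ = 0`, `τ2 a = b`, `τ2 a₁ = ρ b`, and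
`t, ρ t ∈ Φ`. The elements of (R) for `(ρ t, a)` and `(t, a₁)` have the same coordinates
`(ρ t b, 0, 0)`, so they are equal (`hinj` for the difference) and
`t^3 μ b (ρ^3 - ρ) + t^2 (ρ^2 C a - C a₁) + t (ρ α a - α a₁) = 0`.

`S3b`: `|A| = |F|^3`, so the three coordinates give a bijection `A → F^3`. Suppose `|Φ| > 3`: there are
`t ≠ 0` in `Φ` and `t'' ∈ Φ`, `t'' ≠ 0, t, -t`; `ρ = t'' / t ≠ 0, 1, -1`. For `b ∈ F` let `a_b` be the
element with coordinates `(0, b, 0)` (additive in `b`). (C) for `t` and for `-t` (also in `Φ`), with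
`a = a_b`, `a₁ = a_(ρ b)`; subtract: `2 (t^3 μ b (ρ^3 - ρ) + t (ρ f b - f (ρ b))) = 0` with
`f b = α a_b`. So `f (ρ b) = ρ f b + κ b` for all `b`, `κ = t^2 μ (ρ^3 - ρ) ≠ 0`. By induction
`f (ρ^n b) = ρ^n f b + n ρ^(n-1) κ b`. For `n = |F|`: `ρ^n = ρ` (`FiniteField.pow_card`), `n = 0` in `F`
(`FiniteField.cast_card_eq_zero`), so `f (ρ b) = ρ f b`, so `κ b = 0`: contradiction with `b = 1`.
-/

namespace Pool.Agent.LibBT65

theorem S3b {F A : Type*} [Field F] [Fintype F] [CharP F 3]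
    [AddCommGroup A] [Finite A] (Φ : AddSubgroup F) (τ1 τ2 τ3 Γ C α : A →+ F)
    (hinj : ∀ a, τ1 a = 0 → τ2 a = 0 → τ3 a = 0 → a = 0) (μ : F) (hμ : μ ≠ 0)
    (hrel : ∀ t ∈ Φ, ∀ a, τ3 a = 0 → ∃ a', τ3 a' = 0 ∧ τ2 a' = 0 ∧ τ1 a' = t * τ2 a ∧
      Γ a' = μ * τ2 a * t ^ 3 + t ^ 2 * C a + t * α a)
    (hA : Nat.card A = Fintype.card F ^ 3) : Nat.card Φ ≤ 3 := by
  classical
  -- the coordinates are a bijection
  have hT : Function.Bijective (fun a : A => (τ1 a, τ2 a, τ3 a)) := by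
    rw [Nat.bijective_iff_injective_and_card]
    refine ⟨?_, ?_⟩
    · intro a b hab
      simp only [Prod.mk.injEq] at hab
      have h := hinj (a - b) (by rw [map_sub, hab.1, sub_self]) (by rw [map_sub, hab.2.1, sub_self])
        (by rw [map_sub, hab.2.2, sub_self])
      exact sub_eq_zero.mp h
    · rw [hA, Nat.card_prod, Nat.card_prod, Nat.card_eq_fintype_card]
      ring
  have hex : ∀ b : F, ∃ a : A, τ1 a = 0 ∧ τ2 a = b ∧ τ3 a = 0 := by
    intro b
    obtain ⟨a, ha⟩ := hT.2 (0, b, 0)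
    simp only [Prod.mk.injEq] at ha
    exact ⟨a, ha.1, ha.2.1, ha.2.2⟩
  choose a ha1 ha2 ha3 using hex
  have h2 : (2 : F) ≠ 0 := by
    intro h
    have h' : ((2 : ℕ) : F) = 0 := by exact_mod_cast h
    rw [CharP.cast_eq_zero_iff F 3] at h'
    omega
  by_contra hc
  push Not at hc
  -- two elements of `Φ`
  have hfin : Fintype Φ := Fintype.ofFinite Φ
  have hcard : 3 < Fintype.card Φ := by rwa [Nat.card_eq_fintype_card] at hc
  obtain ⟨t, ht0⟩ : ∃ t : Φ, t ≠ 0 := by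
    have : 1 < Fintype.card Φ := by omega
    rw [Fintype.one_lt_card_iff_nontrivial] at this
    exact exists_ne 0
  obtain ⟨s, hs⟩ : ∃ s : Φ, s ∉ ({0, t, -t} : Finset Φ) := by
    by_contra hno
    push Not at hno
    have h1 : (Finset.univ : Finset Φ) ⊆ {0, t, -t} := fun s _ => hno s
    have h3 := Finset.card_le_card h1
    have h4 : ({0, t, -t} : Finset Φ).card ≤ 3 := Finset.card_le_three
    rw [Finset.card_univ] at h3
    omega
  simp only [Finset.mem_insert, Finset.mem_singleton, not_or] at hs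
  obtain ⟨hs0, hst, hsn⟩ := hs
  have ht0' : (t : F) ≠ 0 := fun h => ht0 (Subtype.ext h)
  have hs0' : (s : F) ≠ 0 := fun h => hs0 (Subtype.ext h)
  have hst' : (s : F) ≠ t := fun h => hst (Subtype.ext h)
  have hsn' : (s : F) ≠ -t := fun h => hsn (Subtype.ext (by simpa using h))
  set ρ : F := (s : F) / t with hρ
  have hρt : ρ * t = s := div_mul_cancel₀ _ ht0'
  have hρ0 : ρ ≠ 0 := div_ne_zero hs0' ht0'
  have hρ1 : ρ ≠ 1 := fun h => hst' (by rw [← hρt, h, one_mul])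
  have hρ2 : ρ ≠ -1 := fun h => hsn' (by rw [← hρt, h, neg_one_mul])
  -- the relation (C)
  have hC : ∀ t' : F, t' ∈ Φ → ρ * t' ∈ Φ → ∀ b : F,
      μ * b * (ρ * t') ^ 3 + (ρ * t') ^ 2 * C (a b) + (ρ * t') * α (a b) =
      μ * (ρ * b) * t' ^ 3 + t' ^ 2 * C (a (ρ * b)) + t' * α (a (ρ * b)) := by
    intro t' h1 h2' b
    obtain ⟨x, hx3, hx2, hx1, hxΓ⟩ := hrel (ρ * t') h2' (a b) (ha3 b)
    obtain ⟨y, hy3, hy2, hy1, hyΓ⟩ := hrel t' h1 (a (ρ * b)) (ha3 (ρ * b))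
    rw [ha2] at hx1 hxΓ hy1 hyΓ
    have hxy : x = y := by
      have h := hinj (x - y) (by rw [map_sub, hx1, hy1]; ring) (by rw [map_sub, hx2, hy2, sub_self])
        (by rw [map_sub, hx3, hy3, sub_self])
      exact sub_eq_zero.mp h
    rw [← hxΓ, ← hyΓ, hxy]
  set κ : F := (t : F) ^ 2 * μ * (ρ ^ 3 - ρ) with hκ
  have hκ0 : κ ≠ 0 := by
    have h3 : ρ ^ 3 - ρ = ρ * ((ρ - 1) * (ρ + 1)) := by ring
    rw [hκ, h3]
    refine mul_ne_zero (mul_ne_zero (pow_ne_zero 2 ht0') hμ) (mul_ne_zero hρ0 (mul_ne_zero ?_ ?_))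
    · exact sub_ne_zero.mpr hρ1
    · intro h
      exact hρ2 (eq_neg_of_add_eq_zero_left h)
  have hstep : ∀ b : F, α (a (ρ * b)) = ρ * α (a b) + κ * b := by
    intro b
    have e1 := hC t t.2 (by rw [hρt]; exact s.2) b
    have e2 := hC (-t) (Φ.neg_mem t.2) (by rw [mul_neg, hρt]; exact Φ.neg_mem s.2) b
    have e3 : (2 * (t : F)) * α (a (ρ * b)) = (2 * (t : F)) * (ρ * α (a b) + κ * b) := by
      rw [hκ]
      linear_combination e2 - e1
    exact mul_left_cancel₀ (mul_ne_zero h2 ht0') e3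
  have hpow : ∀ (n : ℕ) (b : F), α (a (ρ ^ n * b)) = ρ ^ n * α (a b) + n * ρ ^ n * (κ / ρ) * b := by
    intro n
    induction n with
    | zero => intro b; simp
    | succ n ih =>
      intro b
      have h1 : ρ ^ (n + 1) * b = ρ * (ρ ^ n * b) := by ring
      rw [h1, hstep, ih]
      push_cast
      field_simp
      ring
  have hq : ρ ^ (Fintype.card F) = ρ := FiniteField.pow_card ρ
  have hq0 : ((Fintype.card F : ℕ) : F) = 0 := FiniteField.cast_card_eq_zero F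
  have h1 := hpow (Fintype.card F) 1
  rw [hq, hq0, hstep] at h1
  apply hκ0
  linear_combination h1

end Pool.Agent.LibBT65
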