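import Pool.Agent.LibBT65.S3
import Pool.Agent.LibBT65.S5

set_option autoImplicit false

/-!
Row S4 (counting; cites S3a, S3b as stated). `q = |F| = 3^h ≥ 9`. Claim `(|Φ| |A|)^2 ≤ q^7`.

`|A| ≤ q^3` (`hinj`). If `Φ` is trivial: `q^6 ≤ q^7`. Otherwise fix `t ≠ 0` in `Φ`.
`A₂ = {a | τ3 a = 0}` (the kernel of `τ3`), `S = {τ2 a | a ∈ A₂}`, `R = {τ3 a | a ∈ A}`:
`|A| = |R| |A₂|`, `|A₂| = |S| |{a | τ3 a = τ2 a = 0}| ≤ |S| q` (`hinj` with `τ1`). By `hcl`
multiplication by `t` maps `R` injectively into `S`, so `|R| ≤ |S|`.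
If `|S|^2 ≤ q`: `|A| ≤ |S|^2 q ≤ q^2`, `|Φ| ≤ q`, so `(|Φ| |A|)^2 ≤ q^6`.
If `|S|^2 > q`: `|Φ|^2 ≤ 3 q` by `S3a`. If `|A| = q^3` then `|Φ| ≤ 3` by `S3b` and
`(3 q^3)^2 = 9 q^6 ≤ q^7`. Otherwise `|A| < q^3`, and `|A|` divides `q^3` (`A` embeds in `F^3`), a power
of 3, so `3 |A| ≤ q^3` (`FiniteField.card` gives `q = 3^n`; divisors of `3^m`), and
`9 (|Φ| |A|)^2 ≤ 3 q q^6`.
-/

namespace Pool.Agent.LibBT65

private theorem S4_card {G H : Type*} [AddGroup G] [AddGroup H] (f : G →+ H) :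
    Nat.card G = Nat.card f.range * Nat.card f.ker := by
  rw [← AddSubgroup.index_ker, mul_comm, AddSubgroup.card_mul_index]

theorem S4 {F A : Type*} [Field F] [Fintype F] [CharP F 3] (hq : 9 ≤ Fintype.card F)
    [AddCommGroup A] [Finite A] (Φ : AddSubgroup F) (τ1 τ2 τ3 Γ C α : A →+ F)
    (hinj : ∀ a, τ1 a = 0 → τ2 a = 0 → τ3 a = 0 → a = 0) (μ : F) (hμ : μ ≠ 0)
    (hcl : ∀ t ∈ Φ, ∀ a, ∃ a', τ3 a' = 0 ∧ τ2 a' = t * τ3 a)
    (hrel : ∀ t ∈ Φ, ∀ a, τ3 a = 0 → ∃ a', τ3 a' = 0 ∧ τ2 a' = 0 ∧ τ1 a' = t * τ2 a ∧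
      Γ a' = μ * τ2 a * t ^ 3 + t ^ 2 * C a + t * α a) :
    (Nat.card Φ * Nat.card A) ^ 2 ≤ Fintype.card F ^ 7 := by
  classical
  have hqN : Nat.card F = Fintype.card F := Nat.card_eq_fintype_card
  obtain ⟨q, hqdef⟩ : ∃ q, q = Fintype.card F := ⟨_, rfl⟩
  rw [← hqdef] at hq hqN ⊢
  -- the embedding into `F^3`
  let f : A →+ F × F × F := τ1.prod (τ2.prod τ3)
  have hf : Function.Injective f := by
    rw [injective_iff_map_eq_zero]
    intro a ha
    have h1 : (τ1 a, τ2 a, τ3 a) = (0, 0, 0) := ha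
    simp only [Prod.mk.injEq] at h1
    exact hinj a h1.1 h1.2.1 h1.2.2
  have hdvd : Nat.card A ∣ q ^ 3 := by
    have h := AddSubgroup.card_dvd_of_injective f hf
    have h2 : Nat.card (F × F × F) = q ^ 3 := by
      rw [Nat.card_prod, Nat.card_prod, hqN]
      ring
    rwa [h2] at h
  have hA3 : Nat.card A ≤ q ^ 3 := Nat.le_of_dvd (by positivity) hdvd
  by_cases hΦ : ∃ t ∈ Φ, t ≠ 0
  · obtain ⟨t, ht, ht0⟩ := hΦ
    have hΦq : Nat.card Φ ≤ q := by
      rw [← hqN]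
      exact Nat.card_le_card_of_injective (fun x : Φ => (x : F)) Subtype.val_injective
    obtain ⟨Sc, hSc⟩ : ∃ Sc, Sc = Nat.card {b : F // ∃ a, τ3 a = 0 ∧ τ2 a = b} := ⟨_, rfl⟩
    have hR : Nat.card τ3.range ≤ Sc := by
      rw [hSc]
      have hmap : ∀ r : τ3.range, ∃ a, τ3 a = 0 ∧ τ2 a = t * (r : F) := by
        rintro ⟨r, a, rfl⟩
        exact hcl t ht a
      refine Nat.card_le_card_of_injective
        (fun r : τ3.range => (⟨t * (r : F), hmap r⟩ : {b : F // ∃ a, τ3 a = 0 ∧ τ2 a = b})) ?_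
      intro r r' hrr
      have h1 : t * (r : F) = t * (r' : F) := congrArg Subtype.val hrr
      exact Subtype.ext (mul_left_cancel₀ ht0 h1)
    have hker : Nat.card τ3.ker ≤ Sc * q := by
      have h1 := S4_card (τ2.comp τ3.ker.subtype)
      rw [h1]
      refine Nat.mul_le_mul ?_ ?_
      · rw [hSc]
        have hmap : ∀ r : (τ2.comp τ3.ker.subtype).range, ∃ a, τ3 a = 0 ∧ τ2 a = (r : F) := by
          rintro ⟨r, ⟨a, ha⟩, rfl⟩
          exact ⟨a, ha, rfl⟩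
        refine Nat.card_le_card_of_injective
          (fun r : (τ2.comp τ3.ker.subtype).range =>
            (⟨(r : F), hmap r⟩ : {b : F // ∃ a, τ3 a = 0 ∧ τ2 a = b})) ?_
        intro r r' hrr
        have h1 : (r : F) = (r' : F) := Subtype.mk_eq_mk.1 hrr
        exact Subtype.ext h1
      · rw [← hqN]
        refine Nat.card_le_card_of_injective
          (fun r : (τ2.comp τ3.ker.subtype).ker => τ1 ((r : τ3.ker) : A)) ?_
        rintro ⟨⟨a, ha⟩, ha2⟩ ⟨⟨b, hb⟩, hb2⟩ hab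
        have h1 : τ1 a = τ1 b := hab
        have h2 : τ2 a = 0 := ha2
        have h3 : τ2 b = 0 := hb2
        have h4 : τ3 a = 0 := ha
        have h5 : τ3 b = 0 := hb
        have h6 : a - b = 0 := hinj (a - b) (by rw [map_sub, h1, sub_self])
          (by rw [map_sub, h2, h3, sub_self]) (by rw [map_sub, h4, h5, sub_self])
        have h7 : a = b := sub_eq_zero.1 h6
        subst h7
        rfl
    have hAc : Nat.card A ≤ Sc ^ 2 * q := by
      rw [S4_card τ3]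
      calc Nat.card τ3.range * Nat.card τ3.ker ≤ Sc * (Sc * q) := Nat.mul_le_mul hR hker
        _ = Sc ^ 2 * q := by ring
    by_cases hS : Sc ^ 2 ≤ q
    · have h1 : Nat.card Φ * Nat.card A ≤ q ^ 3 := by
        calc Nat.card Φ * Nat.card A ≤ q * (q * q) :=
              Nat.mul_le_mul hΦq (hAc.trans (Nat.mul_le_mul_right _ hS))
          _ = q ^ 3 := by ring
      calc (Nat.card Φ * Nat.card A) ^ 2 ≤ (q ^ 3) ^ 2 := Nat.pow_le_pow_left h1 2
        _ = q ^ 6 := by ring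
        _ ≤ q ^ 7 := Nat.pow_le_pow_right (by omega) (by omega)
    · have hS' : Fintype.card F < Nat.card {b : F // ∃ a, τ3 a = 0 ∧ τ2 a = b} ^ 2 := by
        rw [← hqdef, ← hSc]
        omega
      have hP := S3a (hqdef ▸ hq) Φ τ1 τ2 τ3 Γ C α hinj μ hμ hrel hS'
      rw [← hqdef] at hP
      by_cases hAq : Nat.card A = q ^ 3
      · have h3 := S3b Φ τ1 τ2 τ3 Γ C α hinj μ hμ hrel (hqdef ▸ hAq)
        calc (Nat.card Φ * Nat.card A) ^ 2 ≤ (3 * q ^ 3) ^ 2 :=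
              Nat.pow_le_pow_left (Nat.mul_le_mul h3 hA3) 2
          _ = 9 * q ^ 6 := by ring
          _ ≤ q * q ^ 6 := Nat.mul_le_mul_right _ hq
          _ = q ^ 7 := by ring
      · obtain ⟨n, _, hn⟩ := FiniteField.card F 3
        have hqn : q ^ 3 = 3 ^ (3 * (n : ℕ)) := by
          rw [hqdef, hn, ← pow_mul]
          congr 1
          ring
        rw [hqn] at hdvd
        obtain ⟨k, hk, hAk⟩ := (Nat.dvd_prime_pow Nat.prime_three).1 hdvd
        have hk2 : k ≠ 3 * (n : ℕ) := by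
          intro h
          exact hAq (by rw [hAk, h, hqn])
        have h3 : 3 * Nat.card A ≤ q ^ 3 := by
          rw [hAk, hqn, ← pow_succ']
          exact Nat.pow_le_pow_right (by norm_num) (by omega)
        have h4 : 9 * (Nat.card Φ * Nat.card A) ^ 2 ≤ 3 * q ^ 7 := by
          calc 9 * (Nat.card Φ * Nat.card A) ^ 2 = Nat.card Φ ^ 2 * (3 * Nat.card A) ^ 2 := by ring
            _ ≤ (3 * q) * (q ^ 3) ^ 2 := Nat.mul_le_mul hP (Nat.pow_le_pow_left h3 2)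
            _ = 3 * q ^ 7 := by ring
        omega
  · push Not at hΦ
    have h1 : Nat.card Φ = 1 := by
      rw [AddSubgroup.card_eq_one, AddSubgroup.eq_bot_iff_forall]
      exact hΦ
    rw [h1, one_mul]
    calc Nat.card A ^ 2 ≤ (q ^ 3) ^ 2 := Nat.pow_le_pow_left hA3 2
      _ = q ^ 6 := by ring
      _ ≤ q ^ 7 := Nat.pow_le_pow_right (by omega) (by omega)

end Pool.Agent.LibBT65
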