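import Pool.Agent.LibBT65.S2
import Pool.Agent.LibBT65.S4

set_option autoImplicit false

/-!
Row P3 (algebra; cites S2, S4 as stated). The abstract situation in characteristic 3.

`S2` gives `e₁ e₂ e₃ μ φ`. Let `Φ` be the range of `φ` (an additive subgroup of `F`),
`A` the additive subgroup `{T x | x ∈ E}` of `X →ₗ[F] X` (`T (x y) = T x + T y`; `T 1 = 0`,
`T (x⁻¹) = - T x`). `x ↦ T x` is injective on `E` (if `T x = T y` then `T (x y⁻¹) = 0`, which kills the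
isotropic `e₁`, `hNV`). So `|A| = |E|`, and `|G| = |ker| * |Φ|` for the kernel of `φ`, which is in
`ker h ≤ E` (`φ g = 0 → h g = 1`): `|G| ≤ |Φ| |A|`. Coordinates of `S4`, for `S ∈ A`:
`τ1 S = β (S e₁) e₃ / μ`, `τ2 S = - β (S e₁) e₂ / μ`, `τ3 S = β (S e₁) e₁ / μ`
(so `S e₁ = τ1 e₁ + τ2 e₂ + τ3 e₃`), `Γ S = β (S e₃) e₃`, `C S = β (S e₂) e₂ + β (S e₁) e₃`,
`α S = - 2 β (S e₂) e₃`. `hinj`: if all coordinates vanish then `S e₁ = 0`, `S = T x`, so `x = 1`.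
`hcl`, `hrel`: for `t = φ g`, `S = T x`, the element `a' = T (g x g⁻¹ x⁻¹) = H S H⁻¹ - S`, `H = h g`:
`a' e₁ = H (S e₁) - S e₁ = τ2 t e₁ + τ3 (t e₂ + t^2/2 e₁)`; so `τ3 a' = 0`, `τ2 a' = t τ3 S`, and if
`τ3 S = 0`: `τ1 a' = t τ2 S`. `Γ a' = β (S H⁻¹ e₃) (H⁻¹ e₃) - β (S e₃) e₃` (isometry), with
`H⁻¹ e₃ = h g⁻¹ e₃ = e₃ - t e₂ + t^2/2 e₁`; by self-adjointness it is
`- 2 t β (S e₂) e₃ + t^2 (β (S e₂) e₂ + β (S e₁) e₃) - t^3 β (S e₁) e₂ + t^4/4 β (S e₁) e₁`, and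
`β (S e₁) e₂ = - μ τ2`, `β (S e₁) e₁ = μ τ3 = 0`.
-/

namespace Pool.Agent.LibBT65

open Module

theorem P3 {F X G : Type*} [Field F] [Fintype F] [AddCommGroup X] [Module F X]
    [CharP F 3] (hq : 9 ≤ Fintype.card F) (two : (2 : F) ≠ 0)
    (β : X →ₗ[F] X →ₗ[F] F) (hsymm : ∀ x y, β x y = β y x)
    (hnd : ∀ x, (∀ y, β x y = 0) → x = 0)
    (hd : finrank F X = 3) [Group G] [Finite G] (hG : IsPGroup 3 G) (h : G →* (X ≃ₗ[F] X))
    (hiso : ∀ g x y, β (h g x) (h g y) = β x y) (E : Subgroup G) [E.Normal]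
    (T : G → (X →ₗ[F] X)) (hadd : ∀ x ∈ E, ∀ y ∈ E, T (x * y) = T x + T y)
    (hequiv : ∀ g, ∀ x ∈ E, ∀ v, T (g * x * g⁻¹) v = h g (T x ((h g)⁻¹ v)))
    (hsa : ∀ x ∈ E, ∀ v w, β (T x v) w = β v (T x w))
    (hNV : ∀ x ∈ E, ∀ e, e ≠ 0 → β e e = 0 → T x e = 0 → x = 1)
    (hker : ∀ g, h g = 1 → g ∈ E) (hne : ∃ g, h g ≠ 1) :
    Nat.card G ^ 2 ≤ Fintype.card F ^ 7 := by
  classical
  obtain ⟨e₁, e₂, e₃, μ, φ, hμ, b11, b12, b13, b22, b23, b33, hφ, he1, he2, he3, hφ0, hexp⟩ :=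
    S2 3 two β hsymm hnd hd hG h hiso hne
  have b21 : β e₂ e₁ = 0 := by rw [hsymm]; exact b12
  have b31 : β e₃ e₁ = μ := by rw [hsymm]; exact b13
  have b32 : β e₃ e₂ = 0 := by rw [hsymm]; exact b23
  have e1ne : e₁ ≠ 0 := by
    rintro rfl
    rw [map_zero, LinearMap.zero_apply] at b13
    exact hμ b13.symm
  have T1 : T 1 = 0 := by
    have h1 := hadd 1 E.one_mem 1 E.one_mem
    rw [mul_one] at h1
    exact (left_eq_add.1 h1)
  have Tinv : ∀ x ∈ E, T x⁻¹ = - T x := by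
    intro x hx
    have h1 := hadd x hx x⁻¹ (E.inv_mem hx)
    rw [mul_inv_cancel, T1] at h1
    exact (neg_eq_of_add_eq_zero_right h1.symm).symm
  have φ1 : φ 1 = 0 := by
    have h1 := hφ 1 1
    rw [mul_one] at h1
    exact (left_eq_add.1 h1)
  have φinv : ∀ g, φ g⁻¹ = - φ g := by
    intro g
    have h1 := hφ g g⁻¹
    rw [mul_inv_cancel, φ1] at h1
    exact (neg_eq_of_add_eq_zero_right h1.symm).symm
  -- the group A
  let A : AddSubgroup (X →ₗ[F] X) :=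
    { carrier := {S | ∃ x ∈ E, T x = S}
      add_mem' := by
        rintro _ _ ⟨x, hx, rfl⟩ ⟨y, hy, rfl⟩
        exact ⟨x * y, E.mul_mem hx hy, hadd x hx y hy⟩
      zero_mem' := ⟨1, E.one_mem, T1⟩
      neg_mem' := by
        rintro _ ⟨x, hx, rfl⟩
        exact ⟨x⁻¹, E.inv_mem hx, Tinv x hx⟩ }
  have hAmem : ∀ S, S ∈ A ↔ ∃ x ∈ E, T x = S := fun S => Iff.rfl
  let ψ : E → A := fun x => ⟨T x, x, x.2, rfl⟩
  have hψ : Function.Bijective ψ := by
    constructor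
    · intro x y hxy
      have h1 : T (x : G) = T (y : G) := congrArg Subtype.val hxy
      have h2 : T ((x : G) * (y : G)⁻¹) = 0 := by
        rw [hadd _ x.2 _ (E.inv_mem y.2), Tinv _ y.2, h1, add_neg_cancel]
      have h3 := hNV _ (E.mul_mem x.2 (E.inv_mem y.2)) e₁ e1ne b11 (by rw [h2]; rfl)
      exact Subtype.ext (mul_inv_eq_one.1 h3)
    · rintro ⟨S, x, hx, rfl⟩
      exact ⟨⟨x, hx⟩, rfl⟩
  have hfinA : Finite A := Finite.of_surjective ψ hψ.2
  have hcardA : Nat.card A = Nat.card E := (Nat.card_eq_of_bijective ψ hψ).symm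
  -- the group Φ
  let φ' : Additive G →+ F := AddMonoidHom.mk' (fun g => φ g.toMul) (fun a b => hφ a.toMul b.toMul)
  have hφ' : ∀ g : G, φ' (Additive.ofMul g) = φ g := fun g => rfl
  have hcardG : Nat.card G = Nat.card φ'.ker * Nat.card φ'.range := by
    have h1 := AddSubgroup.card_mul_index φ'.ker
    rw [AddSubgroup.index_ker] at h1
    rw [h1]
    exact Nat.card_congr Additive.ofMul
  have hkerE : Nat.card φ'.ker ≤ Nat.card E := by
    have hm : ∀ x : φ'.ker, (x : Additive G).toMul ∈ E := by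
      intro x
      refine hker _ (hφ0 _ ?_)
      exact x.2
    refine Nat.card_le_card_of_injective (fun x : φ'.ker => (⟨(x : Additive G).toMul, hm x⟩ : E)) ?_
    intro x y hxy
    have h1 : (x : Additive G).toMul = (y : Additive G).toMul := congrArg (fun z : E => (z : G)) hxy
    exact Subtype.ext (Additive.toMul.injective h1)
  -- the coordinates
  let τ1 : A →+ F := AddMonoidHom.mk' (fun S => β ((S : X →ₗ[F] X) e₁) e₃ / μ) (by
    intro a b
    show β (((a : X →ₗ[F] X) + (b : X →ₗ[F] X)) e₁) e₃ / μ = _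
    rw [LinearMap.add_apply, map_add, LinearMap.add_apply, add_div])
  let τ2 : A →+ F := AddMonoidHom.mk' (fun S => -(β ((S : X →ₗ[F] X) e₁) e₂) / μ) (by
    intro a b
    show -(β (((a : X →ₗ[F] X) + (b : X →ₗ[F] X)) e₁) e₂) / μ = _
    rw [LinearMap.add_apply, map_add, LinearMap.add_apply, neg_add, add_div])
  let τ3 : A →+ F := AddMonoidHom.mk' (fun S => β ((S : X →ₗ[F] X) e₁) e₁ / μ) (by
    intro a b
    show β (((a : X →ₗ[F] X) + (b : X →ₗ[F] X)) e₁) e₁ / μ = _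
    rw [LinearMap.add_apply, map_add, LinearMap.add_apply, add_div])
  let Γ : A →+ F := AddMonoidHom.mk' (fun S => β ((S : X →ₗ[F] X) e₃) e₃) (by
    intro a b
    show β (((a : X →ₗ[F] X) + (b : X →ₗ[F] X)) e₃) e₃ = _
    rw [LinearMap.add_apply, map_add, LinearMap.add_apply])
  let C : A →+ F := AddMonoidHom.mk' (fun S => β ((S : X →ₗ[F] X) e₂) e₂ + β ((S : X →ₗ[F] X) e₁) e₃) (by
    intro a b
    show β (((a : X →ₗ[F] X) + (b : X →ₗ[F] X)) e₂) e₂ + β (((a : X →ₗ[F] X) + (b : X →ₗ[F] X)) e₁) e₃ = _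
    simp only [LinearMap.add_apply, map_add]
    ring)
  let α : A →+ F := AddMonoidHom.mk' (fun S => -(2 * β ((S : X →ₗ[F] X) e₂) e₃)) (by
    intro a b
    show -(2 * β (((a : X →ₗ[F] X) + (b : X →ₗ[F] X)) e₂) e₃) = _
    simp only [LinearMap.add_apply, map_add]
    ring)
  have d1 : ∀ S : A, τ1 S = β ((S : X →ₗ[F] X) e₁) e₃ / μ := fun S => rfl
  have d2 : ∀ S : A, τ2 S = -(β ((S : X →ₗ[F] X) e₁) e₂) / μ := fun S => rfl
  have d3 : ∀ S : A, τ3 S = β ((S : X →ₗ[F] X) e₁) e₁ / μ := fun S => rfl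
  have dΓ : ∀ S : A, Γ S = β ((S : X →ₗ[F] X) e₃) e₃ := fun S => rfl
  have dC : ∀ S : A, C S = β ((S : X →ₗ[F] X) e₂) e₂ + β ((S : X →ₗ[F] X) e₁) e₃ := fun S => rfl
  have dα : ∀ S : A, α S = -(2 * β ((S : X →ₗ[F] X) e₂) e₃) := fun S => rfl
  have hSe : ∀ S : A, (S : X →ₗ[F] X) e₁ = τ1 S • e₁ + τ2 S • e₂ + τ3 S • e₃ := by
    intro S
    rw [d1, d2, d3]
    exact hexp _
  -- the commutator
  have hinv1 : ∀ g, (h g)⁻¹ e₁ = e₁ := by
    intro g
    rw [← map_inv]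
    exact he1 g⁻¹
  have hcomm : ∀ g, ∀ S : A, ∃ a' : A, (∀ v, (a' : X →ₗ[F] X) v =
      h g ((S : X →ₗ[F] X) ((h g)⁻¹ v)) - (S : X →ₗ[F] X) v) := by
    rintro g ⟨S, x, hx, rfl⟩
    have hgx : g * x * g⁻¹ ∈ E := Subgroup.Normal.conj_mem inferInstance x hx g
    refine ⟨⟨T (g * x * g⁻¹ * x⁻¹), _, E.mul_mem hgx (E.inv_mem hx), rfl⟩, fun v => ?_⟩
    show T (g * x * g⁻¹ * x⁻¹) v = h g (T x ((h g)⁻¹ v)) - T x v
    rw [hadd _ hgx _ (E.inv_mem hx), Tinv x hx, LinearMap.add_apply, hequiv g x hx, LinearMap.neg_apply,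
      sub_eq_add_neg]
  have ha1 : ∀ g, ∀ S a' : A, (∀ v, (a' : X →ₗ[F] X) v =
      h g ((S : X →ₗ[F] X) ((h g)⁻¹ v)) - (S : X →ₗ[F] X) v) →
      (a' : X →ₗ[F] X) e₁ = (φ g * τ2 S + τ3 S * (φ g ^ 2 / 2)) • e₁ + (τ3 S * φ g) • e₂ := by
    intro g S a' ha
    rw [ha, hinv1, hSe, map_add, map_add, map_smul, map_smul, map_smul, he1, he2, he3]
    module
  have hsaA : ∀ S : A, ∀ v w, β ((S : X →ₗ[F] X) v) w = β ((S : X →ₗ[F] X) w) v := by
    rintro ⟨S, x, hx, rfl⟩ v w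
    show β (T x v) w = β (T x w) v
    rw [hsa x hx, hsymm]
  have hmain := S4 hq φ'.range τ1 τ2 τ3 Γ C α ?_ μ hμ ?_ ?_
  · calc Nat.card G ^ 2 = (Nat.card φ'.ker * Nat.card φ'.range) ^ 2 := by rw [hcardG]
      _ ≤ (Nat.card E * Nat.card φ'.range) ^ 2 := Nat.pow_le_pow_left (Nat.mul_le_mul_right _ hkerE) 2
      _ = (Nat.card φ'.range * Nat.card A) ^ 2 := by rw [hcardA, mul_comm]
      _ ≤ _ := hmain
  · intro a h1 h2 h3
    have h4 := hSe a
    rw [h1, h2, h3, zero_smul, zero_smul, zero_smul, add_zero, add_zero] at h4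
    obtain ⟨S, x, hx, rfl⟩ := a
    have h5 : x = 1 := hNV x hx e₁ e1ne b11 h4
    subst h5
    exact Subtype.ext T1
  · rintro t ⟨g, rfl⟩ a
    obtain ⟨a', ha'⟩ := hcomm g.toMul a
    have h1 := ha1 g.toMul a a' ha'
    have ht : φ' g = φ g.toMul := rfl
    refine ⟨a', ?_, ?_⟩
    · rw [d3, h1]
      simp only [map_add, map_smul, LinearMap.add_apply, LinearMap.smul_apply, b11, b21, smul_zero, add_zero,
        zero_div]
    · rw [d2, h1, ht]
      simp only [map_add, map_smul, LinearMap.add_apply, LinearMap.smul_apply, b12, b22, smul_eq_mul]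
      field_simp
      ring
  · rintro t ⟨g, rfl⟩ a h30
    obtain ⟨a', ha'⟩ := hcomm g.toMul a
    have h1 := ha1 g.toMul a a' ha'
    have ht : φ' g = φ g.toMul := rfl
    rw [h30] at h1
    simp only [zero_mul, add_zero, zero_smul] at h1
    refine ⟨a', ?_, ?_, ?_, ?_⟩
    · rw [d3, h1]
      simp only [map_smul, LinearMap.smul_apply, b11, smul_zero, zero_div]
    · rw [d2, h1]
      simp only [map_smul, LinearMap.smul_apply, b12, smul_zero, neg_zero, zero_div]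
    · rw [d1, h1, ht]
      simp only [map_smul, LinearMap.smul_apply, b13, smul_eq_mul]
      field_simp
    · have h2 : (h g.toMul)⁻¹ e₃ = e₃ + (-φ g.toMul) • e₂ + (φ g.toMul ^ 2 / 2) • e₁ := by
        rw [← map_inv, he3, φinv, neg_sq]
      have h3 : ∀ v w, β (h g.toMul v) w = β v ((h g.toMul)⁻¹ w) := by
        intro v w
        have h4 := hiso g.toMul v ((h g.toMul)⁻¹ w)
        have h5 : h g.toMul ((h g.toMul)⁻¹ w) = w := (h g.toMul).apply_symm_apply w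
        rw [h5] at h4
        exact h4
      have h11 : β ((a : X →ₗ[F] X) e₁) e₁ = 0 := by
        have h6 := d3 a
        rw [h30] at h6
        have h7 := (div_eq_zero_iff.1 h6.symm)
        exact h7.resolve_right hμ
      have h12 : β ((a : X →ₗ[F] X) e₁) e₂ = -(μ * τ2 a) := by
        rw [d2]
        field_simp
      rw [dΓ, ha', map_sub, LinearMap.sub_apply, h3, h2, ht, dC, dα]
      simp only [map_add, map_smul, LinearMap.add_apply, LinearMap.smul_apply, smul_eq_mul]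
      rw [hsaA a e₃ e₂, hsaA a e₃ e₁, hsaA a e₂ e₁, h11, h12]
      field_simp
      ring

end Pool.Agent.LibBT65
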