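import Pool.Agent.LibBT65.A8

set_option autoImplicit false

/-!
Row S1 (second batch: characteristic 3).

`selfadj`: `x, y ∈ EE U K P` commute; then `B (y s - s) (x v - v) = B (x s - s) (y v - v)`.
Proof. (*) For `x ∈ EE`, `k ∈ K`, `v ∈ V`: `B (x k - k) v = - B k (x v - v)`, because
`B (x k - k) v = B (x k) v - B (x k) (x v) = - B (x k) (x v - v) = - B k (x v - v) -
B (x k - k) (x v - v)` and the last term is 0 (`x k - k ∈ U`, `x v - v ∈ K` by L1). Apply (*) with
`k = y s - s ∈ K` (L1): `B ((x-1)(y-1) s) v = - B (y s - s) (x v - v)`; the same with `x` and `y`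
exchanged, and `(x-1)(y-1) s = (y-1)(x-1) s`.
`NV0`: `n = c e - e ∈ K` (L1), `n ∉ U` (L4'), `B n n = 0`; this is the situation of the private lemma
`a8_key` of file A8 (copy it here as a private lemma, with new names), which gives `x = 1`.
-/

namespace Pool.Agent.LibBT65

open Module

variable {F V : Type*} [Field F] [Fintype F] [AddCommGroup V] [Module F V]
  {B : V →ₗ[F] V →ₗ[F] F} {M : Finset (Submodule F V)} {U K : Submodule F V}

private theorem S1_fin (hS : Sys B M) : FiniteDimensional F V := by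
  apply FiniteDimensional.of_finrank_pos
  rw [hS.dimV]
  norm_num

private theorem S1_pow {p : ℕ} {P : Subgroup (V ≃ₗ[F] V)} (hP : IsPGroup p P)
    {g : V ≃ₗ[F] V} (hg : g ∈ P) : ∃ k : ℕ, g ^ (p ^ k) = 1 := by
  obtain ⟨k, hk⟩ := hP ⟨g, hg⟩
  exact ⟨k, by simpa using congrArg Subtype.val hk⟩

/-- the key step: a nontrivial element has a nonzero functional -/
private theorem S1_key (hS : Sys B M) (hb : Base B M U K) (p : ℕ) [Fact p.Prime] [CharP F p]
    {g : V ≃ₗ[F] V} (hg : Aut B M U g) {k : ℕ} (hgk : g ^ (p ^ k) = 1)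
    (hE : ∀ x ∈ K, g x - x ∈ U) {n : V} (hn : n ∈ K) (hnU : n ∉ U) (hnn : B n n = 0)
    (hl : ∀ v, B n (g v - v) = 0) : g = 1 := by
  by_contra hne
  have hfd := S1_fin hS
  obtain ⟨π, hπ, -, -, hπU, -, -⟩ := two_members hS hb
  obtain ⟨T, hT⟩ : ∃ T : V →ₗ[F] V, ∀ v, T v = g v - v :=
    ⟨(g : V →ₗ[F] V) - LinearMap.id, fun v => rfl⟩
  obtain ⟨S, hSd⟩ : ∃ S : (π × U) →ₗ[F] V, ∀ x, S x = T x.1 + x.2 :=
    ⟨(T.domRestrict π).coprod U.subtype, fun x => rfl⟩
  have hinj : Function.Injective S := by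
    rw [← LinearMap.ker_eq_bot, LinearMap.ker_eq_bot']
    rintro ⟨s, u⟩ h
    rw [hSd, hT] at h
    have h1 : g (s : V) - s ∈ U := by
      have : g (s : V) - s = -(u : V) := eq_neg_of_add_eq_zero_left h
      rw [this]
      exact U.neg_mem u.2
    have h2 : (s : V) ∈ K := by
      by_contra hsK
      exact L4' hS hb p hg hgk hE hne hsK h1
    have h3 : (s : V) = 0 := K_inter hS hb hπ hπU s.2 h2
    have h4 : (u : V) = 0 := by
      have h' : g (s : V) - s + (u : V) = 0 := h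
      rw [h3, map_zero, sub_zero, zero_add] at h'
      exact h'
    exact Prod.ext (Subtype.ext h3) (Subtype.ext h4)
  have hr : finrank F (LinearMap.range S) = 6 := by
    rw [LinearMap.finrank_range_of_inj hinj, Module.finrank_prod, hS.dim π hπ, hS.dim U hb.mem]
  obtain ⟨Kn, hKn⟩ : ∃ Kn : Submodule F V, ∀ v, v ∈ Kn ↔ v ∈ K ∧ B n v = 0 :=
    ⟨K ⊓ LinearMap.ker (B n), fun v => by rw [Submodule.mem_inf, LinearMap.mem_ker]⟩
  have hlt : Kn < K := by
    refine lt_of_le_of_ne (fun v hv => ((hKn v).1 hv).1) ?_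
    intro h
    apply hnU
    apply K_perp hS hb
    intro v hv
    rw [← h] at hv
    exact ((hKn v).1 hv).2
  have h6 : finrank F Kn ≤ 6 := by
    have h1 := Submodule.finrank_lt_finrank_of_lt hlt
    rw [K_dim hS hb] at h1
    omega
  have hle : LinearMap.range S ≤ Kn := by
    rintro _ ⟨⟨s, u⟩, rfl⟩
    rw [hSd, hKn, hT]
    refine ⟨K.add_mem (L1 hS hb p hg hgk hE _) (U_le_K hS hb u.2), ?_⟩
    rw [map_add, hl, zero_add]
    exact (hb.perp n).1 hn u u.2
  have heq : LinearMap.range S = Kn := by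
    apply Submodule.eq_of_le_of_finrank_le hle
    rw [hr]
    exact h6
  have hmem : n ∈ LinearMap.range S := by
    rw [heq, hKn]
    exact ⟨hn, hnn⟩
  obtain ⟨⟨s, u⟩, hsu⟩ := hmem
  rw [hSd, hT] at hsu
  have hsu' : g (s : V) - s = n - u := eq_sub_of_add_eq hsu
  have h5 : (s : V) ∈ K := by
    apply L5' hS hb p hg hgk hE hne
    intro v
    have h8 : B (n - (u : V)) (g v - v) = B n (g v - v) - B (u : V) (g v - v) := by
      exact LinearMap.map_sub₂ B n (u : V) (g v - v)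
    rw [hsu', h8, hl, zero_sub, neg_eq_zero, hS.symm]
    exact (hb.perp _).1 (L1 hS hb p hg hgk hE v) u u.2
  apply hnU
  have h7 := U.add_mem (hE _ h5) u.2
  rw [hsu', sub_add_cancel] at h7
  exact h7


private theorem S1_star (hS : Sys B M) (hb : Base B M U K) (p : ℕ) [Fact p.Prime] [CharP F p]
    (P : Subgroup (V ≃ₗ[F] V)) (hP : IsPGroup p P) (hA : ∀ g ∈ P, Aut B M U g)
    {x : V ≃ₗ[F] V} (hx : x ∈ EE U K P) {k : V} (hk : k ∈ K) (v : V) :
    B (x k - k) v = - B k (x v - v) := by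
  obtain ⟨m, hm⟩ := S1_pow hP hx.1
  have h1 : x v - v ∈ K := L1 hS hb p (hA x hx.1) hm hx.2.2 v
  have h2 : x k - k ∈ U := hx.2.2 k hk
  have h3 : B (x k - k) (x v - v) = 0 := by
    rw [hS.symm]
    exact (hb.perp _).1 h1 _ h2
  have h4 : B (x k) (x v) = B k v := (hA x hx.1).iso k v
  have h5 : B (x k - k) (x v - v) = B (x k) (x v) - B (x k) v - (B k (x v) - B k v) := by
    rw [LinearMap.map_sub₂, map_sub, map_sub]
  have h6 : B (x k - k) v = B (x k) v - B k v := by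
    rw [LinearMap.map_sub₂]
  have h7 : B k (x v - v) = B k (x v) - B k v := by rw [map_sub]
  rw [h6, h7]
  rw [h5, h4] at h3
  linear_combination (-1 : F) * h3

theorem selfadj (hS : Sys B M) (hb : Base B M U K) (p : ℕ) [Fact p.Prime] [CharP F p]
    (P : Subgroup (V ≃ₗ[F] V)) (hP : IsPGroup p P) (hA : ∀ g ∈ P, Aut B M U g)
    {x y : V ≃ₗ[F] V} (hx : x ∈ EE U K P) (hy : y ∈ EE U K P) (hxy : ∀ v, x (y v) = y (x v))
    (s v : V) : B (y s - s) (x v - v) = B (x s - s) (y v - v) := by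
  obtain ⟨m, hm⟩ := S1_pow hP hx.1
  obtain ⟨m', hm'⟩ := S1_pow hP hy.1
  have h1 : x s - s ∈ K := L1 hS hb p (hA x hx.1) hm hx.2.2 s
  have h2 : y s - s ∈ K := L1 hS hb p (hA y hy.1) hm' hy.2.2 s
  have h3 := S1_star hS hb p P hP hA hx h2 v
  have h4 := S1_star hS hb p P hP hA hy h1 v
  have h5 : x (y s - s) - (y s - s) = y (x s - s) - (x s - s) := by
    rw [map_sub, map_sub, hxy]
    abel
  rw [h5, h4] at h3
  exact (neg_injective h3).symm

theorem NV0 (hS : Sys B M) (hb : Base B M U K) (p : ℕ) [Fact p.Prime] [CharP F p]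
    (P : Subgroup (V ≃ₗ[F] V)) (hP : IsPGroup p P) (hA : ∀ g ∈ P, Aut B M U g)
    {c : V ≃ₗ[F] V} (hc : c ∈ EE U K P) (hc1 : c ≠ 1) {e : V} (he : e ∉ K)
    (hee : B (c e - e) (c e - e) = 0) {x : V ≃ₗ[F] V} (hx : x ∈ EE U K P)
    (h0 : ∀ v, B (c e - e) (x v - v) = 0) : x = 1 := by
  obtain ⟨m, hm⟩ := S1_pow hP hc.1
  obtain ⟨m', hm'⟩ := S1_pow hP hx.1
  have hn : c e - e ∈ K := L1 hS hb p (hA c hc.1) hm hc.2.2 e
  have hnU : c e - e ∉ U := L4' hS hb p (hA c hc.1) hm hc.2.2 hc1 he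
  exact S1_key hS hb p (hA x hx.1) hm' hx.2.2 hn hnU hee h0

end Pool.Agent.LibBT65
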