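import Pool.Agent.LibBT65.C
import Pool.Agent.LibBT65.S1
import Pool.Agent.LibBT65.P3

set_option autoImplicit false

/-!
Row C3. Characteristic 3 version of `C` (file C, proven: ADAPT its proof). `|P|^2 ≤ q^7`, `q ≥ 9`.

Cases `EE` trivial (`A7`) and `P ≤ EE` (`L6`): `|P| ≤ q^3`, `q^6 ≤ q^7`. Otherwise the same `c`, `h`,
`β`, `T` as in the proof of `C`; `hsa`: `β (T x v) w = B (x v - v) (c w - w) =
B (c v - v) (x w - w) = β v (T x w)` by `selfadj` (`x` and `c` commute: `hcomm`) and symmetry of `B`.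
`hNV`: `e = mk v`, `v ∉ K`; `β e e = B (c v - v) (c v - v) = 0`; `T x e = 0` gives
`B (c v - v) (x w - w) = β e (T x (mk w)) = β (T x e) (mk w) = 0` for all `w`, so `x = 1` by `NV0`.
`hker`: `B1`, as in `C`. Then `P3`. (`Fact (Nat.Prime 3)` is an instance.)
-/

namespace Pool.Agent.LibBT65

open Module

variable {F V : Type*} [Field F] [Fintype F] [AddCommGroup V] [Module F V]
  {B : V →ₗ[F] V →ₗ[F] F} {M : Finset (Submodule F V)} {U K : Submodule F V}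

private theorem pow_of3 (p : ℕ) {P : Subgroup (V ≃ₗ[F] V)} (hP : IsPGroup p P) {g : V ≃ₗ[F] V}
    (hg : g ∈ P) : ∃ k : ℕ, g ^ (p ^ k) = 1 := by
  obtain ⟨k, hk⟩ := hP ⟨g, hg⟩
  exact ⟨k, congrArg Subtype.val hk⟩

private theorem UK3 (hS : Sys B M) (hb : Base B M U K) {u k : V} (hu : u ∈ U) (hk : k ∈ K) :
    B u k = 0 := by
  rw [hS.symm]
  exact (hb.perp k).1 hk u hu

theorem C3 (hS : Sys B M) (hb : Base B M U K) [CharP F 3] (hq : 9 ≤ Fintype.card F)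
    (P : Subgroup (V ≃ₗ[F] V)) (hP : IsPGroup 3 P) (hA : ∀ g ∈ P, Aut B M U g) :
    Nat.card P ^ 2 ≤ Fintype.card F ^ 7 := by
  classical
  have h36 : ∀ n : ℕ, n ≤ Fintype.card F ^ 3 → n ^ 2 ≤ Fintype.card F ^ 7 := by
    intro n hn
    calc n ^ 2 ≤ (Fintype.card F ^ 3) ^ 2 := Nat.pow_le_pow_left hn 2
      _ = Fintype.card F ^ 6 := by rw [← pow_mul]
      _ ≤ Fintype.card F ^ 7 := Nat.pow_le_pow_right (by omega) (by norm_num)
  by_cases hE : ∀ g ∈ EE U K P, g = 1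
  · exact h36 _ (A7 hS hb 3 P hP hA hE)
  have hfd : FiniteDimensional F V := by
    apply FiniteDimensional.of_finrank_pos
    rw [hS.dimV]
    norm_num
  have hfin : Finite V := Module.finite_of_finite F
  have hfinE : Finite (V ≃ₗ[F] V) :=
    Finite.of_injective (fun g : V ≃ₗ[F] V => (g : V → V)) DFunLike.coe_injective
  by_cases hall : ∀ g ∈ P, g ∈ EE U K P
  · have h6 := L6 hS hb 3 P hP hA
    have h7 : Nat.card P ≤ Nat.card (EE U K P) := by
      apply Nat.card_le_card_of_injective (fun g : P => (⟨g.1, hall g.1 g.2⟩ : EE U K P))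
      intro a b hab
      exact Subtype.ext (congrArg (fun z : EE U K P => z.1) hab)
    exact h36 _ (h7.trans h6)
  push Not at hall
  obtain ⟨g0, hg0, hg0E⟩ := hall
  obtain ⟨c, hc, hc1, hcomm⟩ := EE_central hS hb 3 P hP hA hE
  obtain ⟨h, hh⟩ := exists_h hS hb P hA
  obtain ⟨β, hβ, hβs, hβn⟩ := exists_beta hS hb 3 P hP hA hc hc1
  have hT0 : ∀ x : P, ∃ T : (V ⧸ K) →ₗ[F] (V ⧸ K), (x : V ≃ₗ[F] V) ∈ EE U K P →
      ∀ v w : V, β (T (Submodule.Quotient.mk v)) (Submodule.Quotient.mk w) =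
        B ((x : V ≃ₗ[F] V) v - v) (c w - w) := by
    intro x
    by_cases hx : (x : V ≃ₗ[F] V) ∈ EE U K P
    · obtain ⟨T, hT⟩ := exists_T hS hb 3 P hP hA hc hc1 hx
      exact ⟨T, fun _ => hT β hβ⟩
    · exact ⟨0, fun h => absurd h hx⟩
  choose T hT using hT0
  have hcK : ∀ v, c v - v ∈ K := by
    obtain ⟨k, hk⟩ := pow_of3 3 hP hc.1
    exact fun v => L1 hS hb 3 (hA c hc.1) hk hc.2.2 v
  have hxK : ∀ x ∈ EE U K P, ∀ v, x v - v ∈ K := by
    intro x hx v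
    obtain ⟨k, hk⟩ := pow_of3 3 hP hx.1
    exact L1 hS hb 3 (hA x hx.1) hk hx.2.2 v
  have hiso : ∀ (g : P) x y, β (h g x) (h g y) = β x y := by
    intro g x y
    obtain ⟨v, rfl⟩ := Submodule.Quotient.mk_surjective K x
    obtain ⟨w, rfl⟩ := Submodule.Quotient.mk_surjective K y
    rw [hh, hh, hβ, hβ, ← hcomm g g.2, ← hcomm g g.2, ← map_sub, ← map_sub, (hA g g.2).iso]
  have hext : ∀ x y : V ⧸ K, (∀ w : V, β x (Submodule.Quotient.mk w) =
      β y (Submodule.Quotient.mk w)) → x = y := by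
    intro x y hxy
    have h0 : x - y = 0 := by
      apply hβn
      intro z
      obtain ⟨w, rfl⟩ := Submodule.Quotient.mk_surjective K z
      rw [map_sub, LinearMap.sub_apply, hxy w, sub_self]
    exact sub_eq_zero.1 h0
  set E : Subgroup P := (EE U K P).subgroupOf P with hEdef
  have hmem : ∀ x : P, x ∈ E ↔ (x : V ≃ₗ[F] V) ∈ EE U K P := fun x => Subgroup.mem_subgroupOf
  have hnorm : E.Normal := by
    constructor
    intro x hx g
    rw [hmem] at hx ⊢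
    exact EE_conj hS hb P hA g.2 hx
  have hadd : ∀ x ∈ E, ∀ y ∈ E, T (x * y) = T x + T y := by
    intro x hx y hy
    have hxE := (hmem x).1 hx
    have hyE := (hmem y).1 hy
    have hxy := (hmem (x * y)).1 (E.mul_mem hx hy)
    apply LinearMap.ext
    intro z
    obtain ⟨v, rfl⟩ := Submodule.Quotient.mk_surjective K z
    apply hext
    intro w
    rw [hT _ hxy, LinearMap.add_apply, map_add, LinearMap.add_apply, hT _ hxE, hT _ hyE]
    have h1 : B ((x : V ≃ₗ[F] V) ((y : V ≃ₗ[F] V) v - v) - ((y : V ≃ₗ[F] V) v - v)) (c w - w) = 0 :=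
      UK3 hS hb (hxE.2.2 _ (hxK _ hyE v)) (hcK w)
    have h2 : ((x * y : P) : V ≃ₗ[F] V) v - v =
        ((x : V ≃ₗ[F] V) ((y : V ≃ₗ[F] V) v - v) - ((y : V ≃ₗ[F] V) v - v)) +
          (((x : V ≃ₗ[F] V) v - v) + ((y : V ≃ₗ[F] V) v - v)) := by
      have h3 : ((x * y : P) : V ≃ₗ[F] V) v = (x : V ≃ₗ[F] V) ((y : V ≃ₗ[F] V) v) := rfl
      rw [h3, map_sub]
      abel
    rw [h2, map_add, LinearMap.add_apply, h1, zero_add, map_add, LinearMap.add_apply]
  have hinv : ∀ (g : P) (v : V), (h g)⁻¹ (Submodule.Quotient.mk v) =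
      (Submodule.Quotient.mk (((g⁻¹ : P) : V ≃ₗ[F] V) v) : V ⧸ K) := by
    intro g v
    rw [← map_inv, hh]
  have hgg : ∀ (g : P) (v : V), (g : V ≃ₗ[F] V) (((g⁻¹ : P) : V ≃ₗ[F] V) v) = v := by
    intro g v
    exact (g : V ≃ₗ[F] V).apply_symm_apply v
  have hequiv : ∀ g, ∀ x ∈ E, ∀ v, T (g * x * g⁻¹) v = h g (T x ((h g)⁻¹ v)) := by
    intro g x hx z
    have hxE := (hmem x).1 hx
    have hgx := (hmem (g * x * g⁻¹)).1 (hnorm.conj_mem x hx g)
    obtain ⟨v, rfl⟩ := Submodule.Quotient.mk_surjective K z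
    apply hext
    intro w
    rw [hT _ hgx, hinv]
    have h1 : (Submodule.Quotient.mk w : V ⧸ K) =
        h g (Submodule.Quotient.mk (((g⁻¹ : P) : V ≃ₗ[F] V) w)) := by
      rw [hh, hgg]
    rw [h1, hiso, hT _ hxE]
    have h2 : ((g * x * g⁻¹ : P) : V ≃ₗ[F] V) v - v =
        (g : V ≃ₗ[F] V) ((x : V ≃ₗ[F] V) (((g⁻¹ : P) : V ≃ₗ[F] V) v) -
          ((g⁻¹ : P) : V ≃ₗ[F] V) v) := by
      have h3 : ((g * x * g⁻¹ : P) : V ≃ₗ[F] V) v =
        (g : V ≃ₗ[F] V) ((x : V ≃ₗ[F] V) (((g⁻¹ : P) : V ≃ₗ[F] V) v)) := rfl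
      rw [map_sub, hgg, h3]
    have h4 : c w - w = (g : V ≃ₗ[F] V) (c (((g⁻¹ : P) : V ≃ₗ[F] V) w) -
        ((g⁻¹ : P) : V ≃ₗ[F] V) w) := by
      rw [map_sub, hcomm g g.2, hgg]
    rw [h2, h4, (hA g g.2).iso]
  have hxc : ∀ x ∈ EE U K P, ∀ v, x (c v) = c (x v) := fun x hx => hcomm x hx.1
  have hsa : ∀ x ∈ E, ∀ v w, β (T x v) w = β v (T x w) := by
    intro x hx z z'
    have hxE := (hmem x).1 hx
    obtain ⟨v, rfl⟩ := Submodule.Quotient.mk_surjective K z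
    obtain ⟨w, rfl⟩ := Submodule.Quotient.mk_surjective K z'
    rw [hT _ hxE, hβs (Submodule.Quotient.mk v), hT _ hxE, hS.symm ((x : V ≃ₗ[F] V) w - w)]
    exact (selfadj hS hb 3 P hP hA hxE hc (hxc x hxE) v w).symm
  have hNV : ∀ x ∈ E, ∀ e, e ≠ 0 → β e e = 0 → T x e = 0 → x = 1 := by
    intro x hx e he hee h0
    have hxE := (hmem x).1 hx
    obtain ⟨v, rfl⟩ := Submodule.Quotient.mk_surjective K e
    have hv : v ∉ K := fun hK => he ((Submodule.Quotient.mk_eq_zero K).2 hK)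
    rw [hβ] at hee
    apply Subtype.ext
    apply NV0 hS hb 3 P hP hA hc hc1 hv hee hxE
    intro w
    have h1 := hT x hxE w v
    rw [hsa x hx, h0, map_zero] at h1
    rw [hS.symm]
    exact h1.symm
  have hker : ∀ g : P, h g = 1 → g ∈ E := by
    intro g hg
    rw [hmem]
    apply B1 hS hb 3 P hP hA hc hc1 hcomm g.2
    intro v
    have h1 := hh g v
    rw [hg] at h1
    rw [← Submodule.Quotient.eq]
    exact h1.symm
  have hne : ∃ g, h g ≠ 1 := ⟨⟨g0, hg0⟩, fun h1 => hg0E ((hmem _).1 (hker _ h1))⟩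
  exact P3 hq hS.two β hβs hβn (finrank_quot hS hb) hP h hiso E T hadd hequiv hsa hNV hker hne

end Pool.Agent.LibBT65
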