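import Mathlib

set_option autoImplicit false

/-!
The model of the polar space `Q^+(9,q)` used in the frozen statement S09771, and the symmetries.
-/

namespace Pool.Agent.LibBT65

/-- The vector space of dimension 10 over `F`. -/
abbrev Sp (F : Type*) : Type _ := (Fin 5 → F) × (Fin 5 → F)

/-- The hyperbolic quadratic form. -/
def Q {F : Type*} [Field F] (v : Sp F) : F := ∑ i : Fin 5, v.1 i * v.2 i

/-- Its polar form. -/
def polar {F : Type*} [Field F] (v w : Sp F) : F :=
  ∑ i : Fin 5, (v.1 i * w.2 i + w.1 i * v.2 i)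

/-- `M` is a 2-system of `Q^+(9,q)` with the BLT property: the conditions of the frozen statement
S09771. -/
structure BLTSystem {F : Type*} [Field F] [Fintype F] (M : Finset (Submodule F (Sp F))) : Prop where
  /-- there are `q^4 + 1` members -/
  card : M.card = Fintype.card F ^ 4 + 1
  /-- the members are totally singular planes -/
  sing : ∀ π ∈ M, Module.finrank F π = 3 ∧ ∀ v ∈ π, Q v = 0
  /-- no point of a member is collinear with all points of another one -/
  opp : ∀ π ∈ M, ∀ π' ∈ M, π ≠ π' → ∀ v ∈ π', (∀ w ∈ π, polar v w = 0) → v = 0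
  /-- no totally singular line meets three members -/
  blt : ∀ L : Submodule F (Sp F), Module.finrank F L = 2 → (∀ v ∈ L, Q v = 0) →
    ∀ a ∈ M, ∀ b ∈ M, ∀ c ∈ M, a ≠ b → a ≠ c → b ≠ c →
      ¬ (L ⊓ a ≠ ⊥ ∧ L ⊓ b ≠ ⊥ ∧ L ⊓ c ≠ ⊥)

/-- The permutation `g` of the vectors is a symmetry of `M`: it is semilinear for some automorphism
`σ` of `F`, it preserves `Q` up to `σ` and a scalar, and it maps every member of `M` onto a member. -/
structure Symmetry {F : Type*} [Field F] (M : Finset (Submodule F (Sp F)))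
    (g : Equiv.Perm (Sp F)) : Prop where
  add : ∀ v w, g (v + w) = g v + g w
  semi : ∃ σ : F ≃+* F, (∀ (a : F) (v : Sp F), g (a • v) = σ a • g v) ∧
    ∃ c : F, ∀ v, Q (g v) = c * σ (Q v)
  pres : ∀ π ∈ M, ∃ π' ∈ M, ∀ v, v ∈ π ↔ g v ∈ π'

end Pool.Agent.LibBT65
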