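import Pool.Agent.LibBT65.Defs
import Pool.Agent.LibBT65.Model

set_option autoImplicit false

/-!
Row D1. The model satisfies the conditions `Sys`.

`bil` is the polar form as a bilinear map (given). `sys`: `symm` by commutativity; `nondeg`: test with
the basis vectors `(0, Pi.single i 1)`, `(Pi.single i 1, 0)`; `dimV = 5 + 5`; `sing`:
`polar v w = Q (v + w) - Q v - Q w`; `opp`, `card`, `dim` are conditions of `BLTSystem`; `ind`: members
are disjoint (`opp` and `sing`: a common vector `v` is orthogonal to all of `π`). Let `x + y + z = 0`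
with `x ∈ a`, `y ∈ b`, `z ∈ c`. If one of them is 0, say `z = 0`, then `x = -y ∈ a ⊓ b`, all 0. If all
are nonzero, `x, y` are independent (`y = t x` would be in `a ⊓ b`), `Q x = Q y = Q (x + y) = 0`, so
the span `L` of `x, y` is totally singular of dimension 2 (`polar x y = 0`) and meets `a`, `b`, `c` in
`x`, `y`, `z ≠ 0`: contradiction to `blt`.
-/

namespace Pool.Agent.LibBT65

open Module

/-- the polar form as a bilinear map -/
def bil (F : Type*) [Field F] : Sp F →ₗ[F] Sp F →ₗ[F] F :=
  LinearMap.mk₂ F (fun v w => polar v w)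
    (by intro a b c; simp only [polar, ← Finset.sum_add_distrib]; apply Finset.sum_congr rfl
        intro i _; simp; ring)
    (by intro t a b; simp only [polar, smul_eq_mul, Finset.mul_sum]; apply Finset.sum_congr rfl
        intro i _; simp; ring)
    (by intro a b c; simp only [polar, ← Finset.sum_add_distrib]; apply Finset.sum_congr rfl
        intro i _; simp; ring)
    (by intro t a b; simp only [polar, smul_eq_mul, Finset.mul_sum]; apply Finset.sum_congr rfl
        intro i _; simp; ring)

theorem bil_apply {F : Type*} [Field F] (v w : Sp F) : bil F v w = polar v w := rfl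

theorem polar_eq {F : Type*} [Field F] (v w : Sp F) : polar v w = Q (v + w) - Q v - Q w := by
  simp only [polar, Q, ← Finset.sum_sub_distrib, Prod.fst_add, Prod.snd_add, Pi.add_apply]
  refine Finset.sum_congr rfl (fun i _ => ?_)
  ring

private theorem polar_comm' {F : Type*} [Field F] (v w : Sp F) : polar v w = polar w v := by
  simp only [polar]
  refine Finset.sum_congr rfl (fun i _ => ?_)
  ring

private theorem Q_neg' {F : Type*} [Field F] (v : Sp F) : Q (-v) = Q v := by
  simp only [Q, Prod.fst_neg, Prod.snd_neg, Pi.neg_apply, neg_mul_neg]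

private theorem Q_comb {F : Type*} [Field F] (s t : F) (v w : Sp F) :
    Q (s • v + t • w) = s ^ 2 * Q v + t ^ 2 * Q w + s * t * polar v w := by
  simp only [Q, polar, Finset.mul_sum, ← Finset.sum_add_distrib, Prod.fst_add, Prod.snd_add,
    Prod.smul_fst, Prod.smul_snd, Pi.add_apply, Pi.smul_apply, smul_eq_mul]
  refine Finset.sum_congr rfl (fun i _ => ?_)
  ring

private theorem polar_single_right {F : Type*} [Field F] (v : Sp F) (i : Fin 5) :
    polar v ((0 : Fin 5 → F), Pi.single i (1 : F)) = v.1 i := by
  simp only [polar]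
  rw [Finset.sum_eq_single i]
  · simp
  · intro b _ hb
    simp [Pi.single_eq_of_ne hb]
  · intro h
    exact absurd (Finset.mem_univ i) h

private theorem polar_single_left {F : Type*} [Field F] (v : Sp F) (i : Fin 5) :
    polar v (Pi.single i (1 : F), (0 : Fin 5 → F)) = v.2 i := by
  simp only [polar]
  rw [Finset.sum_eq_single i]
  · simp
  · intro b _ hb
    simp [Pi.single_eq_of_ne hb]
  · intro h
    exact absurd (Finset.mem_univ i) h

theorem sys {F : Type*} [Field F] [Fintype F] (two : (2 : F) ≠ 0) {M : Finset (Submodule F (Sp F))}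
    (hM : BLTSystem M) : Sys (bil F) M := by
  have hsing : ∀ π ∈ M, ∀ v ∈ π, ∀ w ∈ π, polar v w = 0 := by
    intro π hπ v hv w hw
    rw [polar_eq, (hM.sing π hπ).2 _ (π.add_mem hv hw), (hM.sing π hπ).2 _ hv,
      (hM.sing π hπ).2 _ hw]
    ring
  have hdis : ∀ a ∈ M, ∀ b ∈ M, a ≠ b → ∀ v, v ∈ a → v ∈ b → v = 0 := by
    intro a ha b hb hab v hva hvb
    exact hM.opp a ha b hb hab v hvb (fun w hw => hsing a ha v hva w hw)
  refine ⟨fun v w => polar_comm' v w, ?_, two, ?_, hM.card, fun π hπ => (hM.sing π hπ).1, hsing,
    hM.opp, ?_⟩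
  · intro v hv
    apply Prod.ext
    · funext i
      have h := hv ((0 : Fin 5 → F), Pi.single i (1 : F))
      rw [bil_apply, polar_single_right] at h
      exact h
    · funext i
      have h := hv (Pi.single i (1 : F), (0 : Fin 5 → F))
      rw [bil_apply, polar_single_left] at h
      exact h
  · rw [Module.finrank_prod, Module.finrank_fin_fun]
  · intro a ha b hb c hc hab hac hbc x hx y hy z hz hs
    by_cases hz0 : z = 0
    · subst hz0
      rw [add_zero] at hs
      have hxy : x = -y := eq_neg_of_add_eq_zero_left hs
      have hx0 : x = 0 := hdis a ha b hb hab x hx (by rw [hxy]; exact b.neg_mem hy)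
      refine ⟨hx0, ?_, rfl⟩
      rw [hx0, zero_add] at hs
      exact hs
    by_cases hx0 : x = 0
    · subst hx0
      rw [zero_add] at hs
      have hyz : y = -z := eq_neg_of_add_eq_zero_left hs
      have hy0 : y = 0 := hdis b hb c hc hbc y hy (by rw [hyz]; exact c.neg_mem hz)
      refine ⟨rfl, hy0, ?_⟩
      rw [hy0, zero_add] at hs
      exact hs
    by_cases hy0 : y = 0
    · subst hy0
      rw [add_zero] at hs
      have hxz : x = -z := eq_neg_of_add_eq_zero_left hs
      have hx0' : x = 0 := hdis a ha c hc hac x hx (by rw [hxz]; exact c.neg_mem hz)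
      exact absurd hx0' hx0
    exfalso
    have hxyz : x + y = -z := eq_neg_of_add_eq_zero_left hs
    have hpol : polar x y = 0 := by
      rw [polar_eq, hxyz, Q_neg', (hM.sing c hc).2 z hz, (hM.sing a ha).2 x hx,
        (hM.sing b hb).2 y hy]
      ring
    have hli : LinearIndependent F ![x, y] := by
      rw [LinearIndependent.pair_iff]
      intro s t hst
      have ht : t = 0 := by
        by_contra ht
        have h1 : t • y = -(s • x) := by
          rw [add_comm] at hst
          exact eq_neg_of_add_eq_zero_left hst
        have h2 : y ∈ a := by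
          have : y = t⁻¹ • (t • y) := by rw [smul_smul, inv_mul_cancel₀ ht, one_smul]
          rw [this, h1]
          exact a.smul_mem _ (a.neg_mem (a.smul_mem _ hx))
        exact hy0 (hdis a ha b hb hab y h2 hy)
      subst ht
      rw [zero_smul, add_zero] at hst
      rcases smul_eq_zero.mp hst with h | h
      · exact ⟨h, rfl⟩
      · exact absurd h hx0
    have hrank : Module.finrank F (Submodule.span F (Set.range ![x, y])) = 2 := by
      rw [finrank_span_eq_card hli]
      rfl
    have hmx : x ∈ Submodule.span F (Set.range ![x, y]) :=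
      Submodule.subset_span ⟨0, rfl⟩
    have hmy : y ∈ Submodule.span F (Set.range ![x, y]) :=
      Submodule.subset_span ⟨1, rfl⟩
    have hmz : z ∈ Submodule.span F (Set.range ![x, y]) := by
      have : z = -(x + y) := by rw [hxyz, neg_neg]
      rw [this]
      exact Submodule.neg_mem _ (Submodule.add_mem _ hmx hmy)
    have hQ : ∀ v ∈ Submodule.span F (Set.range ![x, y]), Q v = 0 := by
      intro v hv
      have hr : Set.range ![x, y] = {x, y} := by
        simp [Matrix.range_cons]
        exact Set.pair_comm y x
      rw [hr, Submodule.mem_span_pair] at hv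
      obtain ⟨s, t, rfl⟩ := hv
      rw [Q_comb, (hM.sing a ha).2 x hx, (hM.sing b hb).2 y hy, hpol]
      ring
    have hne : ∀ (p : Submodule F (Sp F)) (v : Sp F),
        v ∈ Submodule.span F (Set.range ![x, y]) → v ∈ p → v ≠ 0 →
        Submodule.span F (Set.range ![x, y]) ⊓ p ≠ ⊥ := by
      intro p v h1 h2 h3 h4
      have h5 : v ∈ Submodule.span F (Set.range ![x, y]) ⊓ p := ⟨h1, h2⟩
      rw [h4, Submodule.mem_bot] at h5
      exact h3 h5
    exact hM.blt _ hrank hQ a ha b hb c hc hab hac hbc
      ⟨hne a x hmx hx hx0, hne b y hmy hy hy0, hne c z hmz hz hz0⟩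

end Pool.Agent.LibBT65
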