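import Pool.Agent.LibBT65.C
import Pool.Agent.LibBT65.D1

set_option autoImplicit false

/-!
Row D2. `linear_bound`: a group `G` of linear similarities preserving `M`: `p^k ∣ |G|` gives
`p^k ∣ q^3` (`q = |F|`, characteristic `p ≥ 5`).

`pgroup_bound`: the case of a `p`-group `P`. Every `g ∈ P` has `g^(p^k) = 1`; `Q (g v) = c * Q v`, so
`Q v = c^(p^k) * Q v`, `c^(p^k) = 1`, `(c - 1)^(p^k) = 0`, `c = 1`; so `g` preserves `Q`, hence the
polar form (`polar_eq`). `P` acts on the `q^4 + 1` members (`MulAction P {π // π ∈ M}`, or the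
pointwise action on `Submodule`), `p` does not divide `q^4 + 1`, so there is a fixed member `U`
(`IsPGroup.nonempty_fixed_point_of_prime_not_dvd_card`). Let `K` be its orthogonal space (the
submodule of the `v` with `polar v u = 0` for all `u ∈ U`). Then `Base (bil F) M U K`,
`Aut (bil F) M U g` for `g ∈ P`; apply `C`.
`linear_bound`: `Sylow.exists_subgroup_card_pow_prime`, a subgroup of order `p^k` (of `G`, map it to
`Sp F ≃ₗ[F] Sp F`), so `p^k ≤ q^3`; `q` is a power of `p`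
(`FiniteField.card`), so `p^k ∣ q^3` (`Nat.pow_dvd_pow_iff_le_right`...).
-/

namespace Pool.Agent.LibBT65

open Module

private theorem d2_Q_pow {F : Type*} [Field F] (g : Sp F ≃ₗ[F] Sp F) (c : F)
    (hc : ∀ v, Q (g v) = c * Q v) (n : ℕ) : ∀ v, Q ((g ^ n) v) = c ^ n * Q v := by
  induction n with
  | zero =>
    intro v
    rw [pow_zero, pow_zero, one_mul]
    rfl
  | succ n ih =>
    intro v
    have h1 : (g ^ (n + 1)) v = g ((g ^ n) v) := by
      rw [pow_succ']
      rfl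
    rw [h1, hc, ih, pow_succ']
    ring

private theorem d2_one {F : Type*} [Field F] (p : ℕ) [Fact p.Prime] [CharP F p]
    (g : Sp F ≃ₗ[F] Sp F) (k : ℕ) (hg : g ^ p ^ k = 1) (c : F) (hc : ∀ v, Q (g v) = c * Q v) :
    c = 1 := by
  have h1 := d2_Q_pow g c hc (p ^ k) (Pi.single 0 1, Pi.single 0 1)
  rw [hg] at h1
  have h2 : Q ((Pi.single 0 1, Pi.single 0 1) : Sp F) = 1 := by
    unfold Q
    simp [Pi.single_apply]
  have h3 : Q ((1 : Sp F ≃ₗ[F] Sp F) ((Pi.single 0 1, Pi.single 0 1) : Sp F)) = 1 := h2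
  rw [h3, h2, mul_one] at h1
  have h4 : (c - 1) ^ p ^ k = 0 := by
    rw [sub_pow_char_pow, one_pow, ← h1, sub_self]
  have h5 : c - 1 = 0 := pow_eq_zero_iff (pow_ne_zero k (Fact.out : p.Prime).ne_zero) |>.mp h4
  exact sub_eq_zero.mp h5

private theorem d2_ne {F : Type*} [Field F] (p : ℕ) [Fact p.Prime] [CharP F p] (n : ℕ)
    (h0 : 0 < n) (h1 : n < p) : (n : F) ≠ 0 := by
  intro h
  have h2 : p ∣ n := (CharP.cast_eq_zero_iff F p n).mp h
  exact absurd (Nat.le_of_dvd h0 h2) (by omega)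

theorem pgroup_bound {F : Type*} [Field F] [Fintype F] (p : ℕ) [Fact p.Prime] [CharP F p]
    (hp : 5 ≤ p) {M : Finset (Submodule F (Sp F))} (hM : BLTSystem M)
    (P : Subgroup (Sp F ≃ₗ[F] Sp F)) (hP : IsPGroup p P)
    (hsim : ∀ g ∈ P, ∃ c : F, ∀ v, Q (g v) = c * Q v)
    (hpres : ∀ g ∈ P, ∀ π ∈ M, π.map ((g : Sp F ≃ₗ[F] Sp F) : Sp F →ₗ[F] Sp F) ∈ M) :
    Nat.card P ≤ Fintype.card F ^ 3 := by
  classical
  have two : (2 : F) ≠ 0 := by
    have := d2_ne (F := F) p 2 (by norm_num) (by omega)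
    exact_mod_cast this
  have three : (3 : F) ≠ 0 := by
    have := d2_ne (F := F) p 3 (by norm_num) (by omega)
    exact_mod_cast this
  have hS := sys two hM
  have hQ : ∀ g ∈ P, ∀ v, Q (g v) = Q v := by
    intro g hg v
    obtain ⟨c, hc⟩ := hsim g hg
    obtain ⟨k, hk⟩ := hP ⟨g, hg⟩
    have hk' : g ^ p ^ k = 1 := by
      have := congrArg Subtype.val hk
      simpa using this
    have hc1 := d2_one p g k hk' c hc
    rw [hc v, hc1, one_mul]
  have hB : ∀ g ∈ P, ∀ v w, bil F (g v) (g w) = bil F v w := by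
    intro g hg v w
    rw [bil_apply, bil_apply, polar_eq, polar_eq, ← map_add, hQ g hg, hQ g hg, hQ g hg]
  letI act : MulAction P {π : Submodule F (Sp F) // π ∈ M} :=
    { smul := fun g π => ⟨π.1.map ((g.1 : Sp F ≃ₗ[F] Sp F) : Sp F →ₗ[F] Sp F),
        hpres g.1 g.2 π.1 π.2⟩
      one_smul := by
        intro π
        apply Subtype.ext
        exact Submodule.map_id π.1
      mul_smul := by
        intro a b π
        apply Subtype.ext
        have h : ((a * b : P).1 : Sp F →ₗ[F] Sp F) =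
            (a.1 : Sp F →ₗ[F] Sp F) ∘ₗ (b.1 : Sp F →ₗ[F] Sp F) := rfl
        change Submodule.map ((a * b : P).1 : Sp F →ₗ[F] Sp F) π.1 = _
        rw [h, Submodule.map_comp]
        rfl }
  have hcard : Nat.card {π : Submodule F (Sp F) // π ∈ M} = Fintype.card F ^ 4 + 1 := by
    rw [← hM.card]
    simp
  obtain ⟨n, -, hn⟩ := FiniteField.card F p
  have hndvd : ¬ p ∣ Nat.card {π : Submodule F (Sp F) // π ∈ M} := by
    rw [hcard]
    intro h
    have h1 : p ∣ Fintype.card F ^ 4 := by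
      rw [hn, ← pow_mul]
      exact dvd_pow_self p (by have := n.pos; positivity)
    have h2 : p ∣ 1 := (Nat.dvd_add_right h1).mp h
    exact (Fact.out : p.Prime).one_lt.ne' (Nat.dvd_one.mp h2)
  obtain ⟨U, hU⟩ := hP.nonempty_fixed_point_of_prime_not_dvd_card
    {π : Submodule F (Sp F) // π ∈ M} hndvd
  obtain ⟨K, hK⟩ : ∃ K : Submodule F (Sp F), ∀ v, v ∈ K ↔ ∀ u ∈ U.1, bil F v u = 0 := by
    refine ⟨{ carrier := {v | ∀ u ∈ U.1, bil F v u = 0}
              add_mem' := ?_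
              zero_mem' := ?_
              smul_mem' := ?_ }, fun v => Iff.rfl⟩
    · intro a b ha hb u hu
      rw [map_add, LinearMap.add_apply, ha u hu, hb u hu, add_zero]
    · intro u _
      rw [map_zero, LinearMap.zero_apply]
    · intro t a ha u hu
      rw [map_smul, LinearMap.smul_apply, ha u hu, smul_zero]
  have hb : Base (bil F) M U.1 K := ⟨U.2, hK⟩
  have hA : ∀ g ∈ P, Aut (bil F) M U.1 g := by
    intro g hg
    refine ⟨hB g hg, hpres g hg, ?_⟩
    have h := hU ⟨g, hg⟩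
    exact congrArg Subtype.val h
  exact C hS hb p three P hP hA

theorem linear_bound {F : Type*} [Field F] [Fintype F] (p : ℕ) [Fact p.Prime] [CharP F p]
    (hp : 5 ≤ p) {M : Finset (Submodule F (Sp F))} (hM : BLTSystem M)
    (G : Subgroup (Sp F ≃ₗ[F] Sp F))
    (hsim : ∀ g ∈ G, ∃ c : F, ∀ v, Q (g v) = c * Q v)
    (hpres : ∀ g ∈ G, ∀ π ∈ M, π.map ((g : Sp F ≃ₗ[F] Sp F) : Sp F →ₗ[F] Sp F) ∈ M)
    (k : ℕ) (hk : p ^ k ∣ Nat.card G) : p ^ k ∣ Fintype.card F ^ 3 := by
  have : Finite (Sp F ≃ₗ[F] Sp F) :=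
    Finite.of_injective (fun g : Sp F ≃ₗ[F] Sp F => (g : Sp F → Sp F)) DFunLike.coe_injective
  obtain ⟨H, hH⟩ := Sylow.exists_subgroup_card_pow_prime p hk
  have hcard : Nat.card (H.map G.subtype) = p ^ k := by
    rw [Subgroup.card_map_of_injective G.subtype_injective, hH]
  have hle := pgroup_bound p hp hM (H.map G.subtype) (IsPGroup.of_card hcard)
    (fun g hg => hsim g (by
      obtain ⟨x, -, rfl⟩ := hg
      exact x.2))
    (fun g hg => hpres g (by
      obtain ⟨x, -, rfl⟩ := hg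
      exact x.2))
  rw [hcard] at hle
  obtain ⟨n, -, hn⟩ := FiniteField.card F p
  rw [hn, ← pow_mul] at hle ⊢
  exact pow_dvd_pow p ((Nat.pow_le_pow_iff_right (Fact.out : p.Prime).one_lt).mp hle)

end Pool.Agent.LibBT65
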