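import Pool.Agent.LibBT65.D2

set_option autoImplicit false

/-!
Row D3. The final theorem, for semilinear groups. `q = p^h`.

`lin_iff`, `sigma`: for `g` with `Symmetry M g` the automorphism `σ` is unique (`Sp F` is nontrivial:
`σ a • g v = σ' a • g v` with `g v ≠ 0`), multiplicative in `g`: a homomorphism `s : G →* (F ≃+* F)`
(`MonoidHom.mk'`), with kernel the set `G₀` of the linear elements. `|G| = |G₀| * |G / G₀|`,
`G / G₀` embeds in `F ≃+* F`, whose order is `h` (`F ≃ₐ[ZMod p] F` has order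
`finrank (ZMod p) F = h`, `IsGalois.card_aut_eq_finrank`; every ring automorphism is `ZMod p`-linear),
so `|G / G₀| ∣ h` (`Subgroup.card_subgroup_dvd_card` for the range). `G₀` is isomorphic to a subgroup
of `Sp F ≃ₗ[F] Sp F` as in `linear_bound` (`Q (g v) = c * Q v`;
`π.map g ∈ M` from `pres`: `π.map g = π'`).
`main1`: linear `G`: `linear_bound`. `main2`: `p^k ∣ |G₀| * r`, `r ∣ h`: write `|G₀| = p^a * m`,
`p ∤ m` (`Nat.exists_eq_pow_mul_and_not_dvd`), `p^a ∣ q^3`, `p^k ∣ p^a * r` (coprimality with `m`), so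
`p^k ∣ q^3 * h`.
`main3`: if the stabiliser `H` of `U` in `G` is transitive on the `q^4` members other than `U` then
`q^4 ∣ |H|` (orbit and stabiliser: `MulAction.card_orbit_mul_card_stabilizer_eq_card_group`,
or `MulAction.IsPretransitive` and `card_dvd`), and `|H| ∣ |G|`, so by `main2` (for `H` or `G`)
`p^(4h) ∣ p^(3h) * h`, `p^h ∣ h`, contradiction to `h < p^h` (`Nat.lt_pow_self`).
-/

namespace Pool.Agent.LibBT65

open Module

theorem card_ringAut {F : Type*} [Field F] [Fintype F] (p : ℕ) [Fact p.Prime] [CharP F p] {h : ℕ}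
    (hq : Fintype.card F = p ^ h) : Nat.card (F ≃+* F) = h := by
  let _ : Algebra (ZMod p) F := ZMod.algebra F p
  have hcom : ∀ (σ : F ≃+* F) (x : ZMod p), σ (algebraMap (ZMod p) F x) = algebraMap (ZMod p) F x := by
    intro σ x
    have h1 : (σ : F →+* F).comp (algebraMap (ZMod p) F) = algebraMap (ZMod p) F :=
      Subsingleton.elim _ _
    exact RingHom.congr_fun h1 x
  let e : (F ≃+* F) ≃ (F ≃ₐ[ZMod p] F) :=
    { toFun := fun σ => AlgEquiv.ofRingEquiv (f := σ) (hcom σ)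
      invFun := fun φ => φ.toRingEquiv
      left_inv := fun σ => by ext x; rfl
      right_inv := fun φ => by ext x; rfl }
  rw [Nat.card_congr e]
  have h1 : Nat.card (F ≃ₐ[ZMod p] F) = finrank (ZMod p) F :=
    IsGalois.card_aut_eq_finrank (ZMod p) F
  rw [h1]
  have h2 : Fintype.card F = Fintype.card (ZMod p) ^ finrank (ZMod p) F :=
    Module.card_eq_pow_finrank
  rw [ZMod.card, hq] at h2
  exact (Nat.pow_right_injective (Fact.out : p.Prime).two_le h2).symm

/-- the automorphism of a semilinear map is unique -/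
private theorem D3_uniq {F : Type*} [Field F] (g : Equiv.Perm (Sp F))
    (hadd : ∀ v w, g (v + w) = g v + g w) {f f' : F → F}
    (h : ∀ (a : F) (v : Sp F), g (a • v) = f a • g v)
    (h' : ∀ (a : F) (v : Sp F), g (a • v) = f' a • g v) (a : F) : f a = f' a := by
  have h0 : g 0 = 0 := by
    have h1 := hadd 0 0
    rw [add_zero] at h1
    have h2 : g 0 + g 0 = g 0 + 0 := by rw [add_zero]; exact h1.symm
    exact add_left_cancel h2
  obtain ⟨v, hv⟩ : ∃ v : Sp F, v ≠ 0 := exists_ne 0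
  have hgv : g v ≠ 0 := by
    intro h1
    rw [← h0] at h1
    exact hv (g.injective h1)
  have h1 : (f a - f' a) • g v = 0 := by
    rw [sub_smul, ← h a v, ← h' a v, sub_self]
  rcases smul_eq_zero.1 h1 with h2 | h2
  · exact sub_eq_zero.1 h2
  · exact absurd h2 hgv

private theorem D3_pres {F : Type*} [Field F] {M : Finset (Submodule F (Sp F))}
    {g : Equiv.Perm (Sp F)} (hg : Symmetry M g) (φ : Sp F ≃ₗ[F] Sp F) (hφ : ∀ v, φ v = g v)
    (π : Submodule F (Sp F)) (hπ : π ∈ M) : π.map (φ : Sp F →ₗ[F] Sp F) ∈ M := by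
  obtain ⟨π', hπ', h⟩ := hg.pres π hπ
  have h1 : π.map (φ : Sp F →ₗ[F] Sp F) = π' := by
    ext w
    constructor
    · rintro ⟨v, hv, rfl⟩
      have h2 := (h v).1 hv
      rw [← hφ] at h2
      exact h2
    · intro hw
      refine ⟨φ.symm w, ?_, φ.apply_symm_apply w⟩
      have h2 : g (φ.symm w) = w := by rw [← hφ, φ.apply_symm_apply]
      exact (h _).2 (by rw [h2]; exact hw)
  rw [h1]
  exact hπ'

/-- the permutation of a linear automorphism -/
private def D3_perm (F : Type*) [Field F] : (Sp F ≃ₗ[F] Sp F) →* Equiv.Perm (Sp F) where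
  toFun φ := φ.toEquiv
  map_one' := rfl
  map_mul' _ _ := rfl

theorem main1 {F : Type*} [Field F] [Fintype F] (p : ℕ) [Fact p.Prime] [CharP F p]
    (hp : 5 ≤ p) {M : Finset (Submodule F (Sp F))} (hM : BLTSystem M)
    (G : Subgroup (Equiv.Perm (Sp F))) (hG : ∀ g ∈ G, Symmetry M g)
    (hlin : ∀ g ∈ G, ∀ (a : F) (v : Sp F), g (a • v) = a • g v)
    (k : ℕ) (hk : p ^ k ∣ Nat.card G) : p ^ k ∣ Fintype.card F ^ 3 := by
  let G' : Subgroup (Sp F ≃ₗ[F] Sp F) := G.comap (D3_perm F)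
  have hG' : ∀ φ, φ ∈ G' ↔ D3_perm F φ ∈ G := fun φ => Iff.rfl
  have hcard : Nat.card G' = Nat.card G := by
    refine Nat.card_eq_of_bijective (fun φ : G' => (⟨D3_perm F φ.1, φ.2⟩ : G)) ⟨?_, ?_⟩
    · intro φ ψ h
      apply Subtype.ext
      ext1 v
      have h1 : D3_perm F φ.1 = D3_perm F ψ.1 := congrArg Subtype.val h
      exact Equiv.congr_fun h1 v
    · rintro ⟨g, hg⟩
      let φ : Sp F ≃ₗ[F] Sp F :=
        { g with
          map_add' := (hG g hg).add
          map_smul' := fun a v => hlin g hg a v }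
      have hφ : D3_perm F φ = g := by
        ext1 v
        rfl
      exact ⟨⟨φ, by rw [hG', hφ]; exact hg⟩, Subtype.ext hφ⟩
  refine linear_bound p hp hM G' ?_ ?_ k (by rw [hcard]; exact hk)
  · intro φ hφ
    have h1 := hG _ ((hG' φ).1 hφ)
    obtain ⟨σ, hσ, c, hc⟩ := h1.semi
    refine ⟨c, fun v => ?_⟩
    have h2 : ∀ a, σ a = a := fun a =>
      D3_uniq (D3_perm F φ) h1.add (f := σ) (f' := fun a => a) hσ (hlin _ ((hG' φ).1 hφ)) a
    have h3 := hc v
    rw [h2] at h3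
    exact h3
  · intro φ hφ π hπ
    exact D3_pres (hG _ ((hG' φ).1 hφ)) φ (fun v => rfl) π hπ

theorem main2 {F : Type*} [Field F] [Fintype F] (p : ℕ) [Fact p.Prime] [CharP F p]
    (hp : 5 ≤ p) {h : ℕ} (hq : Fintype.card F = p ^ h)
    {M : Finset (Submodule F (Sp F))} (hM : BLTSystem M)
    (G : Subgroup (Equiv.Perm (Sp F))) (hG : ∀ g ∈ G, Symmetry M g)
    (k : ℕ) (hk : p ^ k ∣ Nat.card G) : p ^ k ∣ Fintype.card F ^ 3 * h := by
  have hpp : p.Prime := Fact.out
  choose s hs using fun g : G => (hG g.1 g.2).semi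
  have hmul : ∀ g g' : G, s (g * g') = s g * s g' := by
    intro g g'
    ext a
    refine D3_uniq ((g * g' : G) : Equiv.Perm (Sp F)) (hG _ (g * g').2).add
      (f := fun b => s (g * g') b) (f' := fun b => (s g * s g') b) (hs (g * g')).1 ?_ a
    intro a v
    change (g : Equiv.Perm (Sp F)) ((g' : Equiv.Perm (Sp F)) (a • v)) =
      s g (s g' a) • (g : Equiv.Perm (Sp F)) ((g' : Equiv.Perm (Sp F)) v)
    rw [(hs g').1, (hs g).1]
  let S : G →* (F ≃+* F) := MonoidHom.mk' s hmul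
  have hS : ∀ g, S g = s g := fun g => rfl
  let G₀ : Subgroup (Equiv.Perm (Sp F)) := S.ker.map G.subtype
  have hG₀ : ∀ g ∈ G₀, ∃ hg : g ∈ G, s ⟨g, hg⟩ = 1 := by
    rintro _ ⟨g, hg, rfl⟩
    exact ⟨g.2, hg⟩
  have hcard : Nat.card G₀ = Nat.card S.ker :=
    Nat.card_congr (S.ker.equivMapOfInjective G.subtype G.subtype_injective).symm.toEquiv
  have hmain : ∀ a, p ^ a ∣ Nat.card G₀ → p ^ a ∣ Fintype.card F ^ 3 := by
    intro a ha
    refine main1 p hp hM G₀ (fun g hg => hG g (hG₀ g hg).1) ?_ a ha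
    intro g hg b v
    obtain ⟨hg', h1⟩ := hG₀ g hg
    have h2 := (hs ⟨g, hg'⟩).1 b v
    rw [h1] at h2
    exact h2
  have hr : Nat.card S.range ∣ h := by
    rw [← card_ringAut p hq]
    exact Subgroup.card_subgroup_dvd_card _
  have hprod : Nat.card S.ker * Nat.card S.range = Nat.card G := by
    rw [← Subgroup.index_ker, Subgroup.card_mul_index]
  have hne : Nat.card G₀ ≠ 0 := Nat.card_pos.ne'
  obtain ⟨a, m, hm, ham⟩ := Nat.exists_eq_pow_mul_and_not_dvd hne p hpp.ne_one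
  have h1 : p ^ a ∣ Fintype.card F ^ 3 := hmain a ⟨m, ham⟩
  rw [← hprod, ← hcard, ham] at hk
  have h2 : Nat.Coprime (p ^ k) m := (Nat.Prime.coprime_iff_not_dvd hpp).2 hm |>.pow_left k
  have h3 : p ^ k ∣ m * (p ^ a * Nat.card S.range) := by
    have : p ^ a * m * Nat.card S.range = m * (p ^ a * Nat.card S.range) := by ring
    rwa [this] at hk
  exact (h2.dvd_of_dvd_mul_left h3).trans (mul_dvd_mul h1 hr)

theorem main3 {F : Type*} [Field F] [Fintype F] (p : ℕ) [Fact p.Prime] [CharP F p]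
    (hp : 5 ≤ p) {M : Finset (Submodule F (Sp F))} (hM : BLTSystem M)
    (G : Subgroup (Equiv.Perm (Sp F))) (hG : ∀ g ∈ G, Symmetry M g)
    (U : Submodule F (Sp F)) (hU : U ∈ M)
    (htr : ∀ π ∈ M, π ≠ U → ∀ π' ∈ M, π' ≠ U →
      ∃ g ∈ G, (∀ v, v ∈ U ↔ g v ∈ U) ∧ ∀ v, v ∈ π ↔ g v ∈ π') : False := by
  classical
  have hpp : p.Prime := Fact.out
  obtain ⟨h, -, hq⟩ := FiniteField.card F p
  let H : Subgroup (Equiv.Perm (Sp F)) :=
    { carrier := {g | g ∈ G ∧ ∀ v, v ∈ U ↔ g v ∈ U}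
      mul_mem' := by
        rintro a b ⟨ha, ha'⟩ ⟨hb, hb'⟩
        exact ⟨G.mul_mem ha hb, fun v => (hb' v).trans (ha' _)⟩
      one_mem' := ⟨G.one_mem, fun v => Iff.rfl⟩
      inv_mem' := by
        rintro a ⟨ha, ha'⟩
        refine ⟨G.inv_mem ha, fun v => ?_⟩
        have h1 := ha' (a⁻¹ v)
        have h2 : a (a⁻¹ v) = v := a.apply_symm_apply v
        rw [h2] at h1
        exact h1.symm }
  have hH : ∀ g ∈ H, g ∈ G ∧ ∀ v, v ∈ U ↔ g v ∈ U := fun g hg => hg
  have hMcard : (M.erase U).card = Fintype.card F ^ 4 := by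
    rw [Finset.card_erase_of_mem hU, hM.card, Nat.add_sub_cancel]
  have hpos : 0 < (M.erase U).card := by
    rw [hMcard]
    exact pow_pos Fintype.card_pos 4
  obtain ⟨π₀, hπ₀⟩ := Finset.card_pos.1 hpos
  rw [Finset.mem_erase] at hπ₀
  let f : Submodule F (Sp F) → Set (Sp F) := fun π => (π : Set (Sp F))
  have hf : Function.Injective f := SetLike.coe_injective
  have himage : ∀ (g : Equiv.Perm (Sp F)) (π π' : Submodule F (Sp F)),
      (∀ v, v ∈ π ↔ g v ∈ π') → g '' (f π) = f π' := by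
    intro g π π' hg
    ext w
    constructor
    · rintro ⟨v, hv, rfl⟩
      exact (hg v).1 hv
    · intro hw
      refine ⟨g.symm w, (hg _).2 ?_, g.apply_symm_apply w⟩
      rw [g.apply_symm_apply]
      exact hw
  let act : MulAction H (Set (Sp F)) :=
    { smul := fun g A => (g : Equiv.Perm (Sp F)) '' A
      one_smul := fun A => by
        change ((1 : H) : Equiv.Perm (Sp F)) '' A = A
        simp
      mul_smul := fun g g' A => by
        change ((g * g' : H) : Equiv.Perm (Sp F)) '' A =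
          (g : Equiv.Perm (Sp F)) '' ((g' : Equiv.Perm (Sp F)) '' A)
        rw [Set.image_image]
        rfl }
  have hsmul : ∀ (g : H) (A : Set (Sp F)), g • A = (g : Equiv.Perm (Sp F)) '' A := fun g A => rfl
  have horb : MulAction.orbit H (f π₀) = f '' (M.erase U : Set (Submodule F (Sp F))) := by
    ext A
    rw [MulAction.mem_orbit_iff]
    constructor
    · rintro ⟨g, rfl⟩
      obtain ⟨hgG, hgU⟩ := hH g.1 g.2
      obtain ⟨π', hπ', h1⟩ := (hG g.1 hgG).pres π₀ hπ₀.2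
      refine ⟨π', ?_, ?_⟩
      · rw [Finset.coe_erase]
        refine ⟨hπ', ?_⟩
        intro h2
        have h2' : π' = U := h2
        apply hπ₀.1
        ext v
        rw [h1 v, h2', ← hgU v]
      · rw [hsmul]
        exact (himage g.1 π₀ π' h1).symm
    · rintro ⟨π', hπ', rfl⟩
      rw [Finset.coe_erase] at hπ'
      obtain ⟨g, hg, hgU, h1⟩ := htr π₀ hπ₀.2 hπ₀.1 π' hπ'.1 hπ'.2
      refine ⟨⟨g, hg, hgU⟩, ?_⟩
      rw [hsmul]
      exact himage g π₀ π' h1
  have hncard : (MulAction.orbit H (f π₀)).ncard = Fintype.card F ^ 4 := by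
    rw [horb, Set.ncard_image_of_injective _ hf, Set.ncard_coe_finset, hMcard]
  have hdvd : Fintype.card F ^ 4 ∣ Nat.card H := by
    rw [← hncard, ← MulAction.index_stabilizer]
    exact Subgroup.index_dvd_card _
  have hk : p ^ (4 * (h : ℕ)) ∣ Nat.card H := by
    rw [hq, ← pow_mul, mul_comm] at hdvd
    exact hdvd
  have h1 := main2 p hp hq hM H (fun g hg => hG g (hH g hg).1) _ hk
  rw [hq, ← pow_mul] at h1
  have h2 : p ^ (4 * (h : ℕ)) = p ^ ((h : ℕ) * 3) * p ^ (h : ℕ) := by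
    rw [← pow_add]
    congr 1
    ring
  rw [h2] at h1
  have h3 : p ^ (h : ℕ) ∣ (h : ℕ) :=
    Nat.dvd_of_mul_dvd_mul_left (pow_pos hpp.pos _) h1
  have h4 := Nat.le_of_dvd h.pos h3
  exact absurd (Nat.lt_pow_self hpp.one_lt) (not_lt.2 h4)

end Pool.Agent.LibBT65
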