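import Pool.Agent.LibBT65.C3
import Pool.Agent.LibBT65.D3

set_option autoImplicit false

/-!
Row D5. Characteristic 3, `q = |F| ≥ 9`, in the model (ADAPT the proven files D2 and D3; copy their
private lemmas with new names).

`pgroup_bound3`: as `pgroup_bound` of D2 with `C3` in place of `C`.
`linear_bound3`: as `linear_bound`: a subgroup of order `3^k`.
`main1_3`: as `main1` of D3.
`main2_3`: as `main2` of D3: `|G| = |G₀| * r`, `r ∣ h`; `|G₀| = 3^a * m`, `3 ∤ m`,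
`(3^a)^2 ≤ q^7`, `3^k ∣ 3^a * r`, so `3^k ≤ 3^a * h`, `(3^k)^2 ≤ q^7 * h^2` (`h > 0`).
`main3_3`: as `main3` of D3: `q^4 ∣ |H|` gives `q^8 ≤ q^7 h^2`, `3^h ≤ h^2`: false for `h ≥ 1`
(induction; `h = 1`: 3 > 1, `h = 2`: 9 > 4).
-/

namespace Pool.Agent.LibBT65

open Module

private theorem D5_Q_pow {F : Type*} [Field F] (g : Sp F ≃ₗ[F] Sp F) (c : F)
    (hc : ∀ v, Q (g v) = c * Q v) (n : ℕ) : ∀ v, Q ((g ^ n) v) = c ^ n * Q v := by
  induction n with
  | zero =>
    intro v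
    rw [pow_zero, pow_zero, one_mul]
    rfl
  | succ n ih =>
    intro v
    have h1 : (g ^ (n + 1)) v = g ((g ^ n) v) := by
      rw [pow_succ']
      rfl
    rw [h1, hc, ih, pow_succ']
    ring

private theorem D5_one {F : Type*} [Field F] (p : ℕ) [Fact p.Prime] [CharP F p]
    (g : Sp F ≃ₗ[F] Sp F) (k : ℕ) (hg : g ^ p ^ k = 1) (c : F) (hc : ∀ v, Q (g v) = c * Q v) :
    c = 1 := by
  have h1 := D5_Q_pow g c hc (p ^ k) (Pi.single 0 1, Pi.single 0 1)
  rw [hg] at h1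
  have h2 : Q ((Pi.single 0 1, Pi.single 0 1) : Sp F) = 1 := by
    unfold Q
    simp [Pi.single_apply]
  have h3 : Q ((1 : Sp F ≃ₗ[F] Sp F) ((Pi.single 0 1, Pi.single 0 1) : Sp F)) = 1 := h2
  rw [h3, h2, mul_one] at h1
  have h4 : (c - 1) ^ p ^ k = 0 := by
    rw [sub_pow_char_pow, one_pow, ← h1, sub_self]
  have h5 : c - 1 = 0 := pow_eq_zero_iff (pow_ne_zero k (Fact.out : p.Prime).ne_zero) |>.mp h4
  exact sub_eq_zero.mp h5

private theorem D5_ne {F : Type*} [Field F] (p : ℕ) [Fact p.Prime] [CharP F p] (n : ℕ)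
    (h0 : 0 < n) (h1 : n < p) : (n : F) ≠ 0 := by
  intro h
  have h2 : p ∣ n := (CharP.cast_eq_zero_iff F p n).mp h
  exact absurd (Nat.le_of_dvd h0 h2) (by omega)

/-- the automorphism of a semilinear map is unique -/
private theorem D5_uniq {F : Type*} [Field F] (g : Equiv.Perm (Sp F))
    (hadd : ∀ v w, g (v + w) = g v + g w) {f f' : F → F}
    (h : ∀ (a : F) (v : Sp F), g (a • v) = f a • g v)
    (h' : ∀ (a : F) (v : Sp F), g (a • v) = f' a • g v) (a : F) : f a = f' a := by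
  have h0 : g 0 = 0 := by
    have h1 := hadd 0 0
    rw [add_zero] at h1
    have h2 : g 0 + g 0 = g 0 + 0 := by rw [add_zero]; exact h1.symm
    exact add_left_cancel h2
  obtain ⟨v, hv⟩ : ∃ v : Sp F, v ≠ 0 := exists_ne 0
  have hgv : g v ≠ 0 := by
    intro h1
    rw [← h0] at h1
    exact hv (g.injective h1)
  have h1 : (f a - f' a) • g v = 0 := by
    rw [sub_smul, ← h a v, ← h' a v, sub_self]
  rcases smul_eq_zero.1 h1 with h2 | h2
  · exact sub_eq_zero.1 h2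
  · exact absurd h2 hgv

private theorem D5_pres {F : Type*} [Field F] {M : Finset (Submodule F (Sp F))}
    {g : Equiv.Perm (Sp F)} (hg : Symmetry M g) (φ : Sp F ≃ₗ[F] Sp F) (hφ : ∀ v, φ v = g v)
    (π : Submodule F (Sp F)) (hπ : π ∈ M) : π.map (φ : Sp F →ₗ[F] Sp F) ∈ M := by
  obtain ⟨π', hπ', h⟩ := hg.pres π hπ
  have h1 : π.map (φ : Sp F →ₗ[F] Sp F) = π' := by
    ext w
    constructor
    · rintro ⟨v, hv, rfl⟩
      have h2 := (h v).1 hv
      rw [← hφ] at h2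
      exact h2
    · intro hw
      refine ⟨φ.symm w, ?_, φ.apply_symm_apply w⟩
      have h2 : g (φ.symm w) = w := by rw [← hφ, φ.apply_symm_apply]
      exact (h _).2 (by rw [h2]; exact hw)
  rw [h1]
  exact hπ'

/-- the permutation of a linear automorphism -/
private def D5_perm (F : Type*) [Field F] : (Sp F ≃ₗ[F] Sp F) →* Equiv.Perm (Sp F) where
  toFun φ := φ.toEquiv
  map_one' := rfl
  map_mul' _ _ := rfl

private theorem D5_sq_lt (n : ℕ) : n ^ 2 < 3 ^ n := by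
  induction n with
  | zero => norm_num
  | succ n ih =>
    rcases Nat.lt_or_ge n 2 with h | h
    · interval_cases n <;> norm_num
    · calc (n + 1) ^ 2 ≤ 3 * n ^ 2 := by nlinarith
        _ < 3 * 3 ^ n := by omega
        _ = 3 ^ (n + 1) := by ring

theorem pgroup_bound3 {F : Type*} [Field F] [Fintype F] [CharP F 3] (hq : 9 ≤ Fintype.card F)
    {M : Finset (Submodule F (Sp F))} (hM : BLTSystem M)
    (P : Subgroup (Sp F ≃ₗ[F] Sp F)) (hP : IsPGroup 3 P)
    (hsim : ∀ g ∈ P, ∃ c : F, ∀ v, Q (g v) = c * Q v)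
    (hpres : ∀ g ∈ P, ∀ π ∈ M, π.map ((g : Sp F ≃ₗ[F] Sp F) : Sp F →ₗ[F] Sp F) ∈ M) :
    Nat.card P ^ 2 ≤ Fintype.card F ^ 7 := by
  classical
  have two : (2 : F) ≠ 0 := by
    have := D5_ne (F := F) 3 2 (by norm_num) (by norm_num)
    exact_mod_cast this
  have hS := sys two hM
  have hQ : ∀ g ∈ P, ∀ v, Q (g v) = Q v := by
    intro g hg v
    obtain ⟨c, hc⟩ := hsim g hg
    obtain ⟨k, hk⟩ := hP ⟨g, hg⟩
    have hk' : g ^ 3 ^ k = 1 := by
      have := congrArg Subtype.val hk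
      simpa using this
    have hc1 := D5_one 3 g k hk' c hc
    rw [hc v, hc1, one_mul]
  have hB : ∀ g ∈ P, ∀ v w, bil F (g v) (g w) = bil F v w := by
    intro g hg v w
    rw [bil_apply, bil_apply, polar_eq, polar_eq, ← map_add, hQ g hg, hQ g hg, hQ g hg]
  letI act : MulAction P {π : Submodule F (Sp F) // π ∈ M} :=
    { smul := fun g π => ⟨π.1.map ((g.1 : Sp F ≃ₗ[F] Sp F) : Sp F →ₗ[F] Sp F),
        hpres g.1 g.2 π.1 π.2⟩
      one_smul := by
        intro π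
        apply Subtype.ext
        exact Submodule.map_id π.1
      mul_smul := by
        intro a b π
        apply Subtype.ext
        have h : ((a * b : P).1 : Sp F →ₗ[F] Sp F) =
            (a.1 : Sp F →ₗ[F] Sp F) ∘ₗ (b.1 : Sp F →ₗ[F] Sp F) := rfl
        change Submodule.map ((a * b : P).1 : Sp F →ₗ[F] Sp F) π.1 = _
        rw [h, Submodule.map_comp]
        rfl }
  have hcard : Nat.card {π : Submodule F (Sp F) // π ∈ M} = Fintype.card F ^ 4 + 1 := by
    rw [← hM.card]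
    simp
  obtain ⟨n, -, hn⟩ := FiniteField.card F 3
  have hndvd : ¬ 3 ∣ Nat.card {π : Submodule F (Sp F) // π ∈ M} := by
    rw [hcard]
    intro h
    have h1 : 3 ∣ Fintype.card F ^ 4 := by
      rw [hn, ← pow_mul]
      exact dvd_pow_self 3 (by have := n.pos; positivity)
    have h2 : 3 ∣ 1 := (Nat.dvd_add_right h1).mp h
    exact absurd (Nat.dvd_one.mp h2) (by norm_num)
  obtain ⟨U, hU⟩ := hP.nonempty_fixed_point_of_prime_not_dvd_card
    {π : Submodule F (Sp F) // π ∈ M} hndvd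
  obtain ⟨K, hK⟩ : ∃ K : Submodule F (Sp F), ∀ v, v ∈ K ↔ ∀ u ∈ U.1, bil F v u = 0 := by
    refine ⟨{ carrier := {v | ∀ u ∈ U.1, bil F v u = 0}
              add_mem' := ?_
              zero_mem' := ?_
              smul_mem' := ?_ }, fun v => Iff.rfl⟩
    · intro a b ha hb u hu
      rw [map_add, LinearMap.add_apply, ha u hu, hb u hu, add_zero]
    · intro u _
      rw [map_zero, LinearMap.zero_apply]
    · intro t a ha u hu
      rw [map_smul, LinearMap.smul_apply, ha u hu, smul_zero]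
  have hb : Base (bil F) M U.1 K := ⟨U.2, hK⟩
  have hA : ∀ g ∈ P, Aut (bil F) M U.1 g := by
    intro g hg
    refine ⟨hB g hg, hpres g hg, ?_⟩
    have h := hU ⟨g, hg⟩
    exact congrArg Subtype.val h
  exact C3 hS hb hq P hP hA

theorem linear_bound3 {F : Type*} [Field F] [Fintype F] [CharP F 3] (hq : 9 ≤ Fintype.card F)
    {M : Finset (Submodule F (Sp F))} (hM : BLTSystem M)
    (G : Subgroup (Sp F ≃ₗ[F] Sp F))
    (hsim : ∀ g ∈ G, ∃ c : F, ∀ v, Q (g v) = c * Q v)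
    (hpres : ∀ g ∈ G, ∀ π ∈ M, π.map ((g : Sp F ≃ₗ[F] Sp F) : Sp F →ₗ[F] Sp F) ∈ M)
    (k : ℕ) (hk : 3 ^ k ∣ Nat.card G) : (3 ^ k) ^ 2 ≤ Fintype.card F ^ 7 := by
  have : Finite (Sp F ≃ₗ[F] Sp F) :=
    Finite.of_injective (fun g : Sp F ≃ₗ[F] Sp F => (g : Sp F → Sp F)) DFunLike.coe_injective
  obtain ⟨H, hH⟩ := Sylow.exists_subgroup_card_pow_prime 3 hk
  have hcard : Nat.card (H.map G.subtype) = 3 ^ k := by
    rw [Subgroup.card_map_of_injective G.subtype_injective, hH]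
  have hle := pgroup_bound3 hq hM (H.map G.subtype) (IsPGroup.of_card hcard)
    (fun g hg => hsim g (by
      obtain ⟨x, -, rfl⟩ := hg
      exact x.2))
    (fun g hg => hpres g (by
      obtain ⟨x, -, rfl⟩ := hg
      exact x.2))
  rw [hcard] at hle
  exact hle

theorem main1_3 {F : Type*} [Field F] [Fintype F] [CharP F 3] (hq : 9 ≤ Fintype.card F)
    {M : Finset (Submodule F (Sp F))} (hM : BLTSystem M)
    (G : Subgroup (Equiv.Perm (Sp F))) (hG : ∀ g ∈ G, Symmetry M g)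
    (hlin : ∀ g ∈ G, ∀ (a : F) (v : Sp F), g (a • v) = a • g v)
    (k : ℕ) (hk : 3 ^ k ∣ Nat.card G) : (3 ^ k) ^ 2 ≤ Fintype.card F ^ 7 := by
  let G' : Subgroup (Sp F ≃ₗ[F] Sp F) := G.comap (D5_perm F)
  have hG' : ∀ φ, φ ∈ G' ↔ D5_perm F φ ∈ G := fun φ => Iff.rfl
  have hcard : Nat.card G' = Nat.card G := by
    refine Nat.card_eq_of_bijective (fun φ : G' => (⟨D5_perm F φ.1, φ.2⟩ : G)) ⟨?_, ?_⟩
    · intro φ ψ h
      apply Subtype.ext
      ext1 v
      have h1 : D5_perm F φ.1 = D5_perm F ψ.1 := congrArg Subtype.val h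
      exact Equiv.congr_fun h1 v
    · rintro ⟨g, hg⟩
      let φ : Sp F ≃ₗ[F] Sp F :=
        { g with
          map_add' := (hG g hg).add
          map_smul' := fun a v => hlin g hg a v }
      have hφ : D5_perm F φ = g := by
        ext1 v
        rfl
      exact ⟨⟨φ, by rw [hG', hφ]; exact hg⟩, Subtype.ext hφ⟩
  refine linear_bound3 hq hM G' ?_ ?_ k (by rw [hcard]; exact hk)
  · intro φ hφ
    have h1 := hG _ ((hG' φ).1 hφ)
    obtain ⟨σ, hσ, c, hc⟩ := h1.semi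
    refine ⟨c, fun v => ?_⟩
    have h2 : ∀ a, σ a = a := fun a =>
      D5_uniq (D5_perm F φ) h1.add (f := σ) (f' := fun a => a) hσ (hlin _ ((hG' φ).1 hφ)) a
    have h3 := hc v
    rw [h2] at h3
    exact h3
  · intro φ hφ π hπ
    exact D5_pres (hG _ ((hG' φ).1 hφ)) φ (fun v => rfl) π hπ

theorem main2_3 {F : Type*} [Field F] [Fintype F] [CharP F 3] (hq : 9 ≤ Fintype.card F)
    {h : ℕ} (hh : Fintype.card F = 3 ^ h)
    {M : Finset (Submodule F (Sp F))} (hM : BLTSystem M)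
    (G : Subgroup (Equiv.Perm (Sp F))) (hG : ∀ g ∈ G, Symmetry M g)
    (k : ℕ) (hk : 3 ^ k ∣ Nat.card G) : (3 ^ k) ^ 2 ≤ Fintype.card F ^ 7 * h ^ 2 := by
  have hpp : Nat.Prime 3 := Nat.prime_three
  choose s hs using fun g : G => (hG g.1 g.2).semi
  have hmul : ∀ g g' : G, s (g * g') = s g * s g' := by
    intro g g'
    ext a
    refine D5_uniq ((g * g' : G) : Equiv.Perm (Sp F)) (hG _ (g * g').2).add
      (f := fun b => s (g * g') b) (f' := fun b => (s g * s g') b) (hs (g * g')).1 ?_ a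
    intro a v
    change (g : Equiv.Perm (Sp F)) ((g' : Equiv.Perm (Sp F)) (a • v)) =
      s g (s g' a) • (g : Equiv.Perm (Sp F)) ((g' : Equiv.Perm (Sp F)) v)
    rw [(hs g').1, (hs g).1]
  let S : G →* (F ≃+* F) := MonoidHom.mk' s hmul
  have hS : ∀ g, S g = s g := fun g => rfl
  let G₀ : Subgroup (Equiv.Perm (Sp F)) := S.ker.map G.subtype
  have hG₀ : ∀ g ∈ G₀, ∃ hg : g ∈ G, s ⟨g, hg⟩ = 1 := by
    rintro _ ⟨g, hg, rfl⟩
    exact ⟨g.2, hg⟩
  have hcard : Nat.card G₀ = Nat.card S.ker :=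
    Nat.card_congr (S.ker.equivMapOfInjective G.subtype G.subtype_injective).symm.toEquiv
  have hmain : ∀ a, 3 ^ a ∣ Nat.card G₀ → (3 ^ a) ^ 2 ≤ Fintype.card F ^ 7 := by
    intro a ha
    refine main1_3 hq hM G₀ (fun g hg => hG g (hG₀ g hg).1) ?_ a ha
    intro g hg b v
    obtain ⟨hg', h1⟩ := hG₀ g hg
    have h2 := (hs ⟨g, hg'⟩).1 b v
    rw [h1] at h2
    exact h2
  have hr : Nat.card S.range ∣ h := by
    rw [← card_ringAut 3 hh]
    exact Subgroup.card_subgroup_dvd_card _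
  have hprod : Nat.card S.ker * Nat.card S.range = Nat.card G := by
    rw [← Subgroup.index_ker, Subgroup.card_mul_index]
  have hne : Nat.card G₀ ≠ 0 := Nat.card_pos.ne'
  obtain ⟨a, m, hm, ham⟩ := Nat.exists_eq_pow_mul_and_not_dvd hne 3 (by norm_num)
  have h1 : (3 ^ a) ^ 2 ≤ Fintype.card F ^ 7 := hmain a ⟨m, ham⟩
  rw [← hprod, ← hcard, ham] at hk
  have h2 : Nat.Coprime (3 ^ k) m := (Nat.Prime.coprime_iff_not_dvd hpp).2 hm |>.pow_left k
  have h3 : 3 ^ k ∣ m * (3 ^ a * Nat.card S.range) := by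
    have : 3 ^ a * m * Nat.card S.range = m * (3 ^ a * Nat.card S.range) := by ring
    rwa [this] at hk
  have h4 : 3 ^ k ∣ 3 ^ a * Nat.card S.range := h2.dvd_of_dvd_mul_left h3
  have hh0 : 0 < h := by
    rcases Nat.eq_zero_or_pos h with h0 | h0
    · rw [h0, pow_zero] at hh
      omega
    · exact h0
  have h5 : 3 ^ k ≤ 3 ^ a * h :=
    Nat.le_of_dvd (Nat.mul_pos (pow_pos (by norm_num) a) hh0) (h4.trans (mul_dvd_mul_left _ hr))
  calc (3 ^ k) ^ 2 ≤ (3 ^ a * h) ^ 2 := Nat.pow_le_pow_left h5 2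
    _ = (3 ^ a) ^ 2 * h ^ 2 := mul_pow _ _ _
    _ ≤ Fintype.card F ^ 7 * h ^ 2 := Nat.mul_le_mul_right _ h1

theorem main3_3 {F : Type*} [Field F] [Fintype F] [CharP F 3] (hq : 9 ≤ Fintype.card F)
    {M : Finset (Submodule F (Sp F))} (hM : BLTSystem M)
    (G : Subgroup (Equiv.Perm (Sp F))) (hG : ∀ g ∈ G, Symmetry M g)
    (U : Submodule F (Sp F)) (hU : U ∈ M)
    (htr : ∀ π ∈ M, π ≠ U → ∀ π' ∈ M, π' ≠ U →
      ∃ g ∈ G, (∀ v, v ∈ U ↔ g v ∈ U) ∧ ∀ v, v ∈ π ↔ g v ∈ π') : False := by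
  classical
  have hpp : Nat.Prime 3 := Nat.prime_three
  obtain ⟨h, -, hh⟩ := FiniteField.card F 3
  let H : Subgroup (Equiv.Perm (Sp F)) :=
    { carrier := {g | g ∈ G ∧ ∀ v, v ∈ U ↔ g v ∈ U}
      mul_mem' := by
        rintro a b ⟨ha, ha'⟩ ⟨hb, hb'⟩
        exact ⟨G.mul_mem ha hb, fun v => (hb' v).trans (ha' _)⟩
      one_mem' := ⟨G.one_mem, fun v => Iff.rfl⟩
      inv_mem' := by
        rintro a ⟨ha, ha'⟩
        refine ⟨G.inv_mem ha, fun v => ?_⟩
        have h1 := ha' (a⁻¹ v)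
        have h2 : a (a⁻¹ v) = v := a.apply_symm_apply v
        rw [h2] at h1
        exact h1.symm }
  have hH : ∀ g ∈ H, g ∈ G ∧ ∀ v, v ∈ U ↔ g v ∈ U := fun g hg => hg
  have hMcard : (M.erase U).card = Fintype.card F ^ 4 := by
    rw [Finset.card_erase_of_mem hU, hM.card, Nat.add_sub_cancel]
  have hpos : 0 < (M.erase U).card := by
    rw [hMcard]
    exact pow_pos Fintype.card_pos 4
  obtain ⟨π₀, hπ₀⟩ := Finset.card_pos.1 hpos
  rw [Finset.mem_erase] at hπ₀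
  let f : Submodule F (Sp F) → Set (Sp F) := fun π => (π : Set (Sp F))
  have hf : Function.Injective f := SetLike.coe_injective
  have himage : ∀ (g : Equiv.Perm (Sp F)) (π π' : Submodule F (Sp F)),
      (∀ v, v ∈ π ↔ g v ∈ π') → g '' (f π) = f π' := by
    intro g π π' hg
    ext w
    constructor
    · rintro ⟨v, hv, rfl⟩
      exact (hg v).1 hv
    · intro hw
      refine ⟨g.symm w, (hg _).2 ?_, g.apply_symm_apply w⟩
      rw [g.apply_symm_apply]
      exact hw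
  let act : MulAction H (Set (Sp F)) :=
    { smul := fun g A => (g : Equiv.Perm (Sp F)) '' A
      one_smul := fun A => by
        change ((1 : H) : Equiv.Perm (Sp F)) '' A = A
        simp
      mul_smul := fun g g' A => by
        change ((g * g' : H) : Equiv.Perm (Sp F)) '' A =
          (g : Equiv.Perm (Sp F)) '' ((g' : Equiv.Perm (Sp F)) '' A)
        rw [Set.image_image]
        rfl }
  have hsmul : ∀ (g : H) (A : Set (Sp F)), g • A = (g : Equiv.Perm (Sp F)) '' A := fun g A => rfl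
  have horb : MulAction.orbit H (f π₀) = f '' (M.erase U : Set (Submodule F (Sp F))) := by
    ext A
    rw [MulAction.mem_orbit_iff]
    constructor
    · rintro ⟨g, rfl⟩
      obtain ⟨hgG, hgU⟩ := hH g.1 g.2
      obtain ⟨π', hπ', h1⟩ := (hG g.1 hgG).pres π₀ hπ₀.2
      refine ⟨π', ?_, ?_⟩
      · rw [Finset.coe_erase]
        refine ⟨hπ', ?_⟩
        intro h2
        have h2' : π' = U := h2
        apply hπ₀.1
        ext v
        rw [h1 v, h2', ← hgU v]
      · rw [hsmul]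
        exact (himage g.1 π₀ π' h1).symm
    · rintro ⟨π', hπ', rfl⟩
      rw [Finset.coe_erase] at hπ'
      obtain ⟨g, hg, hgU, h1⟩ := htr π₀ hπ₀.2 hπ₀.1 π' hπ'.1 hπ'.2
      refine ⟨⟨g, hg, hgU⟩, ?_⟩
      rw [hsmul]
      exact himage g π₀ π' h1
  have hncard : (MulAction.orbit H (f π₀)).ncard = Fintype.card F ^ 4 := by
    rw [horb, Set.ncard_image_of_injective _ hf, Set.ncard_coe_finset, hMcard]
  have hdvd : Fintype.card F ^ 4 ∣ Nat.card H := by
    rw [← hncard, ← MulAction.index_stabilizer]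
    exact Subgroup.index_dvd_card _
  have hk : 3 ^ (4 * (h : ℕ)) ∣ Nat.card H := by
    rw [hh, ← pow_mul, mul_comm] at hdvd
    exact hdvd
  have h1 := main2_3 hq hh hM H (fun g hg => hG g (hH g hg).1) _ hk
  rw [hh, ← pow_mul, ← pow_mul] at h1
  have h2 : 3 ^ (4 * (h : ℕ) * 2) = 3 ^ ((h : ℕ) * 7) * 3 ^ (h : ℕ) := by
    rw [← pow_add]
    congr 1
    ring
  rw [h2] at h1
  have h3 : 3 ^ (h : ℕ) ≤ (h : ℕ) ^ 2 :=
    Nat.le_of_mul_le_mul_left h1 (pow_pos (by norm_num) _)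
  exact absurd (D5_sq_lt (h : ℕ)) (not_lt.2 h3)

end Pool.Agent.LibBT65
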