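import Mathlib

set_option autoImplicit false

/-!
Definitions for MP_8143af_co: symmetry of 2-systems of the hyperbolic quadric in dimension 10
with the BLT property. Paper: team-store L19_MP_8143af_helper65.md.
`V` is a 10-dimensional space, `B` a symmetric bilinear form, `M` the system.
-/

namespace Pool.Agent.LibBT65

/-- The facts about a BLT 2-system that are used: `opp` is the 2-system property, `ind` says that
three distinct members are linearly independent (this is what the BLT property gives). -/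
structure Sys {F V : Type*} [Field F] [Fintype F] [AddCommGroup V] [Module F V]
    (B : V →ₗ[F] V →ₗ[F] F) (M : Finset (Submodule F V)) : Prop where
  symm : ∀ v w, B v w = B w v
  nondeg : ∀ v, (∀ w, B v w = 0) → v = 0
  two : (2 : F) ≠ 0
  dimV : Module.finrank F V = 10
  card : M.card = Fintype.card F ^ 4 + 1
  dim : ∀ π ∈ M, Module.finrank F π = 3
  sing : ∀ π ∈ M, ∀ v ∈ π, ∀ w ∈ π, B v w = 0
  opp : ∀ π ∈ M, ∀ π' ∈ M, π ≠ π' → ∀ v ∈ π', (∀ w ∈ π, B v w = 0) → v = 0
  ind : ∀ a ∈ M, ∀ b ∈ M, ∀ c ∈ M, a ≠ b → a ≠ c → b ≠ c →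
    ∀ x ∈ a, ∀ y ∈ b, ∀ z ∈ c, x + y + z = 0 → x = 0 ∧ y = 0 ∧ z = 0

/-- `U` is a member of `M` and `K` is the orthogonal space of `U`. -/
structure Base {F V : Type*} [Field F] [AddCommGroup V] [Module F V]
    (B : V →ₗ[F] V →ₗ[F] F) (M : Finset (Submodule F V)) (U K : Submodule F V) : Prop where
  mem : U ∈ M
  perp : ∀ v, v ∈ K ↔ ∀ u ∈ U, B v u = 0

/-- `g` is an isometry preserving `M` and fixing `U`. -/
structure Aut {F V : Type*} [Field F] [AddCommGroup V] [Module F V]
    (B : V →ₗ[F] V →ₗ[F] F) (M : Finset (Submodule F V)) (U : Submodule F V)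
    (g : V ≃ₗ[F] V) : Prop where
  iso : ∀ v w, B (g v) (g w) = B v w
  pres : ∀ π ∈ M, π.map (g : V →ₗ[F] V) ∈ M
  fix : U.map (g : V →ₗ[F] V) = U

/-- The subgroup of the `g` in `P` that preserve `K` and act trivially on `K` modulo `U`. -/
def EE {F V : Type*} [Field F] [AddCommGroup V] [Module F V] (U K : Submodule F V)
    (P : Subgroup (V ≃ₗ[F] V)) : Subgroup (V ≃ₗ[F] V) where
  carrier := {g | g ∈ P ∧ K.map (g : V →ₗ[F] V) = K ∧ ∀ k ∈ K, g k - k ∈ U}
  mul_mem' := by
    rintro a b ⟨ha, hKa, hUa⟩ ⟨hb, hKb, hUb⟩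
    refine ⟨P.mul_mem ha hb, ?_, ?_⟩
    · have : ((a * b : V ≃ₗ[F] V) : V →ₗ[F] V) = (a : V →ₗ[F] V) ∘ₗ (b : V →ₗ[F] V) := rfl
      rw [this, Submodule.map_comp, hKb, hKa]
    · intro k hk
      have hbk : b k ∈ K := by
        rw [← hKb]
        exact Submodule.mem_map_of_mem hk
      have h := U.add_mem (hUa (b k) hbk) (hUb k hk)
      have e : a (b k) - b k + (b k - k) = (a * b) k - k := by
        show a (b k) - b k + (b k - k) = a (b k) - k
        abel
      rw [e] at h
      exact h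
  one_mem' := by
    refine ⟨P.one_mem, ?_, ?_⟩
    · exact Submodule.map_id K
    · intro k _
      have : (1 : V ≃ₗ[F] V) k - k = 0 := sub_self k
      rw [this]
      exact U.zero_mem
  inv_mem' := by
    rintro a ⟨ha, hKa, hUa⟩
    have hinv : ∀ k ∈ K, (a⁻¹ : V ≃ₗ[F] V) k ∈ K := by
      intro k hk
      rw [← hKa] at hk
      obtain ⟨k', hk', rfl⟩ := hk
      have : (a⁻¹ : V ≃ₗ[F] V) (a k') = k' := a.symm_apply_apply k'
      show (a⁻¹ : V ≃ₗ[F] V) (a k') ∈ K
      rw [this]
      exact hk'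
    refine ⟨P.inv_mem ha, ?_, ?_⟩
    · apply le_antisymm
      · rintro _ ⟨k, hk, rfl⟩
        exact hinv k hk
      · intro k hk
        refine ⟨a k, ?_, a.symm_apply_apply k⟩
        rw [← hKa]
        exact Submodule.mem_map_of_mem hk
    · intro k hk
      have h := hUa _ (hinv k hk)
      have e : a ((a⁻¹ : V ≃ₗ[F] V) k) = k := a.apply_symm_apply k
      rw [e] at h
      have h2 := U.neg_mem h
      rw [neg_sub] at h2
      exact h2

end Pool.Agent.LibBT65
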