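import Mathlib

set_option autoImplicit false

/-!
The polar space `Q^+(9,q)` and the symmetries of sets of planes, with short names (these are the
definitions used in the final statement).
-/

namespace Pool.Agent.LibBT65

/-- The vector space `F^5 × F^5` of dimension 10 over `F`. -/
def Vec (F : Type*) : Type _ := (Fin 5 → F) × (Fin 5 → F)

instance (F : Type*) [Field F] : AddCommGroup (Vec F) :=
  inferInstanceAs (AddCommGroup ((Fin 5 → F) × (Fin 5 → F)))

instance (F : Type*) [Field F] : Module F (Vec F) :=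
  inferInstanceAs (Module F ((Fin 5 → F) × (Fin 5 → F)))

/-- The hyperbolic quadratic form. -/
def Quad {F : Type*} [Field F] (v : Vec F) : F := ∑ i : Fin 5, v.1 i * v.2 i

/-- Its polar form. -/
def Polar {F : Type*} [Field F] (v w : Vec F) : F :=
  ∑ i : Fin 5, (v.1 i * w.2 i + w.1 i * v.2 i)

/-- `π` is totally singular. -/
def TotSing {F : Type*} [Field F] (π : Submodule F (Vec F)) : Prop := ∀ v ∈ π, Quad v = 0

/-- No nonzero vector of `π'` is orthogonal to `π`. -/
def Opp {F : Type*} [Field F] (π π' : Submodule F (Vec F)) : Prop :=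
  ∀ v ∈ π', (∀ w ∈ π, Polar v w = 0) → v = 0

/-- `L` and `π` have a nonzero vector in common. -/
def Meets {F : Type*} [Field F] (L π : Submodule F (Vec F)) : Prop := L ⊓ π ≠ ⊥

/-- `M` is a 2-system of `Q^+(9,q)` with the BLT property. -/
structure BLT2System {F : Type*} [Field F] [Fintype F] (M : Finset (Submodule F (Vec F))) :
    Prop where
  /-- there are `q^4 + 1` members -/
  card : M.card = Fintype.card F ^ 4 + 1
  /-- the members are totally singular of dimension 3 -/
  sing : ∀ π ∈ M, Module.finrank F π = 3 ∧ TotSing π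
  /-- different members are opposite -/
  opp : ∀ π ∈ M, ∀ π' ∈ M, π ≠ π' → Opp π π'
  /-- no totally singular line meets three members -/
  blt : ∀ L : Submodule F (Vec F), Module.finrank F L = 2 → TotSing L →
    ∀ a ∈ M, ∀ b ∈ M, ∀ c ∈ M, a ≠ b → a ≠ c → b ≠ c → ¬ (Meets L a ∧ Meets L b ∧ Meets L c)

/-- `g` is a semisimilarity of the form: additive, semilinear for an automorphism `σ` of `F`, and
`Quad` is preserved up to `σ` and a scalar. -/
def Semisim {F : Type*} [Field F] (g : Equiv.Perm (Vec F)) : Prop :=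
  (∀ v w, g (v + w) = g v + g w) ∧
    ∃ (σ : F ≃+* F) (c : F), ∀ (a : F) (v : Vec F), g (a • v) = σ a • g v ∧
      Quad (g v) = c * σ (Quad v)

/-- `g` maps `π` onto `π'`. -/
def Maps {F : Type*} [Field F] (g : Equiv.Perm (Vec F)) (π π' : Submodule F (Vec F)) : Prop :=
  ∀ v, v ∈ π ↔ g v ∈ π'

/-- `g` is a symmetry of `M`: a semisimilarity mapping every member of `M` onto a member. -/
def Sym {F : Type*} [Field F] (M : Finset (Submodule F (Vec F))) (g : Equiv.Perm (Vec F)) :
    Prop :=
  Semisim g ∧ ∀ π ∈ M, ∃ π' ∈ M, Maps g π π'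

/-- The stabiliser of `U` in `G` is transitive on the members of `M` different from `U`. -/
def TransOff {F : Type*} [Field F] (M : Finset (Submodule F (Vec F)))
    (G : Subgroup (Equiv.Perm (Vec F))) (U : Submodule F (Vec F)) : Prop :=
  ∀ π ∈ M, π ≠ U → ∀ π' ∈ M, π' ≠ U → ∃ g ∈ G, Maps g U U ∧ Maps g π π'

/-- All elements of `G` are linear. -/
def Linear {F : Type*} [Field F] (G : Subgroup (Equiv.Perm (Vec F))) : Prop :=
  ∀ g ∈ G, ∀ (a : F) (v : Vec F), g (a • v) = a • g v

end Pool.Agent.LibBT65
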