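import Mathlib

set_option autoImplicit false

/-!
Row Q1 (ONLY MATHLIB; linear algebra over a field with three elements, `3 = 0`, `1/2 = 2 = -1`).

Expand `T₂ e₂ = p₁ e₁ + p₂ e₂ + p₃ e₃` etc. with `hexp`. Self-adjointness of `T₂` and
`T₂ e₁ = e₂`: `β (T₂ e₁) e₂ = β e₁ (T₂ e₂)` gives `p₃ = -1`; `β (T₂ e₁) e₃ = β e₁ (T₂ e₃)` gives that
`T₂ e₃` has no `e₃` component; `β (T₂ e₂) e₃ = β e₂ (T₂ e₃)` gives that the `e₂` component of `T₂ e₃` is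
`- p₁`. `c2` at `e₂` and `e₃` (with `H⁻¹ e₂ = e₂ - e₁`, `H⁻¹ e₃ = e₃ - e₂ - e₁`) gives `p₂ = 0`,
`p₁ = -1`. The same for `T₃` (`T₃ e₁ = e₃`: `T₃ e₂` has no `e₃` component, `T₃ e₃` has none either),
`c3` at `e₂`, `e₃`. `k2` at `e₂`, `e₃` and `k3` at `e₂`, `e₃`: `m₂ e₁ = 0`, `m₂ e₂ = 0`, `m₃ e₁ = 0`
(from `k3` at `e₂`: `m₃ (e₂ - e₁) = m₃ e₂ + m₂ e₂ - m₁..`), `m₃ e₂ = - m₂ e₃`. `hcomm` at `(e₂, e₃)`
gives the last relation. (All solutions were enumerated by machine for `μ, κ = 1, 2`: exactly the 27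
of the statement in each case. `linear_combination` modulo `3 = 0` works well.)
-/

namespace Pool.Agent.LibBT65

theorem Q1 {F X : Type*} [Field F] [AddCommGroup X] [Module F X] (three : (3 : F) = 0)
    (β : X →ₗ[F] X →ₗ[F] F) (hsymm : ∀ x y, β x y = β y x) (e₁ e₂ e₃ : X) (μ κ : F)
    (hμ : μ ≠ 0) (b11 : β e₁ e₁ = 0) (b12 : β e₁ e₂ = 0) (b13 : β e₁ e₃ = μ)
    (b22 : β e₂ e₂ = -μ) (b23 : β e₂ e₃ = 0) (b33 : β e₃ e₃ = 0)
    (hexp : ∀ x, x = (β x e₃ / μ) • e₁ + (-(β x e₂) / μ) • e₂ + (β x e₁ / μ) • e₃)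
    (H : X ≃ₗ[F] X) (H1 : H e₁ = e₁) (H2 : H e₂ = e₂ + e₁) (H3 : H e₃ = e₃ + e₂ - e₁)
    (T₂ T₃ : X →ₗ[F] X) (hs2 : ∀ x y, β (T₂ x) y = β x (T₂ y))
    (hs3 : ∀ x y, β (T₃ x) y = β x (T₃ y)) (h2 : T₂ e₁ = e₂) (h3 : T₃ e₁ = e₃)
    (c2 : ∀ x, H (T₂ (H.symm x)) = T₂ x + x)
    (c3 : ∀ x, H (T₃ (H.symm x)) = T₃ x + T₂ x - x)
    (m₂ m₃ : X →ₗ[F] F) (k2 : ∀ x, m₂ (H.symm x) = m₂ x)
    (k3 : ∀ x, m₃ (H.symm x) = m₃ x + m₂ x)
    (hcomm : ∀ x y, β (T₂ x) (T₃ y) + κ * (m₂ x * m₃ y) = β (T₃ x) (T₂ y) + κ * (m₃ x * m₂ y)) :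
    ∃ a b m n : F, T₂ e₂ = -e₁ - e₃ ∧ T₂ e₃ = e₂ + a • e₁ ∧ T₃ e₂ = e₂ + a • e₁ ∧
      T₃ e₃ = -(a • e₂) + b • e₁ ∧ m₂ e₁ = 0 ∧ m₂ e₂ = 0 ∧ m₂ e₃ = m ∧ m₃ e₁ = 0 ∧
      m₃ e₂ = -m ∧ m₃ e₃ = n ∧ μ * b = μ + κ * m ^ 2 := by
  have two : (2 : F) = -1 := by linear_combination three
  have b21 : β e₂ e₁ = 0 := by rw [hsymm]; exact b12
  have b31 : β e₃ e₁ = μ := by rw [hsymm]; exact b13
  have b32 : β e₃ e₂ = 0 := by rw [hsymm]; exact b23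
  -- inverse of H
  have K1 : H.symm e₁ = e₁ := by rw [LinearEquiv.symm_apply_eq, H1]
  have K2 : H.symm e₂ = e₂ - e₁ := by
    rw [LinearEquiv.symm_apply_eq, map_sub, H2, H1]; abel
  have K3 : H.symm e₃ = e₃ - e₂ - e₁ := by
    rw [LinearEquiv.symm_apply_eq, map_sub, map_sub, H3, H2, H1]
    have : (3 : F) • e₁ = 0 := by rw [three, zero_smul]
    have h3 : e₁ + e₁ + e₁ = 0 := by
      rw [← this]; module
    calc e₃ = e₃ - 0 := by abel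
      _ = e₃ - (e₁ + e₁ + e₁) := by rw [h3]
      _ = _ := by abel
  -- uniqueness of coordinates through β
  have hc : ∀ x p₁ p₂ p₃, x = p₁ • e₁ + p₂ • e₂ + p₃ • e₃ →
      β x e₁ = μ * p₃ ∧ β x e₂ = -μ * p₂ ∧ β x e₃ = μ * p₁ := by
    rintro x p₁ p₂ p₃ rfl
    simp only [map_add, map_smul, LinearMap.add_apply, LinearMap.smul_apply, smul_eq_mul, b11, b12,
      b13, b21, b22, b23, b31, b32, b33]
    refine ⟨?_, ?_, ?_⟩ <;> ring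
  have hex : ∀ x, ∃ p₁ p₂ p₃ : F, x = p₁ • e₁ + p₂ • e₂ + p₃ • e₃ := fun x => ⟨_, _, _, hexp x⟩
  obtain ⟨p₁, p₂, p₃, hp⟩ := hex (T₂ e₂)
  obtain ⟨q₁, q₂, q₃, hq⟩ := hex (T₂ e₃)
  obtain ⟨r₁, r₂, r₃, hr⟩ := hex (T₃ e₂)
  obtain ⟨s₁, s₂, s₃, hs⟩ := hex (T₃ e₃)
  obtain ⟨cp1, cp2, cp3⟩ := hc _ _ _ _ hp
  obtain ⟨cq1, cq2, cq3⟩ := hc _ _ _ _ hq
  obtain ⟨cr1, cr2, cr3⟩ := hc _ _ _ _ hr
  obtain ⟨cs1, cs2, cs3⟩ := hc _ _ _ _ hs
  have inj : ∀ a b c a' b' c' : F, a • e₁ + b • e₂ + c • e₃ = a' • e₁ + b' • e₂ + c' • e₃ →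
      a = a' ∧ b = b' ∧ c = c' := by
    intro a b c a' b' c' h
    obtain ⟨h1, h2, h3⟩ := hc _ _ _ _ h
    obtain ⟨h1', h2', h3'⟩ := hc (a • e₁ + b • e₂ + c • e₃) a b c rfl
    refine ⟨mul_left_cancel₀ hμ (h3'.symm.trans h3),
      mul_left_cancel₀ (neg_ne_zero.2 hμ) (h2'.symm.trans h2),
      mul_left_cancel₀ hμ (h1'.symm.trans h1)⟩
  -- self adjointness
  have p3 : p₃ = -1 := by
    have := hs2 e₁ e₂
    rw [h2, b22, hsymm e₁, cp1] at this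
    exact mul_left_cancel₀ hμ (by linear_combination -this)
  have q3 : q₃ = 0 := by
    have := hs2 e₁ e₃
    rw [h2, b23, hsymm e₁, cq1] at this
    exact mul_left_cancel₀ hμ (by linear_combination -this)
  have q2 : q₂ = -p₁ := by
    have := hs2 e₂ e₃
    rw [cp3, hsymm e₂, cq2] at this
    exact mul_left_cancel₀ hμ (by linear_combination this)
  have r3 : r₃ = 0 := by
    have := hs3 e₁ e₂
    rw [h3, b32, hsymm e₁, cr1] at this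
    exact mul_left_cancel₀ hμ (by linear_combination -this)
  have s3 : s₃ = 0 := by
    have := hs3 e₁ e₃
    rw [h3, b33, hsymm e₁, cs1] at this
    exact mul_left_cancel₀ hμ (by linear_combination -this)
  have s2 : s₂ = -r₁ := by
    have := hs3 e₂ e₃
    rw [cr3, hsymm e₂, cs2] at this
    exact mul_left_cancel₀ hμ (by linear_combination this)
  -- commutation relations
  have c22 := c2 e₂
  have c23 := c2 e₃
  have c32 := c3 e₂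
  have c33 := c3 e₃
  rw [K2, map_sub, map_sub, h2, hp, H2, map_add, map_add, map_smul, map_smul, map_smul, H1, H2,
    H3] at c22
  rw [K3, map_sub, map_sub, map_sub, map_sub, h2, hp, hq, H2, map_add, map_add, map_add, map_add,
    map_smul, map_smul, map_smul, map_smul, map_smul, map_smul, H1, H2, H3] at c23
  rw [K2, map_sub, map_sub, h3, hr, hp, H3, map_add, map_add, map_smul, map_smul, map_smul, H1, H2,
    H3] at c32
  rw [K3, map_sub, map_sub, map_sub, map_sub, h3, hr, hs, hq, H3, map_add, map_add, map_add,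
    map_add, map_smul, map_smul, map_smul, map_smul, map_smul, map_smul, H1, H2, H3] at c33
  have d22 := inj (p₁ + p₂ - p₃ - 1) (p₂ + p₃ - 1) p₃ p₁ (p₂ + 1) p₃
    (by rw [← sub_eq_zero]; rw [← sub_eq_zero] at c22; rw [← c22]; module)
  have d23 := inj (q₁ + q₂ - q₃ - (p₁ + p₂ - p₃) - 1) (q₂ + q₃ - (p₂ + p₃) - 1) (q₃ - p₃)
    q₁ q₂ (q₃ + 1)
    (by rw [← sub_eq_zero]; rw [← sub_eq_zero] at c23; rw [← c23]; module)
  have d32 := inj (r₁ + r₂ - r₃ + 1) (r₂ + r₃ - 1) (r₃ - 1) (r₁ + p₁) (r₂ + p₂ - 1) (r₃ + p₃)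
    (by rw [← sub_eq_zero]; rw [← sub_eq_zero] at c32; rw [← c32]; module)
  have d33 := inj (s₁ + s₂ - s₃ - (r₁ + r₂ - r₃) + 1) (s₂ + s₃ - (r₂ + r₃) - 1)
    (s₃ - r₃ - 1) (s₁ + q₁) (s₂ + q₂) (s₃ + q₃ - 1)
    (by rw [← sub_eq_zero]; rw [← sub_eq_zero] at c33; rw [← c33]; module)
  have p2 : p₂ = 0 := by linear_combination d22.1 + p3
  have p1 : p₁ = -1 := by
    linear_combination d23.1 - q2 + q3 + p2 - p3 + three * (p₁ + 1)
  have q2' : q₂ = 1 := by rw [q2, p1, neg_neg]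
  have r2 : r₂ = 1 := by linear_combination d32.1 + r3 + p1 - three
  have r1 : r₁ = q₁ := by
    linear_combination d33.1 - s2 + s3 + r2 - r3 + three * r₁
  have mm1 := k2 e₂
  have mm2 := k2 e₃
  have mm3 := k3 e₂
  have mm4 := k3 e₃
  rw [K2, map_sub] at mm1 mm3
  rw [K3, map_sub, map_sub] at mm2 mm4
  have m21 : m₂ e₁ = 0 := by linear_combination -mm1
  have m22 : m₂ e₂ = 0 := by linear_combination -mm2 - m21
  have m31 : m₃ e₁ = 0 := by linear_combination -mm3 - m22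
  have m32 : m₃ e₂ = -m₂ e₃ := by linear_combination -mm4 - m31
  have hh := hcomm e₂ e₃
  have t22 : T₂ e₂ = -e₁ - e₃ := by rw [hp, p1, p2, p3]; module
  have t23 : T₂ e₃ = e₂ + q₁ • e₁ := by rw [hq, q2', q3]; module
  have t32 : T₃ e₂ = e₂ + q₁ • e₁ := by rw [hr, r1, r2, r3]; module
  have t33 : T₃ e₃ = -(q₁ • e₂) + s₁ • e₁ := by rw [hs, s2, s3, r1]; module
  refine ⟨q₁, s₁, m₂ e₃, m₃ e₃, t22, t23, t32, t33, m21, m22, rfl, m31, m32, rfl, ?_⟩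
  rw [t22, t23, t32, t33, m22, m32] at hh
  simp only [map_add, map_sub, map_neg, map_smul, LinearMap.add_apply, LinearMap.sub_apply,
    LinearMap.neg_apply, LinearMap.smul_apply, smul_eq_mul, b11, b12, b21, b22, b23, b31, b32] at hh
  linear_combination -hh

end Pool.Agent.LibBT65
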