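import Pool.Agent.LibBT65.QDefs

set_option autoImplicit false

/-!
Row Q2 (ONLY MATHLIB; finite check). `|F| = 3`, so `F ≃+* ZMod 3` (`ZMod.ringEquivOfPrime`, or a
bijective `ZMod.castHom`); transport everything to `ZMod 3` and use `decide` (27 values of `a, m, n`,
at most 26 triples `i, j, k`; checked by machine). If `decide` is slow, reason with a few triples.
-/

namespace Pool.Agent.LibBT65

private theorem Q2_z : ∀ a m n : ZMod 3,
    (∀ i j k : ZMod 3, ¬ (i = 0 ∧ j = 0 ∧ k = 0) → det3 (fun r s => NN a (1 + m ^ 2) i j k r s +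
      (![0, -(k * m), j * m + k * n] : Fin 3 → ZMod 3) r *
        (![0, -(k * m), j * m + k * n] : Fin 3 → ZMod 3) s) ≠ 0) →
    m = 0 ∧ n = 0 ∧ a ≠ 0 := by
  decide +kernel

private theorem Q2_det {R S : Type*} [CommRing R] [CommRing S] (φ : R →+* S)
    (f : Fin 3 → Fin 3 → R) : φ (det3 f) = det3 (fun r s => φ (f r s)) := by
  simp [det3]

private theorem Q2_ent {R S : Type*} [CommRing R] [CommRing S] (φ : R →+* S)
    (a b i j k m n : R) (r s : Fin 3) :
    φ (NN a b i j k r s + (![0, -(k * m), j * m + k * n] : Fin 3 → R) r *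
        (![0, -(k * m), j * m + k * n] : Fin 3 → R) s) =
    NN (φ a) (φ b) (φ i) (φ j) (φ k) r s +
      (![0, -(φ k * φ m), φ j * φ m + φ k * φ n] : Fin 3 → S) r *
        (![0, -(φ k * φ m), φ j * φ m + φ k * φ n] : Fin 3 → S) s := by
  fin_cases r <;> fin_cases s <;> simp [NN, qf, tv]

theorem Q2 {F : Type*} [Field F] [Fintype F] (hF : Fintype.card F = 3) (a b m n : F)
    (hb : b = 1 + m ^ 2)
    (h : ∀ i j k : F, ¬ (i = 0 ∧ j = 0 ∧ k = 0) → det3 (fun r s => NN a b i j k r s +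
      (![0, -(k * m), j * m + k * n] : Fin 3 → F) r *
        (![0, -(k * m), j * m + k * n] : Fin 3 → F) s) ≠ 0) :
    m = 0 ∧ n = 0 ∧ a ≠ 0 := by
  have hp : Nat.Prime 3 := Nat.prime_three
  obtain ⟨ψ⟩ : Nonempty (ZMod 3 ≃+* F) := ⟨ZMod.ringEquivOfPrime F hp hF⟩
  obtain ⟨φ, hφ⟩ : ∃ φ : F ≃+* ZMod 3, ∀ x, φ (ψ x) = x := ⟨ψ.symm, ψ.symm_apply_apply⟩
  have hφ' : ∀ x, ψ (φ x) = x := by
    intro x
    apply φ.injective
    rw [hφ]
  have h2 := Q2_z (φ a) (φ m) (φ n) ?_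
  · obtain ⟨h3, h4, h5⟩ := h2
    refine ⟨(map_eq_zero_iff φ φ.injective).1 h3, (map_eq_zero_iff φ φ.injective).1 h4, ?_⟩
    intro h6
    exact h5 (by rw [h6, map_zero])
  · intro i j k hijk hdet
    refine h (ψ i) (ψ j) (ψ k) ?_ ?_
    · rintro ⟨h3, h4, h5⟩
      exact hijk ⟨(map_eq_zero_iff ψ ψ.injective).1 h3, (map_eq_zero_iff ψ ψ.injective).1 h4,
        (map_eq_zero_iff ψ ψ.injective).1 h5⟩
    · apply (map_eq_zero_iff φ φ.injective).1
      have h3 := Q2_det (φ : F →+* ZMod 3) (fun r s => NN a b (ψ i) (ψ j) (ψ k) r s +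
        (![0, -((ψ k) * m), (ψ j) * m + (ψ k) * n] : Fin 3 → F) r *
        (![0, -((ψ k) * m), (ψ j) * m + (ψ k) * n] : Fin 3 → F) s)
      have h4 : (φ : F →+* ZMod 3) b = 1 + φ m ^ 2 := by
        rw [hb, map_add, map_one, map_pow]
        rfl
      have h5 : ∀ x, (φ : F →+* ZMod 3) (ψ x) = x := hφ
      refine h3.trans ?_
      rw [← hdet]
      congr 1
      funext r s
      rw [Q2_ent (φ : F →+* ZMod 3) a b (ψ i) (ψ j) (ψ k) m n r s, h4, h5, h5, h5]
      rfl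

end Pool.Agent.LibBT65
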