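import Pool.Agent.LibBT65.QDefs

set_option autoImplicit false

/-!
Row Q3 (ONLY MATHLIB; finite check). `|F| = 3`, so `F ≃+* ZMod 3` (`ZMod.ringEquivOfPrime`, or a
bijective `ZMod.castHom`): transport to `ZMod 3`. The check is a search with pruning:
first `A` with the triple `(1,0,0)` (27 values), then `B` with the triples `(i,1,0)` (27 values each),
then `C` with the triples `(i,j,1)`; about 5100 evaluations of `det3` for each `a` in `{1, 2}`
(checked by machine: only `A = B = C = 0` survives). State it over `ZMod 3` with nested bounded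
quantifiers and implications in this order and use `decide +kernel`, for each `a` separately; if
that is too slow, first compute by `decide` the list of the pairs `(A, B)` that survive.
-/

namespace Pool.Agent.LibBT65

private def ddN (m a i j k u0 u1 u2 : ℕ) : ℕ :=
  ((i * k + m * (j * j) + k * i) *
      (((a * k + m * j) * (m * j) + m * ((i + k) * (i + k)) + (m * j) * (a * k + m * j)) *
        ((a * j + k) * i + m * ((j + m * (a * k)) * (j + m * (a * k))) + i * (a * j + k)) +
      m * (((a * k + m * j) * i + m * ((i + k) * (j + m * (a * k))) + (m * j) * (a * j + k) + u0) *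
        ((a * j + k) * (m * j) + m * ((j + m * (a * k)) * (i + k)) + i * (a * k + m * j) +
          m * u0)))) +
  m * ((i * (m * j) + m * (j * (i + k)) + k * (a * k + m * j) + u2) *
      (((a * k + m * j) * k + m * ((i + k) * j) + (m * j) * i + m * u2) *
        ((a * j + k) * i + m * ((j + m * (a * k)) * (j + m * (a * k))) + i * (a * j + k)) +
      m * (((a * k + m * j) * i + m * ((i + k) * (j + m * (a * k))) + (m * j) * (a * j + k) + u0) *
        ((a * j + k) * k + m * ((j + m * (a * k)) * j) + i * i + u1)))) +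
  (i * i + m * (j * (j + m * (a * k))) + k * (a * j + k) + m * u1) *
      (((a * k + m * j) * k + m * ((i + k) * j) + (m * j) * i + m * u2) *
        ((a * j + k) * (m * j) + m * ((j + m * (a * k)) * (i + k)) + i * (a * k + m * j) +
          m * u0) +
      m * (((a * k + m * j) * (m * j) + m * ((i + k) * (i + k)) + (m * j) * (a * k + m * j)) *
        ((a * j + k) * k + m * ((j + m * (a * k)) * j) + i * i + u1)))

private def okN (a i j k A0 A1 A2 B0 B1 B2 C0 C1 C2 : ℕ) : Bool :=
  !(Nat.beq (ddN 2 a i j k (i * A0 + j * B0 + k * C0) (i * A1 + j * B1 + k * C1)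
    (i * A2 + j * B2 + k * C2) % 3) 0)

private def all3 (f : ℕ → Bool) : Bool := f 0 && (f 1 && f 2)

private theorem all3_iff (f : ℕ → Bool) : all3 f = true ↔ ∀ n, n < 3 → f n = true := by
  constructor
  · intro h n hn
    simp only [all3, Bool.and_eq_true] at h
    interval_cases n
    · exact h.1
    · exact h.2.1
    · exact h.2.2
  · intro h
    simp only [all3, Bool.and_eq_true]
    exact ⟨h 0 (by norm_num), h 1 (by norm_num), h 2 (by norm_num)⟩

private def chkC (a A0 A1 A2 B0 B1 B2 : ℕ) : Bool :=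
  all3 fun C0 => all3 fun C1 => all3 fun C2 =>
    !(all3 fun i => all3 fun j => okN a i j 1 A0 A1 A2 B0 B1 B2 C0 C1 C2) ||
    (Nat.beq (A0 + A1 + A2 + (B0 + B1 + B2) + (C0 + C1 + C2)) 0)

private def chkB (a A0 A1 A2 : ℕ) : Bool :=
  all3 fun B0 => all3 fun B1 => all3 fun B2 =>
    !(all3 fun i => okN a i 1 0 A0 A1 A2 B0 B1 B2 0 0 0) || chkC a A0 A1 A2 B0 B1 B2

private def chkA (a : ℕ) : Bool :=
  all3 fun A0 => all3 fun A1 => all3 fun A2 =>
    !(okN a 1 0 0 A0 A1 A2 0 0 0 0 0 0) || chkB a A0 A1 A2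

private theorem chk1 : chkA 1 = true := by decide +kernel

private theorem chk2 : chkA 2 = true := by decide +kernel

private theorem cast_dd {F : Type*} [Field F] (m : ℕ) (hm : (m : F) = -1)
    (a i j k u0 u1 u2 : ℕ) :
    ((ddN m a i j k u0 u1 u2 : ℕ) : F) =
      det3 (fun r s => NN (a : F) 1 i j k r s + alt3 (![(u0 : F), u1, u2]) r s) := by
  simp only [ddN, Nat.cast_add, Nat.cast_mul, hm]
  simp only [det3, NN, qf, tv, alt3, Matrix.cons_val_zero, Matrix.cons_val_one,
    Matrix.cons_val]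
  ring

theorem Q3 {F : Type*} [Field F] [Fintype F] (hF : Fintype.card F = 3) (a : F) (ha : a ≠ 0)
    (A B C : Fin 3 → F)
    (h : ∀ i j k : F, ¬ (i = 0 ∧ j = 0 ∧ k = 0) → det3 (fun r s => NN a 1 i j k r s +
      alt3 (fun t => i * A t + j * B t + k * C t) r s) ≠ 0) :
    A = 0 ∧ B = 0 ∧ C = 0 := by
  classical
  have e : ZMod 3 ≃+* F := ZMod.ringEquivOfPrime F Nat.prime_three hF
  have hzero : ∀ n : ℕ, ((n : ℕ) : F) = 0 ↔ 3 ∣ n := by
    intro n
    rw [← map_natCast e n, map_eq_zero_iff e e.injective, ZMod.natCast_eq_zero_iff]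
  have hsurj : ∀ x : F, ∃ n : ℕ, n < 3 ∧ (n : F) = x := by
    intro x
    obtain ⟨y, rfl⟩ := e.surjective x
    refine ⟨y.val, ZMod.val_lt y, ?_⟩
    rw [← map_natCast e, ZMod.natCast_zmod_val]
  have hm : ((2 : ℕ) : F) = -1 := by
    have h3 : ((3 : ℕ) : F) = 0 := (hzero 3).2 (dvd_refl 3)
    have : ((2 : ℕ) : F) + 1 = 0 := by
      rw [← h3]; push_cast; ring
    linear_combination this
  obtain ⟨an, han, rfl⟩ := hsurj a
  have han0 : an ≠ 0 := by
    rintro rfl
    exact ha (by simp)
  choose An hAn hA using fun t => hsurj (A t)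
  choose Bn hBn hB using fun t => hsurj (B t)
  choose Cn hCn hC using fun t => hsurj (C t)
  have key : ∀ i j k : ℕ, ¬ (3 ∣ i ∧ 3 ∣ j ∧ 3 ∣ k) →
      okN an i j k (An 0) (An 1) (An 2) (Bn 0) (Bn 1) (Bn 2) (Cn 0) (Cn 1) (Cn 2) = true := by
    intro i j k hn
    have h1 := h (i : F) (j : F) (k : F) (by rwa [hzero, hzero, hzero])
    have hfun : (fun t => (i : F) * A t + j * B t + k * C t) =
        ![((i * An 0 + j * Bn 0 + k * Cn 0 : ℕ) : F), ((i * An 1 + j * Bn 1 + k * Cn 1 : ℕ) : F),
          ((i * An 2 + j * Bn 2 + k * Cn 2 : ℕ) : F)] := by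
      funext t
      fin_cases t <;> simp [← hA, ← hB, ← hC]
    rw [hfun, ← cast_dd 2 hm, Ne, hzero] at h1
    unfold okN
    rw [Bool.not_eq_true', ← Bool.not_eq_true, Nat.beq_eq]
    intro h0
    exact h1 (Nat.dvd_of_mod_eq_zero h0)
  have hall : chkA an = true := by
    interval_cases an
    · exact absurd rfl han0
    · exact chk1
    · exact chk2
  have keyA := key 1 0 0 (by norm_num)
  have keyA' : okN an 1 0 0 (An 0) (An 1) (An 2) 0 0 0 0 0 0 = true := by
    simpa [okN] using keyA
  have keyB' : ∀ i, i < 3 →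
      okN an i 1 0 (An 0) (An 1) (An 2) (Bn 0) (Bn 1) (Bn 2) 0 0 0 = true := by
    intro i hi
    have := key i 1 0 (by norm_num)
    simpa [okN] using this
  have hB' : chkB an (An 0) (An 1) (An 2) = true := by
    unfold chkA at hall
    have h1 := (all3_iff _).1 ((all3_iff _).1 ((all3_iff _).1 hall _ (hAn 0)) _ (hAn 1)) _ (hAn 2)
    rw [Bool.or_eq_true, Bool.not_eq_true', keyA'] at h1
    rcases h1 with h1 | h1
    · exact absurd h1 (by decide)
    · exact h1
  have hC' : chkC an (An 0) (An 1) (An 2) (Bn 0) (Bn 1) (Bn 2) = true := by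
    unfold chkB at hB'
    have h1 := (all3_iff _).1 ((all3_iff _).1 ((all3_iff _).1 hB' _ (hBn 0)) _ (hBn 1)) _ (hBn 2)
    rw [Bool.or_eq_true, Bool.not_eq_true', (all3_iff _).2 keyB'] at h1
    rcases h1 with h1 | h1
    · exact absurd h1 (by decide)
    · exact h1
  have hfin : An 0 + An 1 + An 2 + (Bn 0 + Bn 1 + Bn 2) + (Cn 0 + Cn 1 + Cn 2) = 0 := by
    unfold chkC at hC'
    have h1 := (all3_iff _).1 ((all3_iff _).1 ((all3_iff _).1 hC' _ (hCn 0)) _ (hCn 1)) _ (hCn 2)
    have h2 : (all3 fun i => all3 fun j =>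
        okN an i j 1 (An 0) (An 1) (An 2) (Bn 0) (Bn 1) (Bn 2) (Cn 0) (Cn 1) (Cn 2)) = true := by
      rw [all3_iff]
      intro i hi
      rw [all3_iff]
      intro j hj
      exact key i j 1 (by norm_num)
    rw [Bool.or_eq_true, Bool.not_eq_true', h2] at h1
    rcases h1 with h1 | h1
    · exact absurd h1 (by decide)
    · exact Nat.eq_of_beq_eq_true h1
  refine ⟨?_, ?_, ?_⟩
  · funext t
    rw [← hA, Pi.zero_apply]
    have : An t = 0 := by fin_cases t <;> simp <;> omega
    rw [this, Nat.cast_zero]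
  · funext t
    rw [← hB, Pi.zero_apply]
    have : Bn t = 0 := by fin_cases t <;> simp <;> omega
    rw [this, Nat.cast_zero]
  · funext t
    rw [← hC, Pi.zero_apply]
    have : Cn t = 0 := by fin_cases t <;> simp <;> omega
    rw [this, Nat.cast_zero]

end Pool.Agent.LibBT65
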