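import Pool.Agent.LibBT65.QDefs

set_option autoImplicit false

/-!
Row Q4 (ONLY MATHLIB; finite check). `|F| = 3`, so `F ≃+* ZMod 3` (`ZMod.ringEquivOfPrime`, or a
bijective `ZMod.castHom`): transport to `ZMod 3`, then 729 pairs `(m, c)` for each `a` in `{1, 2}`, and
for each of them one of the 27 triples gives determinant 0 (about 2000 evaluations of `det3` for each
`a`; checked by machine): `decide +kernel`, possibly after splitting on `m 0` and `c 0`.
-/

namespace Pool.Agent.LibBT65

private theorem q4_chk : ∀ a : ZMod 3, a ≠ 0 → ∀ m0 m1 m2 c0 c1 c2 : ZMod 3,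
    ∃ i j k : ZMod 3, det3 (fun r s => NN a 1 i j k r s + ![m0, m1, m2] r * ![m0, m1, m2] s +
      alt3 ![c0, c1, c2] r s) = 0 := by
  decide +kernel

theorem Q4 {F : Type*} [Field F] [Fintype F] (hF : Fintype.card F = 3) (a : F) (ha : a ≠ 0)
    (m c : Fin 3 → F) :
    ∃ i j k : F, det3 (fun r s => NN a 1 i j k r s + m r * m s + alt3 c r s) = 0 := by
  have e : ZMod 3 ≃+* F := ZMod.ringEquivOfPrime F Nat.prime_three hF
  have hab : e.symm a ≠ 0 := by
    intro h
    exact ha (by simpa using congrArg e h)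
  obtain ⟨i, j, k, h⟩ := q4_chk (e.symm a) hab (e.symm (m 0)) (e.symm (m 1)) (e.symm (m 2))
    (e.symm (c 0)) (e.symm (c 1)) (e.symm (c 2))
  refine ⟨e i, e j, e k, ?_⟩
  have h2 := congrArg e h
  simp only [det3, NN, qf, tv, alt3, Matrix.cons_val_zero, Matrix.cons_val_one, Matrix.cons_val,
    map_add, map_sub, map_mul, map_neg, map_one, map_zero, RingEquiv.apply_symm_apply] at h2 ⊢
  exact h2

end Pool.Agent.LibBT65
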