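import Pool.Agent.LibBT65.D1

set_option autoImplicit false

/-!
Row Q5. The type of the space `K` modulo `U`: the Gram determinant of four vectors of `K` is a square.

`U` has a basis `u₁ u₂ u₃`; take another member `π` (`two_members`); the pairing `U × π → F` is perfect
(`opp`, both of dimension 3), so `π` has a basis `s₁ s₂ s₃` with `polar (u i) (s j) = δ i j`. Replace
`k i` by `k' i = k i - ∑ j, polar (k i) (s j) • u j`: same Gram matrix (`U` is orthogonal to `K` and
totally isotropic), and `polar (k' i) (s j) = 0`, `polar (k' i) (u j) = 0`. The Gram matrix of the ten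
vectors `u, s, k'` is a block matrix with the blocks `0 I; I 0` (determinant `-1`) and the Gram matrix
`C` of `k'`, so its determinant is `- det C`. It is also `Aᵀ J A`, where `A` is the 10 by 10 matrix of
the coordinates of the ten vectors in the standard basis of `Sp F` and `J` the Gram matrix of the
standard basis, `0 I; I 0` with blocks of size 5, `det J = -1`
(`Matrix.det_fromBlocks_zero...`, or `J` is a permutation matrix, or `J * J = 1` and a direct
computation of the sign by `Matrix.det_fromBlocks...` / `Matrix.det_permutation`).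
So `det C = (det A)^2`. (Index the matrices by `Fin 3 ⊕ Fin 3 ⊕ Fin 4` and `Fin 5 ⊕ Fin 5`; use a
bijection `Fin 3 ⊕ Fin 3 ⊕ Fin 4 ≃ Fin 5 ⊕ Fin 5` and `Matrix.det_reindex_self`.)
-/

namespace Pool.Agent.LibBT65

/-- The Gram determinant of any four vectors of `K` is a square. -/
def SqDisc {F V : Type*} [Field F] [AddCommGroup V] [Module F V]
    (B : V →ₗ[F] V →ₗ[F] F) (K : Submodule F V) : Prop :=
  ∀ k : Fin 4 → V, (∀ i, k i ∈ K) → IsSquare (Matrix.det (Matrix.of fun i j => B (k i) (k j)))

/-- the determinant of `0 I; I 0` -/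
private theorem q5_J (F : Type*) [Field F] (n : ℕ) :
    (Matrix.fromBlocks 0 1 1 0 : Matrix (Fin n ⊕ Fin n) (Fin n ⊕ Fin n) F).det = (-1) ^ n := by
  have h1 : (Matrix.fromBlocks 0 1 1 0 : Matrix (Fin n ⊕ Fin n) (Fin n ⊕ Fin n) F)
      * Matrix.fromBlocks 1 0 1 1 = Matrix.fromBlocks 1 1 1 0 := by
    rw [Matrix.fromBlocks_multiply]
    simp
  have h2 : (Matrix.fromBlocks 1 0 1 1 : Matrix (Fin n ⊕ Fin n) (Fin n ⊕ Fin n) F).det = 1 := by
    rw [Matrix.det_fromBlocks_zero₁₂]
    simp
  have h3 : (Matrix.fromBlocks 1 1 1 0 : Matrix (Fin n ⊕ Fin n) (Fin n ⊕ Fin n) F).det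
      = (-1) ^ n := by
    rw [Matrix.det_fromBlocks_one₁₁, mul_one, zero_sub, Matrix.det_neg, Matrix.det_one, mul_one,
      Fintype.card_fin]
  have h4 := congrArg Matrix.det h1
  rw [Matrix.det_mul, h2, mul_one, h3] at h4
  exact h4

/-- the Gram determinant of ten vectors -/
private theorem q5_gram {F : Type*} [Field F] {ι : Type} [Fintype ι] [DecidableEq ι]
    (e : ι ≃ Fin 5 ⊕ Fin 5) (x : ι → Sp F) : ∃ d : F,
    Matrix.det (Matrix.of fun i j => bil F (x i) (x j)) = -(d * d) := by
  let A : Matrix ι (Fin 5 ⊕ Fin 5) F := Matrix.of fun i a => Sum.elim (x i).1 (x i).2 a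
  let J : Matrix (Fin 5 ⊕ Fin 5) (Fin 5 ⊕ Fin 5) F := Matrix.fromBlocks 0 1 1 0
  have hJ : J.det = -1 := by
    have := q5_J F 5
    rw [show ((-1 : F)) ^ 5 = -1 by norm_num] at this
    exact this
  have h1 : (Matrix.of fun i j => bil F (x i) (x j)) = A * J * A.transpose := by
    ext i j
    rw [Matrix.mul_assoc, Matrix.mul_apply, Fintype.sum_sum_type]
    simp only [Matrix.of_apply, bil_apply, polar, A, Sum.elim_inl, Sum.elim_inr]
    have e1 : ∀ a : Fin 5, (J * (Matrix.of fun i a => Sum.elim (x i).1 (x i).2 a).transpose)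
        (Sum.inl a) j = (x j).2 a := by
      intro a
      rw [Matrix.mul_apply, Fintype.sum_sum_type]
      simp [J, Matrix.one_apply]
    have e2 : ∀ a : Fin 5, (J * (Matrix.of fun i a => Sum.elim (x i).1 (x i).2 a).transpose)
        (Sum.inr a) j = (x j).1 a := by
      intro a
      rw [Matrix.mul_apply, Fintype.sum_sum_type]
      simp [J, Matrix.one_apply]
    simp only [e1, e2]
    rw [Finset.sum_add_distrib]
    congr 1
    exact Finset.sum_congr rfl fun a _ => mul_comm _ _
  have h2 : A * J * A.transpose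
      = (A.submatrix id e) * (J.submatrix e e) * (A.submatrix id e).transpose := by
    rw [Matrix.transpose_submatrix, Matrix.submatrix_mul_equiv, Matrix.submatrix_mul_equiv,
      Matrix.submatrix_id_id]
  refine ⟨(A.submatrix id e).det, ?_⟩
  rw [h1, h2, Matrix.det_mul, Matrix.det_mul, Matrix.det_transpose,
    Matrix.det_submatrix_equiv_self, hJ]
  ring

theorem sqDisc {F : Type*} [Field F] [Fintype F] (two : (2 : F) ≠ 0)
    {M : Finset (Submodule F (Sp F))} (hM : BLTSystem M) {U K : Submodule F (Sp F)}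
    (hb : Base (bil F) M U K) : SqDisc (bil F) K := by
  have hS := sys two hM
  have hU := hb.mem
  obtain ⟨π, hπ, hne⟩ : ∃ π ∈ M, π ≠ U := by
    refine Finset.exists_mem_ne ?_ U
    rw [hM.card]
    have : 0 < Fintype.card F ^ 4 := pow_pos Fintype.card_pos 4
    omega
  let b : Module.Basis (Fin 3) F U := Module.finBasisOfFinrankEq F U (hM.sing U hU).1
  -- the dual basis in `π`
  let T : π →ₗ[F] Module.Dual F U :=
    (LinearMap.lcomp F F U.subtype) ∘ₗ ((bil F).flip ∘ₗ π.subtype)
  have hT : ∀ (p : π) (v : U), T p v = bil F (v : Sp F) (p : Sp F) := fun p v => rfl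
  have hinj : Function.Injective T := by
    rw [← LinearMap.ker_eq_bot, LinearMap.ker_eq_bot']
    intro p hp
    have h1 : (p : Sp F) = 0 := by
      refine hS.opp U hU π hπ hne.symm _ p.2 (fun w hw => ?_)
      have := hT p ⟨w, hw⟩
      rw [hp] at this
      rw [hS.symm]
      exact this.symm
    exact Subtype.ext h1
  have hfr : Module.finrank F π = Module.finrank F (Module.Dual F U) := by
    rw [Subspace.dual_finrank_eq, (hM.sing U hU).1, (hM.sing π hπ).1]
  have hsur : Function.Surjective T :=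
    (LinearMap.injective_iff_surjective_of_finrank_eq_finrank hfr).1 hinj
  choose s hs using fun j : Fin 3 => hsur (b.coord j)
  have hus : ∀ i j : Fin 3, bil F (b i : Sp F) (s j : Sp F) = if i = j then 1 else 0 := by
    intro i j
    rw [← hT, hs, Module.Basis.coord_apply, Module.Basis.repr_self, Finsupp.single_apply]
  have huu : ∀ i j : Fin 3, bil F (b i : Sp F) (b j : Sp F) = 0 := fun i j =>
    hS.sing U hU _ (b i).2 _ (b j).2
  have hss : ∀ i j : Fin 3, bil F (s i : Sp F) (s j : Sp F) = 0 := fun i j =>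
    hS.sing π hπ _ (s i).2 _ (s j).2
  intro k hk
  have hku : ∀ (i : Fin 4) (j : Fin 3), bil F (k i) (b j : Sp F) = 0 := fun i j =>
    (hb.perp _).1 (hk i) _ (b j).2
  have huk : ∀ (i : Fin 4) (j : Fin 3), bil F (b j : Sp F) (k i) = 0 := fun i j => by
    rw [hS.symm]; exact hku i j
  let k' : Fin 4 → Sp F := fun i => k i - ∑ j, bil F (k i) (s j : Sp F) • (b j : Sp F)
  have hk'u : ∀ (i : Fin 4) (m : Fin 3), bil F (k' i) (b m : Sp F) = 0 := by
    intro i m
    simp only [k', map_sub, map_sum, map_smul, LinearMap.sub_apply, LinearMap.sum_apply,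
      LinearMap.smul_apply, hku, huu, smul_zero, Finset.sum_const_zero, sub_zero]
  have hk's : ∀ (i : Fin 4) (m : Fin 3), bil F (k' i) (s m : Sp F) = 0 := by
    intro i m
    simp only [k', map_sub, map_sum, map_smul, LinearMap.sub_apply, LinearMap.sum_apply,
      LinearMap.smul_apply, hus, smul_eq_mul, mul_ite, mul_one, mul_zero]
    rw [Finset.sum_ite_eq' Finset.univ m]
    simp
  have hk'k : ∀ i j : Fin 4, bil F (k' i) (k' j) = bil F (k i) (k j) := by
    intro i j
    have h1 : bil F (k' i) (k' j) = bil F (k' i) (k j) := by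
      conv_lhs => rw [show k' j = k j - ∑ m, bil F (k j) (s m : Sp F) • (b m : Sp F) from rfl]
      rw [map_sub, map_sum]
      simp only [map_smul, hk'u, smul_zero, Finset.sum_const_zero, sub_zero]
    rw [h1]
    simp only [k', map_sub, map_sum, map_smul, LinearMap.sub_apply, LinearMap.sum_apply,
      LinearMap.smul_apply, huk, smul_zero, Finset.sum_const_zero, sub_zero]
  have e : (Fin 3 ⊕ Fin 3) ⊕ Fin 4 ≃ Fin 5 ⊕ Fin 5 := Fintype.equivOfCardEq (by simp)
  obtain ⟨d, hd⟩ := q5_gram e
    (Sum.elim (Sum.elim (fun i => (b i : Sp F)) (fun i => (s i : Sp F))) k')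
  have hblk : (Matrix.of fun i j => bil F
      (Sum.elim (Sum.elim (fun i => (b i : Sp F)) (fun i => (s i : Sp F))) k' i)
      (Sum.elim (Sum.elim (fun i => (b i : Sp F)) (fun i => (s i : Sp F))) k' j))
      = Matrix.fromBlocks (Matrix.fromBlocks 0 1 1 0 : Matrix (Fin 3 ⊕ Fin 3) (Fin 3 ⊕ Fin 3) F)
          0 0 (Matrix.of fun i j => bil F (k i) (k j)) := by
    ext i j
    rcases i with (i | i) | i <;> rcases j with (j | j) | j
    · simp [huu]
    · simp [hus, Matrix.one_apply]
    · simp only [Matrix.of_apply, Sum.elim_inl, Sum.elim_inr, Matrix.fromBlocks_apply₁₂,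
        Matrix.zero_apply]
      rw [hS.symm]; exact hk'u j i
    · simp only [Matrix.of_apply, Sum.elim_inl, Sum.elim_inr, Matrix.fromBlocks_apply₁₁,
        Matrix.fromBlocks_apply₂₁]
      rw [hS.symm, hus, Matrix.one_apply]
      simp only [eq_comm]
    · simp [hss]
    · simp only [Matrix.of_apply, Sum.elim_inl, Sum.elim_inr, Matrix.fromBlocks_apply₁₂,
        Matrix.zero_apply]
      rw [hS.symm]; exact hk's j i
    · simp [hk'u]
    · simp [hk's]
    · simp [hk'k]
  rw [hblk, Matrix.det_fromBlocks_zero₁₂, q5_J] at hd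
  refine ⟨d, ?_⟩
  have h3 : ((-1 : F)) ^ 3 = -1 := by norm_num
  rw [h3] at hd
  linear_combination -hd

end Pool.Agent.LibBT65
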