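import Pool.Agent.LibBT65.B1
import Pool.Agent.LibBT65.S1

set_option autoImplicit false

/-!
Row Q6m. The component along the invariant vector `w` (see `exists_w` in file B1).

`ww_ne`: `w ∈ K`, `w ∉ U`, `w` orthogonal to `U`, to all `c v - v`; if `B w w = 0` then `w` is
orthogonal to `K` (last clause `hdec`), so `w ∈ U` by `K_perp`.
`exists_m`: for `x ∈ EE` the functional `v ↦ B (x v - v) w / B w w` vanishes on `K` (`x v - v ∈ U` is
orthogonal to `w ∈ K`), so it descends to `V ⧸ K` (`Submodule.liftQ`).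
`split`: let `v' ∈ V` with `B (x v - v) (c z - z) = B (c v' - v') (c z - z)` for all `z` (this says
`T x (mk v) = mk v'`). Then `x v - v - (c v' - v') - (B (x v - v) w / B w w) • w` is in `K` (L1) and is
orthogonal to all `c z - z`, to `w` and to `U`, so to `K`, so it is in `U` (`K_perp`).
-/

namespace Pool.Agent.LibBT65

open Module

variable {F V : Type*} [Field F] [Fintype F] [AddCommGroup V] [Module F V]
  {B : V →ₗ[F] V →ₗ[F] F} {M : Finset (Submodule F V)} {U K : Submodule F V}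

theorem ww_ne (hS : Sys B M) (hb : Base B M U K) {c : V ≃ₗ[F] V} {w : V} (hw : w ∈ K)
    (hwU : w ∉ U) (hwc : ∀ v, B w (c v - v) = 0)
    (hdec : ∀ k ∈ K, ∃ (v : V) (a : F), k - (c v - v) - a • w ∈ U) : B w w ≠ 0 := by
  intro h0
  apply hwU
  apply K_perp hS hb
  intro k hk
  obtain ⟨v, a, hu⟩ := hdec k hk
  have h1 : B w (k - (c v - v) - a • w) = 0 := (hb.perp w).1 hw _ hu
  rw [map_sub, map_sub, map_smul, hwc, h0, smul_zero, sub_zero, sub_zero] at h1
  exact h1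

theorem exists_m (hS : Sys B M) (hb : Base B M U K)
    (P : Subgroup (V ≃ₗ[F] V)) {x : V ≃ₗ[F] V} (hx : x ∈ EE U K P) {w : V} (hw : w ∈ K) :
    ∃ m : (V ⧸ K) →ₗ[F] F, ∀ v : V,
      m (Submodule.Quotient.mk v) = B (x v - v) w / B w w := by
  obtain ⟨T, hT⟩ : ∃ T : V →ₗ[F] F, ∀ v, T v = B (x v - v) w / B w w := by
    refine ⟨(B w w)⁻¹ • ((B w) ∘ₗ ((x : V →ₗ[F] V) - LinearMap.id)), fun v => ?_⟩
    rw [LinearMap.smul_apply, LinearMap.comp_apply, LinearMap.sub_apply, LinearMap.id_apply,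
      LinearEquiv.coe_coe, hS.symm w (x v - v), smul_eq_mul, mul_comm, div_eq_mul_inv]
  have hK : K ≤ LinearMap.ker T := by
    intro k hk
    rw [LinearMap.mem_ker, hT, hS.symm (x k - k) w, (hb.perp w).1 hw _ (hx.2.2 k hk), zero_div]
  refine ⟨K.liftQ T hK, fun v => ?_⟩
  rw [← hT v]
  exact Submodule.liftQ_apply K T v

theorem split (hS : Sys B M) (hb : Base B M U K) (p : ℕ) [Fact p.Prime] [CharP F p]
    (P : Subgroup (V ≃ₗ[F] V)) (hP : IsPGroup p P) (hA : ∀ g ∈ P, Aut B M U g)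
    {c : V ≃ₗ[F] V} (hc : c ∈ EE U K P) {w : V} (hw : w ∈ K)
    (hwU : w ∉ U) (hwc : ∀ v, B w (c v - v) = 0)
    (hdec : ∀ k ∈ K, ∃ (v : V) (a : F), k - (c v - v) - a • w ∈ U)
    {x : V ≃ₗ[F] V} (hx : x ∈ EE U K P) {v v' : V}
    (hv : ∀ z, B (x v - v) (c z - z) = B (c v' - v') (c z - z)) :
    x v - v - (c v' - v') - (B (x v - v) w / B w w) • w ∈ U := by
  obtain ⟨m, hm⟩ := hP ⟨x, hx.1⟩
  have hxm : x ^ (p ^ m) = 1 := congrArg Subtype.val hm
  obtain ⟨n, hn⟩ := hP ⟨c, hc.1⟩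
  have hcn : c ^ (p ^ n) = 1 := congrArg Subtype.val hn
  have h1 : x v - v ∈ K := L1 hS hb p (hA x hx.1) hxm hx.2.2 v
  have h2 : c v' - v' ∈ K := L1 hS hb p (hA c hc.1) hcn hc.2.2 v'
  have hne := ww_ne hS hb hw hwU hwc hdec
  obtain ⟨t, ht⟩ : ∃ t, t = B (x v - v) w / B w w := ⟨_, rfl⟩
  have ht' : t * B w w = B (x v - v) w := by
    rw [ht, div_mul_cancel₀ _ hne]
  rw [← ht]
  have hyK : x v - v - (c v' - v') - t • w ∈ K := K.sub_mem (K.sub_mem h1 h2) (K.smul_mem t hw)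
  apply K_perp hS hb
  intro k hk
  obtain ⟨z, a, hu⟩ := hdec k hk
  have h3 : B (x v - v - (c v' - v') - t • w) (k - (c z - z) - a • w) = 0 :=
    (hb.perp _).1 hyK _ hu
  have h4 : ∀ y, B (x v - v - (c v' - v') - t • w) y =
      B (x v - v) y - B (c v' - v') y - t * B w y := by
    intro y
    rw [map_sub, map_sub, map_smul, LinearMap.sub_apply, LinearMap.sub_apply, LinearMap.smul_apply,
      smul_eq_mul]
  have h5 : B (x v - v - (c v' - v') - t • w) (c z - z) = 0 := by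
    rw [h4, hv z, hwc, mul_zero, sub_self, sub_zero]
  have h6 : B (x v - v - (c v' - v') - t • w) w = 0 := by
    rw [h4, ht', hS.symm (c v' - v') w, hwc, sub_zero, sub_self]
  rw [map_sub, map_sub, map_smul, h5, h6, smul_zero, sub_zero, sub_zero] at h3
  exact h3

end Pool.Agent.LibBT65
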