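import Pool.Agent.LibBT65.S2
import Pool.Agent.LibBT65.Q1

set_option autoImplicit false

/-!
Row QA (algebra; cites S2, Q1 as stated). The abstract situation for `|F| = 3`, `|G| > 27`.

`S2` gives `e₁ e₂ e₃ μ φ`. As in file P3 (proven: see its private lemmas): `τ : x ↦ T x e₁` is additive
and injective on `E` (`hNV`, `e₁` isotropic and nonzero), so `|E| ≤ |X| = 27`; the kernel of `φ` is
contained in `E` (`hker`), the range of `φ` is an additive subgroup of `F`, so `|G| ≤ 3 |E|` if `φ` is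
onto and `|G| ≤ |E| ≤ 27` if `φ = 0` (an additive subgroup of a group of order 3 is trivial or
everything). Since `|G| > 27`, `φ` is onto: choose `g` with `φ g = 1`. Also `|E| = 27`: `|G| ≤ 3 |E|`,
`|E|` is a power of 3 (`E` is a 3-group), so `|E| > 9` gives `|E| ≥ 27`. So `τ` is a bijection from `E`
to `X`. Let `x₂, x₃ ∈ E` with `τ x₂ = e₂`, `τ x₃ = e₃`; `τ c = e₁`. Put `H = h g`. By injectivity
`g x₂ g⁻¹ = x₂ c` (`τ (g x₂ g⁻¹) = H e₂ = e₂ + e₁`), `g x₃ g⁻¹ = x₃ x₂ c⁻¹`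
(`H e₃ = e₃ + e₂ + (1/2) e₁`, `1/2 = -1`). This gives `c2, c3, k2, k3` of `Q1` for
`T₂ = T x₂`, `T₃ = T x₃`, `m₂ = mm x₂`, `m₃ = mm x₃` (`mm (c⁻¹) = 0`, `T (c⁻¹) = - id`).
-/

namespace Pool.Agent.LibBT65

open Module

theorem QA {F X G : Type*} [Field F] [Fintype F] (hF : Fintype.card F = 3) [AddCommGroup X]
    [Module F X] [CharP F 3] (two : (2 : F) ≠ 0)
    (β : X →ₗ[F] X →ₗ[F] F) (hsymm : ∀ x y, β x y = β y x)
    (hnd : ∀ x, (∀ y, β x y = 0) → x = 0)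
    (hd : finrank F X = 3) [Group G] [Finite G] (hG : IsPGroup 3 G) (h : G →* (X ≃ₗ[F] X))
    (hiso : ∀ g x y, β (h g x) (h g y) = β x y) (E : Subgroup G) [E.Normal]
    (T : G → (X →ₗ[F] X)) (hadd : ∀ x ∈ E, ∀ y ∈ E, T (x * y) = T x + T y)
    (hequiv : ∀ g, ∀ x ∈ E, ∀ v, T (g * x * g⁻¹) v = h g (T x ((h g)⁻¹ v)))
    (hsa : ∀ x ∈ E, ∀ v w, β (T x v) w = β v (T x w))
    (hNV : ∀ x ∈ E, ∀ e, e ≠ 0 → β e e = 0 → T x e = 0 → x = 1)
    (hker : ∀ g, h g = 1 → g ∈ E) (κ : F) (mm : G → (X →ₗ[F] F))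
    (hmadd : ∀ x ∈ E, ∀ y ∈ E, mm (x * y) = mm x + mm y)
    (hmequiv : ∀ g, ∀ x ∈ E, ∀ v, mm (g * x * g⁻¹) v = mm x ((h g)⁻¹ v))
    (hcomm : ∀ x ∈ E, ∀ y ∈ E, ∀ v w, β (T x v) (T y w) + κ * (mm x v * mm y w) =
      β (T y v) (T x w) + κ * (mm y v * mm x w))
    (c : G) (hc : c ∈ E) (hTc : T c = LinearMap.id) (hmc : mm c = 0)
    (hne : ∃ g, h g ≠ 1) (hcard : 27 < Nat.card G) :
    ∃ (x₂ x₃ : G) (e₁ e₂ e₃ : X) (μ a b m n : F), x₂ ∈ E ∧ x₃ ∈ E ∧ μ ≠ 0 ∧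
      β e₁ e₁ = 0 ∧ β e₁ e₂ = 0 ∧ β e₁ e₃ = μ ∧ β e₂ e₂ = -μ ∧ β e₂ e₃ = 0 ∧ β e₃ e₃ = 0 ∧
      (∀ x, x = (β x e₃ / μ) • e₁ + (-(β x e₂) / μ) • e₂ + (β x e₁ / μ) • e₃) ∧
      T x₂ e₁ = e₂ ∧ T x₂ e₂ = -e₁ - e₃ ∧ T x₂ e₃ = e₂ + a • e₁ ∧
      T x₃ e₁ = e₃ ∧ T x₃ e₂ = e₂ + a • e₁ ∧ T x₃ e₃ = -(a • e₂) + b • e₁ ∧
      mm x₂ e₁ = 0 ∧ mm x₂ e₂ = 0 ∧ mm x₂ e₃ = m ∧ mm x₃ e₁ = 0 ∧ mm x₃ e₂ = -m ∧
      mm x₃ e₃ = n ∧ μ * b = μ + κ * m ^ 2 ∧ ∀ v : X, ∃ y ∈ E, T y e₁ = v := by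
  classical
  have : Fact (Nat.Prime 3) := ⟨Nat.prime_three⟩
  obtain ⟨e₁, e₂, e₃, μ, φ, hμ, b11, b12, b13, b22, b23, b33, hφ, he1, he2, he3, hφ0, hexp⟩ :=
    S2 3 two β hsymm hnd hd hG h hiso hne
  have three : (3 : F) = 0 := by
    have h1 := CharP.cast_eq_zero F 3
    exact_mod_cast h1
  have half : (1 : F) / 2 = -1 := by
    rw [div_eq_iff two]
    linear_combination three
  have e1ne : e₁ ≠ 0 := by
    rintro rfl
    rw [map_zero, LinearMap.zero_apply] at b13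
    exact hμ b13.symm
  have T1 : T 1 = 0 := by
    have h1 := hadd 1 E.one_mem 1 E.one_mem
    rw [mul_one] at h1
    exact (left_eq_add.1 h1)
  have Tinv : ∀ x ∈ E, T x⁻¹ = - T x := by
    intro x hx
    have h1 := hadd x hx x⁻¹ (E.inv_mem hx)
    rw [mul_inv_cancel, T1] at h1
    exact (neg_eq_of_add_eq_zero_right h1.symm).symm
  have mm1 : mm 1 = 0 := by
    have h1 := hmadd 1 E.one_mem 1 E.one_mem
    rw [mul_one] at h1
    exact (left_eq_add.1 h1)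
  have mminv : ∀ x ∈ E, mm x⁻¹ = - mm x := by
    intro x hx
    have h1 := hmadd x hx x⁻¹ (E.inv_mem hx)
    rw [mul_inv_cancel, mm1] at h1
    exact (neg_eq_of_add_eq_zero_right h1.symm).symm
  have φ1 : φ 1 = 0 := by
    have h1 := hφ 1 1
    rw [mul_one] at h1
    exact (left_eq_add.1 h1)
  have φinv : ∀ g, φ g⁻¹ = - φ g := by
    intro g
    have h1 := hφ g g⁻¹
    rw [mul_inv_cancel, φ1] at h1
    exact (neg_eq_of_add_eq_zero_right h1.symm).symm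
  -- injectivity
  have hinj : ∀ x ∈ E, ∀ y ∈ E, T x e₁ = T y e₁ → x = y := by
    intro x hx y hy hxy
    have h2 : T (x * y⁻¹) e₁ = 0 := by
      rw [hadd _ hx _ (E.inv_mem hy), Tinv _ hy, LinearMap.add_apply, LinearMap.neg_apply, hxy,
        add_neg_cancel]
    exact mul_inv_eq_one.1 (hNV _ (E.mul_mem hx (E.inv_mem hy)) e₁ e1ne b11 h2)
  have hFD : FiniteDimensional F X := Module.finite_of_finrank_pos (by omega)
  have hfinX : Finite X := Module.finite_of_finite F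
  have hcardX : Nat.card X = 27 := by
    rw [Module.natCard_eq_pow_finrank (K := F) (V := X), hd, Nat.card_eq_fintype_card, hF]
    norm_num
  let τ : E → X := fun x => T x e₁
  have hτ : Function.Injective τ := fun x y hxy => Subtype.ext (hinj x x.2 y y.2 hxy)
  have hE27 : Nat.card E ≤ 27 := hcardX ▸ Nat.card_le_card_of_injective τ hτ
  -- the group of values of φ
  let φ' : Additive G →+ F := AddMonoidHom.mk' (fun g => φ g.toMul) (fun a b => hφ a.toMul b.toMul)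
  have hφ' : ∀ g : G, φ' (Additive.ofMul g) = φ g := fun g => rfl
  have hcardG : Nat.card G = Nat.card φ'.ker * Nat.card φ'.range := by
    have h1 := AddSubgroup.card_mul_index φ'.ker
    rw [AddSubgroup.index_ker] at h1
    rw [h1]
    exact Nat.card_congr Additive.ofMul
  have hkerE : Nat.card φ'.ker ≤ Nat.card E := by
    have hm : ∀ x : φ'.ker, (x : Additive G).toMul ∈ E := by
      intro x
      refine hker _ (hφ0 _ ?_)
      exact x.2
    refine Nat.card_le_card_of_injective (fun x : φ'.ker => (⟨(x : Additive G).toMul, hm x⟩ : E)) ?_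
    intro x y hxy
    have h1 : (x : Additive G).toMul = (y : Additive G).toMul := congrArg (fun z : E => (z : G)) hxy
    exact Subtype.ext (Additive.toMul.injective h1)
  have hrange : Nat.card φ'.range ≤ 3 := by
    have h1 := Nat.card_le_card_of_injective (fun x : φ'.range => (x : F)) Subtype.val_injective
    rwa [Nat.card_eq_fintype_card (α := F), hF] at h1
  have hE9 : 9 < Nat.card E := by
    have h1 : Nat.card G ≤ Nat.card E * 3 := by
      rw [hcardG]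
      exact Nat.mul_le_mul hkerE hrange
    omega
  have hE : Nat.card E = 27 := by
    obtain ⟨k, hk⟩ := (IsPGroup.iff_card (p := 3)).1 (hG.to_subgroup E)
    have hk3 : 3 ≤ k := by
      by_contra hlt
      have h2 : k ≤ 2 := by omega
      have h3 : 3 ^ k ≤ 3 ^ 2 := Nat.pow_le_pow_right (by norm_num) h2
      rw [hk] at hE9
      omega
    have h4 : 3 ^ 3 ≤ 3 ^ k := Nat.pow_le_pow_right (by norm_num) hk3
    rw [← hk] at h4
    omega
  have hbij : Function.Bijective τ := hτ.bijective_of_nat_card_le (by rw [hcardX, hE])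
  -- φ is onto
  have hg : ∃ g, φ g = 1 := by
    have h1 : ∃ g, φ g ≠ 0 := by
      by_contra hno
      push Not at hno
      have h2 : Nat.card G ≤ Nat.card E := by
        refine Nat.card_le_card_of_injective (fun g : G => (⟨g, hker _ (hφ0 _ (hno g))⟩ : E)) ?_
        intro x y hxy
        exact congrArg (fun z : E => (z : G)) hxy
      omega
    obtain ⟨g, hg⟩ := h1
    have h3 := FiniteField.pow_card_sub_one_eq_one (φ g) hg
    rw [hF] at h3
    have h4 : (φ g - 1) * (φ g + 1) = 0 := by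
      linear_combination h3
    rcases mul_eq_zero.1 h4 with h5 | h5
    · exact ⟨g, by linear_combination h5⟩
    · exact ⟨g⁻¹, by rw [φinv]; linear_combination -h5⟩
  obtain ⟨g, hg⟩ := hg
  have H1 : h g e₁ = e₁ := he1 g
  have H2 : h g e₂ = e₂ + e₁ := by rw [he2, hg, one_smul]
  have H3 : h g e₃ = e₃ + e₂ - e₁ := by
    rw [he3, hg, one_pow, half, one_smul, neg_smul, one_smul, sub_eq_add_neg]
  obtain ⟨⟨x₂, hx₂⟩, h2⟩ := hbij.2 e₂
  obtain ⟨⟨x₃, hx₃⟩, h3⟩ := hbij.2 e₃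
  have h2' : T x₂ e₁ = e₂ := h2
  have h3' : T x₃ e₁ = e₃ := h3
  have hinv1 : (h g)⁻¹ e₁ = e₁ := by
    rw [← map_inv]
    exact he1 g⁻¹
  have hconj : ∀ x ∈ E, g * x * g⁻¹ ∈ E := fun x hx => Subgroup.Normal.conj_mem inferInstance x hx g
  have C2 : g * x₂ * g⁻¹ = x₂ * c := by
    refine hinj _ (hconj _ hx₂) _ (E.mul_mem hx₂ hc) ?_
    rw [hequiv g _ hx₂, hinv1, h2', H2, hadd _ hx₂ _ hc, LinearMap.add_apply, h2', hTc]
    rfl
  have C3 : g * x₃ * g⁻¹ = x₃ * x₂ * c⁻¹ := by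
    refine hinj _ (hconj _ hx₃) _ (E.mul_mem (E.mul_mem hx₃ hx₂) (E.inv_mem hc)) ?_
    rw [hequiv g _ hx₃, hinv1, h3', H3, hadd _ (E.mul_mem hx₃ hx₂) _ (E.inv_mem hc),
      hadd _ hx₃ _ hx₂, Tinv _ hc, LinearMap.add_apply, LinearMap.add_apply, h2', h3', hTc,
      sub_eq_add_neg]
    rfl
  obtain ⟨a, b, m, n, q1, q2, q3, q4, q5, q6, q7, q8, q9, q10, q11⟩ :=
    Q1 three β hsymm e₁ e₂ e₃ μ κ hμ b11 b12 b13 b22 b23 b33 hexp (h g) H1 H2 H3 (T x₂) (T x₃)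
      (hsa x₂ hx₂) (hsa x₃ hx₃) h2' h3'
      (by
        intro x
        have h5 := hequiv g x₂ hx₂ x
        rw [C2, hadd _ hx₂ _ hc, hTc] at h5
        exact h5.symm)
      (by
        intro x
        have h5 := hequiv g x₃ hx₃ x
        rw [C3, hadd _ (E.mul_mem hx₃ hx₂) _ (E.inv_mem hc), hadd _ hx₃ _ hx₂, Tinv _ hc, hTc] at h5
        rw [sub_eq_add_neg]
        exact h5.symm)
      (mm x₂) (mm x₃)
      (by
        intro x
        have h5 := hmequiv g x₂ hx₂ x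
        rw [C2, hmadd _ hx₂ _ hc, hmc, add_zero] at h5
        exact h5.symm)
      (by
        intro x
        have h5 := hmequiv g x₃ hx₃ x
        rw [C3, hmadd _ (E.mul_mem hx₃ hx₂) _ (E.inv_mem hc), hmadd _ hx₃ _ hx₂, mminv _ hc, hmc,
          neg_zero, add_zero] at h5
        exact h5.symm)
      (hcomm x₂ hx₂ x₃ hx₃)
  refine ⟨x₂, x₃, e₁, e₂, e₃, μ, a, b, m, n, hx₂, hx₃, hμ, b11, b12, b13, b22, b23, b33, hexp, h2',
    q1, q2, h3', q3, q4, q5, q6, q7, q8, q9, q10, q11, ?_⟩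
  intro v
  obtain ⟨⟨y, hy⟩, hv⟩ := hbij.2 v
  exact ⟨y, hy, hv⟩

end Pool.Agent.LibBT65
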