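import Mathlib

set_option autoImplicit false

/-!
Explicit 3 by 3 matrices for the field with three elements (third batch, `q = 3`).
-/

namespace Pool.Agent.LibBT65

/-- The determinant of a 3 by 3 matrix. -/
def det3 {R : Type*} [CommRing R] (b : Fin 3 → Fin 3 → R) : R :=
  b 0 0 * (b 1 1 * b 2 2 - b 1 2 * b 2 1) - b 0 1 * (b 1 0 * b 2 2 - b 1 2 * b 2 0) +
    b 0 2 * (b 1 0 * b 2 1 - b 1 1 * b 2 0)

/-- The images of the basis vectors under the operator with parameters `i, j, k`. -/
def tv {R : Type*} [CommRing R] (a b i j k : R) : Fin 3 → Fin 3 → R :=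
  ![![i, j, k], ![a * k - j, i + k, -j], ![a * j + b * k, j - a * k, i]]

/-- The hyperbolic form in dimension 3. -/
def qf {R : Type*} [CommRing R] (x y : Fin 3 → R) : R := x 0 * y 2 - x 1 * y 1 + x 2 * y 0

/-- The Gram matrix of the images of the basis vectors. -/
def NN {R : Type*} [CommRing R] (a b i j k : R) (r s : Fin 3) : R :=
  qf (tv a b i j k r) (tv a b i j k s)

/-- Alternating matrices. -/
def alt3 {R : Type*} [CommRing R] (v : Fin 3 → R) : Fin 3 → Fin 3 → R :=
  ![![0, v 2, -v 1], ![-v 2, 0, v 0], ![v 1, -v 0, 0]]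

end Pool.Agent.LibBT65
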