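import Pool.Agent.LibBT65.Defs
import Pool.Agent.LibBT65.QDefs

set_option autoImplicit false

/-!
The rigid data for `q = 3`: `c, x₂, x₃` generate `EE U K P`, `e` is a basis of `V` modulo `K`,
`w` is the invariant vector.
-/

namespace Pool.Agent.LibBT65

/-- The rigid data, with parameters `μ κ a b m n`. -/
structure RD0 {F V : Type*} [Field F] [AddCommGroup V] [Module F V]
    (B : V →ₗ[F] V →ₗ[F] F) (U K : Submodule F V) (P : Subgroup (V ≃ₗ[F] V))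
    (c x₂ x₃ : V ≃ₗ[F] V) (e : Fin 3 → V) (w : V) (μ κ a b m n : F) : Prop where
  hc : c ∈ EE U K P
  hx₂ : x₂ ∈ EE U K P
  hx₃ : x₃ ∈ EE U K P
  hc1 : c ≠ 1
  μ0 : μ ≠ 0
  κ0 : κ ≠ 0
  comm : ∀ x ∈ EE U K P, ∀ y ∈ EE U K P, ∀ v, x (y v) = y (x v)
  surj : ∀ v, ∃ y ∈ EE U K P, ∃ t : F, y (e 0) - e 0 - (c v - v) - t • w ∈ U
  eK : ∀ t : Fin 3 → F, ∑ r, t r • e r ∈ K → t = 0
  espan : ∀ v, ∃ t : Fin 3 → F, v - ∑ r, t r • e r ∈ K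
  gram : ∀ r s, B (c (e r) - e r) (c (e s) - e s) =
    μ * qf (Pi.single r (1 : F)) (Pi.single s (1 : F))
  wK : w ∈ K
  wc : ∀ v, B w (c v - v) = 0
  ww : B w w = κ
  Kdec : ∀ k ∈ K, ∃ (v : V) (t : F), k - (c v - v) - t • w ∈ U
  d20 : x₂ (e 0) - e 0 - (c (e 1) - e 1) ∈ U
  d21 : x₂ (e 1) - e 1 + (c (e 0) - e 0) + (c (e 2) - e 2) ∈ U
  d22 : x₂ (e 2) - e 2 - (c (e 1) - e 1) - a • (c (e 0) - e 0) - m • w ∈ U
  d30 : x₃ (e 0) - e 0 - (c (e 2) - e 2) ∈ U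
  d31 : x₃ (e 1) - e 1 - (c (e 1) - e 1) - a • (c (e 0) - e 0) + m • w ∈ U
  d32 : x₃ (e 2) - e 2 + a • (c (e 1) - e 1) - b • (c (e 0) - e 0) - n • w ∈ U
  rel : μ * b = μ + κ * m ^ 2

/-- The quadratic defect of `x`: it is additive in `x` in characteristic 3. -/
def AA {F V : Type*} [Field F] [AddCommGroup V] [Module F V]
    (B : V →ₗ[F] V →ₗ[F] F) (x : V ≃ₗ[F] V) (s t : V) : F :=
  B (x s - s) t - B (x s - s) (x t - t)

end Pool.Agent.LibBT65
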