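import Pool.Agent.LibBT65.C3
import Pool.Agent.LibBT65.QA
import Pool.Agent.LibBT65.Q6m
import Pool.Agent.LibBT65.RD

set_option autoImplicit false

/-!
Row Q6. `|F| = 3` and `|P| > 27` give rigid data. ADAPT the proven file C3 (same `c`, `h`, `β`, `T`,
`E`, `hadd`, `hequiv`, `hsa`, `hNV`, `hker`, `hne`): `EE` is not trivial (`A7`), and `P` is not contained
in `EE` (`L6`: `|EE| ≤ 27`).

Further: `w` from `exists_w`, `κ = B w w ≠ 0` (`ww_ne`), `mm x` from `exists_m` (`κ * mm x (mk v) =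
B (x v - v) w`). (i) `E` is commutative: for `x, y ∈ E`, `z = x y (y x)⁻¹ ∈ E` has `T z = 0`
(`hadd`; `T 1 = 0`), so `z = 1` by `hNV` with an isotropic vector (`isotropic` of file A5). (ii) So
`selfadj` holds for all `x, y ∈ E`. With `split` (`mk v' = T x (mk v)`; `β (mk v') (mk z)` on both
sides gives its hypothesis) `x v - v = c v' - v' + mm x (mk v) • w` modulo `U`, and everything in `K` is
orthogonal to `U`, so `B (x v - v) (y z - z) = β (T x (mk v)) (T y (mk z)) + κ * (mm x _ * mm y _)`;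
`hcomm` is `selfadj`. `hmadd`: `(x y - 1) v = (x-1) v + (y-1) v + (x-1)(y-1) v`, last term in `U`.
`hmequiv`: `B ((g x g⁻¹ - 1) v) w = B ((x - 1) g⁻¹ v) (g⁻¹ w)`, `g⁻¹ w - w ∈ U`
(`exists_w` for `g⁻¹ ∈ P`), `(x-1) g⁻¹ v ∈ K`. `T c = id` (by `hext`), `mm c = 0` (`wc`).
Then `QA`; lift `e₁ e₂ e₃` to `e 0, e 1, e 2` in `V` (`mk_surjective`), `x₂, x₃` to `V ≃ₗ V`. `eK`: if
`∑ t r • e r ∈ K` then `∑ t r • e_r = 0` in `V ⧸ K`; pair with `e₁, e₂, e₃`. `espan`: the expansion.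
`surj`: `y` with `T y e₁ = mk v`, then `split`. `d20 ...`: `split` with `v' = e 1`, ... (for `d21`:
`v' = - e 0 - e 2`, for `d22`: `v' = e 1 + a • e 0`, ...), and the values of `mm`.
-/

namespace Pool.Agent.LibBT65

open Module

variable {F V : Type*} [Field F] [Fintype F] [AddCommGroup V] [Module F V]
  {B : V →ₗ[F] V →ₗ[F] F} {M : Finset (Submodule F V)} {U K : Submodule F V}

omit [Fintype F] in
private theorem pow_of6 (p : ℕ) {P : Subgroup (V ≃ₗ[F] V)} (hP : IsPGroup p P) {g : V ≃ₗ[F] V}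
    (hg : g ∈ P) : ∃ k : ℕ, g ^ (p ^ k) = 1 := by
  obtain ⟨k, hk⟩ := hP ⟨g, hg⟩
  exact ⟨k, congrArg Subtype.val hk⟩

omit [Fintype F] in
private theorem sub36 (p k w r : V) (s : F) :
    B (p - k - s • w) r = B p r - B k r - s * B w r := by
  rw [map_sub, map_sub, map_smul, LinearMap.sub_apply, LinearMap.sub_apply,
    LinearMap.smul_apply, smul_eq_mul]

private theorem UK6 (hS : Sys B M) (hb : Base B M U K) {u k : V} (hu : u ∈ U) (hk : k ∈ K) :
    B u k = 0 := by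
  rw [hS.symm]
  exact (hb.perp k).1 hk u hu

theorem Q6 (hS : Sys B M) (hb : Base B M U K) [CharP F 3] (hF : Fintype.card F = 3)
    (P : Subgroup (V ≃ₗ[F] V)) (hP : IsPGroup 3 P) (hA : ∀ g ∈ P, Aut B M U g)
    (hcard : 27 < Nat.card P) :
    ∃ (c x₂ x₃ : V ≃ₗ[F] V) (e : Fin 3 → V) (w : V) (μ κ a b m n : F),
      RD0 B U K P c x₂ x₃ e w μ κ a b m n := by
  classical
  have h27 : ∀ n : ℕ, 27 < n → ¬ n ≤ Fintype.card F ^ 3 := by
    intro n hn h
    rw [hF] at h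
    norm_num at h
    omega
  by_cases hE : ∀ g ∈ EE U K P, g = 1
  · exact absurd (A7 hS hb 3 P hP hA hE) (h27 _ hcard)
  have hfd : FiniteDimensional F V := by
    apply FiniteDimensional.of_finrank_pos
    rw [hS.dimV]
    norm_num
  have hfin : Finite V := Module.finite_of_finite F
  have hfinE : Finite (V ≃ₗ[F] V) :=
    Finite.of_injective (fun g : V ≃ₗ[F] V => (g : V → V)) DFunLike.coe_injective
  by_cases hall : ∀ g ∈ P, g ∈ EE U K P
  · have h6 := L6 hS hb 3 P hP hA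
    have h7 : Nat.card P ≤ Nat.card (EE U K P) := by
      apply Nat.card_le_card_of_injective (fun g : P => (⟨g.1, hall g.1 g.2⟩ : EE U K P))
      intro a b hab
      exact Subtype.ext (congrArg (fun z : EE U K P => z.1) hab)
    exact absurd (h7.trans h6) (h27 _ hcard)
  push Not at hall
  obtain ⟨g0, hg0, hg0E⟩ := hall
  obtain ⟨c, hc, hc1, hcomm⟩ := EE_central hS hb 3 P hP hA hE
  obtain ⟨h, hh⟩ := exists_h hS hb P hA
  obtain ⟨β, hβ, hβs, hβn⟩ := exists_beta hS hb 3 P hP hA hc hc1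
  have hT0 : ∀ x : P, ∃ T : (V ⧸ K) →ₗ[F] (V ⧸ K), (x : V ≃ₗ[F] V) ∈ EE U K P →
      ∀ v w : V, β (T (Submodule.Quotient.mk v)) (Submodule.Quotient.mk w) =
        B ((x : V ≃ₗ[F] V) v - v) (c w - w) := by
    intro x
    by_cases hx : (x : V ≃ₗ[F] V) ∈ EE U K P
    · obtain ⟨T, hT⟩ := exists_T hS hb 3 P hP hA hc hc1 hx
      exact ⟨T, fun _ => hT β hβ⟩
    · exact ⟨0, fun h => absurd h hx⟩
  choose T hT using hT0
  have hcK : ∀ v, c v - v ∈ K := by
    obtain ⟨k, hk⟩ := pow_of6 3 hP hc.1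
    exact fun v => L1 hS hb 3 (hA c hc.1) hk hc.2.2 v
  have hxK : ∀ x ∈ EE U K P, ∀ v, x v - v ∈ K := by
    intro x hx v
    obtain ⟨k, hk⟩ := pow_of6 3 hP hx.1
    exact L1 hS hb 3 (hA x hx.1) hk hx.2.2 v
  have hiso : ∀ (g : P) x y, β (h g x) (h g y) = β x y := by
    intro g x y
    obtain ⟨v, rfl⟩ := Submodule.Quotient.mk_surjective K x
    obtain ⟨w, rfl⟩ := Submodule.Quotient.mk_surjective K y
    rw [hh, hh, hβ, hβ, ← hcomm g g.2, ← hcomm g g.2, ← map_sub, ← map_sub, (hA g g.2).iso]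
  have hext : ∀ x y : V ⧸ K, (∀ w : V, β x (Submodule.Quotient.mk w) =
      β y (Submodule.Quotient.mk w)) → x = y := by
    intro x y hxy
    have h0 : x - y = 0 := by
      apply hβn
      intro z
      obtain ⟨w, rfl⟩ := Submodule.Quotient.mk_surjective K z
      rw [map_sub, LinearMap.sub_apply, hxy w, sub_self]
    exact sub_eq_zero.1 h0
  set E : Subgroup P := (EE U K P).subgroupOf P with hEdef
  have hmem : ∀ x : P, x ∈ E ↔ (x : V ≃ₗ[F] V) ∈ EE U K P := fun x => Subgroup.mem_subgroupOf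
  have hnorm : E.Normal := by
    constructor
    intro x hx g
    rw [hmem] at hx ⊢
    exact EE_conj hS hb P hA g.2 hx
  have hadd : ∀ x ∈ E, ∀ y ∈ E, T (x * y) = T x + T y := by
    intro x hx y hy
    have hxE := (hmem x).1 hx
    have hyE := (hmem y).1 hy
    have hxy := (hmem (x * y)).1 (E.mul_mem hx hy)
    apply LinearMap.ext
    intro z
    obtain ⟨v, rfl⟩ := Submodule.Quotient.mk_surjective K z
    apply hext
    intro w
    rw [hT _ hxy, LinearMap.add_apply, map_add, LinearMap.add_apply, hT _ hxE, hT _ hyE]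
    have h1 : B ((x : V ≃ₗ[F] V) ((y : V ≃ₗ[F] V) v - v) - ((y : V ≃ₗ[F] V) v - v)) (c w - w) = 0 :=
      UK6 hS hb (hxE.2.2 _ (hxK _ hyE v)) (hcK w)
    have h2 : ((x * y : P) : V ≃ₗ[F] V) v - v =
        ((x : V ≃ₗ[F] V) ((y : V ≃ₗ[F] V) v - v) - ((y : V ≃ₗ[F] V) v - v)) +
          (((x : V ≃ₗ[F] V) v - v) + ((y : V ≃ₗ[F] V) v - v)) := by
      have h3 : ((x * y : P) : V ≃ₗ[F] V) v = (x : V ≃ₗ[F] V) ((y : V ≃ₗ[F] V) v) := rfl
      rw [h3, map_sub]
      abel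
    rw [h2, map_add, LinearMap.add_apply, h1, zero_add, map_add, LinearMap.add_apply]
  have hinv : ∀ (g : P) (v : V), (h g)⁻¹ (Submodule.Quotient.mk v) =
      (Submodule.Quotient.mk (((g⁻¹ : P) : V ≃ₗ[F] V) v) : V ⧸ K) := by
    intro g v
    rw [← map_inv, hh]
  have hgg : ∀ (g : P) (v : V), (g : V ≃ₗ[F] V) (((g⁻¹ : P) : V ≃ₗ[F] V) v) = v := by
    intro g v
    exact (g : V ≃ₗ[F] V).apply_symm_apply v
  have hequiv : ∀ g, ∀ x ∈ E, ∀ v, T (g * x * g⁻¹) v = h g (T x ((h g)⁻¹ v)) := by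
    intro g x hx z
    have hxE := (hmem x).1 hx
    have hgx := (hmem (g * x * g⁻¹)).1 (hnorm.conj_mem x hx g)
    obtain ⟨v, rfl⟩ := Submodule.Quotient.mk_surjective K z
    apply hext
    intro w
    rw [hT _ hgx, hinv]
    have h1 : (Submodule.Quotient.mk w : V ⧸ K) =
        h g (Submodule.Quotient.mk (((g⁻¹ : P) : V ≃ₗ[F] V) w)) := by
      rw [hh, hgg]
    rw [h1, hiso, hT _ hxE]
    have h2 : ((g * x * g⁻¹ : P) : V ≃ₗ[F] V) v - v =
        (g : V ≃ₗ[F] V) ((x : V ≃ₗ[F] V) (((g⁻¹ : P) : V ≃ₗ[F] V) v) -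
          ((g⁻¹ : P) : V ≃ₗ[F] V) v) := by
      have h3 : ((g * x * g⁻¹ : P) : V ≃ₗ[F] V) v =
        (g : V ≃ₗ[F] V) ((x : V ≃ₗ[F] V) (((g⁻¹ : P) : V ≃ₗ[F] V) v)) := rfl
      rw [map_sub, hgg, h3]
    have h4 : c w - w = (g : V ≃ₗ[F] V) (c (((g⁻¹ : P) : V ≃ₗ[F] V) w) -
        ((g⁻¹ : P) : V ≃ₗ[F] V) w) := by
      rw [map_sub, hcomm g g.2, hgg]
    rw [h2, h4, (hA g g.2).iso]
  have hxc : ∀ x ∈ EE U K P, ∀ v, x (c v) = c (x v) := fun x hx => hcomm x hx.1
  have hsa : ∀ x ∈ E, ∀ v w, β (T x v) w = β v (T x w) := by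
    intro x hx z z'
    have hxE := (hmem x).1 hx
    obtain ⟨v, rfl⟩ := Submodule.Quotient.mk_surjective K z
    obtain ⟨w, rfl⟩ := Submodule.Quotient.mk_surjective K z'
    rw [hT _ hxE, hβs (Submodule.Quotient.mk v), hT _ hxE, hS.symm ((x : V ≃ₗ[F] V) w - w)]
    exact (selfadj hS hb 3 P hP hA hxE hc (hxc x hxE) v w).symm
  have hNV : ∀ x ∈ E, ∀ e, e ≠ 0 → β e e = 0 → T x e = 0 → x = 1 := by
    intro x hx e he hee h0
    have hxE := (hmem x).1 hx
    obtain ⟨v, rfl⟩ := Submodule.Quotient.mk_surjective K e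
    have hv : v ∉ K := fun hK => he ((Submodule.Quotient.mk_eq_zero K).2 hK)
    rw [hβ] at hee
    apply Subtype.ext
    apply NV0 hS hb 3 P hP hA hc hc1 hv hee hxE
    intro w
    have h1 := hT x hxE w v
    rw [hsa x hx, h0, map_zero] at h1
    rw [hS.symm]
    exact h1.symm
  have hker : ∀ g : P, h g = 1 → g ∈ E := by
    intro g hg
    rw [hmem]
    apply B1 hS hb 3 P hP hA hc hc1 hcomm g.2
    intro v
    have h1 := hh g v
    rw [hg] at h1
    rw [← Submodule.Quotient.eq]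
    exact h1.symm
  have hne : ∃ g, h g ≠ 1 := ⟨⟨g0, hg0⟩, fun h1 => hg0E ((hmem _).1 (hker _ h1))⟩
  obtain ⟨w, hwK, hwU, hwc, hwg, hdec⟩ := exists_w hS hb 3 P hP hA hc hc1 hcomm
  have hκ : B w w ≠ 0 := ww_ne hS hb hwK hwU hwc hdec
  -- the component along the invariant vector
  have hm0 : ∀ x : P, ∃ m : (V ⧸ K) →ₗ[F] F, (x : V ≃ₗ[F] V) ∈ EE U K P →
      ∀ v : V, m (Submodule.Quotient.mk v) = B ((x : V ≃ₗ[F] V) v - v) w / B w w := by
    intro x
    by_cases hx : (x : V ≃ₗ[F] V) ∈ EE U K P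
    · obtain ⟨m, hm⟩ := exists_m hS hb P hx hwK
      exact ⟨m, fun _ => hm⟩
    · exact ⟨0, fun h => absurd h hx⟩
  choose mm hmm using hm0
  have hfdq : FiniteDimensional F (V ⧸ K) := inferInstance
  have hT1 : T 1 = 0 := by
    have h1 := hadd 1 E.one_mem 1 E.one_mem
    rw [mul_one] at h1
    exact left_eq_add.1 h1
  have hTinv : ∀ x ∈ E, T x⁻¹ = - T x := by
    intro x hx
    have h1 := hadd x hx x⁻¹ (E.inv_mem hx)
    rw [mul_inv_cancel, hT1] at h1
    exact (neg_eq_of_add_eq_zero_right h1.symm).symm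
  have hcomE : ∀ x ∈ E, ∀ y ∈ E, x * y = y * x := by
    intro x hx y hy
    obtain ⟨e, he, hee⟩ := isotropic hS.two β hβs (le_of_eq (finrank_quot hS hb).symm)
    have h1 : T ((x * y) * (y * x)⁻¹) = 0 := by
      rw [hadd _ (E.mul_mem hx hy) _ (E.inv_mem (E.mul_mem hy hx)), hTinv _ (E.mul_mem hy hx),
        hadd x hx y hy, hadd y hy x hx]
      abel
    have h2 := hNV _ (E.mul_mem (E.mul_mem hx hy) (E.inv_mem (E.mul_mem hy hx))) e he hee
      (by rw [h1, LinearMap.zero_apply])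
    exact mul_inv_eq_one.1 h2
  have hcomEE : ∀ x ∈ EE U K P, ∀ y ∈ EE U K P, ∀ v, x (y v) = y (x v) := by
    intro x hx y hy v
    have h1 := hcomE ⟨x, hx.1⟩ ((hmem _).2 hx) ⟨y, hy.1⟩ ((hmem _).2 hy)
    have h2 : x * y = y * x := congrArg Subtype.val h1
    have h3 := LinearEquiv.congr_fun h2 v
    exact h3
  have hsplit : ∀ x ∈ E, ∀ v v' : V, T x (Submodule.Quotient.mk v) = Submodule.Quotient.mk v' →
      (x : V ≃ₗ[F] V) v - v - (c v' - v') - (mm x (Submodule.Quotient.mk v)) • w ∈ U := by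
    intro x hx v v' hv
    have hxE := (hmem x).1 hx
    rw [hmm x hxE]
    apply split hS hb 3 P hP hA hc hwK hwU hwc hdec hxE
    intro z
    rw [← hT x hxE, hv, hβ]
  have hmadd : ∀ x ∈ E, ∀ y ∈ E, mm (x * y) = mm x + mm y := by
    intro x hx y hy
    have hxE := (hmem x).1 hx
    have hyE := (hmem y).1 hy
    have hxy := (hmem (x * y)).1 (E.mul_mem hx hy)
    apply LinearMap.ext
    intro z
    obtain ⟨v, rfl⟩ := Submodule.Quotient.mk_surjective K z
    rw [LinearMap.add_apply, hmm _ hxy, hmm _ hxE, hmm _ hyE]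
    have h1 : B ((x : V ≃ₗ[F] V) ((y : V ≃ₗ[F] V) v - v) - ((y : V ≃ₗ[F] V) v - v)) w = 0 :=
      UK6 hS hb (hxE.2.2 _ (hxK _ hyE v)) hwK
    have h2 : ((x * y : P) : V ≃ₗ[F] V) v - v =
        ((x : V ≃ₗ[F] V) ((y : V ≃ₗ[F] V) v - v) - ((y : V ≃ₗ[F] V) v - v)) +
          (((x : V ≃ₗ[F] V) v - v) + ((y : V ≃ₗ[F] V) v - v)) := by
      have h3 : ((x * y : P) : V ≃ₗ[F] V) v = (x : V ≃ₗ[F] V) ((y : V ≃ₗ[F] V) v) := rfl
      rw [h3, map_sub]
      abel
    rw [h2, map_add, LinearMap.add_apply, h1, zero_add, map_add, LinearMap.add_apply, add_div]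
  have hmequiv : ∀ g, ∀ x ∈ E, ∀ v, mm (g * x * g⁻¹) v = mm x ((h g)⁻¹ v) := by
    intro g x hx z
    have hxE := (hmem x).1 hx
    have hgx := (hmem (g * x * g⁻¹)).1 (hnorm.conj_mem x hx g)
    obtain ⟨v, rfl⟩ := Submodule.Quotient.mk_surjective K z
    rw [hmm _ hgx, hinv, hmm _ hxE]
    have h2 : ((g * x * g⁻¹ : P) : V ≃ₗ[F] V) v - v =
        (g : V ≃ₗ[F] V) ((x : V ≃ₗ[F] V) (((g⁻¹ : P) : V ≃ₗ[F] V) v) -
          ((g⁻¹ : P) : V ≃ₗ[F] V) v) := by
      have h3 : ((g * x * g⁻¹ : P) : V ≃ₗ[F] V) v =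
        (g : V ≃ₗ[F] V) ((x : V ≃ₗ[F] V) (((g⁻¹ : P) : V ≃ₗ[F] V) v)) := rfl
      rw [map_sub, hgg, h3]
    have h4 : B (((g * x * g⁻¹ : P) : V ≃ₗ[F] V) v - v) w =
        B ((x : V ≃ₗ[F] V) (((g⁻¹ : P) : V ≃ₗ[F] V) v) - ((g⁻¹ : P) : V ≃ₗ[F] V) v) w := by
      have h5 : w = (g : V ≃ₗ[F] V) (((g⁻¹ : P) : V ≃ₗ[F] V) w) := (hgg g w).symm
      have h6 : ((g⁻¹ : P) : V ≃ₗ[F] V) w - w ∈ U := hwg _ (g⁻¹ : P).2
      have h7 : B ((x : V ≃ₗ[F] V) (((g⁻¹ : P) : V ≃ₗ[F] V) v) - ((g⁻¹ : P) : V ≃ₗ[F] V) v)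
          (((g⁻¹ : P) : V ≃ₗ[F] V) w - w) = 0 := by
        rw [hS.symm]
        exact UK6 hS hb h6 (hxK _ hxE _)
      rw [map_sub, sub_eq_zero] at h7
      calc B (((g * x * g⁻¹ : P) : V ≃ₗ[F] V) v - v) w
          = B ((g : V ≃ₗ[F] V) ((x : V ≃ₗ[F] V) (((g⁻¹ : P) : V ≃ₗ[F] V) v) -
              ((g⁻¹ : P) : V ≃ₗ[F] V) v)) ((g : V ≃ₗ[F] V) (((g⁻¹ : P) : V ≃ₗ[F] V) w)) := by
            rw [h2, ← h5]
        _ = B ((x : V ≃ₗ[F] V) (((g⁻¹ : P) : V ≃ₗ[F] V) v) - ((g⁻¹ : P) : V ≃ₗ[F] V) v)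
              (((g⁻¹ : P) : V ≃ₗ[F] V) w) := (hA g g.2).iso _ _
        _ = _ := h7
    rw [h4]
  have hcom : ∀ x ∈ E, ∀ y ∈ E, ∀ v z, β (T x v) (T y z) + B w w * (mm x v * mm y z) =
      β (T y v) (T x z) + B w w * (mm y v * mm x z) := by
    have key : ∀ x ∈ E, ∀ y ∈ E, ∀ v z : V,
        β (T x (Submodule.Quotient.mk v)) (T y (Submodule.Quotient.mk z)) +
          B w w * (mm x (Submodule.Quotient.mk v) * mm y (Submodule.Quotient.mk z)) =
        B ((x : V ≃ₗ[F] V) v - v) ((y : V ≃ₗ[F] V) z - z) := by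
      intro x hx y hy v z
      have hxE := (hmem x).1 hx
      have hyE := (hmem y).1 hy
      obtain ⟨v', hv'⟩ := Submodule.Quotient.mk_surjective K (T x (Submodule.Quotient.mk v))
      obtain ⟨z', hz'⟩ := Submodule.Quotient.mk_surjective K (T y (Submodule.Quotient.mk z))
      have h1 := hsplit x hx v v' hv'.symm
      have h2 := hsplit y hy z z' hz'.symm
      rw [← hv', ← hz', hβ]
      obtain ⟨s, hs⟩ : ∃ s, s = mm x (Submodule.Quotient.mk v) := ⟨_, rfl⟩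
      obtain ⟨t, ht⟩ : ∃ t, t = mm y (Submodule.Quotient.mk z) := ⟨_, rfl⟩
      rw [← hs] at h1
      rw [← ht] at h2
      rw [← hs, ← ht]
      have h3 : B ((x : V ≃ₗ[F] V) v - v - (c v' - v') - s • w) ((y : V ≃ₗ[F] V) z - z) = 0 :=
        UK6 hS hb h1 (hxK _ hyE z)
      have h4 : B ((y : V ≃ₗ[F] V) z - z - (c z' - z') - t • w) (c v' - v') = 0 :=
        UK6 hS hb h2 (hcK v')
      have h5 : B ((y : V ≃ₗ[F] V) z - z - (c z' - z') - t • w) w = 0 := UK6 hS hb h2 hwK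
      rw [sub36] at h3 h4 h5
      have h6 : B (c v' - v') ((y : V ≃ₗ[F] V) z - z) = B (c v' - v') (c z' - z') := by
        rw [hS.symm, hS.symm (c v' - v')]
        rw [hwc v'] at h4
        linear_combination h4
      have h7 : B w ((y : V ≃ₗ[F] V) z - z) = t * B w w := by
        rw [hS.symm]
        have h8 : B (c z' - z') w = 0 := by rw [hS.symm]; exact hwc z'
        rw [h8] at h5
        linear_combination h5
      rw [h6, h7] at h3
      linear_combination -h3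
    intro x hx y hy z z'
    obtain ⟨v, rfl⟩ := Submodule.Quotient.mk_surjective K z
    obtain ⟨u, rfl⟩ := Submodule.Quotient.mk_surjective K z'
    have hxE := (hmem x).1 hx
    have hyE := (hmem y).1 hy
    rw [key x hx y hy, key y hy x hx]
    exact (selfadj hS hb 3 P hP hA hxE hyE (hcomEE _ hxE _ hyE) v u).symm
  have hcE : (⟨c, hc.1⟩ : P) ∈ E := (hmem _).2 hc
  have hTc : T ⟨c, hc.1⟩ = LinearMap.id := by
    apply LinearMap.ext
    intro z
    obtain ⟨v, rfl⟩ := Submodule.Quotient.mk_surjective K z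
    apply hext
    intro z
    rw [hT _ ((hmem _).1 hcE), LinearMap.id_apply, hβ]
  have hmc : mm ⟨c, hc.1⟩ = 0 := by
    apply LinearMap.ext
    intro z
    obtain ⟨v, rfl⟩ := Submodule.Quotient.mk_surjective K z
    rw [hmm _ ((hmem _).1 hcE), LinearMap.zero_apply, hS.symm]
    show B w (c v - v) / B w w = 0
    rw [hwc, zero_div]
  have : Finite P := inferInstance
  obtain ⟨x₂, x₃, e₁, e₂, e₃, μ, a, b, m, n, hx₂, hx₃, hμ, b11, b12, b13, b22, b23, b33, hexp,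
    t21, t22, t23, t31, t32, t33, m21, m22, m23, m31, m32, m33, hrel, hsurj⟩ :=
    QA hF hS.two β hβs hβn (finrank_quot hS hb) hP h hiso E T hadd hequiv hsa hNV hker (B w w) mm
      hmadd hmequiv hcom ⟨c, hc.1⟩ hcE hTc hmc hne hcard
  obtain ⟨v1, rfl⟩ := Submodule.Quotient.mk_surjective K e₁
  obtain ⟨v2, rfl⟩ := Submodule.Quotient.mk_surjective K e₂
  obtain ⟨v3, rfl⟩ := Submodule.Quotient.mk_surjective K e₃
  have b21 : β (Submodule.Quotient.mk v2) (Submodule.Quotient.mk v1) = 0 := by rw [hβs]; exact b12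
  have b31 : β (Submodule.Quotient.mk v3) (Submodule.Quotient.mk v1) = μ := by rw [hβs]; exact b13
  have b32 : β (Submodule.Quotient.mk v3) (Submodule.Quotient.mk v2) = 0 := by rw [hβs]; exact b23
  refine ⟨c, x₂, x₃, ![v1, v2, v3], w, μ, B w w, a, b, m, n, ?_⟩
  refine
    { hc := hc
      hx₂ := (hmem _).1 hx₂
      hx₃ := (hmem _).1 hx₃
      hc1 := hc1
      μ0 := hμ
      κ0 := hκ
      comm := hcomEE
      surj := ?_
      eK := ?_
      espan := ?_
      gram := ?_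
      wK := hwK
      wc := hwc
      ww := rfl
      Kdec := hdec
      d20 := ?_
      d21 := ?_
      d22 := ?_
      d30 := ?_
      d31 := ?_
      d32 := ?_
      rel := hrel }
  · intro v
    obtain ⟨y, hy, hyv⟩ := hsurj (Submodule.Quotient.mk v)
    exact ⟨y, (hmem y).1 hy, _, hsplit y hy v1 v hyv⟩
  · intro t ht
    rw [Fin.sum_univ_three] at ht
    have h1 : t 0 • (Submodule.Quotient.mk v1 : V ⧸ K) + t 1 • Submodule.Quotient.mk v2 +
        t 2 • Submodule.Quotient.mk v3 = 0 := by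
      have h2 := (Submodule.Quotient.mk_eq_zero K).2 ht
      rw [Submodule.Quotient.mk_add, Submodule.Quotient.mk_add, Submodule.Quotient.mk_smul,
        Submodule.Quotient.mk_smul, Submodule.Quotient.mk_smul] at h2
      exact h2
    have key : ∀ z, t 0 * β (Submodule.Quotient.mk v1) z + t 1 * β (Submodule.Quotient.mk v2) z +
        t 2 * β (Submodule.Quotient.mk v3) z = 0 := by
      intro z
      have h2 := congrArg (fun y => β y z) h1
      simp only [map_add, map_smul, LinearMap.add_apply, LinearMap.smul_apply, smul_eq_mul,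
        map_zero, LinearMap.zero_apply] at h2
      exact h2
    have k1 := key (Submodule.Quotient.mk v1)
    have k2 := key (Submodule.Quotient.mk v2)
    have k3 := key (Submodule.Quotient.mk v3)
    rw [b11, b21, b31, mul_zero, mul_zero, zero_add, zero_add] at k1
    rw [b12, b22, b32, mul_zero, mul_zero, zero_add, add_zero] at k2
    rw [b13, b23, b33, mul_zero, mul_zero, add_zero, add_zero] at k3
    have l2 : t 2 = 0 := (mul_eq_zero.1 k1).resolve_right hμ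
    have l1 : t 1 = 0 := (mul_eq_zero.1 k2).resolve_right (neg_ne_zero.2 hμ)
    have l0 : t 0 = 0 := (mul_eq_zero.1 k3).resolve_right hμ
    funext i
    fin_cases i
    · exact l0
    · exact l1
    · exact l2
  · intro v
    refine ⟨![β (Submodule.Quotient.mk v) (Submodule.Quotient.mk v3) / μ,
      -(β (Submodule.Quotient.mk v) (Submodule.Quotient.mk v2)) / μ,
      β (Submodule.Quotient.mk v) (Submodule.Quotient.mk v1) / μ], ?_⟩
    rw [← Submodule.Quotient.eq, Fin.sum_univ_three, Submodule.Quotient.mk_add,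
      Submodule.Quotient.mk_add, Submodule.Quotient.mk_smul, Submodule.Quotient.mk_smul,
      Submodule.Quotient.mk_smul]
    exact hexp (Submodule.Quotient.mk v)
  · intro r s
    rw [← hβ]
    fin_cases r <;> fin_cases s <;>
      simp [qf, b11, b12, b13, b21, b22, b23, b31, b32, b33]
  · have h1 := hsplit x₂ hx₂ v1 v2 t21
    rw [m21, zero_smul, sub_zero] at h1
    exact h1
  · have h1 := hsplit x₂ hx₂ v2 (-v1 - v3) t22
    rw [m22, zero_smul, sub_zero] at h1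
    have h2 : (x₂ : V ≃ₗ[F] V) v2 - v2 - (c (-v1 - v3) - (-v1 - v3)) =
        (x₂ : V ≃ₗ[F] V) v2 - v2 + (c v1 - v1) + (c v3 - v3) := by
      rw [map_sub, map_neg]
      abel
    rw [h2] at h1
    exact h1
  · have h1 := hsplit x₂ hx₂ v3 (v2 + a • v1) t23
    rw [m23] at h1
    have h2 : (x₂ : V ≃ₗ[F] V) v3 - v3 - (c (v2 + a • v1) - (v2 + a • v1)) - m • w =
        (x₂ : V ≃ₗ[F] V) v3 - v3 - (c v2 - v2) - a • (c v1 - v1) - m • w := by
      rw [map_add, map_smul, smul_sub]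
      abel
    rw [h2] at h1
    exact h1
  · have h1 := hsplit x₃ hx₃ v1 v3 t31
    rw [m31, zero_smul, sub_zero] at h1
    exact h1
  · have h1 := hsplit x₃ hx₃ v2 (v2 + a • v1) t32
    rw [m32] at h1
    have h2 : (x₃ : V ≃ₗ[F] V) v2 - v2 - (c (v2 + a • v1) - (v2 + a • v1)) - (-m) • w =
        (x₃ : V ≃ₗ[F] V) v2 - v2 - (c v2 - v2) - a • (c v1 - v1) + m • w := by
      rw [map_add, map_smul, smul_sub, neg_smul]
      abel
    rw [h2] at h1
    exact h1
  · have h1 := hsplit x₃ hx₃ v3 (-(a • v2) + b • v1) t33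
    rw [m33] at h1
    have h2 : (x₃ : V ≃ₗ[F] V) v3 - v3 - (c (-(a • v2) + b • v1) - (-(a • v2) + b • v1)) - n • w =
        (x₃ : V ≃ₗ[F] V) v3 - v3 + a • (c v2 - v2) - b • (c v1 - v1) - n • w := by
      rw [map_add, map_neg, map_smul, map_smul, smul_sub, smul_sub]
      abel
    rw [h2] at h1
    exact h1

end Pool.Agent.LibBT65
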