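import Pool.Agent.LibBT65.Q7b
import Pool.Agent.LibBT65.Q2
import Pool.Agent.LibBT65.Q5

set_option autoImplicit false

/-!
Row Q6c. With the square condition on the discriminant the parameters are determined:
`κ = μ`, `m = n = 0`, `b = 1`, `a ≠ 0`.

`SqDisc` for the four vectors `c (e 0) - e 0`, `c (e 1) - e 1`, `c (e 2) - e 2` (in `K` by L1), `w`: the
Gram matrix is `!![0,0,μ,0; 0,-μ,0,0; μ,0,0,0; 0,0,0,κ]` (`gram`, `wc`, `ww`), determinant `μ^3 κ`.
`|F| = 3`: a nonzero square is 1 and `μ^2 = 1`, so `μ κ = 1`, `κ = μ`. Then `rel` gives `b = 1 + m^2`.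
For `(i, j, k) ≠ 0` take `x` of `comb`; `x ≠ 1` (`comb_ne`); the form `B (x s - s) (x t - t)` is
nondegenerate on `V` modulo `K` (L5': if `∑ l r B (x e_r - e_r) (x e_t - e_t) = 0` for all `t`, then
`v = ∑ l r • e r` has `B (x v - v) (x z - z) = 0` for all `z` (`espan`; on `K`, `x z - z ∈ U`, orthogonal
to `x v - v ∈ K`), so `v ∈ K`, `l = 0` by `eK`), so the matrix of `gram_comb'` (with `s = e`) has
determinant `≠ 0`; it is `μ` times the matrix of `Q2` (`κ = μ`), so `Q2` applies.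
-/

namespace Pool.Agent.LibBT65

open Module

variable {F V : Type*} [Field F] [Fintype F] [AddCommGroup V] [Module F V]
  {B : V →ₗ[F] V →ₗ[F] F} {M : Finset (Submodule F V)} {U K : Submodule F V}

omit [Fintype F] in
private theorem q6c_pow (P : Subgroup (V ≃ₗ[F] V)) (hP : IsPGroup 3 P) {x : V ≃ₗ[F] V}
    (hx : x ∈ EE U K P) : ∃ k : ℕ, x ^ (3 ^ k) = 1 := by
  obtain ⟨k, hk⟩ := hP ⟨x, hx.1⟩
  exact ⟨k, by simpa using congrArg Subtype.val hk⟩

private theorem q6c_K (hS : Sys B M) (hb : Base B M U K) [CharP F 3]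
    (P : Subgroup (V ≃ₗ[F] V)) (hP : IsPGroup 3 P) (hA : ∀ g ∈ P, Aut B M U g)
    {x : V ≃ₗ[F] V} (hx : x ∈ EE U K P) (v : V) : x v - v ∈ K := by
  have : Fact (Nat.Prime 3) := ⟨Nat.prime_three⟩
  obtain ⟨k, hk⟩ := q6c_pow P hP hx
  exact L1 hS hb 3 (hA x hx.1) hk hx.2.2 v

private theorem q6c_five (hS : Sys B M) (hb : Base B M U K) [CharP F 3]
    (P : Subgroup (V ≃ₗ[F] V)) (hP : IsPGroup 3 P) (hA : ∀ g ∈ P, Aut B M U g)
    {x : V ≃ₗ[F] V} (hx : x ∈ EE U K P) (hne : x ≠ 1) {s : V}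
    (hs : ∀ v, B (x s - s) (x v - v) = 0) : s ∈ K := by
  have : Fact (Nat.Prime 3) := ⟨Nat.prime_three⟩
  obtain ⟨k, hk⟩ := q6c_pow P hP hx
  exact L5' hS hb 3 (hA x hx.1) hk hx.2.2 hne hs

private theorem q6c_det4 {R : Type*} [CommRing R] (A : Matrix (Fin 4) (Fin 4) R) (μ κ : R)
    (h : A = !![0, 0, μ, 0; 0, -μ, 0, 0; μ, 0, 0, 0; 0, 0, 0, κ]) : A.det = μ ^ 3 * κ := by
  rw [h, Matrix.det_succ_row_zero]
  simp [Fin.sum_univ_succ, Matrix.det_fin_three, Fin.succAbove]
  ring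

private theorem q6c_det3 {R : Type*} [CommRing R] (f : Fin 3 → Fin 3 → R) :
    Matrix.det (Matrix.of f) = det3 f := by
  rw [Matrix.det_fin_three]
  unfold det3
  simp only [Matrix.of_apply]
  ring

private theorem q6c_sq {F : Type*} [Field F] [Fintype F] (hF : Fintype.card F = 3) {x : F}
    (hx : x ≠ 0) : x * x = 1 := by
  have h := FiniteField.pow_card_sub_one_eq_one x hx
  rw [hF] at h
  rw [← pow_two]
  exact h

theorem Q6c (hS : Sys B M) (hb : Base B M U K) [CharP F 3] (hF : Fintype.card F = 3)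
    (hsq : SqDisc B K)
    (P : Subgroup (V ≃ₗ[F] V)) (hP : IsPGroup 3 P) (hA : ∀ g ∈ P, Aut B M U g)
    {c x₂ x₃ : V ≃ₗ[F] V} {e : Fin 3 → V} {w : V} {μ κ a b m n : F}
    (D : RD0 B U K P c x₂ x₃ e w μ κ a b m n) :
    κ = μ ∧ m = 0 ∧ n = 0 ∧ b = 1 ∧ a ≠ 0 := by
  have hK : ∀ v, c v - v ∈ K := q6c_K hS hb P hP hA D.hc
  -- the Gram determinant
  have hκμ : κ = μ := by
    have h1 := hsq ![c (e 0) - e 0, c (e 1) - e 1, c (e 2) - e 2, w] (by
      intro i
      fin_cases i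
      · exact hK _
      · exact hK _
      · exact hK _
      · exact D.wK)
    have hcw : ∀ v, B (c v - v) w = 0 := fun v => by rw [hS.symm]; exact D.wc v
    have h2 := q6c_det4 (Matrix.of fun i j =>
      B ((![c (e 0) - e 0, c (e 1) - e 1, c (e 2) - e 2, w] : Fin 4 → V) i)
        ((![c (e 0) - e 0, c (e 1) - e 1, c (e 2) - e 2, w] : Fin 4 → V) j)) μ κ (by
      ext i j
      fin_cases i <;> fin_cases j
      · simpa [qf] using D.gram 0 0
      · simpa [qf] using D.gram 0 1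
      · simpa [qf] using D.gram 0 2
      · exact hcw _
      · simpa [qf] using D.gram 1 0
      · simpa [qf] using D.gram 1 1
      · simpa [qf] using D.gram 1 2
      · exact hcw _
      · simpa [qf] using D.gram 2 0
      · simpa [qf] using D.gram 2 1
      · simpa [qf] using D.gram 2 2
      · exact hcw _
      · exact D.wc _
      · exact D.wc _
      · exact D.wc _
      · exact D.ww)
    rw [h2] at h1
    obtain ⟨r, hr⟩ := h1
    have hne : μ ^ 3 * κ ≠ 0 := mul_ne_zero (pow_ne_zero _ D.μ0) D.κ0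
    have hr0 : r ≠ 0 := by
      rintro rfl
      rw [mul_zero] at hr
      exact hne hr
    rw [q6c_sq hF hr0] at hr
    have hμ := q6c_sq hF D.μ0
    have h3 : μ ^ 3 * κ = (μ * μ) * (μ * κ) := by ring
    rw [h3, hμ, one_mul] at hr
    exact mul_left_cancel₀ D.μ0 (hr.trans hμ.symm)
  have hb1 : b = 1 + m ^ 2 := by
    have h1 := D.rel
    rw [hκμ] at h1
    have h2 : μ * b = μ * (1 + m ^ 2) := by rw [h1]; ring
    exact mul_left_cancel₀ D.μ0 h2
  have h := Q2 hF a b m n hb1 ?_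
  · obtain ⟨hm, hn, ha⟩ := h
    refine ⟨hκμ, hm, hn, ?_, ha⟩
    rw [hb1, hm]
    ring
  · intro i j k hijk hdet
    obtain ⟨x, hx, hxc, -⟩ := comb hS hb hF P hP hA D.hc D.hx₂ D.hx₃ D.comm i j k
    have hx1 : x ≠ 1 := fun h1 => hijk (comb_ne hS hb P hP hA D hxc h1)
    have hg := gram_comb' hS hb P hP hA D hx hxc e (fun r => by rw [sub_self]; exact K.zero_mem)
    obtain ⟨N, hN⟩ : ∃ N : Matrix (Fin 3) (Fin 3) F, N = Matrix.of fun r s =>
      NN a b i j k r s + (![0, -(k * m), j * m + k * n] : Fin 3 → F) r *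
        (![0, -(k * m), j * m + k * n] : Fin 3 → F) s := ⟨_, rfl⟩
    have hNdet : N.det = 0 := by
      rw [hN, q6c_det3]
      exact hdet
    obtain ⟨l, hl0, hl⟩ := Matrix.exists_vecMul_eq_zero_iff.2 hNdet
    have hl' : ∀ t, ∑ r, l r * N r t = 0 := by
      intro t
      have h1 := congrFun hl t
      exact h1
    obtain ⟨v, hv⟩ : ∃ v : V, v = ∑ r, l r • e r := ⟨_, rfl⟩
    have hxv : x v - v = ∑ r, l r • (x (e r) - e r) := by
      rw [hv, map_sum, ← Finset.sum_sub_distrib]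
      refine Finset.sum_congr rfl fun r _ => ?_
      rw [map_smul, smul_sub]
    have hxvK : x v - v ∈ K := q6c_K hS hb P hP hA hx v
    have hBe : ∀ t, B (x v - v) (x (e t) - e t) = 0 := by
      intro t
      rw [hxv, map_sum, LinearMap.sum_apply]
      have h1 : ∑ r, (B (l r • (x (e r) - e r))) (x (e t) - e t) = ∑ r, μ * (l r * N r t) := by
        refine Finset.sum_congr rfl fun r _ => ?_
        rw [map_smul, LinearMap.smul_apply, hg r t, hκμ, hN, smul_eq_mul, Matrix.of_apply]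
        ring
      rw [h1, ← Finset.mul_sum, hl' t, mul_zero]
    have hvK : v ∈ K := by
      refine q6c_five hS hb P hP hA hx hx1 fun z => ?_
      obtain ⟨t, ht⟩ := D.espan z
      obtain ⟨u, hu⟩ : ∃ u : V, u = z - ∑ r, t r • e r := ⟨_, rfl⟩
      have hz : z = ∑ r, t r • e r + u := by rw [hu]; abel
      have huK : u ∈ K := by rw [hu]; exact ht
      have h1 : x z - z = ∑ r, t r • (x (e r) - e r) + (x u - u) := by
        conv_lhs => rw [hz]
        rw [map_add, map_sum]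
        have h2 : ∑ r, t r • (x (e r) - e r) = ∑ r, x (t r • e r) - ∑ r, t r • e r := by
          rw [← Finset.sum_sub_distrib]
          refine Finset.sum_congr rfl fun r _ => ?_
          rw [map_smul, smul_sub]
        rw [h2]
        abel
      rw [h1, map_add, map_sum]
      have h2 : B (x v - v) (x u - u) = 0 := (hb.perp _).1 hxvK _ (hx.2.2 u huK)
      rw [h2, add_zero]
      refine Finset.sum_eq_zero fun r _ => ?_
      rw [map_smul, hBe r, smul_zero]
    exact hl0 (D.eK l (by rw [← hv]; exact hvK))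

end Pool.Agent.LibBT65
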