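import Pool.Agent.LibBT65.Q7b
import Pool.Agent.LibBT65.Q3

set_option autoImplicit false

/-!
Row Q7. For every member `π ≠ U` the lifts `s r ∈ π` of the basis vectors have `AA = 0`.

`s r` from `decomp`: `e r = s r + k`. They are independent (`∑ l r • s r = 0` gives
`∑ l r • e r ∈ K`, `eK`). For `x ∈ EE`, `AA B x (s r) (s t)` is alternating in `r, t`: from
`B (x s) (x t) = B s t = 0` on `π` (`sing`, `iso`): `B (x s - s) t + B (x t - t) s +
B (x s - s) (x t - t) = 0`, so `AA x s t + AA x t s = - 3 B (x s - s) (x t - t) = 0`, and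
`AA x s s = 0` as `2 ≠ 0`. So for `x = c, x₂, x₃` the matrix `μ⁻¹ * AA` is `alt3` of vectors `A`, `A'`,
`A''`. For `(i, j, k) ≠ 0` take `x` of `comb`: `x ≠ 1` (`comb_ne`), so `x π ≠ π` (L3) and the matrix
`B (x (s r)) (s t)` has determinant `≠ 0` (`opp_det` for `x π` and `π`); it is
`B (x (s r) - s r) (s t) = AA + B (x (s r) - s r) (x (s t) - s t) =
μ * (alt3 (i A + j A' + k A'') + NN a 1 i j k)` by `gram_comb'` (`m = n = 0`). `det3 (μ * X) =
μ^3 det3 X`. Then `Q3`.
-/

namespace Pool.Agent.LibBT65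

open Module

variable {F V : Type*} [Field F] [Fintype F] [AddCommGroup V] [Module F V]
  {B : V →ₗ[F] V →ₗ[F] F} {M : Finset (Submodule F V)} {U K : Submodule F V}

private theorem q7_pow {p : ℕ} {P : Subgroup (V ≃ₗ[F] V)} (hP : IsPGroup p P)
    {g : V ≃ₗ[F] V} (hg : g ∈ P) : ∃ m : ℕ, g ^ (p ^ m) = 1 := by
  obtain ⟨m, hm⟩ := hP ⟨g, hg⟩
  refine ⟨m, ?_⟩
  have h := congrArg (fun x : P => (x : V ≃ₗ[F] V)) hm
  simpa using h

omit [Fintype F] in
private theorem q7_alt3_lin (i j k : F) (A A' A'' : Fin 3 → F) (r t : Fin 3) :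
    alt3 (fun t => i * A t + j * A' t + k * A'' t) r t =
      i * alt3 A r t + j * alt3 A' r t + k * alt3 A'' r t := by
  fin_cases r <;> fin_cases t <;> simp [alt3] <;> ring

omit [Fintype F] in
private theorem q7_det3_mul (μ : F) (X : Fin 3 → Fin 3 → F) :
    det3 (fun r t => μ * X r t) = μ ^ 3 * det3 X := by
  unfold det3
  ring

omit [Fintype F] in
private theorem q7_alt3 (f : Fin 3 → Fin 3 → F) (h0 : ∀ r, f r r = 0)
    (h1 : ∀ r t, f r t + f t r = 0) (r t : Fin 3) :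
    alt3 ![f 1 2, -f 0 2, f 0 1] r t = f r t := by
  have h2 : ∀ r t, -f r t = f t r := fun r t => by
    rw [neg_eq_iff_add_eq_zero]
    exact h1 r t
  fin_cases r <;> fin_cases t <;> simp [alt3, h0, h2]

theorem Q7 (hS : Sys B M) (hb : Base B M U K) [CharP F 3] (hF : Fintype.card F = 3)
    (P : Subgroup (V ≃ₗ[F] V)) (hP : IsPGroup 3 P) (hA : ∀ g ∈ P, Aut B M U g)
    {c x₂ x₃ : V ≃ₗ[F] V} {e : Fin 3 → V} {w : V} {μ a : F}
    (D : RD0 B U K P c x₂ x₃ e w μ μ a 1 0 0) (ha : a ≠ 0)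
    {π : Submodule F V} (hπ : π ∈ M) (hne : π ≠ U) :
    ∃ s : Fin 3 → V, (∀ r, s r ∈ π ∧ s r - e r ∈ K) ∧
      ∀ x ∈ EE U K P, (x = c ∨ x = x₂ ∨ x = x₃) → ∀ r t, AA B x (s r) (s t) = 0 := by
  have h3F : (3 : F) = 0 := by
    have := CharP.cast_eq_zero F 3
    exact_mod_cast this
  have hdec : ∀ r, ∃ s ∈ π, s - e r ∈ K := by
    intro r
    obtain ⟨s, hs, k, hk, hsk⟩ := decomp hS hb hπ hne (e r)
    refine ⟨s, hs, ?_⟩
    rw [hsk]
    have : s - (s + k) = -k := by abel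
    rw [this]
    exact K.neg_mem hk
  choose s hsπ hsK using hdec
  refine ⟨s, fun r => ⟨hsπ r, hsK r⟩, ?_⟩
  have hsi : ∀ l : Fin 3 → F, ∑ r, l r • s r = 0 → l = 0 := by
    intro l hl
    apply D.eK
    have h1 : ∑ r, l r • e r = -∑ r, l r • (s r - e r) := by
      have h2 : ∑ r, l r • (s r - e r) = ∑ r, l r • s r - ∑ r, l r • e r := by
        rw [← Finset.sum_sub_distrib]
        exact Finset.sum_congr rfl fun r _ => smul_sub _ _ _
      rw [h2, hl, zero_sub, neg_neg]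
    rw [h1]
    exact K.neg_mem (K.sum_mem fun r _ => K.smul_mem _ (hsK r))
  have hss : ∀ r t, B (s r) (s t) = 0 := fun r t => hS.sing π hπ _ (hsπ r) _ (hsπ t)
  -- alternating
  have hanti : ∀ x ∈ EE U K P, ∀ r t, AA B x (s r) (s t) + AA B x (s t) (s r) = 0 := by
    intro x hx r t
    have h1 : B (x (s r)) (x (s t)) = 0 := by
      rw [(hA x hx.1).iso]
      exact hss r t
    have h2 : B (x (s r) - s r) (x (s t) - s t) = B (x (s r)) (x (s t)) - B (x (s r)) (s t) -
        (B (s r) (x (s t)) - B (s r) (s t)) := by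
      simp only [map_sub, LinearMap.sub_apply]
      ring
    have h3 : B (x (s t) - s t) (x (s r) - s r) = B (x (s r) - s r) (x (s t) - s t) := hS.symm _ _
    have h4 : B (x (s r) - s r) (s t) = B (x (s r)) (s t) := by
      rw [map_sub, LinearMap.sub_apply, hss r t, sub_zero]
    have h5 : B (x (s t) - s t) (s r) = B (s r) (x (s t)) := by
      rw [map_sub, LinearMap.sub_apply, hss t r, sub_zero, hS.symm]
    unfold AA
    rw [h3, h4, h5, h2, h1, hss r t]
    linear_combination (B (x (s r)) (s t) + B (s r) (x (s t))) * h3F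
  have hself : ∀ x ∈ EE U K P, ∀ r, AA B x (s r) (s r) = 0 := by
    intro x hx r
    have h1 := hanti x hx r r
    rw [← two_mul] at h1
    exact (mul_eq_zero.mp h1).resolve_left hS.two
  have hμ := D.μ0
  -- the vectors
  have hvec : ∀ x ∈ EE U K P, ∃ A : Fin 3 → F, ∀ r t, μ * alt3 A r t = AA B x (s r) (s t) := by
    intro x hx
    refine ⟨![μ⁻¹ * AA B x (s 1) (s 2), -(μ⁻¹ * AA B x (s 0) (s 2)), μ⁻¹ * AA B x (s 0) (s 1)], ?_⟩
    intro r t
    have h1 := q7_alt3 (fun r t => μ⁻¹ * AA B x (s r) (s t))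
      (fun r => by rw [hself x hx, mul_zero])
      (fun r t => by rw [← mul_add, hanti x hx, mul_zero]) r t
    rw [h1, mul_inv_cancel_left₀ hμ]
  obtain ⟨A, hAv⟩ := hvec c D.hc
  obtain ⟨A', hAv'⟩ := hvec x₂ D.hx₂
  obtain ⟨A'', hAv''⟩ := hvec x₃ D.hx₃
  have key := Q3 hF a ha A A' A'' (by
    intro i j k hijk hdet
    obtain ⟨x, hx, hxc, hxAA⟩ := comb hS hb hF P hP hA D.hc D.hx₂ D.hx₃ D.comm i j k
    have hx1 : x ≠ 1 := fun h => hijk (comb_ne hS hb P hP hA D hxc h)
    obtain ⟨m, hm⟩ := q7_pow hP hx.1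
    have hmap : π.map (x : V →ₗ[F] V) ≠ π := fun h =>
      hx1 (L3 hS hb 3 (hA x hx.1) hm hx.2.2 hπ hne h)
    have hdet2 := opp_det hS ((hA x hx.1).pres π hπ) hπ hmap (fun r => x (s r)) s
      (fun r => Submodule.mem_map_of_mem (hsπ r)) hsπ
      (fun l hl => by
        apply hsi
        apply x.injective
        rw [map_sum, map_zero]
        simpa only [map_smul] using hl) hsi
    apply hdet2
    have hent : ∀ r t, B (x (s r)) (s t) = μ * (NN a 1 i j k r t +
        alt3 (fun t => i * A t + j * A' t + k * A'' t) r t) := by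
      intro r t
      have h1 := gram_comb' hS hb P hP hA D hx hxc s hsK r t
      have h2 : (![0, -(k * 0), j * 0 + k * 0] : Fin 3 → F) r = 0 := by
        fin_cases r <;> simp
      rw [h2, zero_mul, mul_zero, add_zero] at h1
      have h3 : B (x (s r)) (s t) = AA B x (s r) (s t) + B (x (s r) - s r) (x (s t) - s t) := by
        unfold AA
        rw [sub_add_cancel, map_sub, LinearMap.sub_apply, hss r t, sub_zero]
      rw [h3, h1, hxAA, ← hAv, ← hAv', ← hAv'', q7_alt3_lin]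
      ring
    simp only [hent]
    rw [q7_det3_mul, hdet, mul_zero])
  obtain ⟨k1, k2, k3⟩ := key
  have hz : ∀ r t, alt3 (0 : Fin 3 → F) r t = 0 := by
    intro r t
    fin_cases r <;> fin_cases t <;> simp [alt3]
  rintro x - (rfl | rfl | rfl) r t
  · rw [← hAv, k1, hz, mul_zero]
  · rw [← hAv', k2, hz, mul_zero]
  · rw [← hAv'', k3, hz, mul_zero]

end Pool.Agent.LibBT65
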