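import Pool.Agent.LibBT65.S1
import Pool.Agent.LibBT65.RD

set_option autoImplicit false

/-!
Row Q7a. Combinations of commuting elements of `EE`, `|F| = 3`.

`AA_mul`: `x, y ∈ EE` commute. `x y s - s = (x s - s) + (y s - s) + u`, `u = x d - d ∈ U` with
`d = y s - s ∈ K` (L1). `B u t = - B d (x t - t)`: because
`B (x d - d) t = B (x d) t - B (x d) (x t) = - B (x d) (x t - t) = - B d (x t - t) - B u (x t - t)`
and `u ∈ U`, `x t - t ∈ K`. `B (x y s - s) (x y t - t) = B ((x-1) s + (y-1) s) ((x-1) t + (y-1) t)`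
(`U` is orthogonal to `K`, both sides are in `K`), and
`B ((x-1) s) ((y-1) t) = B ((y-1) s) ((x-1) t)` (`selfadj`). So
`AA (x y) s t = AA x s t + AA y s t - 3 * B ((y-1) s) ((x-1) t)`, and `3 = 0`.
`comb`: first for one element: for `x ∈ EE` and `i : F` (`i = 0, 1, 2`, since `|F| = 3`) the element
`y = 1, x, x * x` is in `EE`, `y v - v - i • (x v - v) ∈ U`, `AA B y = i * AA B x`, and `y` commutes
with everything that commutes with `x`; then multiply three such elements.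
-/

namespace Pool.Agent.LibBT65

open Module

variable {F V : Type*} [Field F] [Fintype F] [AddCommGroup V] [Module F V]
  {B : V →ₗ[F] V →ₗ[F] F} {M : Finset (Submodule F V)} {U K : Submodule F V}

private theorem Q7a_pow {p : ℕ} {P : Subgroup (V ≃ₗ[F] V)} (hP : IsPGroup p P)
    {g : V ≃ₗ[F] V} (hg : g ∈ P) : ∃ k : ℕ, g ^ (p ^ k) = 1 := by
  obtain ⟨k, hk⟩ := hP ⟨g, hg⟩
  exact ⟨k, by simpa using congrArg Subtype.val hk⟩

private theorem Q7a_L1 (hS : Sys B M) (hb : Base B M U K) [CharP F 3]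
    (P : Subgroup (V ≃ₗ[F] V)) (hP : IsPGroup 3 P) (hA : ∀ g ∈ P, Aut B M U g)
    {x : V ≃ₗ[F] V} (hx : x ∈ EE U K P) (v : V) : x v - v ∈ K := by
  obtain ⟨m, hm⟩ := Q7a_pow hP hx.1
  exact L1 hS hb 3 (hA x hx.1) hm hx.2.2 v

private theorem Q7a_star (hS : Sys B M) (hb : Base B M U K) [CharP F 3]
    (P : Subgroup (V ≃ₗ[F] V)) (hP : IsPGroup 3 P) (hA : ∀ g ∈ P, Aut B M U g)
    {x : V ≃ₗ[F] V} (hx : x ∈ EE U K P) {k : V} (hk : k ∈ K) (v : V) :
    B (x k - k) v = - B k (x v - v) := by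
  have h1 : x v - v ∈ K := Q7a_L1 hS hb P hP hA hx v
  have h2 : x k - k ∈ U := hx.2.2 k hk
  have h3 : B (x k - k) (x v - v) = 0 := by
    rw [hS.symm]
    exact (hb.perp _).1 h1 _ h2
  have h4 : B (x k) (x v) = B k v := (hA x hx.1).iso k v
  have h5 : B (x k - k) (x v - v) = B (x k) (x v) - B (x k) v - (B k (x v) - B k v) := by
    rw [LinearMap.map_sub₂, map_sub, map_sub]
  have h6 : B (x k - k) v = B (x k) v - B k v := by
    rw [LinearMap.map_sub₂]
  have h7 : B k (x v - v) = B k (x v) - B k v := by rw [map_sub]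
  rw [h6, h7]
  rw [h5, h4] at h3
  linear_combination (-1 : F) * h3

/-- the displacement of a product -/
private theorem Q7a_disp (x y : V ≃ₗ[F] V) (v : V) :
    (x * y) v - v = (x v - v) + (y v - v) + (x (y v - v) - (y v - v)) := by
  show x (y v) - v = _
  rw [map_sub]
  abel

theorem AA_mul (hS : Sys B M) (hb : Base B M U K) [CharP F 3]
    (P : Subgroup (V ≃ₗ[F] V)) (hP : IsPGroup 3 P) (hA : ∀ g ∈ P, Aut B M U g)
    {x y : V ≃ₗ[F] V} (hx : x ∈ EE U K P) (hy : y ∈ EE U K P) (hxy : ∀ v, x (y v) = y (x v))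
    (s t : V) : AA B (x * y) s t = AA B x s t + AA B y s t := by
  haveI : Fact (Nat.Prime 3) := ⟨Nat.prime_three⟩
  have h3 : (3 : F) = 0 := by exact_mod_cast CharP.cast_eq_zero F 3
  have hds := Q7a_L1 hS hb P hP hA hy s
  have hdt := Q7a_L1 hS hb P hP hA hy t
  have has := Q7a_L1 hS hb P hP hA hx s
  have hat := Q7a_L1 hS hb P hP hA hx t
  have hstar := Q7a_star hS hb P hP hA hx hds t
  have hself := selfadj hS hb 3 P hP hA hx hy hxy s t
  have hus : x (y s - s) - (y s - s) ∈ U := hx.2.2 _ hds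
  have hut : x (y t - t) - (y t - t) ∈ U := hx.2.2 _ hdt
  unfold AA
  rw [Q7a_disp x y s, Q7a_disp x y t]
  set a := x s - s
  set d := y s - s
  set a' := x t - t
  set d' := y t - t
  set u := x d - d
  set u' := x d' - d'
  have e1 : B a u' = 0 := (hb.perp _).1 has _ hut
  have e2 : B d u' = 0 := (hb.perp _).1 hds _ hut
  have e3 : B u a' = 0 := by
    rw [hS.symm]
    exact (hb.perp _).1 hat _ hus
  have e4 : B u d' = 0 := by
    rw [hS.symm]
    exact (hb.perp _).1 hdt _ hus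
  have e5 : B u u' = 0 := hS.sing U hb.mem u hus u' hut
  have hadd : ∀ v₁ v₂ w : V, B (v₁ + v₂) w = B v₁ w + B v₂ w := fun v₁ v₂ w => by
    rw [map_add, LinearMap.add_apply]
  simp only [map_add, LinearMap.add_apply, e1, e2, e3, e4, e5]
  linear_combination hstar - (B d a') * h3 + (1 : F) * hself

private theorem Q7a_powers (hS : Sys B M) (hb : Base B M U K) [CharP F 3]
    (P : Subgroup (V ≃ₗ[F] V)) (hP : IsPGroup 3 P) (hA : ∀ g ∈ P, Aut B M U g)
    {x : V ≃ₗ[F] V} (hx : x ∈ EE U K P) (n : ℕ) :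
    (∀ v, (x ^ n) v - v - (n : F) • (x v - v) ∈ U) ∧ ∀ s t, AA B (x ^ n) s t = (n : F) * AA B x s t := by
  induction n with
  | zero =>
    constructor
    · intro v
      have : (x ^ 0 : V ≃ₗ[F] V) v = v := by rw [pow_zero]; rfl
      rw [this, sub_self, Nat.cast_zero, zero_smul, sub_zero]
      exact U.zero_mem
    · intro s t
      have : ∀ v, (x ^ 0 : V ≃ₗ[F] V) v = v := fun v => by rw [pow_zero]; rfl
      unfold AA
      rw [this s, this t, sub_self, sub_self]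
      simp
  | succ n ih =>
    have m1 : x ^ n ∈ EE U K P := Subgroup.pow_mem _ hx _
    have hcomm : ∀ v, (x ^ n) (x v) = x ((x ^ n) v) := by
      intro v
      have h : x ^ n * x = x * x ^ n := by rw [← pow_succ, ← pow_succ']
      exact congrArg (fun g : V ≃ₗ[F] V => g v) h
    constructor
    · intro v
      have h1 := m1.2.2 _ (Q7a_L1 hS hb P hP hA hx v)
      have h2 := U.add_mem (ih.1 v) h1
      rw [pow_succ, Q7a_disp (x ^ n) x v, Nat.cast_succ, add_smul, one_smul]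
      convert h2 using 1
      abel
    · intro s t
      rw [pow_succ, AA_mul hS hb P hP hA m1 hx hcomm, ih.2, Nat.cast_succ]
      ring

private theorem Q7a_cast [CharP F 3] (hF : Fintype.card F = 3) (i : F) : ∃ n : ℕ, (n : F) = i := by
  have h3 : (3 : F) = 0 := by exact_mod_cast CharP.cast_eq_zero F 3
  have h1 : i ^ 3 = i := by
    have := FiniteField.pow_card i
    rwa [hF] at this
  have h2 : i * ((i - 1) * (i - 2)) = 0 := by
    linear_combination h1 + (-i ^ 2 + i) * h3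
  rcases mul_eq_zero.1 h2 with h | h
  · exact ⟨0, by rw [h, Nat.cast_zero]⟩
  rcases mul_eq_zero.1 h with h | h
  · exact ⟨1, by rw [Nat.cast_one]; exact (sub_eq_zero.1 h).symm⟩
  · exact ⟨2, by rw [Nat.cast_ofNat]; exact (sub_eq_zero.1 h).symm⟩

private theorem Q7a_one (hS : Sys B M) (hb : Base B M U K) [CharP F 3] (hF : Fintype.card F = 3)
    (P : Subgroup (V ≃ₗ[F] V)) (hP : IsPGroup 3 P) (hA : ∀ g ∈ P, Aut B M U g)
    {x : V ≃ₗ[F] V} (hx : x ∈ EE U K P) (i : F) :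
    ∃ n : ℕ, (∀ v, (x ^ n) v - v - i • (x v - v) ∈ U) ∧ ∀ s t, AA B (x ^ n) s t = i * AA B x s t := by
  obtain ⟨n, rfl⟩ := Q7a_cast hF i
  exact ⟨n, Q7a_powers hS hb P hP hA hx n⟩

theorem comb (hS : Sys B M) (hb : Base B M U K) [CharP F 3] (hF : Fintype.card F = 3)
    (P : Subgroup (V ≃ₗ[F] V)) (hP : IsPGroup 3 P) (hA : ∀ g ∈ P, Aut B M U g)
    {c x₂ x₃ : V ≃ₗ[F] V} (hc : c ∈ EE U K P) (hx₂ : x₂ ∈ EE U K P) (hx₃ : x₃ ∈ EE U K P)
    (comm : ∀ x ∈ EE U K P, ∀ y ∈ EE U K P, ∀ v, x (y v) = y (x v)) (i j k : F) :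
    ∃ x ∈ EE U K P,
      (∀ v, x v - v - (i • (c v - v) + j • (x₂ v - v) + k • (x₃ v - v)) ∈ U) ∧
      ∀ s t, AA B x s t = i * AA B c s t + j * AA B x₂ s t + k * AA B x₃ s t := by
  obtain ⟨i', hi, hiA⟩ := Q7a_one hS hb hF P hP hA hc i
  obtain ⟨j', hj, hjA⟩ := Q7a_one hS hb hF P hP hA hx₂ j
  obtain ⟨k', hk, hkA⟩ := Q7a_one hS hb hF P hP hA hx₃ k
  have m1 : c ^ i' ∈ EE U K P := Subgroup.pow_mem _ hc _
  have m2 : x₂ ^ j' ∈ EE U K P := Subgroup.pow_mem _ hx₂ _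
  have m3 : x₃ ^ k' ∈ EE U K P := Subgroup.pow_mem _ hx₃ _
  have m23 : x₂ ^ j' * x₃ ^ k' ∈ EE U K P := Subgroup.mul_mem _ m2 m3
  refine ⟨c ^ i' * (x₂ ^ j' * x₃ ^ k'), Subgroup.mul_mem _ m1 m23, fun v => ?_, fun s t => ?_⟩
  · have h1 := m1.2.2 _ (Q7a_L1 hS hb P hP hA m23 v)
    have h2 := m2.2.2 _ (Q7a_L1 hS hb P hP hA m3 v)
    have h3 := U.add_mem (U.add_mem (hi v) (hj v)) (hk v)
    have h4 := U.add_mem h3 (U.add_mem h1 h2)
    rw [Q7a_disp (c ^ i') (x₂ ^ j' * x₃ ^ k') v]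
    have h5 := Q7a_disp (x₂ ^ j') (x₃ ^ k') v
    convert h4 using 1
    set w := (x₂ ^ j' * x₃ ^ k') v - v
    rw [h5]
    abel
  · rw [AA_mul hS hb P hP hA m1 m23 (comm _ m1 _ m23), AA_mul hS hb P hP hA m2 m3 (comm _ m2 _ m3),
      hiA, hjA, hkA]
    ring

end Pool.Agent.LibBT65
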