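import Pool.Agent.LibBT65.A4
import Pool.Agent.LibBT65.RD
import Pool.Agent.LibBT65.Q7a

set_option autoImplicit false

/-!
Row Q7b. Explicit Gram matrices.

`opp_det`: `π ≠ π'` members, `s r ∈ π`, `t r ∈ π'`, both families independent (so bases, dimension 3):
the matrix `B (s r) (t r')` has determinant `≠ 0` (otherwise a nontrivial combination `s = ∑ l r • s r`
of the rows vanishes, `s` is orthogonal to `π'`, so `s = 0` by `opp`, contradiction). For `det3`:
`Matrix.det_fin_three`, `Matrix.exists_vecMul_eq_zero_iff`.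
`gram_comb`: for rigid data and `x` with `x v - v = i (c v - v) + j (x₂ v - v) + k (x₃ v - v)` modulo `U`:
`B (x (e r) - e r) (x (e s) - e s) = μ * NN a b i j k r s + κ * (mv r * mv s)`,
`mv = ![0, -(k m), j m + k n]`: by `d20 ... d32`, modulo `U`, `x (e r) - e r` is
`∑ l, tv a b i j k r l • (c (e l) - e l) + mv r • w`; everything is in `K`, `U` is orthogonal to `K`, then
`gram`, `wc`, `ww`. The same for `s r` with `s r - e r ∈ K` in place of `e r` (`x z - z ∈ U` on `K`):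
`gram_comb'`.
`comb_ne`: if `x = 1` in this situation then `i = j = k = 0`: `0 = x (e 0) - e 0` is, modulo `U`,
`c z - z` with `z = i • e 0 + j • e 1 + k • e 2`, so `z ∈ K` by L4' for `c`, so `i = j = k = 0` by `eK`.
-/

namespace Pool.Agent.LibBT65

open Module

variable {F V : Type*} [Field F] [Fintype F] [AddCommGroup V] [Module F V]
  {B : V →ₗ[F] V →ₗ[F] F} {M : Finset (Submodule F V)} {U K : Submodule F V}

theorem opp_det (hS : Sys B M) {π π' : Submodule F V} (hπ : π ∈ M) (hπ' : π' ∈ M) (h : π ≠ π')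
    (s t : Fin 3 → V) (hs : ∀ r, s r ∈ π) (ht : ∀ r, t r ∈ π')
    (hsi : ∀ l : Fin 3 → F, ∑ r, l r • s r = 0 → l = 0)
    (hti : ∀ l : Fin 3 → F, ∑ r, l r • t r = 0 → l = 0) :
    det3 (fun r r' => B (s r) (t r')) ≠ 0 := by
  intro h0
  have hdet : (Matrix.of fun r r' => B (s r) (t r')).det = 0 := by
    rw [Matrix.det_fin_three]
    simp only [Matrix.of_apply]
    unfold det3 at h0
    linear_combination h0
  obtain ⟨l, hl, hl0⟩ := Matrix.exists_vecMul_eq_zero_iff.2 hdet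
  apply hl
  apply hsi
  have hsum : ∀ r', B (∑ r, l r • s r) (t r') = 0 := by
    intro r'
    have h1 := congrFun hl0 r'
    rw [map_sum, LinearMap.sum_apply]
    simp only [map_smul, LinearMap.smul_apply, smul_eq_mul]
    exact h1
  have hfd : FiniteDimensional F π' := by
    apply FiniteDimensional.of_finrank_pos
    rw [hS.dim π' hπ']
    norm_num
  have hli : LinearIndependent F (fun r => (⟨t r, ht r⟩ : π')) := by
    rw [Fintype.linearIndependent_iff]
    intro g hg i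
    have h1 : ∑ r, g r • t r = 0 := by
      have h2 := congrArg (Submodule.subtype π') hg
      rw [map_sum, map_zero] at h2
      exact h2
    exact congrFun (hti g h1) i
  have hspan : Submodule.span F (Set.range fun r => (⟨t r, ht r⟩ : π')) = ⊤ := by
    apply hli.span_eq_top_of_card_eq_finrank'
    rw [hS.dim π' hπ']
    rfl
  have hall : ∀ w ∈ π', B (∑ r, l r • s r) w = 0 := by
    intro w hw
    have h1 : (⟨w, hw⟩ : π') ∈ Submodule.span F (Set.range fun r => (⟨t r, ht r⟩ : π')) := by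
      rw [hspan]
      exact Submodule.mem_top
    obtain ⟨g, hg⟩ := (Submodule.mem_span_range_iff_exists_fun F).1 h1
    have h2 : ∑ r, g r • t r = w := by
      have h3 := congrArg (Submodule.subtype π') hg
      rw [map_sum] at h3
      exact h3
    rw [← h2, map_sum]
    refine Finset.sum_eq_zero fun r _ => ?_
    rw [map_smul, hsum r, smul_zero]
  exact hS.opp π' hπ' π hπ h.symm _ (Submodule.sum_mem _ fun r _ => Submodule.smul_mem _ _ (hs r)) hall

private theorem Q7b_pow {p : ℕ} {P : Subgroup (V ≃ₗ[F] V)} (hP : IsPGroup p P)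
    {g : V ≃ₗ[F] V} (hg : g ∈ P) : ∃ k : ℕ, g ^ (p ^ k) = 1 := by
  obtain ⟨k, hk⟩ := hP ⟨g, hg⟩
  exact ⟨k, by simpa using congrArg Subtype.val hk⟩

/-- the vector `x (e r) - e r` modulo `U` -/
private theorem Q7b_mod {P : Subgroup (V ≃ₗ[F] V)}
    {c x₂ x₃ : V ≃ₗ[F] V} {e : Fin 3 → V} {w : V} {μ κ a b m n : F}
    (D : RD0 B U K P c x₂ x₃ e w μ κ a b m n) {x : V ≃ₗ[F] V} {i j k : F}
    (hxc : ∀ v, x v - v - (i • (c v - v) + j • (x₂ v - v) + k • (x₃ v - v)) ∈ U) (r : Fin 3) :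
    x (e r) - e r - (∑ l, tv a b i j k r l • (c (e l) - e l) +
      (![0, -(k * m), j * m + k * n] : Fin 3 → F) r • w) ∈ U := by
  have h1 := hxc (e r)
  fin_cases r
  · have h2 := U.add_mem (U.add_mem h1 (U.smul_mem j D.d20)) (U.smul_mem k D.d30)
    refine (congrArg (· ∈ U) ?_).mp h2
    simp only [Fin.sum_univ_three, tv, Matrix.cons_val_zero, Matrix.cons_val_one, Matrix.cons_val,
      Fin.zero_eta, Fin.isValue]
    module
  · have h2 := U.add_mem (U.add_mem h1 (U.smul_mem j D.d21)) (U.smul_mem k D.d31)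
    refine (congrArg (· ∈ U) ?_).mp h2
    simp only [Fin.sum_univ_three, tv, Matrix.cons_val_zero, Matrix.cons_val_one, Matrix.cons_val,
      Fin.mk_one, Fin.isValue]
    module
  · have h2 := U.add_mem (U.add_mem h1 (U.smul_mem j D.d22)) (U.smul_mem k D.d32)
    refine (congrArg (· ∈ U) ?_).mp h2
    simp only [Fin.sum_univ_three, tv, Matrix.cons_val_zero, Matrix.cons_val_one, Matrix.cons_val,
      Fin.reduceFinMk, Fin.isValue]
    module

private theorem Q7b_eq (hS : Sys B M) (hb : Base B M U K) {p p' q q' : V} (hq : q ∈ K) (hq' : q' ∈ K)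
    (h : p - q ∈ U) (h' : p' - q' ∈ U) : B p p' = B q q' := by
  have hUK : U ≤ K := U_le_K hS hb
  have h1 : B q (p' - q') = 0 := (hb.perp q).1 hq _ h'
  have h2 : B (p - q) q' = 0 := by
    rw [hS.symm]
    exact (hb.perp q').1 hq' _ h
  have h3 : B (p - q) (p' - q') = 0 := (hb.perp _).1 (hUK h) _ h'
  have h4 : p = q + (p - q) := by abel
  have h5 : p' = q' + (p' - q') := by abel
  rw [h4, h5, map_add, map_add, LinearMap.add_apply, LinearMap.add_apply, h1, h2, h3]
  ring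

private theorem Q7b_gram {P : Subgroup (V ≃ₗ[F] V)} (hS : Sys B M)
    {c x₂ x₃ : V ≃ₗ[F] V} {e : Fin 3 → V} {w : V} {μ κ a b m n : F}
    (D : RD0 B U K P c x₂ x₃ e w μ κ a b m n) (T T' : Fin 3 → F) (z z' : F) :
    B (∑ l, T l • (c (e l) - e l) + z • w) (∑ l, T' l • (c (e l) - e l) + z' • w) =
      μ * qf T T' + κ * (z * z') := by
  have g00 : B (c (e 0) - e 0) (c (e 0) - e 0) = 0 := by
    rw [D.gram 0 0]
    simp [qf]
  have g01 : B (c (e 0) - e 0) (c (e 1) - e 1) = 0 := by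
    rw [D.gram 0 1]
    simp [qf]
  have g02 : B (c (e 0) - e 0) (c (e 2) - e 2) = μ := by
    rw [D.gram 0 2]
    simp [qf]
  have g10 : B (c (e 1) - e 1) (c (e 0) - e 0) = 0 := by
    rw [D.gram 1 0]
    simp [qf]
  have g11 : B (c (e 1) - e 1) (c (e 1) - e 1) = -μ := by
    rw [D.gram 1 1]
    simp [qf]
  have g12 : B (c (e 1) - e 1) (c (e 2) - e 2) = 0 := by
    rw [D.gram 1 2]
    simp [qf]
  have g20 : B (c (e 2) - e 2) (c (e 0) - e 0) = μ := by
    rw [D.gram 2 0]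
    simp [qf]
  have g21 : B (c (e 2) - e 2) (c (e 1) - e 1) = 0 := by
    rw [D.gram 2 1]
    simp [qf]
  have g22 : B (c (e 2) - e 2) (c (e 2) - e 2) = 0 := by
    rw [D.gram 2 2]
    simp [qf]
  have w0 := D.wc (e 0)
  have w1 := D.wc (e 1)
  have w2 := D.wc (e 2)
  have v0 : B (c (e 0) - e 0) w = 0 := by rw [hS.symm]; exact w0
  have v1 : B (c (e 1) - e 1) w = 0 := by rw [hS.symm]; exact w1
  have v2 : B (c (e 2) - e 2) w = 0 := by rw [hS.symm]; exact w2
  have ww := D.ww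
  simp only [Fin.sum_univ_three]
  generalize c (e 0) - e 0 = C0 at *
  generalize c (e 1) - e 1 = C1 at *
  generalize c (e 2) - e 2 = C2 at *
  simp only [map_add, map_smul, LinearMap.add_apply, LinearMap.smul_apply, smul_eq_mul, qf]
  rw [g00, g01, g02, g10, g11, g12, g20, g21, g22, w0, w1, w2, v0, v1, v2, ww]
  ring

theorem gram_comb' (hS : Sys B M) (hb : Base B M U K) [CharP F 3]
    (P : Subgroup (V ≃ₗ[F] V)) (hP : IsPGroup 3 P) (hA : ∀ g ∈ P, Aut B M U g)
    {c x₂ x₃ : V ≃ₗ[F] V} {e : Fin 3 → V} {w : V} {μ κ a b m n : F}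
    (D : RD0 B U K P c x₂ x₃ e w μ κ a b m n) {x : V ≃ₗ[F] V} (hx : x ∈ EE U K P) {i j k : F}
    (hxc : ∀ v, x v - v - (i • (c v - v) + j • (x₂ v - v) + k • (x₃ v - v)) ∈ U)
    (s : Fin 3 → V) (hs : ∀ r, s r - e r ∈ K) (r t : Fin 3) :
    B (x (s r) - s r) (x (s t) - s t) = μ * NN a b i j k r t +
      κ * ((![0, -(k * m), j * m + k * n] : Fin 3 → F) r *
        (![0, -(k * m), j * m + k * n] : Fin 3 → F) t) := by
  obtain ⟨kc, hkc⟩ := Q7b_pow hP D.hc.1
  have hcK : ∀ v, c v - v ∈ K := fun v => L1 hS hb 3 (hA c D.hc.1) hkc D.hc.2.2 v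
  have hq : ∀ r, ∑ l, tv a b i j k r l • (c (e l) - e l) +
      (![0, -(k * m), j * m + k * n] : Fin 3 → F) r • w ∈ K := fun r =>
    K.add_mem (Submodule.sum_mem _ fun l _ => K.smul_mem _ (hcK (e l))) (K.smul_mem _ D.wK)
  have hp : ∀ r, x (s r) - s r - (∑ l, tv a b i j k r l • (c (e l) - e l) +
      (![0, -(k * m), j * m + k * n] : Fin 3 → F) r • w) ∈ U := by
    intro r
    have h1 := U.add_mem (hx.2.2 _ (hs r)) (Q7b_mod D hxc r)
    refine (congrArg (· ∈ U) ?_).mp h1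
    rw [map_sub]
    abel
  rw [Q7b_eq hS hb (hq r) (hq t) (hp r) (hp t), Q7b_gram hS D]
  rfl

theorem comb_ne (hS : Sys B M) (hb : Base B M U K) [CharP F 3]
    (P : Subgroup (V ≃ₗ[F] V)) (hP : IsPGroup 3 P) (hA : ∀ g ∈ P, Aut B M U g)
    {c x₂ x₃ : V ≃ₗ[F] V} {e : Fin 3 → V} {w : V} {μ κ a b m n : F}
    (D : RD0 B U K P c x₂ x₃ e w μ κ a b m n) {x : V ≃ₗ[F] V} {i j k : F}
    (hxc : ∀ v, x v - v - (i • (c v - v) + j • (x₂ v - v) + k • (x₃ v - v)) ∈ U)
    (hx1 : x = 1) : i = 0 ∧ j = 0 ∧ k = 0 := by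
  obtain ⟨kc, hkc⟩ := Q7b_pow hP D.hc.1
  have h0 := Q7b_mod D hxc 0
  have hx0 : x (e 0) - e 0 = 0 := by
    rw [hx1]
    exact sub_self _
  have hz : c (∑ r, (![i, j, k] : Fin 3 → F) r • e r) - ∑ r, (![i, j, k] : Fin 3 → F) r • e r ∈ U := by
    have h1 := U.neg_mem h0
    rw [hx0] at h1
    refine (congrArg (· ∈ U) ?_).mp h1
    simp only [Fin.sum_univ_three, tv, Matrix.cons_val_zero, Matrix.cons_val_one, Matrix.cons_val,
      Fin.isValue, map_add, map_smul]
    module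
  have hK : ∑ r, (![i, j, k] : Fin 3 → F) r • e r ∈ K := by
    by_contra hn
    exact L4' hS hb 3 (hA c D.hc.1) hkc D.hc.2.2 D.hc1 hn hz
  have h2 := D.eK _ hK
  exact ⟨congrFun h2 0, congrFun h2 1, congrFun h2 2⟩

end Pool.Agent.LibBT65
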