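import Pool.Agent.LibBT65.A8
import Pool.Agent.LibBT65.Q7
import Pool.Agent.LibBT65.Q4

set_option autoImplicit false

/-!
Row Q8. Rigid data with `κ = μ`, `m = n = 0`, `b = 1` are impossible: there are two members in different
orbits of `EE`.

`|M| - 1 = 81`, `|EE| ≤ 27` (`L6`), so for a member `π ≠ U` there is a member `π₁ ≠ U` with
`π₁ ≠ x π` for all `x ∈ EE`. Let `s`, `s₁` be the lifts of `Q7` for `π` and `π₁`. By `surj` there is
`y ∈ EE` such that `k 0 = y (s₁ 0) - s 0` is, modulo `U`, a multiple of `w`: by `Kdec`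
`s₁ 0 - s 0 = c v - v + t • w` modulo `U`; take `y` with `y (e 0) - e 0 = c (-v) - (-v) + t' • w` modulo
`U`; `y (s₁ 0) - s₁ 0 = y (e 0) - e 0` modulo `U` (`s₁ 0 - e 0 ∈ K`). Put `π' = y π₁ ∈ M`
(again not in the orbit of `π`, `≠ U`), `s' r = y (s₁ r) ∈ π'`, `s' r - e r ∈ K` (L1).
`AA B x (s' r) (s' t) = 0` for `x = c, x₂, x₃` too: by Q7 for `π'` its lifts are unique
(`K_inter`), so they are the `s' r`. Let `k r = s' r - s r ∈ K`.
(1) `B (x (s' r) - s' r) (s' t) = B (x (s r) - s r) (s t)` for `x = c, x₂, x₃` (both equal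
`B (x (e r) - e r) (x (e t) - e t)`). The left side is
`B (x (s r) - s r) (s t) + B (x (s r) - s r) (k t) + B (x (k r) - k r) (s t)` (the term with
`x (k r) - k r ∈ U` and `k t ∈ K` is 0) and `B (x (k r) - k r) (s t) = - B (k r) (x (s t) - s t)`
(as in the header of S1). So `B (x (s r) - s r) (k t) = B (k r) (x (s t) - s t)`.
(2) `r = 0`: `k 0 = t • w` modulo `U` and `x (s t) - s t` is, modulo `U`, of the form `c z - z`
(`d20 ... d32` with `m = n = 0`), so the right side is 0 (`wc`). The vectors `x (s 0) - s 0`,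
`x = c, x₂, x₃`, are `c (e l) - e l`, `l = 0, 1, 2`, modulo `U`; so `k t` is orthogonal to all
`c z - z` (`espan`), and by `Kdec` and the nondegeneracy of the form `B (c v - v) (c z - z)` (L5')
`k t = m' t • w` modulo `U`.
(3) `R r t = B (s' r) (s t) = B (k r) (s t)`, `R r t + R t r = - B (k r) (k t) = - μ (m' r) (m' t)`
(`B (s' r) (s' t) = 0`, `B (s r) (s t) = 0`), so `R = μ (m' r m' t + alt3 c' r t)` for some `c'`
(`-1/2 = 1` in `F`). For any `i j k : F` and `x` of `comb`: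
`B (x (s' r)) (s t) = R r t + B (x (s r) - s r) (s t) + B (x (k r) - k r) (s t)`, the last term is
`- B (k r) (x (s t) - s t) = 0`, the middle one is `μ * NN a 1 i j k r t` (`comb`, `AA = 0`,
`gram_comb'`). `x π' ≠ π`, so the determinant is `≠ 0` (`opp_det`): contradiction to `Q4`.
-/

namespace Pool.Agent.LibBT65

open Module

variable {F V : Type*} [Field F] [Fintype F] [AddCommGroup V] [Module F V]
  {B : V →ₗ[F] V →ₗ[F] F} {M : Finset (Submodule F V)} {U K : Submodule F V}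

private theorem q8_UK (hS : Sys B M) (hb : Base B M U K) {u k : V} (hu : u ∈ U) (hk : k ∈ K) :
    B u k = 0 := by
  rw [hS.symm]
  exact (hb.perp k).1 hk u hu

omit [Fintype F] in
private theorem q8_KU (hb : Base B M U K) {u k : V} (hu : u ∈ U) (hk : k ∈ K) :
    B k u = 0 := (hb.perp k).1 hk u hu

omit [Fintype F] in
private theorem q8_pow {p : ℕ} {P : Subgroup (V ≃ₗ[F] V)} (hP : IsPGroup p P)
    {g : V ≃ₗ[F] V} (hg : g ∈ P) : ∃ k : ℕ, g ^ (p ^ k) = 1 := by
  obtain ⟨k, hk⟩ := hP ⟨g, hg⟩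
  exact ⟨k, by simpa using congrArg Subtype.val hk⟩

private theorem q8_L1 (hS : Sys B M) (hb : Base B M U K) [CharP F 3]
    (P : Subgroup (V ≃ₗ[F] V)) (hP : IsPGroup 3 P) (hA : ∀ g ∈ P, Aut B M U g)
    {x : V ≃ₗ[F] V} (hx : x ∈ EE U K P) (v : V) : x v - v ∈ K := by
  obtain ⟨m, hm⟩ := q8_pow hP hx.1
  exact L1 hS hb 3 (hA x hx.1) hm hx.2.2 v

private theorem q8_star (hS : Sys B M) (hb : Base B M U K) [CharP F 3]
    (P : Subgroup (V ≃ₗ[F] V)) (hP : IsPGroup 3 P) (hA : ∀ g ∈ P, Aut B M U g)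
    {x : V ≃ₗ[F] V} (hx : x ∈ EE U K P) {k : V} (hk : k ∈ K) (v : V) :
    B (x k - k) v = - B k (x v - v) := by
  have h1 : x v - v ∈ K := q8_L1 hS hb P hP hA hx v
  have h2 : x k - k ∈ U := hx.2.2 k hk
  have h3 : B (x k - k) (x v - v) = 0 := q8_UK hS hb h2 h1
  have h4 : B (x k) (x v) = B k v := (hA x hx.1).iso k v
  have h5 : B (x k - k) (x v - v) = B (x k) (x v) - B (x k) v - (B k (x v) - B k v) := by
    rw [LinearMap.map_sub₂, map_sub, map_sub]
  have h6 : B (x k - k) v = B (x k) v - B k v := by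
    rw [LinearMap.map_sub₂]
  have h7 : B k (x v - v) = B k (x v) - B k v := by rw [map_sub]
  rw [h6, h7]
  rw [h5, h4] at h3
  linear_combination (-1 : F) * h3

/-- step (1) of the header -/
private theorem q8_E1 (hS : Sys B M) (hb : Base B M U K) [CharP F 3]
    (P : Subgroup (V ≃ₗ[F] V)) (hP : IsPGroup 3 P) (hA : ∀ g ∈ P, Aut B M U g)
    {x : V ≃ₗ[F] V} (hx : x ∈ EE U K P) {s t k l : V} (hk : k ∈ K) (hl : l ∈ K)
    (h1 : AA B x (s + k) (t + l) = 0) (h2 : AA B x s t = 0) :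
    B (x s - s) l = B k (x t - t) := by
  have h3 := q8_star hS hb P hP hA hx hk t
  have hs := q8_L1 hS hb P hP hA hx s
  have ht := q8_L1 hS hb P hP hA hx t
  have hkU : x k - k ∈ U := hx.2.2 k hk
  have hlU : x l - l ∈ U := hx.2.2 l hl
  unfold AA at h1 h2
  have e1 : x (s + k) - (s + k) = (x s - s) + (x k - k) := by rw [map_add]; abel
  have e2 : x (t + l) - (t + l) = (x t - t) + (x l - l) := by rw [map_add]; abel
  rw [e1, e2] at h1
  have f1 : B (x k - k) l = 0 := q8_UK hS hb hkU hl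
  have f2 : B (x k - k) (x t - t) = 0 := q8_UK hS hb hkU ht
  have f3 : B (x k - k) (x l - l) = 0 := q8_UK hS hb hkU (U_le_K hS hb hlU)
  have f4 : B (x s - s) (x l - l) = 0 := q8_KU hb hlU hs
  rw [LinearMap.map_add₂, LinearMap.map_add₂, map_add, map_add, map_add, map_add] at h1
  linear_combination h1 - h2 - h3 - f1 + f2 + f3 + f4

/-- two members in different orbits -/
private theorem q8_orbit (hS : Sys B M) (hb : Base B M U K) [CharP F 3]
    (hF : Fintype.card F = 3)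
    (P : Subgroup (V ≃ₗ[F] V)) (hP : IsPGroup 3 P) (hA : ∀ g ∈ P, Aut B M U g) :
    ∃ π ∈ M, ∃ π₁ ∈ M, π ≠ U ∧ π₁ ≠ U ∧
      ∀ x ∈ EE U K P, π₁ ≠ π.map (x : V →ₗ[F] V) := by
  classical
  obtain ⟨π, hπ, -, -, hπU, -, -⟩ := two_members hS hb
  by_contra hcon
  have hcon' : ∀ π₁ ∈ M, π₁ ≠ U → ∃ x ∈ EE U K P, π₁ = π.map (x : V →ₗ[F] V) := by
    intro π₁ hπ₁ hne
    by_contra h
    refine hcon ⟨π, hπ, π₁, hπ₁, hπU, hne, fun x hx he => h ⟨x, hx, he⟩⟩
  have hfd : FiniteDimensional F V := by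
    apply FiniteDimensional.of_finrank_pos
    rw [hS.dimV]
    norm_num
  have hfV : Finite V := Module.finite_of_finite F
  have hfE : Finite (V ≃ₗ[F] V) :=
    Finite.of_injective (fun g : V ≃ₗ[F] V => (g : V → V)) DFunLike.coe_injective
  have hfE' : Fintype (EE U K P) := Fintype.ofFinite _
  obtain ⟨f, hf⟩ : ∃ f : EE U K P → Submodule F V,
      ∀ x, f x = π.map ((x : V ≃ₗ[F] V) : V →ₗ[F] V) := ⟨_, fun x => rfl⟩
  have hsub : M.erase U ⊆ Finset.univ.image f := by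
    intro π₁ h
    rw [Finset.mem_erase] at h
    obtain ⟨x, hx, he⟩ := hcon' π₁ h.2 h.1
    rw [Finset.mem_image]
    exact ⟨⟨x, hx⟩, Finset.mem_univ _, by rw [hf]; exact he.symm⟩
  have h1 := Finset.card_le_card hsub
  have h2 : (Finset.univ.image f).card ≤ Nat.card (EE U K P) := by
    refine le_trans Finset.card_image_le ?_
    rw [Finset.card_univ, Nat.card_eq_fintype_card]
  have h3 := L6 hS hb 3 P hP hA
  rw [Finset.card_erase_of_mem hb.mem, hS.card, hF] at h1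
  rw [hF] at h3
  have h4 : (3 : ℕ) ^ 3 = 27 := by norm_num
  have h5 : (3 : ℕ) ^ 4 = 81 := by norm_num
  rw [h4] at h3
  rw [h5] at h1
  omega

omit [Fintype F] in
/-- antisymmetric matrices -/
private theorem q8_alt (μ : F) (hμ : μ ≠ 0) (two : (2 : F) ≠ 0) (R : Fin 3 → Fin 3 → F)
    (h : ∀ r t, R r t + R t r = 0) : ∃ v : Fin 3 → F, ∀ r t, R r t = μ * alt3 v r t := by
  refine ⟨![R 1 2 / μ, R 2 0 / μ, R 0 1 / μ], ?_⟩
  have hd : ∀ r, R r r = 0 := by
    intro r
    have h1 := h r r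
    rw [← two_mul] at h1
    exact (mul_eq_zero.1 h1).resolve_left two
  have h01 := h 0 1
  have h02 := h 0 2
  have h12 := h 1 2
  intro r t
  fin_cases r <;> fin_cases t <;> simp [alt3, hd] <;> field_simp
  · linear_combination h02
  · linear_combination h01
  · linear_combination h12

omit [Fintype F] in
private theorem q8_det (μ : F) (N : Fin 3 → Fin 3 → F) :
    det3 (fun r t => μ * N r t) = μ ^ 3 * det3 N := by
  unfold det3
  ring

theorem Q8 (hS : Sys B M) (hb : Base B M U K) [CharP F 3] (hF : Fintype.card F = 3)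
    (P : Subgroup (V ≃ₗ[F] V)) (hP : IsPGroup 3 P) (hA : ∀ g ∈ P, Aut B M U g)
    {c x₂ x₃ : V ≃ₗ[F] V} {e : Fin 3 → V} {w : V} {μ a : F}
    (D : RD0 B U K P c x₂ x₃ e w μ μ a 1 0 0) (ha : a ≠ 0) : False := by
  obtain ⟨π, hπ, π₁, hπ₁, hπU, hπ₁U, horb⟩ := q8_orbit hS hb hF P hP hA
  have hL : ∀ x ∈ EE U K P, ∀ v, x v - v ∈ K := fun x hx v => q8_L1 hS hb P hP hA hx v
  have hUK : U ≤ K := U_le_K hS hb
  -- the first lift of `π₁`
  obtain ⟨p₁, hp₁, k₁, hk₁, he0⟩ := decomp hS hb hπ₁ hπ₁U (e 0)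
  obtain ⟨s, hs, hsA⟩ := Q7 hS hb hF P hP hA D ha hπ hπU
  have hk : p₁ - s 0 ∈ K := by
    have h1 := K.add_mem (K.neg_mem hk₁) (K.neg_mem (hs 0).2)
    have h2 : p₁ - s 0 = -k₁ + -(s 0 - e 0) := by rw [he0]; abel
    rw [h2]
    exact h1
  obtain ⟨v, t, hvt⟩ := D.Kdec _ hk
  obtain ⟨y, hy, t', hyt⟩ := D.surj (-v)
  -- the member `π' = y π₁`
  obtain ⟨π', hπ'⟩ : ∃ π' : Submodule F V, π' = π₁.map (y : V →ₗ[F] V) := ⟨_, rfl⟩
  have hπ'M : π' ∈ M := by
    rw [hπ']
    exact (hA y hy.1).pres π₁ hπ₁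
  have hπ'U : π' ≠ U := by
    intro h
    apply hπ₁U
    rw [hπ', ← (hA y hy.1).fix] at h
    exact Submodule.map_injective_of_injective (f := (y : V →ₗ[F] V)) y.injective h
  have hπ'orb : ∀ x ∈ EE U K P, π'.map (x : V →ₗ[F] V) ≠ π := by
    intro x hx h
    have hxy : (x * y)⁻¹ ∈ EE U K P := (EE U K P).inv_mem ((EE U K P).mul_mem hx hy)
    apply horb _ hxy
    have h1 : π = π₁.map ((x * y : V ≃ₗ[F] V) : V →ₗ[F] V) := by
      have : ((x * y : V ≃ₗ[F] V) : V →ₗ[F] V) = (x : V →ₗ[F] V) ∘ₗ (y : V →ₗ[F] V) := rfl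
      rw [this, Submodule.map_comp, ← hπ', h]
    rw [h1, ← Submodule.map_comp]
    have h2 : (((x * y)⁻¹ : V ≃ₗ[F] V) : V →ₗ[F] V) ∘ₗ ((x * y : V ≃ₗ[F] V) : V →ₗ[F] V) =
        LinearMap.id := by
      ext z
      exact (x * y).symm_apply_apply z
    rw [h2, Submodule.map_id]
  obtain ⟨s', hs', hsA'⟩ := Q7 hS hb hF P hP hA D ha hπ'M hπ'U
  have hs0 : s' 0 = y p₁ := by
    have h1 : s' 0 - y p₁ ∈ π' := by
      apply π'.sub_mem (hs' 0).1
      rw [hπ']
      exact Submodule.mem_map_of_mem hp₁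
    have h2 : s' 0 - y p₁ ∈ K := by
      have h3 : s' 0 - y p₁ = (s' 0 - e 0) + (k₁ - (y p₁ - p₁)) := by rw [he0]; abel
      rw [h3]
      exact K.add_mem (hs' 0).2 (K.sub_mem hk₁ (hL y hy p₁))
    exact sub_eq_zero.1 (K_inter hS hb hπ'M hπ'U h1 h2)
  -- the difference
  obtain ⟨k, hk'⟩ : ∃ k : Fin 3 → V, ∀ r, k r = s' r - s r := ⟨_, fun r => rfl⟩
  have hkK : ∀ r, k r ∈ K := by
    intro r
    rw [hk']
    have h1 : s' r - s r = (s' r - e r) - (s r - e r) := by abel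
    rw [h1]
    exact K.sub_mem (hs' r).2 (hs r).2
  have hss : ∀ r, s' r = s r + k r := by
    intro r
    rw [hk']
    abel
  have hk0 : k 0 - (t + t') • w ∈ U := by
    have h1 : y k₁ - k₁ ∈ U := hy.2.2 k₁ hk₁
    have h2 : k 0 - (t + t') • w = (p₁ - s 0 - (c v - v) - t • w) +
        (y (e 0) - e 0 - (c (-v) - (-v)) - t' • w) - (y k₁ - k₁) := by
      rw [hk', hs0, he0, map_add, map_neg, add_smul]
      abel
    rw [h2]
    exact U.sub_mem (U.add_mem hvt hyt) h1
  -- `w` is orthogonal to all `x v - v`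
  have wc' : ∀ v, B w (c v) = B w v := by
    intro v
    have := D.wc v
    rwa [map_sub, sub_eq_zero] at this
  have hwe : ∀ x, (x = c ∨ x = x₂ ∨ x = x₃) → ∀ r, B w (x (e r) - e r) = 0 := by
    have g0 := q8_KU hb D.d20 D.wK
    have g1 := q8_KU hb D.d21 D.wK
    have g2 := q8_KU hb D.d22 D.wK
    have g3 := q8_KU hb D.d30 D.wK
    have g4 := q8_KU hb D.d31 D.wK
    have g5 := q8_KU hb D.d32 D.wK
    simp only [map_sub, map_add, map_smul, wc', smul_eq_mul, zero_mul, sub_self, mul_zero,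
      sub_zero, add_zero] at g0 g1 g2 g3 g4 g5
    rintro x (rfl | rfl | rfl) r
    · exact D.wc _
    · rw [map_sub]
      fin_cases r
      · exact g0
      · exact g1
      · exact g2
    · rw [map_sub]
      fin_cases r
      · exact g3
      · exact g4
      · exact g5
  have hcE : ∀ x, (x = c ∨ x = x₂ ∨ x = x₃) → x ∈ EE U K P := by
    rintro x (rfl | rfl | rfl)
    · exact D.hc
    · exact D.hx₂
    · exact D.hx₃
  have hsum : ∀ x ∈ EE U K P, ∀ v, ∃ l : Fin 3 → F,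
      x v - v - ∑ r, l r • (x (e r) - e r) ∈ U := by
    intro x hx v
    obtain ⟨l, hl⟩ := D.espan v
    refine ⟨l, ?_⟩
    have h1 := hx.2.2 _ hl
    have h2 : x v - v - ∑ r, l r • (x (e r) - e r) =
        x (v - ∑ r, l r • e r) - (v - ∑ r, l r • e r) := by
      rw [map_sub, map_sum]
      simp only [map_smul, smul_sub, Finset.sum_sub_distrib]
      abel
    rw [h2]
    exact h1
  have hw : ∀ x, (x = c ∨ x = x₂ ∨ x = x₃) → ∀ v, B w (x v - v) = 0 := by
    intro x hx v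
    obtain ⟨l, hl⟩ := hsum x (hcE x hx) v
    have h1 := q8_KU hb hl D.wK
    rw [map_sub, map_sum] at h1
    simp only [map_smul, hwe x hx, smul_zero, Finset.sum_const_zero, sub_zero] at h1
    exact h1
  -- (1)
  have hE1 : ∀ x, (x = c ∨ x = x₂ ∨ x = x₃) → ∀ r t,
      B (x (s r) - s r) (k t) = B (k r) (x (s t) - s t) := by
    intro x hx r t
    refine q8_E1 hS hb P hP hA (hcE x hx) (hkK r) (hkK t) ?_ (hsA x (hcE x hx) hx r t)
    rw [← hss, ← hss]
    exact hsA' x (hcE x hx) hx r t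
  -- (2)
  have hE2 : ∀ x, (x = c ∨ x = x₂ ∨ x = x₃) → ∀ t, B (x (e 0) - e 0) (k t) = 0 := by
    intro x hx r
    have h1 := hE1 x hx 0 r
    have h2 : B (k 0) (x (s r) - s r) = 0 := by
      have h3 := q8_UK hS hb hk0 (hL x (hcE x hx) (s r))
      rw [LinearMap.map_sub₂, LinearMap.map_smul₂, hw x hx, smul_zero, sub_zero] at h3
      exact h3
    rw [h2] at h1
    have h4 := q8_UK hS hb ((hcE x hx).2.2 _ (hs 0).2) (hkK r)
    have h5 : x (s 0 - e 0) - (s 0 - e 0) = (x (s 0) - s 0) - (x (e 0) - e 0) := by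
      rw [map_sub]; abel
    rw [h5, LinearMap.map_sub₂, h1, zero_sub, neg_eq_zero] at h4
    exact h4
  have hE3 : ∀ l t, B (c (e l) - e l) (k t) = 0 := by
    intro l r
    fin_cases l
    · exact hE2 c (Or.inl rfl) r
    · have h1 := q8_UK hS hb D.d20 (hkK r)
      rw [LinearMap.map_sub₂, hE2 x₂ (Or.inr (Or.inl rfl)), zero_sub, neg_eq_zero] at h1
      exact h1
    · have h1 := q8_UK hS hb D.d30 (hkK r)
      rw [LinearMap.map_sub₂, hE2 x₃ (Or.inr (Or.inr rfl)), zero_sub, neg_eq_zero] at h1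
      exact h1
  have hE4 : ∀ v t, B (c v - v) (k t) = 0 := by
    intro v r
    obtain ⟨l, hl⟩ := hsum c D.hc v
    have h1 := q8_UK hS hb hl (hkK r)
    rw [LinearMap.map_sub₂, map_sum, LinearMap.sum_apply] at h1
    simp only [map_smul, LinearMap.smul_apply, hE3, smul_zero, Finset.sum_const_zero,
      sub_zero] at h1
    exact h1
  have hm : ∀ r, ∃ m : F, k r - m • w ∈ U := by
    intro r
    obtain ⟨v, m, h1⟩ := D.Kdec _ (hkK r)
    obtain ⟨n, hn⟩ := q8_pow hP D.hc.1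
    have hv : v ∈ K := by
      apply L5' hS hb 3 (hA c D.hc.1) hn D.hc.2.2 D.hc1
      intro z
      have h2 := q8_UK hS hb h1 (hL c D.hc z)
      rw [LinearMap.map_sub₂, LinearMap.map_sub₂, LinearMap.map_smul₂, D.wc, smul_zero,
        sub_zero, hS.symm (k r), hE4, zero_sub, neg_eq_zero] at h2
      exact h2
    refine ⟨m, ?_⟩
    have h3 : k r - m • w = (k r - (c v - v) - m • w) + (c v - v) := by abel
    rw [h3]
    exact U.add_mem h1 (D.hc.2.2 v hv)
  choose m' hm' using hm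
  -- (3)
  have hkw : ∀ r, ∀ z ∈ K, B (k r) z = m' r * B w z := by
    intro r z hz
    have h1 := q8_UK hS hb (hm' r) hz
    rw [LinearMap.map_sub₂, LinearMap.map_smul₂, sub_eq_zero, smul_eq_mul] at h1
    exact h1
  have hkk : ∀ r t, B (k r) (k t) = μ * (m' r * m' t) := by
    intro r t
    rw [hkw r _ (hkK t), hS.symm, hkw t _ D.wK, D.ww]
    ring
  have h3 : (3 : F) = 0 := by
    have := CharP.cast_eq_zero F 3
    exact_mod_cast this
  obtain ⟨c', hc'⟩ := q8_alt μ D.μ0 hS.two (fun r t => B (k r) (s t) - μ * (m' r * m' t)) (by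
    intro r t
    have h1 : B (s' r) (s' t) = 0 := hS.sing π' hπ'M _ (hs' r).1 _ (hs' t).1
    have h2 : B (s r) (s t) = 0 := hS.sing π hπ _ (hs r).1 _ (hs t).1
    rw [hss, hss, LinearMap.map_add₂, map_add, map_add, h2, hkk, hS.symm (s r)] at h1
    linear_combination h1 - μ * (m' r * m' t) * h3)
  obtain ⟨i, j, l, hdet⟩ := Q4 hF a ha m' c'
  obtain ⟨x, hx, hxc, hxA⟩ := comb hS hb hF P hP hA D.hc D.hx₂ D.hx₃ D.comm i j l
  have hwx : ∀ v, B w (x v - v) = 0 := by
    intro v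
    have h1 := q8_KU hb (hxc v) D.wK
    rw [map_sub, map_add, map_add, map_smul, map_smul, map_smul, hw c (Or.inl rfl),
      hw x₂ (Or.inr (Or.inl rfl)), hw x₃ (Or.inr (Or.inr rfl))] at h1
    simpa using h1
  have hval : ∀ r t, B (x (s' r)) (s t) =
      μ * (NN a 1 i j l r t + m' r * m' t + alt3 c' r t) := by
    intro r t
    have h1 : x (s' r) = s r + k r + (x (s r) - s r) + (x (k r) - k r) := by
      rw [hss, map_add]; abel
    have h2 : B (s r) (s t) = 0 := hS.sing π hπ _ (hs r).1 _ (hs t).1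
    have h4 := q8_star hS hb P hP hA hx (hkK r) (s t)
    rw [hkw r _ (hL x hx (s t)), hwx, mul_zero, neg_zero] at h4
    have h5 : AA B x (s r) (s t) = 0 := by
      rw [hxA, hsA c D.hc (Or.inl rfl), hsA x₂ D.hx₂ (Or.inr (Or.inl rfl)),
        hsA x₃ D.hx₃ (Or.inr (Or.inr rfl))]
      ring
    have h6 := gram_comb' hS hb P hP hA D hx hxc s (fun r => (hs r).2) r t
    have h7 : (![0, -(l * 0), j * 0 + l * 0] : Fin 3 → F) r = 0 := by
      fin_cases r <;> simp
    rw [h7] at h6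
    unfold AA at h5
    have h8 := hc' r t
    rw [h1, LinearMap.map_add₂, LinearMap.map_add₂, LinearMap.map_add₂, h2, h4]
    linear_combination h5 + h6 + h8
  have hind : ∀ l : Fin 3 → F, ∑ r, l r • s r = 0 → l = 0 := by
    intro l hl
    apply D.eK
    have h1 : ∑ r, l r • e r = ∑ r, l r • s r - ∑ r, l r • (s r - e r) := by
      simp only [smul_sub, Finset.sum_sub_distrib]
      abel
    rw [h1, hl]
    exact K.sub_mem K.zero_mem (K.sum_mem fun r _ => K.smul_mem _ (hs r).2)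
  have hind' : ∀ l : Fin 3 → F, ∑ r, l r • x (s' r) = 0 → l = 0 := by
    intro l hl
    have h0 : x (∑ r, l r • s' r) = 0 := by
      rw [map_sum]
      simp only [map_smul]
      exact hl
    have h0' : ∑ r, l r • s' r = 0 := (map_eq_zero_iff x x.injective).1 h0
    apply D.eK
    have h1 : ∑ r, l r • e r = ∑ r, l r • s' r - ∑ r, l r • (s' r - e r) := by
      simp only [smul_sub, Finset.sum_sub_distrib]
      abel
    rw [h1, h0']
    exact K.sub_mem K.zero_mem (K.sum_mem fun r _ => K.smul_mem _ (hs' r).2)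
  have hne := opp_det hS ((hA x hx.1).pres π' hπ'M) hπ (hπ'orb x hx) (fun r => x (s' r)) s
    (fun r => Submodule.mem_map_of_mem (hs' r).1) (fun r => (hs r).1) hind' hind
  apply hne
  have h9 : (fun r r' => B (x (s' r)) (s r')) =
      fun r t => μ * (NN a 1 i j l r t + m' r * m' t + alt3 c' r t) := by
    funext r t
    exact hval r t
  rw [h9, q8_det μ (fun r t => NN a 1 i j l r t + m' r * m' t + alt3 c' r t), hdet, mul_zero]

end Pool.Agent.LibBT65
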