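import Pool.Agent.LibBT65.D5
import Pool.Agent.LibBT65.Q6
import Pool.Agent.LibBT65.Q6c
import Pool.Agent.LibBT65.Q8

set_option autoImplicit false

/-!
Row Q9. The field with three elements, in the model (ADAPT the proven files D2 and D3; copy their private
lemmas with new names).

`pgroup_bound_three`: as `pgroup_bound` of D2 (`U`, `K`, `Base`, `Aut`); if `|P| > 27` then `Q6`, `Q6c`
(with `sqDisc`), `Q8` give a contradiction.
`linear_bound_three`: `3^k ∣ |G|` gives a subgroup of order `3^k ≤ 27`, so `3^k ∣ 27`.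
`main1_three`: `G` any group of symmetries: all `σ` are the identity (`Nat.card (F ≃+* F) = 1` by
`card_ringAut` with `h = 1`), so `G` is linear; then as `main1` of D3.
`main3_three`: as `main3` of D3: `81 ∣ |H|`.
-/

namespace Pool.Agent.LibBT65

open Module

private theorem Q9_Q_pow {F : Type*} [Field F] (g : Sp F ≃ₗ[F] Sp F) (c : F)
    (hc : ∀ v, Q (g v) = c * Q v) (n : ℕ) : ∀ v, Q ((g ^ n) v) = c ^ n * Q v := by
  induction n with
  | zero =>
    intro v
    rw [pow_zero, pow_zero, one_mul]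
    rfl
  | succ n ih =>
    intro v
    have h1 : (g ^ (n + 1)) v = g ((g ^ n) v) := by
      rw [pow_succ']
      rfl
    rw [h1, hc, ih, pow_succ']
    ring

private theorem Q9_one {F : Type*} [Field F] (p : ℕ) [Fact p.Prime] [CharP F p]
    (g : Sp F ≃ₗ[F] Sp F) (k : ℕ) (hg : g ^ p ^ k = 1) (c : F) (hc : ∀ v, Q (g v) = c * Q v) :
    c = 1 := by
  have h1 := Q9_Q_pow g c hc (p ^ k) (Pi.single 0 1, Pi.single 0 1)
  rw [hg] at h1
  have h2 : Q ((Pi.single 0 1, Pi.single 0 1) : Sp F) = 1 := by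
    unfold Q
    simp [Pi.single_apply]
  have h3 : Q ((1 : Sp F ≃ₗ[F] Sp F) ((Pi.single 0 1, Pi.single 0 1) : Sp F)) = 1 := h2
  rw [h3, h2, mul_one] at h1
  have h4 : (c - 1) ^ p ^ k = 0 := by
    rw [sub_pow_char_pow, one_pow, ← h1, sub_self]
  have h5 : c - 1 = 0 := pow_eq_zero_iff (pow_ne_zero k (Fact.out : p.Prime).ne_zero) |>.mp h4
  exact sub_eq_zero.mp h5

private theorem Q9_ne {F : Type*} [Field F] (p : ℕ) [Fact p.Prime] [CharP F p] (n : ℕ)
    (h0 : 0 < n) (h1 : n < p) : (n : F) ≠ 0 := by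
  intro h
  have h2 : p ∣ n := (CharP.cast_eq_zero_iff F p n).mp h
  exact absurd (Nat.le_of_dvd h0 h2) (by omega)

/-- the automorphism of a semilinear map is unique -/
private theorem Q9_uniq {F : Type*} [Field F] (g : Equiv.Perm (Sp F))
    (hadd : ∀ v w, g (v + w) = g v + g w) {f f' : F → F}
    (h : ∀ (a : F) (v : Sp F), g (a • v) = f a • g v)
    (h' : ∀ (a : F) (v : Sp F), g (a • v) = f' a • g v) (a : F) : f a = f' a := by
  have h0 : g 0 = 0 := by
    have h1 := hadd 0 0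
    rw [add_zero] at h1
    have h2 : g 0 + g 0 = g 0 + 0 := by rw [add_zero]; exact h1.symm
    exact add_left_cancel h2
  obtain ⟨v, hv⟩ : ∃ v : Sp F, v ≠ 0 := exists_ne 0
  have hgv : g v ≠ 0 := by
    intro h1
    rw [← h0] at h1
    exact hv (g.injective h1)
  have h1 : (f a - f' a) • g v = 0 := by
    rw [sub_smul, ← h a v, ← h' a v, sub_self]
  rcases smul_eq_zero.1 h1 with h2 | h2
  · exact sub_eq_zero.1 h2
  · exact absurd h2 hgv

private theorem Q9_pres {F : Type*} [Field F] {M : Finset (Submodule F (Sp F))}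
    {g : Equiv.Perm (Sp F)} (hg : Symmetry M g) (φ : Sp F ≃ₗ[F] Sp F) (hφ : ∀ v, φ v = g v)
    (π : Submodule F (Sp F)) (hπ : π ∈ M) : π.map (φ : Sp F →ₗ[F] Sp F) ∈ M := by
  obtain ⟨π', hπ', h⟩ := hg.pres π hπ
  have h1 : π.map (φ : Sp F →ₗ[F] Sp F) = π' := by
    ext w
    constructor
    · rintro ⟨v, hv, rfl⟩
      have h2 := (h v).1 hv
      rw [← hφ] at h2
      exact h2
    · intro hw
      refine ⟨φ.symm w, ?_, φ.apply_symm_apply w⟩
      have h2 : g (φ.symm w) = w := by rw [← hφ, φ.apply_symm_apply]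
      exact (h _).2 (by rw [h2]; exact hw)
  rw [h1]
  exact hπ'

/-- the permutation of a linear automorphism -/
private def Q9_perm (F : Type*) [Field F] : (Sp F ≃ₗ[F] Sp F) →* Equiv.Perm (Sp F) where
  toFun φ := φ.toEquiv
  map_one' := rfl
  map_mul' _ _ := rfl

theorem pgroup_bound_three {F : Type*} [Field F] [Fintype F] [CharP F 3]
    (hF : Fintype.card F = 3)
    {M : Finset (Submodule F (Sp F))} (hM : BLTSystem M)
    (P : Subgroup (Sp F ≃ₗ[F] Sp F)) (hP : IsPGroup 3 P)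
    (hsim : ∀ g ∈ P, ∃ c : F, ∀ v, Q (g v) = c * Q v)
    (hpres : ∀ g ∈ P, ∀ π ∈ M, π.map ((g : Sp F ≃ₗ[F] Sp F) : Sp F →ₗ[F] Sp F) ∈ M) :
    Nat.card P ≤ 27 := by
  classical
  have two : (2 : F) ≠ 0 := by
    have := Q9_ne (F := F) 3 2 (by norm_num) (by norm_num)
    exact_mod_cast this
  have hS := sys two hM
  have hQ : ∀ g ∈ P, ∀ v, Q (g v) = Q v := by
    intro g hg v
    obtain ⟨c, hc⟩ := hsim g hg
    obtain ⟨k, hk⟩ := hP ⟨g, hg⟩
    have hk' : g ^ 3 ^ k = 1 := by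
      have := congrArg Subtype.val hk
      simpa using this
    have hc1 := Q9_one 3 g k hk' c hc
    rw [hc v, hc1, one_mul]
  have hB : ∀ g ∈ P, ∀ v w, bil F (g v) (g w) = bil F v w := by
    intro g hg v w
    rw [bil_apply, bil_apply, polar_eq, polar_eq, ← map_add, hQ g hg, hQ g hg, hQ g hg]
  letI act : MulAction P {π : Submodule F (Sp F) // π ∈ M} :=
    { smul := fun g π => ⟨π.1.map ((g.1 : Sp F ≃ₗ[F] Sp F) : Sp F →ₗ[F] Sp F),
        hpres g.1 g.2 π.1 π.2⟩
      one_smul := by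
        intro π
        apply Subtype.ext
        exact Submodule.map_id π.1
      mul_smul := by
        intro a b π
        apply Subtype.ext
        have h : ((a * b : P).1 : Sp F →ₗ[F] Sp F) =
            (a.1 : Sp F →ₗ[F] Sp F) ∘ₗ (b.1 : Sp F →ₗ[F] Sp F) := rfl
        change Submodule.map ((a * b : P).1 : Sp F →ₗ[F] Sp F) π.1 = _
        rw [h, Submodule.map_comp]
        rfl }
  have hcard : Nat.card {π : Submodule F (Sp F) // π ∈ M} = Fintype.card F ^ 4 + 1 := by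
    rw [← hM.card]
    simp
  obtain ⟨n, -, hn⟩ := FiniteField.card F 3
  have hndvd : ¬ 3 ∣ Nat.card {π : Submodule F (Sp F) // π ∈ M} := by
    rw [hcard]
    intro h
    have h1 : 3 ∣ Fintype.card F ^ 4 := by
      rw [hn, ← pow_mul]
      exact dvd_pow_self 3 (by have := n.pos; positivity)
    have h2 : 3 ∣ 1 := (Nat.dvd_add_right h1).mp h
    exact absurd (Nat.dvd_one.mp h2) (by norm_num)
  obtain ⟨U, hU⟩ := hP.nonempty_fixed_point_of_prime_not_dvd_card
    {π : Submodule F (Sp F) // π ∈ M} hndvd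
  obtain ⟨K, hK⟩ : ∃ K : Submodule F (Sp F), ∀ v, v ∈ K ↔ ∀ u ∈ U.1, bil F v u = 0 := by
    refine ⟨{ carrier := {v | ∀ u ∈ U.1, bil F v u = 0}
              add_mem' := ?_
              zero_mem' := ?_
              smul_mem' := ?_ }, fun v => Iff.rfl⟩
    · intro a b ha hb u hu
      rw [map_add, LinearMap.add_apply, ha u hu, hb u hu, add_zero]
    · intro u _
      rw [map_zero, LinearMap.zero_apply]
    · intro t a ha u hu
      rw [map_smul, LinearMap.smul_apply, ha u hu, smul_zero]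
  have hb : Base (bil F) M U.1 K := ⟨U.2, hK⟩
  have hA : ∀ g ∈ P, Aut (bil F) M U.1 g := by
    intro g hg
    refine ⟨hB g hg, hpres g hg, ?_⟩
    have h := hU ⟨g, hg⟩
    exact congrArg Subtype.val h
  by_contra hlt
  obtain ⟨c, x₂, x₃, e, w, μ, κ, a, b, m, n, D⟩ := Q6 hS hb hF P hP hA (not_le.1 hlt)
  obtain ⟨rfl, rfl, rfl, rfl, ha⟩ := Q6c hS hb hF (sqDisc two hM hb) P hP hA D
  exact Q8 hS hb hF P hP hA D ha

private theorem Q9_linear {F : Type*} [Field F] [Fintype F] [CharP F 3]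
    (hF : Fintype.card F = 3)
    {M : Finset (Submodule F (Sp F))} (hM : BLTSystem M)
    (G : Subgroup (Sp F ≃ₗ[F] Sp F))
    (hsim : ∀ g ∈ G, ∃ c : F, ∀ v, Q (g v) = c * Q v)
    (hpres : ∀ g ∈ G, ∀ π ∈ M, π.map ((g : Sp F ≃ₗ[F] Sp F) : Sp F →ₗ[F] Sp F) ∈ M)
    (k : ℕ) (hk : 3 ^ k ∣ Nat.card G) : 3 ^ k ∣ 27 := by
  have : Finite (Sp F ≃ₗ[F] Sp F) :=
    Finite.of_injective (fun g : Sp F ≃ₗ[F] Sp F => (g : Sp F → Sp F)) DFunLike.coe_injective
  obtain ⟨H, hH⟩ := Sylow.exists_subgroup_card_pow_prime 3 hk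
  have hcard : Nat.card (H.map G.subtype) = 3 ^ k := by
    rw [Subgroup.card_map_of_injective G.subtype_injective, hH]
  have hle := pgroup_bound_three hF hM (H.map G.subtype) (IsPGroup.of_card hcard)
    (fun g hg => hsim g (by
      obtain ⟨x, -, rfl⟩ := hg
      exact x.2))
    (fun g hg => hpres g (by
      obtain ⟨x, -, rfl⟩ := hg
      exact x.2))
  rw [hcard] at hle
  have h27 : (27 : ℕ) = 3 ^ 3 := by norm_num
  rw [h27] at hle ⊢
  exact pow_dvd_pow 3 ((Nat.pow_le_pow_iff_right (by norm_num)).mp hle)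

theorem main1_three {F : Type*} [Field F] [Fintype F] [CharP F 3] (hF : Fintype.card F = 3)
    {M : Finset (Submodule F (Sp F))} (hM : BLTSystem M)
    (G : Subgroup (Equiv.Perm (Sp F))) (hG : ∀ g ∈ G, Symmetry M g)
    (k : ℕ) (hk : 3 ^ k ∣ Nat.card G) : 3 ^ k ∣ 27 := by
  have hσ1 : ∀ σ : F ≃+* F, σ = 1 := by
    have h1 : Nat.card (F ≃+* F) = 1 := card_ringAut 3 (by rw [hF, pow_one])
    have h2 : Subsingleton (F ≃+* F) := (Nat.card_eq_one_iff_unique.1 h1).1
    exact fun σ => Subsingleton.elim _ _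
  have hlin : ∀ g ∈ G, ∀ (a : F) (v : Sp F), g (a • v) = a • g v := by
    intro g hg a v
    obtain ⟨σ, hσ, -⟩ := (hG g hg).semi
    rw [hσ a v, hσ1 σ]
    rfl
  let G' : Subgroup (Sp F ≃ₗ[F] Sp F) := G.comap (Q9_perm F)
  have hG' : ∀ φ, φ ∈ G' ↔ Q9_perm F φ ∈ G := fun φ => Iff.rfl
  have hcard : Nat.card G' = Nat.card G := by
    refine Nat.card_eq_of_bijective (fun φ : G' => (⟨Q9_perm F φ.1, φ.2⟩ : G)) ⟨?_, ?_⟩
    · intro φ ψ h
      apply Subtype.ext
      ext1 v
      have h1 : Q9_perm F φ.1 = Q9_perm F ψ.1 := congrArg Subtype.val h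
      exact Equiv.congr_fun h1 v
    · rintro ⟨g, hg⟩
      let φ : Sp F ≃ₗ[F] Sp F :=
        { g with
          map_add' := (hG g hg).add
          map_smul' := fun a v => hlin g hg a v }
      have hφ : Q9_perm F φ = g := by
        ext1 v
        rfl
      exact ⟨⟨φ, by rw [hG', hφ]; exact hg⟩, Subtype.ext hφ⟩
  refine Q9_linear hF hM G' ?_ ?_ k (by rw [hcard]; exact hk)
  · intro φ hφ
    have h1 := hG _ ((hG' φ).1 hφ)
    obtain ⟨σ, hσ, c, hc⟩ := h1.semi
    refine ⟨c, fun v => ?_⟩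
    have h2 : ∀ a, σ a = a := fun a =>
      Q9_uniq (Q9_perm F φ) h1.add (f := σ) (f' := fun a => a) hσ (hlin _ ((hG' φ).1 hφ)) a
    have h3 := hc v
    rw [h2] at h3
    exact h3
  · intro φ hφ π hπ
    exact Q9_pres (hG _ ((hG' φ).1 hφ)) φ (fun v => rfl) π hπ

theorem main3_three {F : Type*} [Field F] [Fintype F] [CharP F 3] (hF : Fintype.card F = 3)
    {M : Finset (Submodule F (Sp F))} (hM : BLTSystem M)
    (G : Subgroup (Equiv.Perm (Sp F))) (hG : ∀ g ∈ G, Symmetry M g)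
    (U : Submodule F (Sp F)) (hU : U ∈ M)
    (htr : ∀ π ∈ M, π ≠ U → ∀ π' ∈ M, π' ≠ U →
      ∃ g ∈ G, (∀ v, v ∈ U ↔ g v ∈ U) ∧ ∀ v, v ∈ π ↔ g v ∈ π') : False := by
  classical
  let H : Subgroup (Equiv.Perm (Sp F)) :=
    { carrier := {g | g ∈ G ∧ ∀ v, v ∈ U ↔ g v ∈ U}
      mul_mem' := by
        rintro a b ⟨ha, ha'⟩ ⟨hb, hb'⟩
        exact ⟨G.mul_mem ha hb, fun v => (hb' v).trans (ha' _)⟩
      one_mem' := ⟨G.one_mem, fun v => Iff.rfl⟩
      inv_mem' := by
        rintro a ⟨ha, ha'⟩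
        refine ⟨G.inv_mem ha, fun v => ?_⟩
        have h1 := ha' (a⁻¹ v)
        have h2 : a (a⁻¹ v) = v := a.apply_symm_apply v
        rw [h2] at h1
        exact h1.symm }
  have hH : ∀ g ∈ H, g ∈ G ∧ ∀ v, v ∈ U ↔ g v ∈ U := fun g hg => hg
  have hMcard : (M.erase U).card = Fintype.card F ^ 4 := by
    rw [Finset.card_erase_of_mem hU, hM.card, Nat.add_sub_cancel]
  have hpos : 0 < (M.erase U).card := by
    rw [hMcard]
    exact pow_pos Fintype.card_pos 4
  obtain ⟨π₀, hπ₀⟩ := Finset.card_pos.1 hpos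
  rw [Finset.mem_erase] at hπ₀
  let f : Submodule F (Sp F) → Set (Sp F) := fun π => (π : Set (Sp F))
  have hf : Function.Injective f := SetLike.coe_injective
  have himage : ∀ (g : Equiv.Perm (Sp F)) (π π' : Submodule F (Sp F)),
      (∀ v, v ∈ π ↔ g v ∈ π') → g '' (f π) = f π' := by
    intro g π π' hg
    ext w
    constructor
    · rintro ⟨v, hv, rfl⟩
      exact (hg v).1 hv
    · intro hw
      refine ⟨g.symm w, (hg _).2 ?_, g.apply_symm_apply w⟩
      rw [g.apply_symm_apply]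
      exact hw
  let act : MulAction H (Set (Sp F)) :=
    { smul := fun g A => (g : Equiv.Perm (Sp F)) '' A
      one_smul := fun A => by
        change ((1 : H) : Equiv.Perm (Sp F)) '' A = A
        simp
      mul_smul := fun g g' A => by
        change ((g * g' : H) : Equiv.Perm (Sp F)) '' A =
          (g : Equiv.Perm (Sp F)) '' ((g' : Equiv.Perm (Sp F)) '' A)
        rw [Set.image_image]
        rfl }
  have hsmul : ∀ (g : H) (A : Set (Sp F)), g • A = (g : Equiv.Perm (Sp F)) '' A := fun g A => rfl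
  have horb : MulAction.orbit H (f π₀) = f '' (M.erase U : Set (Submodule F (Sp F))) := by
    ext A
    rw [MulAction.mem_orbit_iff]
    constructor
    · rintro ⟨g, rfl⟩
      obtain ⟨hgG, hgU⟩ := hH g.1 g.2
      obtain ⟨π', hπ', h1⟩ := (hG g.1 hgG).pres π₀ hπ₀.2
      refine ⟨π', ?_, ?_⟩
      · rw [Finset.coe_erase]
        refine ⟨hπ', ?_⟩
        intro h2
        have h2' : π' = U := h2
        apply hπ₀.1
        ext v
        rw [h1 v, h2', ← hgU v]
      · rw [hsmul]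
        exact (himage g.1 π₀ π' h1).symm
    · rintro ⟨π', hπ', rfl⟩
      rw [Finset.coe_erase] at hπ'
      obtain ⟨g, hg, hgU, h1⟩ := htr π₀ hπ₀.2 hπ₀.1 π' hπ'.1 hπ'.2
      refine ⟨⟨g, hg, hgU⟩, ?_⟩
      rw [hsmul]
      exact himage g π₀ π' h1
  have hncard : (MulAction.orbit H (f π₀)).ncard = Fintype.card F ^ 4 := by
    rw [horb, Set.ncard_image_of_injective _ hf, Set.ncard_coe_finset, hMcard]
  have hdvd : Fintype.card F ^ 4 ∣ Nat.card H := by
    rw [← hncard, ← MulAction.index_stabilizer]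
    exact Subgroup.index_dvd_card _
  have hk : 3 ^ 4 ∣ Nat.card H := by
    rw [hF] at hdvd
    exact hdvd
  have h1 := main1_three hF hM H (fun g hg => hG g (hH g hg).1) 4 hk
  norm_num at h1

end Pool.Agent.LibBT65
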