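import Mathlib

set_option autoImplicit false

/-!
Row R1 (ONLY MATHLIB). Two facts on elements of order prime to the characteristic.

`R1`: `N = g - 1` (as an endomorphism) satisfies `N V ≤ K`, `N K ≤ U`, `N U = 0`, so `N^3 = 0`, and
`1 = g^r = (1 + N)^r = 1 + r N + (r choose 2) N^2` (`add_pow`, or by induction: `g^n v = v + n N v +
(n choose 2) N (N v)`). Apply `N`: `r N^2 = 0`, so `N^2 = 0`, so `r N = 0`, `N = 0`.
`R2`: the order of `g` divides `r` and the order of `X ≃ₗ[F] X`, which is `∏ i < n, (q^n - q^i)`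
(`Matrix.card_GL_field` after the choice of a basis; compare `card_le_gl` in file A6 of this library,
which is proven, for the transport), `q^n - q^i = q^i (q^(n-i) - 1)`, prime to `r`. So the order is 1.
-/

namespace Pool.Agent.LibBT65

open Module

private theorem R1_aux {F V : Type*} [Field F] [AddCommGroup V] [Module F V] (g : V ≃ₗ[F] V) {r : ℕ}
    (hr : (r : F) ≠ 0) (hg : g ^ r = 1) {v x : V} (h1 : g v = v + x) (h2 : g x = x) : x = 0 := by
  have h3 : ∀ n : ℕ, (g ^ n) v = v + (n : F) • x := by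
    intro n
    induction n with
    | zero => simp
    | succ n ih =>
      rw [pow_succ', LinearEquiv.mul_apply, ih, map_add, map_smul, h1, h2]
      push_cast
      rw [add_smul, one_smul]
      abel
  have h4 := h3 r
  rw [hg, LinearEquiv.coe_one, id_eq] at h4
  have h5 : (r : F) • x = 0 := left_eq_add.1 h4
  exact (smul_eq_zero.1 h5).resolve_left hr

theorem R1 {F V : Type*} [Field F] [AddCommGroup V] [Module F V] (g : V ≃ₗ[F] V) {r : ℕ}
    (hr : (r : F) ≠ 0) (hg : g ^ r = 1) (U K : Submodule F V) (h1 : ∀ v, g v - v ∈ K)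
    (h2 : ∀ k ∈ K, g k - k ∈ U) (h3 : ∀ u ∈ U, g u = u) : g = 1 := by
  apply LinearEquiv.ext
  intro v
  have hx : g (g v - v) = g v - v := by
    have hy : g (g v - v) - (g v - v) = 0 := by
      refine R1_aux g hr hg (v := g v - v) ?_ (h3 _ (h2 _ (h1 v)))
      abel
    exact sub_eq_zero.1 hy
  have h0 : g v - v = 0 := R1_aux g hr hg (v := v) (by abel) hx
  rw [LinearEquiv.coe_one, id_eq]
  exact sub_eq_zero.1 h0

theorem R2 {F X : Type*} [Field F] [Fintype F] [AddCommGroup X] [Module F X]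
    [FiniteDimensional F X] {n : ℕ} (hn : finrank F X = n) {r : ℕ} (hr : r.Prime)
    (hrp : ¬ r ∣ Fintype.card F)
    (hrn : ∀ j, 1 ≤ j → j ≤ n → ¬ r ∣ Fintype.card F ^ j - 1) (g : X ≃ₗ[F] X)
    (hg : g ^ r = 1) : g = 1 := by
  classical
  have hfr : finrank F X = finrank F (Fin n → F) := by
    rw [hn, Module.finrank_fintype_fun_eq_card, Fintype.card_fin]
  let e : X ≃ₗ[F] (Fin n → F) := LinearEquiv.ofFinrankEq _ _ hfr
  have hcard : Nat.card (X ≃ₗ[F] X) =
      ∏ i : Fin n, (Fintype.card F ^ n - Fintype.card F ^ (i : ℕ)) := by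
    rw [← Matrix.card_GL_field n]
    exact Nat.card_congr (((LinearMap.GeneralLinearGroup.generalLinearEquiv F X).symm.trans
      ((LinearMap.GeneralLinearGroup.congrLinearEquiv e).trans
        (Matrix.GeneralLinearGroup.toLin (n := Fin n) (R := F)).symm)).toEquiv)
  have hnd : ¬ r ∣ Nat.card (X ≃ₗ[F] X) := by
    rw [hcard, hr.prime.dvd_finsetProd_iff]
    rintro ⟨i, _, hi⟩
    have h1 : Fintype.card F ^ n = Fintype.card F ^ (i : ℕ) * Fintype.card F ^ (n - (i : ℕ)) := by
      rw [← pow_add]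
      congr 1
      have := i.isLt
      omega
    have h2 : Fintype.card F ^ n - Fintype.card F ^ (i : ℕ) =
        Fintype.card F ^ (i : ℕ) * (Fintype.card F ^ (n - (i : ℕ)) - 1) := by
      rw [h1, Nat.mul_sub, mul_one]
    rw [h2] at hi
    rcases hr.dvd_mul.1 hi with h3 | h3
    · exact hrp (hr.dvd_of_dvd_pow h3)
    · have := i.isLt
      exact hrn (n - (i : ℕ)) (by omega) (by omega) h3
  have h1 : orderOf g ∣ r := orderOf_dvd_of_pow_eq_one hg
  have h2 : orderOf g ∣ Nat.card (X ≃ₗ[F] X) := orderOf_dvd_natCard g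
  rcases (Nat.dvd_prime hr).1 h1 with h3 | h3
  · exact orderOf_eq_one_iff.1 h3
  · rw [h3] at h2
    exact absurd h2 hnd

end Pool.Agent.LibBT65
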