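import Pool.Agent.LibBT65.A1
import Pool.Agent.LibBT65.R1

set_option autoImplicit false

/-!
Row R3. An isometry `g` of prime order `r`, fixing the member `U`, is trivial when `r` does not divide
`q, q - 1, q^2 - 1, q^3 - 1, q^4 - 1`.

`fixU`: (only `r ∤ q, q-1, q^2-1, q^3-1`) `g` is trivial on `U` (`R2` for the restriction to `U`,
dimension 3) and `g v - v ∈ K` for all `v` (`B (g v - v) u = B v (g⁻¹ u - u) = 0` for `u ∈ U`).
`R3`: moreover `g` acts trivially on `K` modulo `U` (dimension 4, `R2` for `K ⧸ U'`,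
`U' = U.submoduleOf K`; `K_map`), then `R1` (`(r : F) ≠ 0`: `r` is a prime different from the
characteristic since it does not divide `q`).
-/

namespace Pool.Agent.LibBT65

open Module

variable {F V : Type*} [Field F] [Fintype F] [AddCommGroup V] [Module F V]
  {B : V →ₗ[F] V →ₗ[F] F} {M : Finset (Submodule F V)} {U K : Submodule F V}

theorem cast_ne {r : ℕ} (hr : r.Prime) (hrp : ¬ r ∣ Fintype.card F) : (r : F) ≠ 0 := by
  intro h0
  obtain ⟨p, hp⟩ := CharP.exists F
  obtain ⟨n, hpp, hn⟩ := FiniteField.card F p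
  have h1 : p ∣ r := (CharP.cast_eq_zero_iff F p r).1 h0
  have h2 : p = r := (Nat.prime_dvd_prime_iff_eq hpp hr).1 h1
  apply hrp
  rw [hn, h2]
  exact dvd_pow_self r n.ne_zero

omit [Fintype F] in
/-- the restriction to a subspace mapped to itself -/
private theorem R3_restr {g : V ≃ₗ[F] V} {X : Submodule F V} (hX : X.map (g : V →ₗ[F] V) = X) :
    ∃ e : X ≃ₗ[F] X, ∀ x, (e x : V) = g x :=
  ⟨(g.submoduleMap X).trans (LinearEquiv.ofEq _ _ hX), fun _ => rfl⟩

omit [Fintype F] in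
private theorem R3_pow {g : V ≃ₗ[F] V} {X : Submodule F V} {e : X ≃ₗ[F] X}
    (he : ∀ x, (e x : V) = g x) (n : ℕ) (x : X) : ((e ^ n) x : V) = (g ^ n) (x : V) := by
  induction n generalizing x with
  | zero => rfl
  | succ n ih =>
    rw [pow_succ, pow_succ, LinearEquiv.mul_apply, LinearEquiv.mul_apply, ih, he]

private theorem R3_one {g : V ≃ₗ[F] V} {X : Submodule F V} {e : X ≃ₗ[F] X}
    (he : ∀ x, (e x : V) = g x) {r : ℕ} (hgr : g ^ r = 1) : e ^ r = 1 := by
  refine LinearEquiv.ext fun x => Subtype.ext ?_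
  rw [R3_pow he, hgr]
  rfl

private theorem R3_fin (hS : Sys B M) : FiniteDimensional F V := by
  apply FiniteDimensional.of_finrank_pos
  rw [hS.dimV]
  norm_num

theorem fixU (hS : Sys B M) (hb : Base B M U K) {g : V ≃ₗ[F] V} (hg : Aut B M U g) {r : ℕ}
    (hr : r.Prime) (hgr : g ^ r = 1) (hrp : ¬ r ∣ Fintype.card F)
    (hrn : ∀ j, 1 ≤ j → j ≤ 3 → ¬ r ∣ Fintype.card F ^ j - 1) :
    (∀ u ∈ U, g u = u) ∧ ∀ v, g v - v ∈ K := by
  have hfin := R3_fin hS
  obtain ⟨e, he⟩ := R3_restr hg.fix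
  have h1 : e = 1 := R2 (hS.dim U hb.mem) hr hrp hrn e (R3_one he hgr)
  have hU : ∀ u ∈ U, g u = u := by
    intro u hu
    have h2 := he ⟨u, hu⟩
    rw [h1] at h2
    exact h2.symm
  refine ⟨hU, fun v => ?_⟩
  rw [hb.perp]
  intro u hu
  have h3 := hg.iso v u
  rw [hU u hu] at h3
  rw [map_sub, LinearMap.sub_apply, h3, sub_self]

theorem R3 (hS : Sys B M) (hb : Base B M U K) {g : V ≃ₗ[F] V} (hg : Aut B M U g) {r : ℕ}
    (hr : r.Prime) (hgr : g ^ r = 1) (hrp : ¬ r ∣ Fintype.card F)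
    (hrn : ∀ j, 1 ≤ j → j ≤ 4 → ¬ r ∣ Fintype.card F ^ j - 1) : g = 1 := by
  have hfin := R3_fin hS
  obtain ⟨hU, hK⟩ := fixU hS hb hg hr hgr hrp (fun j h1 h2 => hrn j h1 (by omega))
  refine R1 g (cast_ne hr hrp) hgr U K hK ?_ hU
  obtain ⟨e, he⟩ := R3_restr (K_map hS hb hg)
  have her := R3_one he hgr
  have hmap : (U.submoduleOf K).map (e : K →ₗ[F] K) = U.submoduleOf K := by
    ext x
    constructor
    · rintro ⟨y, hy, rfl⟩
      show ((e y : K) : V) ∈ U
      have hy' : (y : V) ∈ U := hy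
      rw [he, hU _ hy']
      exact hy'
    · intro hx
      have hx' : (x : V) ∈ U := hx
      refine ⟨x, hx, Subtype.ext ?_⟩
      show ((e x : K) : V) = x
      rw [he, hU _ hx']
  have hdim : finrank F (K ⧸ U.submoduleOf K) = 4 := by
    have h1 := Submodule.finrank_quotient_add_finrank (U.submoduleOf K)
    have h2 : finrank F (U.submoduleOf K) = 3 := by
      rw [← hS.dim U hb.mem]
      exact (Submodule.submoduleOfEquivOfLe (U_le_K hS hb)).finrank_eq
    rw [K_dim hS hb, h2] at h1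
    omega
  let f : (K ⧸ U.submoduleOf K) ≃ₗ[F] (K ⧸ U.submoduleOf K) :=
    Submodule.Quotient.equiv _ _ e hmap
  have hf : ∀ x : K, f (Submodule.Quotient.mk x) = Submodule.Quotient.mk (e x) := fun x => rfl
  have hfp : ∀ (n : ℕ) (x : K), (f ^ n) (Submodule.Quotient.mk x) =
      Submodule.Quotient.mk ((e ^ n) x) := by
    intro n
    induction n with
    | zero => intro x; rfl
    | succ n ih =>
      intro x
      rw [pow_succ, pow_succ, LinearEquiv.mul_apply, LinearEquiv.mul_apply, hf, ih]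
  have hfr : f ^ r = 1 := by
    refine LinearEquiv.ext fun y => ?_
    obtain ⟨x, rfl⟩ := Submodule.Quotient.mk_surjective _ y
    rw [hfp, her]
    rfl
  have hf1 : f = 1 := R2 hdim hr hrp hrn f hfr
  intro k hk
  have h1 := hf ⟨k, hk⟩
  rw [hf1] at h1
  have h2 : (Submodule.Quotient.mk (e ⟨k, hk⟩) : K ⧸ U.submoduleOf K) =
      Submodule.Quotient.mk ⟨k, hk⟩ := h1.symm
  rw [Submodule.Quotient.eq] at h2
  have h3 : ((e ⟨k, hk⟩ - ⟨k, hk⟩ : K) : V) ∈ U := h2
  rw [Submodule.coe_sub, he] at h3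
  exact h3

end Pool.Agent.LibBT65
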