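import Mathlib

set_option autoImplicit false

/-!
Row R4 (ONLY MATHLIB). Fixed members.

`R4`: the cyclic group generated by `g` is an `r`-group acting on the finite set of the members
(`Submodule.map`), `IsPGroup.card_modEq_card_fixedPoints`. Or let `Multiplicative (ZMod r)` act, or use
`Equiv.Perm.card_fixedPoints_modEq` for the permutation `π ↦ π.map g` of `{π // π ∈ M}` (its `r`-th
power is 1).
`R4s`: if the `r`-group `P` acts on `M` and no element `≠ 1` fixes a member then `|P| ∣ |M|`: all
orbits have `|P|` elements.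
-/

namespace Pool.Agent.LibBT65

open Module

theorem R4 {F V : Type*} [Field F] [AddCommGroup V] [Module F V] [Finite V] (g : V ≃ₗ[F] V) {r : ℕ}
    (hr : r.Prime) (hg : g ^ r = 1) (M : Finset (Submodule F V))
    (hpres : ∀ π ∈ M, π.map (g : V →ₗ[F] V) ∈ M) :
    Nat.card {π : Submodule F V // π ∈ M ∧ π.map (g : V →ₗ[F] V) = π} ≡ M.card [MOD r] := by
  classical
  haveI : Fact r.Prime := ⟨hr⟩
  let f : Function.End {π : Submodule F V // π ∈ M} :=
    fun π => ⟨π.1.map (g : V →ₗ[F] V), hpres π.1 π.2⟩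
  have hpow : ∀ (n : ℕ) (π : {π : Submodule F V // π ∈ M}),
      ((f ^ n) π).1 = π.1.map ((g ^ n : V ≃ₗ[F] V) : V →ₗ[F] V) := by
    intro n
    induction n with
    | zero =>
      intro π
      show π.1 = _
      ext v
      simp
    | succ n ih =>
      intro π
      rw [pow_succ']
      show ((f ^ n) π).1.map (g : V →ₗ[F] V) = _
      rw [ih π, ← Submodule.map_comp, pow_succ']
      rfl
  have hf : f ^ r ^ 1 = 1 := by
    rw [pow_one]
    funext π
    apply Subtype.ext
    rw [hpow, hg]
    show _ = π.1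
    ext v
    simp
  have h := Equiv.Perm.card_fixedPoints_modEq hf
  rw [Fintype.card_coe] at h
  have h2 : Nat.card {π : Submodule F V // π ∈ M ∧ π.map (g : V →ₗ[F] V) = π} =
      Fintype.card (Function.fixedPoints f) := by
    rw [← Nat.card_eq_fintype_card]
    refine Nat.card_congr
      { toFun := fun π => ⟨⟨π.1, π.2.1⟩, Subtype.ext π.2.2⟩
        invFun := fun π => ⟨π.1.1, π.1.2, congrArg Subtype.val π.2⟩
        left_inv := fun π => rfl
        right_inv := fun π => rfl }
  rw [h2]
  exact h.symm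

theorem R4s {F V : Type*} [Field F] [AddCommGroup V] [Module F V] [Finite V]
    (P : Subgroup (V ≃ₗ[F] V)) (M : Finset (Submodule F V))
    (hpres : ∀ g ∈ P, ∀ π ∈ M, π.map ((g : V ≃ₗ[F] V) : V →ₗ[F] V) ∈ M)
    (hfree : ∀ g ∈ P, ∀ π ∈ M, π.map ((g : V ≃ₗ[F] V) : V →ₗ[F] V) = π → g = 1) :
    Nat.card P ∣ M.card := by
  classical
  haveI : Finite (V ≃ₗ[F] V) :=
    Finite.of_injective (fun g : V ≃ₗ[F] V => (g : V → V)) DFunLike.coe_injective
  haveI : Fintype P := Fintype.ofFinite P
  letI : MulAction P {π : Submodule F V // π ∈ M} :=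
    { smul := fun g π => ⟨π.1.map (((g : P) : V ≃ₗ[F] V) : V →ₗ[F] V), hpres g.1 g.2 π.1 π.2⟩
      one_smul := fun π => Subtype.ext (by
        show π.1.map (((1 : P) : V ≃ₗ[F] V) : V →ₗ[F] V) = π.1
        ext v
        simp)
      mul_smul := fun g h π => Subtype.ext (by
        show π.1.map (((g * h : P) : V ≃ₗ[F] V) : V →ₗ[F] V) =
          (π.1.map (((h : P) : V ≃ₗ[F] V) : V →ₗ[F] V)).map (((g : P) : V ≃ₗ[F] V) : V →ₗ[F] V)
        rw [← Submodule.map_comp]
        rfl) }
  haveI : Fintype (MulAction.orbitRel.Quotient P {π : Submodule F V // π ∈ M}) :=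
    Fintype.ofFinite _
  have h := MulAction.sum_card_fixedBy_eq_card_orbits_mul_card_group P
    {π : Submodule F V // π ∈ M}
  rw [Finset.sum_eq_single (1 : P)] at h
  · have h1 : Fintype.card (MulAction.fixedBy {π : Submodule F V // π ∈ M} (1 : P)) = M.card := by
      rw [← Fintype.card_coe M]
      refine Fintype.card_congr
        { toFun := fun π => π.1
          invFun := fun π => ⟨π, one_smul P π⟩
          left_inv := fun π => rfl
          right_inv := fun π => rfl }
    rw [h1] at h
    rw [h, Nat.card_eq_fintype_card]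
    exact Dvd.intro_left _ rfl
  · intro g _ hg1
    rw [Fintype.card_eq_zero_iff]
    refine ⟨fun π => hg1 ?_⟩
    apply Subtype.ext
    exact hfree g.1 g.2 π.1.1 π.1.2 (congrArg Subtype.val π.2)
  · intro h1
    exact absurd (Finset.mem_univ _) h1

end Pool.Agent.LibBT65
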