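import Pool.Agent.LibBT65.D1
import Pool.Agent.LibBT65.R1

set_option autoImplicit false

/-!
Row R5. The case `r ∣ q^2 + 1`, `r` odd, in the model.

`count_pairs` (pure linear algebra): for `x = 0` all `y`; for `x ≠ 0` the functional `b x` is not 0, so
`|Y| / q` values of `y` (`q * |ker| = |Y|`).
`count_Q`: number of `v : Sp F` with `Q v = 0`: `X = Y = Fin 5 → F`, `q * count = q q^5 + (q^5-1) q^5`.
`R5`: `U, U'` are totally singular of dimension 3, opposite; `g` preserves `Q`, is trivial on `U` and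
on `U'`, `g^r = 1`, `r` an odd prime dividing `q^2 + 1`. Then `g = 1`. Suppose first that every fixed
vector of `g` lies in `U ⊔ U'`. The group of order `r` generated by `g` acts on the singular vectors:
their number is congruent mod `r` to the number of the fixed ones, which is the number of the
singular vectors of `U ⊔ U'`, i.e. of the pairs `(u, u')` with `polar u u' = 0`
(`Q (u + u') = polar u u'`), `q * count' = q q^3 + (q^3 - 1) q^3`. Modulo `r`, `q^2 = -1`:
`count = q^9 + q^5 - q^4 = 2 q - 1`, `count' = q^5 + q^3 - q^2 = 1`: so `q = 1` mod `r`, `q^2 = 1 = -1`,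
`r = 2`, contradiction. So there is a fixed vector `w ∉ U ⊔ U'`. Let `W` be the orthogonal space of
`U ⊔ U'`, dimension 4, `Sp F = U ⊕ U' ⊕ W` (the form is nondegenerate on `U ⊔ U'`); the component
`w' ∈ W` of `w` is `≠ 0` and fixed. `g` acts on `W / ⟨w'⟩`, dimension 3, trivially by `R2`
(`r ∤ q, q-1, q^2-1, q^3-1` follows from `r ∣ q^2+1`, `r` odd: `q^3 = -q`), so `g` is trivial on `W` by
`R1` applied to the restriction to `W` (with `K = U = ⟨w'⟩`) and `g = 1`.
-/

namespace Pool.Agent.LibBT65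

open Module

private theorem R5_ker {F Y : Type*} [Field F] [Fintype F] [AddCommGroup Y] [Module F Y]
    [Finite Y] (φ : Y →ₗ[F] F) (hφ : φ ≠ 0) :
    Fintype.card F * Nat.card {y : Y // φ y = 0} = Nat.card Y := by
  haveI : Module.Finite F Y := Module.Finite.of_finite
  have h1 := LinearMap.finrank_range_add_finrank_ker φ
  have h2 : LinearMap.range φ = ⊤ := by
    rw [LinearMap.range_eq_top]
    exact LinearMap.surjective hφ
  rw [h2, finrank_top, Module.finrank_self] at h1
  have h3 : Nat.card (LinearMap.ker φ) = Nat.card {y : Y // φ y = 0} :=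
    Nat.card_congr (Equiv.subtypeEquivRight fun y => LinearMap.mem_ker)
  rw [← h3, Module.natCard_eq_pow_finrank (K := F) (V := LinearMap.ker φ),
    Module.natCard_eq_pow_finrank (K := F) (V := Y), Nat.card_eq_fintype_card, ← h1, pow_add,
    pow_one]

theorem count_pairs {F X Y : Type*} [Field F] [Fintype F] [AddCommGroup X] [Module F X]
    [Finite X] [AddCommGroup Y] [Module F Y] [Finite Y] (b : X →ₗ[F] Y →ₗ[F] F)
    (hb : ∀ x, b x = 0 → x = 0) :
    Fintype.card F * Nat.card {z : X × Y // b z.1 z.2 = 0} =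
      Fintype.card F * Nat.card Y + (Nat.card X - 1) * Nat.card Y := by
  classical
  haveI : Fintype X := Fintype.ofFinite X
  have e1 : Nat.card {z : X × Y // b z.1 z.2 = 0} = ∑ x : X, Nat.card {y : Y // b x y = 0} := by
    rw [Nat.card_congr (Equiv.subtypeProdEquivSigmaSubtype fun (x : X) (y : Y) => b x y = 0),
      Nat.card_sigma]
  rw [e1, Finset.mul_sum, ← Finset.add_sum_erase Finset.univ _ (Finset.mem_univ (0 : X))]
  congr 1
  · congr 1
    refine Nat.card_congr
      { toFun := fun y => y.1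
        invFun := fun y => ⟨y, by rw [map_zero]; rfl⟩
        left_inv := fun y => rfl
        right_inv := fun y => rfl }
  · have h2 : ∀ x ∈ Finset.univ.erase (0 : X),
        Fintype.card F * Nat.card {y : Y // b x y = 0} = Nat.card Y := by
      intro x hx
      exact R5_ker (b x) (fun h => (Finset.ne_of_mem_erase hx) (hb x h))
    rw [Finset.sum_congr rfl h2, Finset.sum_const, Finset.card_erase_of_mem (Finset.mem_univ _),
      Finset.card_univ, Nat.card_eq_fintype_card (α := X), smul_eq_mul]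

/-- the action of `g` on the singular vectors -/
private theorem R5_mod {F : Type*} [Field F] [Fintype F] {r : ℕ} (hr : r.Prime)
    (g : Sp F ≃ₗ[F] Sp F) (hg : g ^ r = 1) (hQ : ∀ v, Q (g v) = Q v) :
    Nat.card {v : Sp F // Q v = 0} ≡ Nat.card {v : Sp F // Q v = 0 ∧ g v = v} [MOD r] := by
  classical
  haveI : Fact r.Prime := ⟨hr⟩
  let f : Function.End {v : Sp F // Q v = 0} := fun v => ⟨g v.1, by rw [hQ]; exact v.2⟩
  have hpow : ∀ (n : ℕ) (v : {v : Sp F // Q v = 0}), ((f ^ n) v).1 = (g ^ n) v.1 := by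
    intro n
    induction n with
    | zero => intro v; rfl
    | succ n ih =>
      intro v
      rw [pow_succ', pow_succ']
      show g (((f ^ n) v).1) = g ((g ^ n) v.1)
      rw [ih v]
  have hf : f ^ r ^ 1 = 1 := by
    rw [pow_one]
    funext v
    apply Subtype.ext
    rw [hpow, hg]
    rfl
  have h := Equiv.Perm.card_fixedPoints_modEq hf
  rw [← Nat.card_eq_fintype_card, ← Nat.card_eq_fintype_card] at h
  have h2 : Nat.card {v : Sp F // Q v = 0 ∧ g v = v} = Nat.card (Function.fixedPoints f) := by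
    refine Nat.card_congr
      { toFun := fun v => ⟨⟨v.1, v.2.1⟩, Subtype.ext v.2.2⟩
        invFun := fun v => ⟨v.1.1, v.1.2, congrArg Subtype.val v.2⟩
        left_inv := fun v => rfl
        right_inv := fun v => rfl }
  rw [h2]
  exact h

/-- number of singular vectors -/
private theorem R5_all {F : Type*} [Field F] [Fintype F] :
    Fintype.card F * Nat.card {v : Sp F // Q v = 0} =
      Fintype.card F * Fintype.card F ^ 5 + (Fintype.card F ^ 5 - 1) * Fintype.card F ^ 5 := by
  classical
  let b : (Fin 5 → F) →ₗ[F] (Fin 5 → F) →ₗ[F] F := LinearMap.mk₂ F (fun x y => ∑ i, x i * y i)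
    (by intro x x' y; simp only [← Finset.sum_add_distrib]; apply Finset.sum_congr rfl
        intro i _; simp; ring)
    (by intro t x y; simp only [smul_eq_mul, Finset.mul_sum]; apply Finset.sum_congr rfl
        intro i _; simp; ring)
    (by intro x y y'; simp only [← Finset.sum_add_distrib]; apply Finset.sum_congr rfl
        intro i _; simp; ring)
    (by intro t x y; simp only [smul_eq_mul, Finset.mul_sum]; apply Finset.sum_congr rfl
        intro i _; simp; ring)
  have hb : ∀ x, b x = 0 → x = 0 := by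
    intro x hx
    funext i
    have h := LinearMap.congr_fun hx (Pi.single i 1)
    have h' : ∑ j, x j * (Pi.single i (1 : F) : Fin 5 → F) j = 0 := h
    rw [Finset.sum_eq_single i] at h'
    · simpa using h'
    · intro j _ hj
      rw [Pi.single_eq_of_ne hj, mul_zero]
    · intro hi
      exact absurd (Finset.mem_univ i) hi
  have h := count_pairs b hb
  have hc : Nat.card (Fin 5 → F) = Fintype.card F ^ 5 := by
    rw [Nat.card_eq_fintype_card, Fintype.card_fun, Fintype.card_fin]
  rw [hc] at h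
  exact h

private theorem R5_inf {F : Type*} [Field F] (U U' : Submodule F (Sp F))
    (hs : ∀ v ∈ U, Q v = 0)
    (hopp : ∀ v ∈ U', (∀ w ∈ U, polar v w = 0) → v = 0) : ∀ v, v ∈ U → v ∈ U' → v = 0 := by
  intro v hv hv'
  apply hopp v hv'
  intro w hw
  rw [polar_eq, hs _ (U.add_mem hv hw), hs v hv, hs w hw]
  ring

/-- number of singular vectors of `U ⊔ U'` -/
private theorem R5_sub {F : Type*} [Field F] [Fintype F] (U U' : Submodule F (Sp F))
    (hU : finrank F U = 3) (hU' : finrank F U' = 3) (hs : ∀ v ∈ U, Q v = 0)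
    (hs' : ∀ v ∈ U', Q v = 0) (hopp : ∀ v ∈ U', (∀ w ∈ U, polar v w = 0) → v = 0) :
    Fintype.card F * Nat.card {v : Sp F // Q v = 0 ∧ v ∈ U ⊔ U'} =
      Fintype.card F * Fintype.card F ^ 3 + (Fintype.card F ^ 3 - 1) * Fintype.card F ^ 3 := by
  classical
  let b : U' →ₗ[F] U →ₗ[F] F := (bil F).domRestrict₁₂ U' U
  have hbap : ∀ (x : U') (y : U), b x y = polar x.1 y.1 := fun x y => rfl
  have hb : ∀ x, b x = 0 → x = 0 := by
    intro x hx
    apply Subtype.ext
    apply hopp x.1 x.2
    intro w hw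
    have h := LinearMap.congr_fun hx (⟨w, hw⟩ : U)
    exact h
  have h := count_pairs b hb
  have hc : Nat.card U = Fintype.card F ^ 3 := by
    rw [Module.natCard_eq_pow_finrank (K := F) (V := U), Nat.card_eq_fintype_card, hU]
  have hc' : Nat.card U' = Fintype.card F ^ 3 := by
    rw [Module.natCard_eq_pow_finrank (K := F) (V := U'), Nat.card_eq_fintype_card, hU']
  rw [hc, hc'] at h
  rw [← h]
  congr 1
  have hsum : ∀ (x : U') (y : U), Q (x.1 + y.1) = b x y := by
    intro x y
    rw [hbap, polar_eq, hs' x.1 x.2, hs y.1 y.2]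
    ring
  symm
  refine Nat.card_eq_of_bijective (fun z => (⟨z.1.1.1 + z.1.2.1, ?_, ?_⟩ :
    {v : Sp F // Q v = 0 ∧ v ∈ U ⊔ U'})) ⟨?_, ?_⟩
  · rw [hsum]
    exact z.2
  · exact (U ⊔ U').add_mem (Submodule.mem_sup_right z.1.1.2) (Submodule.mem_sup_left z.1.2.2)
  · rintro ⟨⟨x, y⟩, hz⟩ ⟨⟨x', y'⟩, hz'⟩ heq
    have h1 : x.1 + y.1 = x'.1 + y'.1 := congrArg Subtype.val heq
    have h2 : x.1 - x'.1 = y'.1 - y.1 := by
      rw [sub_eq_sub_iff_add_eq_add, h1, add_comm]
    have h3 := R5_inf U U' hs hopp (x.1 - x'.1) (by rw [h2]; exact U.sub_mem y'.2 y.2)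
      (U'.sub_mem x.2 x'.2)
    have h4 : x = x' := Subtype.ext (sub_eq_zero.1 h3)
    have h5 : y = y' := by
      apply Subtype.ext
      rw [h3] at h2
      exact (sub_eq_zero.1 h2.symm).symm
    subst h4
    subst h5
    rfl
  · rintro ⟨v, hv, hvs⟩
    obtain ⟨y, hy, x, hx, rfl⟩ := Submodule.mem_sup.1 hvs
    refine ⟨⟨(⟨x, hx⟩, ⟨y, hy⟩), ?_⟩, ?_⟩
    · rw [← hsum]
      show Q (x + y) = 0
      rw [add_comm]
      exact hv
    · apply Subtype.ext
      exact add_comm x y

theorem R5 {F : Type*} [Field F] [Fintype F] (two : (2 : F) ≠ 0) {r : ℕ} (hr : r.Prime)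
    (hr2 : r ≠ 2) (hrq : r ∣ Fintype.card F ^ 2 + 1) (g : Sp F ≃ₗ[F] Sp F) (hg : g ^ r = 1)
    (hQ : ∀ v, Q (g v) = Q v) (U U' : Submodule F (Sp F)) (hU : finrank F U = 3)
    (hU' : finrank F U' = 3) (hs : ∀ v ∈ U, Q v = 0) (hs' : ∀ v ∈ U', Q v = 0)
    (hopp : ∀ v ∈ U', (∀ w ∈ U, polar v w = 0) → v = 0)
    (h1 : ∀ u ∈ U, g u = u) (h2 : ∀ u ∈ U', g u = u) : g = 1 := by
  classical
  haveI : Fact r.Prime := ⟨hr⟩
  have hq1 : 1 < Fintype.card F := Fintype.one_lt_card
  have hqq : ((Fintype.card F : ZMod r)) ^ 2 = -1 := by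
    have h := (ZMod.natCast_eq_zero_iff (Fintype.card F ^ 2 + 1) r).2 hrq
    push_cast at h
    linear_combination h
  have h20 : (2 : ZMod r) ≠ 0 := by
    intro h
    have h' : ((2 : ℕ) : ZMod r) = 0 := by exact_mod_cast h
    rw [ZMod.natCast_eq_zero_iff] at h'
    exact hr2 ((Nat.prime_dvd_prime_iff_eq hr Nat.prime_two).1 h')
  -- the powers
  have hpw : ∀ j, r ∣ Fintype.card F ^ j - 1 → ((Fintype.card F : ZMod r)) ^ j = 1 := by
    intro j hj
    have h := (ZMod.natCast_eq_zero_iff (Fintype.card F ^ j - 1) r).2 hj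
    rw [Nat.cast_sub (Nat.one_le_pow _ _ (by omega))] at h
    push_cast at h
    linear_combination h
  have hrp : ¬ r ∣ Fintype.card F := by
    intro h
    have h' := (ZMod.natCast_eq_zero_iff (Fintype.card F) r).2 h
    rw [h'] at hqq
    have : (1 : ZMod r) = 0 := by linear_combination hqq
    exact one_ne_zero this
  have hrn : ∀ j, 1 ≤ j → j ≤ 3 → ¬ r ∣ Fintype.card F ^ j - 1 := by
    intro j hj1 hj3 hj
    have h := hpw j hj
    generalize (Fintype.card F : ZMod r) = q at hqq h
    apply h20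
    interval_cases j
    · rw [pow_one] at h
      rw [h] at hqq
      linear_combination hqq
    · linear_combination hqq - h
    · have h3 : q = -1 := by linear_combination q * hqq - h
      rw [h3] at hqq
      linear_combination hqq
  have hcast : (r : F) ≠ 0 := by
    intro h
    apply hrp
    have hchar : ringChar F ∣ r := (ringChar.spec F r).1 h
    haveI : Fact (ringChar F).Prime := ⟨CharP.char_is_prime F (ringChar F)⟩
    have h3 : ringChar F = r :=
      (Nat.prime_dvd_prime_iff_eq (CharP.char_is_prime F (ringChar F)) hr).1 hchar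
    obtain ⟨n, hn, hcard⟩ := FiniteField.card F (ringChar F)
    rw [hcard, h3]
    exact dvd_pow_self r n.ne_zero
  have hdV : finrank F (Sp F) = 10 := by
    rw [Module.finrank_prod, Module.finrank_fin_fun]
  have hinf : U ⊓ U' = ⊥ := by
    rw [Submodule.eq_bot_iff]
    intro v hv
    exact R5_inf U U' hs hopp v hv.1 hv.2
  have hd6 : finrank F (U ⊔ U' : Submodule F (Sp F)) = 6 := by
    have h := Submodule.finrank_sup_add_finrank_inf_eq U U'
    rw [hinf, finrank_bot, hU, hU'] at h
    omega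
  have hfix6 : ∀ v ∈ U ⊔ U', g v = v := by
    intro v hv
    obtain ⟨x, hx, y, hy, rfl⟩ := Submodule.mem_sup.1 hv
    rw [map_add, h1 x hx, h2 y hy]
  -- a further fixed vector
  obtain ⟨w, hgw, hw⟩ : ∃ w, g w = w ∧ w ∉ U ⊔ U' := by
    by_contra hcon
    push Not at hcon
    have hcong := R5_mod hr g hg hQ
    have heq : Nat.card {v : Sp F // Q v = 0 ∧ g v = v} =
        Nat.card {v : Sp F // Q v = 0 ∧ v ∈ U ⊔ U'} :=
      Nat.card_congr (Equiv.subtypeEquivRight fun v =>
        ⟨fun h => ⟨h.1, hcon v h.2⟩, fun h => ⟨h.1, hfix6 v h.2⟩⟩)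
    rw [heq] at hcong
    have hA := R5_all (F := F)
    have hB := R5_sub U U' hU hU' hs hs' hopp
    have hcz := (ZMod.natCast_eq_natCast_iff _ _ r).2 hcong
    have hAz := congrArg (Nat.cast (R := ZMod r)) hA
    have hBz := congrArg (Nat.cast (R := ZMod r)) hB
    push_cast [Nat.cast_sub (Nat.one_le_pow 5 (Fintype.card F) (by omega)),
      Nat.cast_sub (Nat.one_le_pow 3 (Fintype.card F) (by omega))] at hAz hBz
    rw [hcz] at hAz
    rw [hBz] at hAz
    generalize (Fintype.card F : ZMod r) = q at hqq hAz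
    have hq4 : q ^ 4 = 1 := by linear_combination (q ^ 2 - 1) * hqq
    have h5 : q * q ^ 3 + (q ^ 3 - 1) * q ^ 3 = q := by
      linear_combination (q ^ 4 - q) * hqq
    have h6 : q * q ^ 5 + (q ^ 5 - 1) * q ^ 5 = -2 - q := by
      linear_combination (q ^ 8 - q ^ 6 + 2 * q ^ 4 - 2 * q ^ 2 + 2 - q ^ 3 + q) * hqq
    have h7 : 2 * (q + 1) = 0 := by linear_combination hAz - h5 + h6
    have h8 : q + 1 = 0 := (mul_eq_zero.1 h7).resolve_left h20
    apply h20
    linear_combination (1 - q) * h8 + hqq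
  have hdS : finrank F ((U ⊔ U') ⊔ Submodule.span F {w} : Submodule F (Sp F)) = 7 := by
    have h := Submodule.finrank_sup_add_finrank_inf_eq (U ⊔ U') (Submodule.span F {w})
    have hw0 : w ≠ 0 := fun h => hw (h ▸ Submodule.zero_mem _)
    have hinf2 : (U ⊔ U') ⊓ Submodule.span F {w} = ⊥ := by
      rw [Submodule.eq_bot_iff]
      rintro v ⟨hv1, hv2⟩
      obtain ⟨t, rfl⟩ := Submodule.mem_span_singleton.1 hv2
      by_cases ht : t = 0
      · rw [ht, zero_smul]
      · exfalso
        apply hw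
        have h3 := Submodule.smul_mem (U ⊔ U') t⁻¹ hv1
        rw [smul_smul, inv_mul_cancel₀ ht, one_smul] at h3
        exact h3
    rw [hinf2, finrank_bot, hd6, finrank_span_singleton hw0] at h
    omega
  have hfix7 : ∀ v ∈ (U ⊔ U') ⊔ Submodule.span F {w}, g v = v := by
    intro v hv
    obtain ⟨x, hx, y, hy, rfl⟩ := Submodule.mem_sup.1 hv
    obtain ⟨t, rfl⟩ := Submodule.mem_span_singleton.1 hy
    rw [map_add, hfix6 x hx, map_smul, hgw]
  generalize (U ⊔ U') ⊔ Submodule.span F {w} = S at hdS hfix7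
  have hmap : S.map (g : Sp F →ₗ[F] Sp F) = S := by
    ext v
    constructor
    · rintro ⟨s, hs, rfl⟩
      show g s ∈ S
      rw [hfix7 s hs]
      exact hs
    · intro hv
      exact ⟨v, hv, hfix7 v hv⟩
  have hq : ∀ (n : ℕ) (x : Sp F), ((Submodule.Quotient.equiv S S g hmap) ^ n)
      (Submodule.Quotient.mk x) = Submodule.Quotient.mk ((g ^ n) x) := by
    intro n
    induction n with
    | zero => intro x; rfl
    | succ n ih =>
      intro x
      rw [pow_succ, pow_succ]
      exact ih (g x)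
  have hgq : (Submodule.Quotient.equiv S S g hmap) ^ r = 1 := by
    apply LinearEquiv.ext
    intro y
    obtain ⟨x, rfl⟩ := Submodule.Quotient.mk_surjective S y
    rw [hq, hg]
    rfl
  have hdim := Submodule.finrank_quotient_add_finrank S
  rw [hdV, hdS] at hdim
  have h3 : Submodule.Quotient.equiv S S g hmap = 1 :=
    R2 rfl hr hrp (fun j h1 h2 => hrn j h1 (by omega)) _ hgq
  have h4 : ∀ x, g x - x ∈ S := fun x => by
    have h5 := LinearEquiv.congr_fun h3 (Submodule.Quotient.mk x)
    exact (Submodule.Quotient.eq S).1 h5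
  exact R1 g hcast hg S S h4
    (fun k hk => by rw [hfix7 k hk, sub_self]; exact S.zero_mem) hfix7

end Pool.Agent.LibBT65
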