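import Pool.Agent.LibBT65.R3

set_option autoImplicit false

/-!
Row R6. The case `r ∤ q, q - 1, q^2 - 1`: an isometry of prime order `r` (odd) fixing three members is
trivial.

`odd_fixed` (pure linear algebra): `g^r = 1`, `r` odd, isometry of a nondegenerate symmetric space of
odd dimension, has a fixed vector. With a basis, matrix `A` of `g`, Gram matrix `J` (`det J ≠ 0`):
`Aᵀ J A = J`, so `det A ^ 2 = 1`, `det A ^ r = 1`, so `det A = 1`. `(1 - A)ᵀ J = J - J A⁻¹ =
J A⁻¹ (A - 1)`, so `det (1 - A) = (-1)^n det (1 - A) = - det (1 - A)`, so `det (1 - A) = 0` (`2 ≠ 0`).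
`R6`: let `U, π, π'` be the three members. (i) Suppose `g` fixes a vector `v ≠ 0` of `π`. `g` is trivial
on `π / ⟨v⟩` (`R2`, dimension 2), so on `π` (`R1`). So `g v - v ∈ K` for all `v` (`decomp`:
`v = s + k`, `g s = s`, `g K = K`), so `g` is trivial on `U`
(`B (g u - u) v = B u (g⁻¹ v - v) = 0`), and on `π'` (`g s - s ∈ K ∩ π' = 0`, `K_inter`). So `g` is
trivial on `S = U + π + π'`, of dimension 9 (`ind`), and on `V / S` (dimension 1, `R2` with
`n = 1`), so `g = 1` by `R1` (with `K = U = S`). (ii) The same if `g` fixes a vector `≠ 0` of `π'`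
(exchange), or of `U` (exchange `U` and `π`: take the orthogonal space of `π` in the role of `K`; or:
the fixed spaces of `g` on `U` and on `V / K ≅ π` have the same dimension by duality). (iii) Otherwise
`g` has no fixed vector `≠ 0` in `S` (the sum is direct and invariant). `S` has dimension 9, its
orthogonal space is `⟨x⟩`, `g x = l • x`, `l^r = 1`, `l = 1` since `r ∤ q - 1` (`R2` with `n = 1`). So
`x ∉ S`, so `S` is nondegenerate of odd dimension: contradiction to `odd_fixed`.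
(It is convenient to prove first a symmetric statement about three independent totally singular
subspaces of dimension 3, pairwise opposite.)
-/

namespace Pool.Agent.LibBT65

open Module

theorem odd_fixed {F X : Type*} [Field F] [AddCommGroup X] [Module F X] [FiniteDimensional F X]
    (two : (2 : F) ≠ 0) (β : X →ₗ[F] X →ₗ[F] F) (hsymm : ∀ x y, β x y = β y x)
    (hnd : ∀ x, (∀ y, β x y = 0) → x = 0) (hd : Odd (finrank F X)) (g : X ≃ₗ[F] X)
    (hiso : ∀ x y, β (g x) (g y) = β x y) {r : ℕ} (hr : Odd r) (hg : g ^ r = 1) :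
    ∃ x, x ≠ 0 ∧ g x = x := by
  have hinj : Function.Injective β := by
    rw [← LinearMap.ker_eq_bot, LinearMap.ker_eq_bot']
    intro x hx
    exact hnd x fun y => by rw [hx]; rfl
  let E : X ≃ₗ[F] (X →ₗ[F] F) :=
    LinearEquiv.ofInjectiveOfFinrankEq β hinj (Subspace.dual_finrank_eq (K := F) (V := X)).symm
  have hE : ∀ x, E x = β x := fun x => rfl
  have hsy : ∀ x, g (g.symm x) = x := fun x => g.apply_symm_apply x
  have hadj : ∀ x y, β (g x) y = β x (g.symm y) := by
    intro x y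
    rw [← hiso x (g.symm y), hsy]
  -- determinant of `g`
  have e1 : (g : X →ₗ[F] X).dualMap ∘ₗ ((E : X →ₗ[F] (X →ₗ[F] F)) ∘ₗ (g : X →ₗ[F] X) ∘ₗ
      (E.symm : (X →ₗ[F] F) →ₗ[F] X)) = LinearMap.id := by
    apply LinearMap.ext
    intro φ
    apply LinearMap.ext
    intro y
    obtain ⟨x, rfl⟩ := E.surjective φ
    show (E (g (E.symm (E x)))) (g y) = E x y
    rw [E.symm_apply_apply, hE, hE, hiso]
  have d1 : LinearMap.det (g : X →ₗ[F] X) * LinearMap.det (g : X →ₗ[F] X) = 1 := by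
    have h := congrArg LinearMap.det e1
    have h' : LinearMap.det ((g : X →ₗ[F] X).dualMap ∘ₗ ((E : X →ₗ[F] (X →ₗ[F] F)) ∘ₗ (g : X →ₗ[F] X) ∘ₗ
        (E.symm : (X →ₗ[F] F) →ₗ[F] X))) = LinearMap.det (g : X →ₗ[F] X).dualMap *
        LinearMap.det ((E : X →ₗ[F] (X →ₗ[F] F)) ∘ₗ (g : X →ₗ[F] X) ∘ₗ
        (E.symm : (X →ₗ[F] F) →ₗ[F] X)) := LinearMap.det_comp _ _
    rw [h', LinearMap.det_conj, LinearMap.det_dualMap, LinearMap.det_id] at h
    exact h
  have dpow : ∀ n : ℕ, LinearMap.det ((g ^ n : X ≃ₗ[F] X) : X →ₗ[F] X) =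
      LinearMap.det (g : X →ₗ[F] X) ^ n := by
    intro n
    induction n with
    | zero =>
      rw [pow_zero, pow_zero]
      exact LinearMap.det_id
    | succ n ih =>
      have h1 : ((g ^ (n + 1) : X ≃ₗ[F] X) : X →ₗ[F] X) =
          ((g ^ n : X ≃ₗ[F] X) : X →ₗ[F] X) ∘ₗ (g : X →ₗ[F] X) := by
        rw [pow_succ]
        rfl
      rw [h1, LinearMap.det_comp, ih, pow_succ]
  have d2 : LinearMap.det (g : X →ₗ[F] X) = 1 := by
    have h := dpow r
    rw [hg] at h
    have h0 : LinearMap.det ((1 : X ≃ₗ[F] X) : X →ₗ[F] X) = 1 := LinearMap.det_id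
    rw [h0] at h
    obtain ⟨m, hm⟩ := hr
    rw [hm, pow_succ, pow_mul, pow_two, d1, one_pow, one_mul] at h
    exact h.symm
  have d3 : LinearMap.det (g.symm : X →ₗ[F] X) = 1 := by
    have h1 : (g.symm : X →ₗ[F] X) ∘ₗ (g : X →ₗ[F] X) = LinearMap.id := by
      apply LinearMap.ext
      intro x
      exact g.symm_apply_apply x
    have h2 := congrArg LinearMap.det h1
    rw [LinearMap.det_comp, d2, mul_one, LinearMap.det_id] at h2
    exact h2
  -- determinant of `1 - g`
  have e2 : (E : X →ₗ[F] (X →ₗ[F] F)) ∘ₗ (LinearMap.id - (g : X →ₗ[F] X)) ∘ₗ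
      (E.symm : (X →ₗ[F] F) →ₗ[F] X) = (LinearMap.id - (g.symm : X →ₗ[F] X)).dualMap := by
    apply LinearMap.ext
    intro φ
    apply LinearMap.ext
    intro y
    obtain ⟨x, rfl⟩ := E.surjective φ
    show (E (E.symm (E x) - g (E.symm (E x)))) y = E x (y - g.symm y)
    rw [E.symm_apply_apply, hE, hE, map_sub, LinearMap.sub_apply, map_sub, hadj]
  have e3 : LinearMap.id - (g.symm : X →ₗ[F] X) =
      (-1 : F) • ((g.symm : X →ₗ[F] X) ∘ₗ (LinearMap.id - (g : X →ₗ[F] X))) := by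
    apply LinearMap.ext
    intro x
    show x - g.symm x = (-1 : F) • g.symm (x - g x)
    rw [map_sub, g.symm_apply_apply, neg_one_smul]
    abel
  have d4 : LinearMap.det (LinearMap.id - (g : X →ₗ[F] X)) =
      LinearMap.det (LinearMap.id - (g.symm : X →ₗ[F] X)) := by
    rw [← LinearMap.det_dualMap (LinearMap.id - (g.symm : X →ₗ[F] X)), ← e2, LinearMap.det_conj]
  have d5 : LinearMap.det (LinearMap.id - (g : X →ₗ[F] X)) = 0 := by
    have h := d4
    rw [e3, LinearMap.det_smul, LinearMap.det_comp, d3, hd.neg_one_pow, one_mul] at h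
    have h2 : (2 : F) * LinearMap.det (LinearMap.id - (g : X →ₗ[F] X)) = 0 := by
      linear_combination h
    exact (mul_eq_zero.1 h2).resolve_left two
  have h6 := LinearMap.bot_lt_ker_of_det_eq_zero d5
  rw [bot_lt_iff_ne_bot, Submodule.ne_bot_iff] at h6
  obtain ⟨x, hx, hx0⟩ := h6
  refine ⟨x, hx0, ?_⟩
  rw [LinearMap.mem_ker] at hx
  have h7 : x - g x = 0 := hx
  exact (sub_eq_zero.1 h7).symm

private theorem R6_restrict {F V : Type*} [Field F] [AddCommGroup V] [Module F V]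
    (g : V ≃ₗ[F] V) (S : Submodule F V) (h : S.map (g : V →ₗ[F] V) = S) (n : ℕ) (x : S) :
    ((((LinearEquiv.ofSubmodules g S S h) ^ n) x : S) : V) = (g ^ n) (x : V) := by
  induction n generalizing x with
  | zero => rfl
  | succ n ih =>
    rw [pow_succ, pow_succ]
    exact ih ((LinearEquiv.ofSubmodules g S S h) x)

private theorem R6_L0 {F X : Type*} [Field F] [Fintype F] [AddCommGroup X] [Module F X]
    [FiniteDimensional F X] {r : ℕ} (hr : r.Prime) (hrp : ¬ r ∣ Fintype.card F)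
    (hrn : ∀ j, 1 ≤ j → j ≤ 2 → ¬ r ∣ Fintype.card F ^ j - 1) (g : X ≃ₗ[F] X)
    (hg : g ^ r = 1) (S : Submodule F X) (hS : ∀ s ∈ S, g s = s)
    (hd : finrank F X ≤ finrank F S + 2) : g = 1 := by
  have hmap : S.map (g : X →ₗ[F] X) = S := by
    ext v
    constructor
    · rintro ⟨s, hs, rfl⟩
      show g s ∈ S
      rw [hS s hs]
      exact hs
    · intro hv
      exact ⟨v, hv, hS v hv⟩
  have hq : ∀ (n : ℕ) (x : X), ((Submodule.Quotient.equiv S S g hmap) ^ n)
      (Submodule.Quotient.mk x) = Submodule.Quotient.mk ((g ^ n) x) := by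
    intro n
    induction n with
    | zero => intro x; rfl
    | succ n ih =>
      intro x
      rw [pow_succ, pow_succ]
      exact ih (g x)
  have hgq : (Submodule.Quotient.equiv S S g hmap) ^ r = 1 := by
    apply LinearEquiv.ext
    intro y
    obtain ⟨x, rfl⟩ := Submodule.Quotient.mk_surjective S y
    rw [hq, hg]
    rfl
  have hdim := Submodule.finrank_quotient_add_finrank S
  have h1 : Submodule.Quotient.equiv S S g hmap = 1 :=
    R2 rfl hr hrp (fun j h1 h2 => hrn j h1 (by omega)) _ hgq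
  have h2 : ∀ x, g x - x ∈ S := fun x => by
    have h3 := LinearEquiv.congr_fun h1 (Submodule.Quotient.mk x)
    exact (Submodule.Quotient.eq S).1 h3
  exact R1 g (cast_ne hr hrp) hg S S h2
    (fun k hk => by rw [hS k hk, sub_self]; exact S.zero_mem) hS

/-- a fixed vector in a stable subspace of dimension 3 -/
private theorem R6_L1 {F V : Type*} [Field F] [Fintype F] [AddCommGroup V] [Module F V]
    [FiniteDimensional F V] {r : ℕ} (hr : r.Prime) (hrp : ¬ r ∣ Fintype.card F)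
    (hrn : ∀ j, 1 ≤ j → j ≤ 2 → ¬ r ∣ Fintype.card F ^ j - 1) (g : V ≃ₗ[F] V)
    (hg : g ^ r = 1) (S : Submodule F V) (h : S.map (g : V →ₗ[F] V) = S)
    (T : Submodule F V) (hTS : T ≤ S) (hT : ∀ t ∈ T, g t = t)
    (hd : finrank F S ≤ finrank F T + 2) : ∀ s ∈ S, g s = s := by
  have hgS : (LinearEquiv.ofSubmodules g S S h) ^ r = 1 := by
    apply LinearEquiv.ext
    intro x
    apply Subtype.ext
    rw [R6_restrict, hg]
    rfl
  have hfin : finrank F (T.submoduleOf S) = finrank F T :=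
    LinearEquiv.finrank_eq (Submodule.submoduleOfEquivOfLe hTS)
  have h1 := R6_L0 hr hrp hrn (LinearEquiv.ofSubmodules g S S h) hgS (T.submoduleOf S)
    (fun s hs => by
      apply Subtype.ext
      have h2 := R6_restrict g S h 1 s
      rw [pow_one, pow_one] at h2
      rw [h2]
      exact hT s.1 hs) (by rw [hfin]; exact hd)
  intro s hs
  have h2 := R6_restrict g S h 1 ⟨s, hs⟩
  rw [pow_one, pow_one, h1] at h2
  exact h2.symm

private theorem R6_triv {F V : Type*} [Field F] [AddCommGroup V] [Module F V]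
    (B : V →ₗ[F] V →ₗ[F] F) (g : V ≃ₗ[F] V)
    (hiso : ∀ v w, B (g v) (g w) = B v w) (a b : Submodule F V)
    (ha : a.map (g : V →ₗ[F] V) = a) (hop : ∀ v ∈ a, (∀ w ∈ b, B v w = 0) → v = 0)
    (hb : ∀ w ∈ b, g w = w) : ∀ v ∈ a, g v = v := by
  intro v hv
  have hgv : g v ∈ a := by
    rw [← ha]
    exact Submodule.mem_map_of_mem hv
  have h1 := hop (g v - v) (a.sub_mem hgv hv) (fun w hw => by
    rw [map_sub, LinearMap.sub_apply]
    have h2 := hiso v w
    rw [hb w hw] at h2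
    rw [h2, sub_self])
  exact sub_eq_zero.1 h1

variable {F V : Type*} [Field F] [Fintype F] [AddCommGroup V] [Module F V]
  {B : V →ₗ[F] V →ₗ[F] F} {M : Finset (Submodule F V)}

theorem R6 (hS : Sys B M) {g : V ≃ₗ[F] V} (hiso : ∀ v w, B (g v) (g w) = B v w) {r : ℕ}
    (hr : r.Prime) (hr2 : r ≠ 2) (hgr : g ^ r = 1) (hrp : ¬ r ∣ Fintype.card F)
    (hrn : ∀ j, 1 ≤ j → j ≤ 2 → ¬ r ∣ Fintype.card F ^ j - 1)
    {a b c : Submodule F V} (ha : a ∈ M) (hb : b ∈ M) (hc : c ∈ M) (hab : a ≠ b) (hac : a ≠ c)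
    (hbc : b ≠ c) (hga : a.map (g : V →ₗ[F] V) = a) (hgb : b.map (g : V →ₗ[F] V) = b)
    (hgc : c.map (g : V →ₗ[F] V) = c) : g = 1 := by
  haveI : FiniteDimensional F V := by
    apply FiniteDimensional.of_finrank_pos
    rw [hS.dimV]
    norm_num
  have hda := hS.dim a ha
  have hdb := hS.dim b hb
  have hdc := hS.dim c hc
  have hind := hS.ind a ha b hb c hc hab hac hbc
  have hinf1 : a ⊓ b = ⊥ := by
    rw [Submodule.eq_bot_iff]
    intro x hx
    have h := hind x hx.1 (-x) (b.neg_mem hx.2) 0 c.zero_mem (by abel)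
    exact h.1
  have hinf2 : (a ⊔ b) ⊓ c = ⊥ := by
    rw [Submodule.eq_bot_iff]
    rintro z ⟨hz1, hz2⟩
    obtain ⟨x, hx, y, hy, rfl⟩ := Submodule.mem_sup.1 hz1
    have h := hind x hx y hy (-(x + y)) (c.neg_mem hz2) (by abel)
    rw [h.1, h.2.1, add_zero]
  have hd9 : finrank F (a ⊔ b ⊔ c : Submodule F V) = 9 := by
    have h1 := Submodule.finrank_sup_add_finrank_inf_eq a b
    have h2 := Submodule.finrank_sup_add_finrank_inf_eq (a ⊔ b) c
    rw [hinf1, finrank_bot, hda, hdb] at h1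
    rw [hinf2, finrank_bot, hdc] at h2
    omega
  -- if `g` is trivial on the three members
  have hfin : (∀ v ∈ a, g v = v) → (∀ v ∈ b, g v = v) → (∀ v ∈ c, g v = v) → g = 1 := by
    intro h1 h2 h3
    refine R6_L0 hr hrp hrn g hgr (a ⊔ b ⊔ c) ?_ (by rw [hS.dimV, hd9]; norm_num)
    intro s hs
    obtain ⟨y', hy', z, hz, rfl⟩ := Submodule.mem_sup.1 hs
    obtain ⟨x, hx, y, hy, rfl⟩ := Submodule.mem_sup.1 hy'
    rw [map_add, map_add, h1 x hx, h2 y hy, h3 z hz]
  have hline : ∀ (S : Submodule F V), finrank F S = 3 → S.map (g : V →ₗ[F] V) = S →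
      ∀ v ∈ S, v ≠ 0 → g v = v → ∀ s ∈ S, g s = s := by
    intro S hdS hmS v hv hv0 hgv
    refine R6_L1 hr hrp hrn g hgr S hmS (Submodule.span F {v}) ?_ ?_ ?_
    · rw [Submodule.span_singleton_le_iff_mem]
      exact hv
    · intro t ht
      obtain ⟨k, rfl⟩ := Submodule.mem_span_singleton.1 ht
      rw [map_smul, hgv]
    · rw [finrank_span_singleton hv0, hdS]
  by_cases Ha : ∃ v ∈ a, v ≠ 0 ∧ g v = v
  · obtain ⟨v, hv, hv0, hgv⟩ := Ha
    have h1 := hline a hda hga v hv hv0 hgv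
    exact hfin h1 (R6_triv B g hiso b a hgb (fun v hv hw => hS.opp a ha b hb hab v hv hw) h1)
      (R6_triv B g hiso c a hgc (fun v hv hw => hS.opp a ha c hc hac v hv hw) h1)
  by_cases Hb : ∃ v ∈ b, v ≠ 0 ∧ g v = v
  · obtain ⟨v, hv, hv0, hgv⟩ := Hb
    have h1 := hline b hdb hgb v hv hv0 hgv
    exact hfin (R6_triv B g hiso a b hga (fun v hv hw => hS.opp b hb a ha hab.symm v hv hw) h1) h1
      (R6_triv B g hiso c b hgc (fun v hv hw => hS.opp b hb c hc hbc v hv hw) h1)
  by_cases Hc : ∃ v ∈ c, v ≠ 0 ∧ g v = v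
  · obtain ⟨v, hv, hv0, hgv⟩ := Hc
    have h1 := hline c hdc hgc v hv hv0 hgv
    exact hfin (R6_triv B g hiso a c hga (fun v hv hw => hS.opp c hc a ha hac.symm v hv hw) h1)
      (R6_triv B g hiso b c hgb (fun v hv hw => hS.opp c hc b hb hbc.symm v hv hw) h1) h1
  exfalso
  -- no fixed vector in the sum
  have hmS : (a ⊔ b ⊔ c).map (g : V →ₗ[F] V) = a ⊔ b ⊔ c := by
    rw [Submodule.map_sup, Submodule.map_sup, hga, hgb, hgc]
  have hnofix : ∀ s ∈ a ⊔ b ⊔ c, g s = s → s = 0 := by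
    intro s hs hgs
    obtain ⟨y', hy', z, hz, rfl⟩ := Submodule.mem_sup.1 hs
    obtain ⟨x, hx, y, hy, rfl⟩ := Submodule.mem_sup.1 hy'
    have hgx : g x ∈ a := by
      rw [← hga]
      exact Submodule.mem_map_of_mem hx
    have hgy : g y ∈ b := by
      rw [← hgb]
      exact Submodule.mem_map_of_mem hy
    have hgz : g z ∈ c := by
      rw [← hgc]
      exact Submodule.mem_map_of_mem hz
    rw [map_add, map_add] at hgs
    have h := hind (g x - x) (a.sub_mem hgx hx) (g y - y) (b.sub_mem hgy hy) (g z - z)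
      (c.sub_mem hgz hz) (by
        have : g x - x + (g y - y) + (g z - z) = (g x + g y + g z) - (x + y + z) := by abel
        rw [this, hgs, sub_self])
    have hx0 : x = 0 := by
      by_contra hne
      exact Ha ⟨x, hx, hne, sub_eq_zero.1 h.1⟩
    have hy0 : y = 0 := by
      by_contra hne
      exact Hb ⟨y, hy, hne, sub_eq_zero.1 h.2.1⟩
    have hz0 : z = 0 := by
      by_contra hne
      exact Hc ⟨z, hz, hne, sub_eq_zero.1 h.2.2⟩
    rw [hx0, hy0, hz0, add_zero, add_zero]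
  -- the orthogonal space of the sum
  have hrefl : LinearMap.IsRefl B := by
    intro x y h
    rw [hS.symm]
    exact h
  have hndB : LinearMap.Nondegenerate B := by
    refine ⟨fun x hx => hS.nondeg x hx, fun y hy => hS.nondeg y fun w => ?_⟩
    rw [hS.symm]
    exact hy w
  have horth := LinearMap.BilinForm.finrank_orthogonal (B := B) hndB (a ⊔ b ⊔ c)
  rw [hS.dimV, hd9] at horth
  set W : Submodule F V := LinearMap.BilinForm.orthogonal B (a ⊔ b ⊔ c) with hW
  have hWmem : ∀ v, v ∈ W ↔ ∀ s ∈ a ⊔ b ⊔ c, B s v = 0 := by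
    intro v
    rw [hW, LinearMap.BilinForm.mem_orthogonal_iff]
  have hWsub : W.map (g : V →ₗ[F] V) ≤ W := by
    rintro _ ⟨v, hv, rfl⟩
    rw [hWmem]
    intro s hs
    rw [← hmS] at hs
    obtain ⟨s', hs', rfl⟩ := hs
    show B (g s') (g v) = 0
    rw [hiso]
    exact (hWmem v).1 hv s' hs'
  have hWmap : W.map (g : V →ₗ[F] V) = W := by
    apply Submodule.eq_of_le_of_finrank_eq hWsub
    exact LinearEquiv.finrank_map_eq g W
  have hWfix : ∀ w ∈ W, g w = w := by
    refine R6_L1 hr hrp hrn g hgr W hWmap ⊥ bot_le ?_ ?_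
    · intro t ht
      rw [Submodule.mem_bot] at ht
      rw [ht, map_zero]
    · rw [horth]
      norm_num
  have hdis : ∀ s ∈ a ⊔ b ⊔ c, s ∈ W → s = 0 := fun s hs hsW => hnofix s hs (hWfix s hsW)
  obtain ⟨x, hx0, hx⟩ := odd_fixed (F := F) (X := (a ⊔ b ⊔ c : Submodule F V)) hS.two
    (B.domRestrict₁₂ (a ⊔ b ⊔ c) (a ⊔ b ⊔ c)) (fun x y => hS.symm x.1 y.1)
    (fun x hx => Subtype.ext (hdis x.1 x.2 ((hWmem x.1).2 fun s hs => by
      rw [hS.symm]
      exact hx ⟨s, hs⟩)))
    (by rw [hd9]; decide) (LinearEquiv.ofSubmodules g _ _ hmS)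
    (fun x y => by
      have h1 := R6_restrict g _ hmS 1 x
      have h2 := R6_restrict g _ hmS 1 y
      rw [pow_one, pow_one] at h1 h2
      show B (((LinearEquiv.ofSubmodules g _ _ hmS) x : (a ⊔ b ⊔ c : Submodule F V)) : V)
        (((LinearEquiv.ofSubmodules g _ _ hmS) y : (a ⊔ b ⊔ c : Submodule F V)) : V) = B x.1 y.1
      rw [h1, h2, hiso])
    (hr.odd_of_ne_two hr2)
    (by
      apply LinearEquiv.ext
      intro x
      apply Subtype.ext
      rw [R6_restrict, hgr]
      rfl)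
  apply hx0
  apply Subtype.ext
  apply hnofix x.1 x.2
  have h1 := R6_restrict g _ hmS 1 x
  rw [pow_one, pow_one] at h1
  rw [← h1, hx]

end Pool.Agent.LibBT65
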