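import Pool.Agent.LibBT65.R3
import Pool.Agent.LibBT65.R4
import Pool.Agent.LibBT65.R5
import Pool.Agent.LibBT65.R6
import Pool.Agent.LibBT65.D3

set_option autoImplicit false

/-!
Row R8. Assembly: linear groups in the model. `q = |F|` odd (`2 ≠ 0` in `F`).

`noFix`: `g ≠ 1` preserves `Q`, `M`, `g^r = 1`, `r` prime, `r ∤ q`, `r ∤ q^2 - 1` (so `r ≠ 2`, `r ∤ q - 1`).
Then `g` fixes no member, and `r ∤ q^3 - 1`, `r ∤ q^4 - 1`.
  Let `f` be the number of fixed members, `f = q^4 + 1` mod `r` (`R4`).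
  If `r ∣ q^4 - 1 = (q^2-1)(q^2+1)` then `r ∣ q^2 + 1`, `r ∤ q^3 - 1` (`q^3 = - q`; `- q = 1` would give
  `q^2 = 1`), `f = 2` mod `r`, `r ≥ 3`, so `f ≥ 2`: two fixed members `U, U'`; `g` is trivial on
  both (`fixU`), so `g = 1` by `R5`.
  If `r ∣ q^3 - 1` then `f = q + 1` mod `r`; `f = 0` would give `q = -1`, `q^2 = 1`; `f = 1` gives
  `r ∣ q`; `f = 2` gives `q = 1`; so `f ≥ 3` and `g = 1` by `R6`.
  Otherwise a fixed member `U` gives `g = 1` by `R3` (with `K` the orthogonal space of `U`).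
`order_bound`: let `r^k ∣ |G|`, `r ∤ q`, `r ∤ q^2 - 1`. A subgroup `P` of order `r^k` (Sylow); the
multipliers `c` satisfy `c^(r^k) = 1`, `c^(q-1) = 1`, so `c = 1`, so `P` preserves `Q`. An element
`g ≠ 1` of `P` has a power of order `r`, which fixes all members that `g` fixes: so `g` fixes no member
(`noFix`), and `|P| ∣ |M| = q^4 + 1` by `R4s`.
`coprime_bound`: `n ∣ |G|` coprime to `q (q^2 - 1)` divides `q^4 + 1`: prime power by prime power
(`Nat.dvd_of_forall_prime_pow...`: for every prime `r` and `k`, `r^k ∣ n → r^k ∣ q^4+1`,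
`Nat.dvd_iff_prime_pow_dvd_dvd`).
-/

namespace Pool.Agent.LibBT65

open Module

private theorem R8_base {F : Type*} [Field F] {M : Finset (Submodule F (Sp F))} {U : Submodule F (Sp F)}
    (hU : U ∈ M) : ∃ K : Submodule F (Sp F), Base (bil F) M U K := by
  obtain ⟨K, hK⟩ : ∃ K : Submodule F (Sp F), ∀ v, v ∈ K ↔ ∀ u ∈ U, bil F v u = 0 := by
    refine ⟨{ carrier := {v | ∀ u ∈ U, bil F v u = 0}
              add_mem' := ?_
              zero_mem' := ?_
              smul_mem' := ?_ }, fun v => Iff.rfl⟩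
    · intro a b ha hb u hu
      rw [map_add, LinearMap.add_apply, ha u hu, hb u hu, add_zero]
    · intro u _
      rw [map_zero, LinearMap.zero_apply]
    · intro t a ha u hu
      rw [map_smul, LinearMap.smul_apply, ha u hu, smul_zero]
  exact ⟨K, ⟨hU, hK⟩⟩

private theorem R8_cast {q r j : ℕ} (hq : 1 ≤ q) : r ∣ q ^ j - 1 ↔ (r : ℤ) ∣ (q : ℤ) ^ j - 1 := by
  have h : ((q ^ j - 1 : ℕ) : ℤ) = (q : ℤ) ^ j - 1 := by
    rw [Nat.cast_sub (Nat.one_le_pow _ _ hq)]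
    push_cast
    ring
  rw [← h, Int.natCast_dvd_natCast]

theorem noFix {F : Type*} [Field F] [Fintype F] (two : (2 : F) ≠ 0)
    {M : Finset (Submodule F (Sp F))} (hM : BLTSystem M) {g : Sp F ≃ₗ[F] Sp F} (hg1 : g ≠ 1)
    (hQ : ∀ v, Q (g v) = Q v)
    (hpres : ∀ π ∈ M, π.map (g : Sp F →ₗ[F] Sp F) ∈ M) {r : ℕ} (hr : r.Prime) (hgr : g ^ r = 1)
    (hrp : ¬ r ∣ Fintype.card F) (hr2 : ¬ r ∣ Fintype.card F ^ 2 - 1) :
    ∀ π ∈ M, π.map (g : Sp F →ₗ[F] Sp F) ≠ π := by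
  classical
  intro π hπ hfix
  apply hg1
  have hS := sys two hM
  have hiso : ∀ v w, bil F (g v) (g w) = bil F v w := by
    intro v w
    rw [bil_apply, bil_apply, polar_eq, polar_eq, ← map_add, hQ, hQ, hQ]
  set q := Fintype.card F with hq
  have hq1 : 1 < q := Fintype.one_lt_card
  have hz : ∀ j, r ∣ q ^ j - 1 ↔ (r : ℤ) ∣ (q : ℤ) ^ j - 1 := fun j => R8_cast (by omega)
  have hrz : Prime (r : ℤ) := Nat.prime_iff_prime_int.1 hr
  have h2z : ¬ (r : ℤ) ∣ (q : ℤ) ^ 2 - 1 := fun h => hr2 ((hz 2).2 h)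
  have hqz : ¬ (r : ℤ) ∣ (q : ℤ) := fun h => hrp (Int.natCast_dvd_natCast.1 h)
  have h1z : ¬ (r : ℤ) ∣ (q : ℤ) ^ 1 - 1 := by
    intro h
    apply h2z
    have h1 : (q : ℤ) ^ 2 - 1 = ((q : ℤ) ^ 1 - 1) * (q + 1) := by ring
    rw [h1]
    exact dvd_mul_of_dvd_left h _
  have hrne2 : r ≠ 2 := by
    rintro rfl
    have h1 : ((2 : ℕ) : ℤ) = 2 := rfl
    rw [h1] at hqz h2z
    have h3 : (q : ℤ) % 2 = 1 := by omega
    apply h2z
    have h4 : (q : ℤ) ^ 2 - 1 = (q - 1) * (q + 1) := by ring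
    rw [h4]
    exact dvd_mul_of_dvd_left (by omega) _
  have hr3 : 3 ≤ r := by
    have := hr.two_le
    omega
  have haut : ∀ U ∈ M, U.map (g : Sp F →ₗ[F] Sp F) = U → Aut (bil F) M U g :=
    fun U _ hU => ⟨hiso, hpres, hU⟩
  -- the number of fixed members
  set S : Finset (Submodule F (Sp F)) := M.filter fun π => π.map (g : Sp F →ₗ[F] Sp F) = π with hSdef
  have hmod := R4 g hr hgr M hpres
  rw [Nat.subtype_card S (by intro x; rw [hSdef, Finset.mem_filter]), hM.card] at hmod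
  have hdvd : (r : ℤ) ∣ ((q : ℤ) ^ 4 + 1) - (S.card : ℤ) := by
    have h1 := ((Int.natCast_modEq_iff).2 hmod).dvd
    push_cast at h1
    exact h1
  have hSm : ∀ U ∈ S, U ∈ M ∧ U.map (g : Sp F →ₗ[F] Sp F) = U := by
    intro U hU
    rw [hSdef, Finset.mem_filter] at hU
    exact hU
  by_cases h4 : (r : ℤ) ∣ (q : ℤ) ^ 4 - 1
  · -- `r ∣ q ^ 2 + 1`
    have h5 : (r : ℤ) ∣ (q : ℤ) ^ 2 + 1 := by
      have h1 : (q : ℤ) ^ 4 - 1 = ((q : ℤ) ^ 2 - 1) * ((q : ℤ) ^ 2 + 1) := by ring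
      rw [h1] at h4
      exact (hrz.dvd_or_dvd h4).resolve_left h2z
    have h3z : ¬ (r : ℤ) ∣ (q : ℤ) ^ 3 - 1 := by
      intro h
      apply h2z
      have h1 : (r : ℤ) ∣ (q : ℤ) + 1 := by
        have h6 : (q : ℤ) + 1 = (q : ℤ) * ((q : ℤ) ^ 2 + 1) - ((q : ℤ) ^ 3 - 1) := by ring
        rw [h6]
        exact dvd_sub (dvd_mul_of_dvd_right h5 _) h
      have h6 : (q : ℤ) ^ 2 - 1 = ((q : ℤ) + 1) * (q - 1) := by ring
      rw [h6]
      exact dvd_mul_of_dvd_left h1 _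
    have hrn : ∀ j, 1 ≤ j → j ≤ 3 → ¬ r ∣ Fintype.card F ^ j - 1 := by
      intro j hj1 hj3
      rw [← hq, hz]
      interval_cases j
      · exact h1z
      · exact h2z
      · exact h3z
    have h2f : (r : ℤ) ∣ 2 - (S.card : ℤ) := by
      have h6 : 2 - (S.card : ℤ) = (((q : ℤ) ^ 4 + 1) - (S.card : ℤ)) - ((q : ℤ) ^ 4 - 1) := by ring
      rw [h6]
      exact dvd_sub hdvd h4
    have hcard : 1 < S.card := by
      by_contra hcon
      have h6 := Int.le_of_dvd (by omega) h2f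
      omega
    obtain ⟨U, hU, U', hU', hne⟩ := Finset.one_lt_card.1 hcard
    obtain ⟨hUM, hUf⟩ := hSm U hU
    obtain ⟨hUM', hUf'⟩ := hSm U' hU'
    obtain ⟨K, hb⟩ := R8_base hUM
    obtain ⟨K', hb'⟩ := R8_base hUM'
    have e1 := (fixU hS hb (haut U hUM hUf) hr hgr hrp hrn).1
    have e2 := (fixU hS hb' (haut U' hUM' hUf') hr hgr hrp hrn).1
    have h5n : r ∣ Fintype.card F ^ 2 + 1 := by
      rw [← hq]
      exact_mod_cast h5
    exact R5 two hr hrne2 h5n g hgr hQ U U' (hM.sing U hUM).1 (hM.sing U' hUM').1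
      (hM.sing U hUM).2 (hM.sing U' hUM').2 (hM.opp U hUM U' hUM' hne) e1 e2
  by_cases h3 : (r : ℤ) ∣ (q : ℤ) ^ 3 - 1
  · -- `r ∣ q ^ 3 - 1`
    have h1f : (r : ℤ) ∣ (q : ℤ) + 1 - (S.card : ℤ) := by
      have h6 : (q : ℤ) + 1 - (S.card : ℤ) =
          (((q : ℤ) ^ 4 + 1) - (S.card : ℤ)) - (q : ℤ) * ((q : ℤ) ^ 3 - 1) := by ring
      rw [h6]
      exact dvd_sub hdvd (dvd_mul_of_dvd_right h3 _)
    have hcard : 2 < S.card := by
      by_contra hcon
      have h7 : S.card = 0 ∨ S.card = 1 ∨ S.card = 2 := by omega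
      rcases h7 with h7 | h7 | h7
      · rw [h7] at h1f
        apply h2z
        have h6 : (q : ℤ) ^ 2 - 1 = ((q : ℤ) + 1 - ((0 : ℕ) : ℤ)) * (q - 1) := by
          push_cast
          ring
        rw [h6]
        exact dvd_mul_of_dvd_left h1f _
      · rw [h7] at h1f
        apply hqz
        have h6 : (q : ℤ) = (q : ℤ) + 1 - ((1 : ℕ) : ℤ) := by
          push_cast
          ring
        rw [h6]
        exact h1f
      · rw [h7] at h1f
        apply h1z
        have h6 : (q : ℤ) ^ 1 - 1 = (q : ℤ) + 1 - ((2 : ℕ) : ℤ) := by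
          push_cast
          ring
        rw [h6]
        exact h1f
    obtain ⟨a, ha, b, hb, c, hc, hab, hac, hbc⟩ := Finset.two_lt_card.1 hcard
    have hrn : ∀ j, 1 ≤ j → j ≤ 2 → ¬ r ∣ Fintype.card F ^ j - 1 := by
      intro j hj1 hj3
      rw [← hq, hz]
      interval_cases j
      · exact h1z
      · exact h2z
    exact R6 hS hiso hr hrne2 hgr hrp hrn (hSm a ha).1 (hSm b hb).1 (hSm c hc).1 hab hac hbc
      (hSm a ha).2 (hSm b hb).2 (hSm c hc).2
  · -- the other case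
    obtain ⟨K, hb⟩ := R8_base hπ
    have hrn : ∀ j, 1 ≤ j → j ≤ 4 → ¬ r ∣ Fintype.card F ^ j - 1 := by
      intro j hj1 hj3
      rw [← hq, hz]
      interval_cases j
      · exact h1z
      · exact h2z
      · exact h3
      · exact h4
    exact R3 hS hb (haut π hπ hfix) hr hgr hrp hrn

private theorem R8_Q_pow {F : Type*} [Field F] (g : Sp F ≃ₗ[F] Sp F) (c : F)
    (hc : ∀ v, Q (g v) = c * Q v) (n : ℕ) : ∀ v, Q ((g ^ n) v) = c ^ n * Q v := by
  induction n with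
  | zero =>
    intro v
    rw [pow_zero, pow_zero, one_mul]
    rfl
  | succ n ih =>
    intro v
    have h1 : (g ^ (n + 1)) v = g ((g ^ n) v) := by
      rw [pow_succ']
      rfl
    rw [h1, hc, ih, pow_succ']
    ring

private theorem R8_one {F : Type*} [Field F] [Fintype F] {r : ℕ} (hr : r.Prime)
    (hr1 : ¬ r ∣ Fintype.card F - 1) (g : Sp F ≃ₗ[F] Sp F) (k : ℕ) (hg : g ^ r ^ k = 1) (c : F)
    (hc : ∀ v, Q (g v) = c * Q v) : c = 1 := by
  have h1 := R8_Q_pow g c hc (r ^ k) (Pi.single 0 1, Pi.single 0 1)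
  rw [hg] at h1
  have h2 : Q ((Pi.single 0 1, Pi.single 0 1) : Sp F) = 1 := by
    unfold Q
    simp [Pi.single_apply]
  have h3 : Q ((1 : Sp F ≃ₗ[F] Sp F) ((Pi.single 0 1, Pi.single 0 1) : Sp F)) = 1 := h2
  rw [h3, h2, mul_one] at h1
  have hrk : r ^ k ≠ 0 := pow_ne_zero _ hr.ne_zero
  have hc0 : c ≠ 0 := by
    rintro rfl
    rw [zero_pow hrk] at h1
    exact one_ne_zero h1
  have h4 : c ^ (Fintype.card F - 1) = 1 := FiniteField.pow_card_sub_one_eq_one c hc0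
  have h5 := orderOf_dvd_of_pow_eq_one h4
  have h6 := orderOf_dvd_of_pow_eq_one h1.symm
  have hco : Nat.Coprime (r ^ k) (Fintype.card F - 1) :=
    ((Nat.Prime.coprime_iff_not_dvd hr).2 hr1).pow_left k
  have h7 := Nat.dvd_gcd h6 h5
  rw [hco.gcd_eq_one] at h7
  exact orderOf_eq_one_iff.1 (Nat.dvd_one.1 h7)

private theorem R8_map_pow {F : Type*} [Field F] (g : Sp F ≃ₗ[F] Sp F) (π : Submodule F (Sp F))
    (h : π.map (g : Sp F →ₗ[F] Sp F) = π) (n : ℕ) :
    π.map ((g ^ n : Sp F ≃ₗ[F] Sp F) : Sp F →ₗ[F] Sp F) = π := by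
  induction n with
  | zero =>
    rw [pow_zero]
    exact Submodule.map_id π
  | succ n ih =>
    have h1 : ((g ^ (n + 1) : Sp F ≃ₗ[F] Sp F) : Sp F →ₗ[F] Sp F) =
        (g : Sp F →ₗ[F] Sp F) ∘ₗ ((g ^ n : Sp F ≃ₗ[F] Sp F) : Sp F →ₗ[F] Sp F) := by
      rw [pow_succ']
      rfl
    rw [h1, Submodule.map_comp, ih, h]

theorem order_bound {F : Type*} [Field F] [Fintype F] (two : (2 : F) ≠ 0)
    {M : Finset (Submodule F (Sp F))} (hM : BLTSystem M)
    (G : Subgroup (Sp F ≃ₗ[F] Sp F))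
    (hsim : ∀ g ∈ G, ∃ c : F, ∀ v, Q (g v) = c * Q v)
    (hpres : ∀ g ∈ G, ∀ π ∈ M, π.map ((g : Sp F ≃ₗ[F] Sp F) : Sp F →ₗ[F] Sp F) ∈ M)
    {r : ℕ} (hr : r.Prime) (hrp : ¬ r ∣ Fintype.card F) (hr2 : ¬ r ∣ Fintype.card F ^ 2 - 1)
    {k : ℕ} (hk : r ^ k ∣ Nat.card G) : r ^ k ∣ Fintype.card F ^ 4 + 1 := by
  haveI : Fact r.Prime := ⟨hr⟩
  have : Finite (Sp F ≃ₗ[F] Sp F) :=
    Finite.of_injective (fun g : Sp F ≃ₗ[F] Sp F => (g : Sp F → Sp F)) DFunLike.coe_injective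
  have hr1 : ¬ r ∣ Fintype.card F - 1 := by
    intro h
    apply hr2
    have h1 : Fintype.card F ^ 2 - 1 = (Fintype.card F + 1) * (Fintype.card F - 1) := by
      have := Nat.sq_sub_sq (Fintype.card F) 1
      rwa [one_pow] at this
    rw [h1]
    exact dvd_mul_of_dvd_right h _
  obtain ⟨H, hH⟩ := Sylow.exists_subgroup_card_pow_prime r hk
  have hcard : Nat.card (H.map G.subtype) = r ^ k := by
    rw [Subgroup.card_map_of_injective G.subtype_injective, hH]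
  have hPG : ∀ g ∈ H.map G.subtype, g ∈ G := by
    rintro _ ⟨x, -, rfl⟩
    exact x.2
  have hP : IsPGroup r (H.map G.subtype) := IsPGroup.of_card hcard
  have hpow : ∀ g ∈ H.map G.subtype, ∃ n, g ^ r ^ n = 1 := by
    intro g hg
    obtain ⟨n, hn⟩ := hP ⟨g, hg⟩
    refine ⟨n, ?_⟩
    have := congrArg Subtype.val hn
    simpa using this
  have hQ : ∀ g ∈ H.map G.subtype, ∀ v, Q (g v) = Q v := by
    intro g hg v
    obtain ⟨c, hc⟩ := hsim g (hPG g hg)
    obtain ⟨n, hn⟩ := hpow g hg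
    rw [hc v, R8_one hr hr1 g n hn c hc, one_mul]
  have key := R4s (H.map G.subtype) M (fun g hg π hπ => hpres g (hPG g hg) π hπ) ?_
  · rwa [hcard, hM.card] at key
  · classical
    intro g hg π hπ hfix
    by_contra hg1
    have hex := hpow g hg
    set n := Nat.find hex with hn
    have hn1 : g ^ r ^ n = 1 := Nat.find_spec hex
    have hn0 : n ≠ 0 := by
      intro h0
      rw [h0, pow_zero, pow_one] at hn1
      exact hg1 hn1
    obtain ⟨m, hm⟩ := Nat.exists_eq_succ_of_ne_zero hn0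
    have hm1 : g ^ r ^ m ≠ 1 := Nat.find_min hex (by rw [← hn, hm]; exact Nat.lt_succ_self m)
    have hgm : g ^ r ^ m ∈ H.map G.subtype := Subgroup.pow_mem _ hg _
    refine noFix two hM hm1 (hQ _ hgm) (fun π hπ => hpres _ (hPG _ hgm) π hπ) hr ?_ hrp hr2 π hπ
      (R8_map_pow g π hfix _)
    rw [← pow_mul, ← pow_succ]
    rw [hm] at hn1
    exact hn1

/-- the automorphism of a semilinear map which is linear is trivial -/
private theorem R8_uniq {F : Type*} [Field F] (g : Equiv.Perm (Sp F))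
    (hadd : ∀ v w, g (v + w) = g v + g w) {f f' : F → F}
    (h : ∀ (a : F) (v : Sp F), g (a • v) = f a • g v)
    (h' : ∀ (a : F) (v : Sp F), g (a • v) = f' a • g v) (a : F) : f a = f' a := by
  have h0 : g 0 = 0 := by
    have h1 := hadd 0 0
    rw [add_zero] at h1
    have h2 : g 0 + g 0 = g 0 + 0 := by rw [add_zero]; exact h1.symm
    exact add_left_cancel h2
  obtain ⟨v, hv⟩ : ∃ v : Sp F, v ≠ 0 := exists_ne 0
  have hgv : g v ≠ 0 := by
    intro h1
    rw [← h0] at h1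
    exact hv (g.injective h1)
  have h1 : (f a - f' a) • g v = 0 := by
    rw [sub_smul, ← h a v, ← h' a v, sub_self]
  rcases smul_eq_zero.1 h1 with h2 | h2
  · exact sub_eq_zero.1 h2
  · exact absurd h2 hgv

private theorem R8_pres {F : Type*} [Field F] {M : Finset (Submodule F (Sp F))}
    {g : Equiv.Perm (Sp F)} (hg : Symmetry M g) (φ : Sp F ≃ₗ[F] Sp F) (hφ : ∀ v, φ v = g v)
    (π : Submodule F (Sp F)) (hπ : π ∈ M) : π.map (φ : Sp F →ₗ[F] Sp F) ∈ M := by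
  obtain ⟨π', hπ', h⟩ := hg.pres π hπ
  have h1 : π.map (φ : Sp F →ₗ[F] Sp F) = π' := by
    ext w
    constructor
    · rintro ⟨v, hv, rfl⟩
      have h2 := (h v).1 hv
      rw [← hφ] at h2
      exact h2
    · intro hw
      refine ⟨φ.symm w, ?_, φ.apply_symm_apply w⟩
      have h2 : g (φ.symm w) = w := by rw [← hφ, φ.apply_symm_apply]
      exact (h _).2 (by rw [h2]; exact hw)
  rw [h1]
  exact hπ'

/-- the permutation of a linear automorphism -/
private def R8_perm (F : Type*) [Field F] : (Sp F ≃ₗ[F] Sp F) →* Equiv.Perm (Sp F) where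
  toFun φ := φ.toEquiv
  map_one' := rfl
  map_mul' _ _ := rfl

theorem coprime_bound {F : Type*} [Field F] [Fintype F] (two : (2 : F) ≠ 0)
    {M : Finset (Submodule F (Sp F))} (hM : BLTSystem M)
    (G : Subgroup (Equiv.Perm (Sp F))) (hG : ∀ g ∈ G, Symmetry M g)
    (hlin : ∀ g ∈ G, ∀ (a : F) (v : Sp F), g (a • v) = a • g v)
    {n : ℕ} (hn : n ∣ Nat.card G)
    (hco : Nat.Coprime n (Fintype.card F * (Fintype.card F ^ 2 - 1))) :
    n ∣ Fintype.card F ^ 4 + 1 := by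
  let G' : Subgroup (Sp F ≃ₗ[F] Sp F) := G.comap (R8_perm F)
  have hG' : ∀ φ, φ ∈ G' ↔ R8_perm F φ ∈ G := fun φ => Iff.rfl
  have hcard : Nat.card G' = Nat.card G := by
    refine Nat.card_eq_of_bijective (fun φ : G' => (⟨R8_perm F φ.1, φ.2⟩ : G)) ⟨?_, ?_⟩
    · intro φ ψ h
      apply Subtype.ext
      ext1 v
      have h1 : R8_perm F φ.1 = R8_perm F ψ.1 := congrArg Subtype.val h
      exact Equiv.congr_fun h1 v
    · rintro ⟨g, hg⟩
      let φ : Sp F ≃ₗ[F] Sp F :=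
        { g with
          map_add' := (hG g hg).add
          map_smul' := fun a v => hlin g hg a v }
      have hφ : R8_perm F φ = g := by
        ext1 v
        rfl
      exact ⟨⟨φ, by rw [hG', hφ]; exact hg⟩, Subtype.ext hφ⟩
  rw [Nat.dvd_iff_prime_pow_dvd_dvd]
  intro r k hr hk
  rcases k with _ | k
  · rw [pow_zero]
    exact one_dvd _
  have hrn : r ∣ n := (dvd_pow_self r (Nat.succ_ne_zero k)).trans hk
  have hrco : ¬ r ∣ Fintype.card F * (Fintype.card F ^ 2 - 1) := by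
    intro h
    have h1 := Nat.dvd_gcd hrn h
    rw [hco.gcd_eq_one] at h1
    exact hr.one_lt.ne' (Nat.dvd_one.1 h1)
  refine order_bound two hM G' ?_ ?_ hr (fun h => hrco (dvd_mul_of_dvd_left h _))
    (fun h => hrco (dvd_mul_of_dvd_right h _)) (by rw [hcard]; exact hk.trans hn)
  · intro φ hφ
    have h1 := hG _ ((hG' φ).1 hφ)
    obtain ⟨σ, hσ, c, hc⟩ := h1.semi
    refine ⟨c, fun v => ?_⟩
    have h2 : ∀ a, σ a = a := fun a =>
      R8_uniq (R8_perm F φ) h1.add (f := σ) (f' := fun a => a) hσ (hlin _ ((hG' φ).1 hφ)) a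
    have h3 := hc v
    rw [h2] at h3
    exact h3
  · intro φ hφ π hπ
    exact R8_pres (hG _ ((hG' φ).1 hφ)) φ (fun v => rfl) π hπ

end Pool.Agent.LibBT65
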