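import Pool.Agent.LibBT65.B3

set_option autoImplicit false

/-!
Row S2 (pure linear algebra; second batch). Structure of a nontrivial `p`-group of isometries of a
nondegenerate 3-space: a common hyperbolic basis.

As in the proof of `B3` (file B3: copy the private `quotHom`, `quotHom_mk` with new names) there are
`f₁ ≠ 0` fixed by all `h g`, and `f₂ ∉ ⟨f₁⟩` with `h g f₂ = f₂ + φ g • f₁`; `φ` is additive, and
`φ g = 0` gives `h g = 1` by `B2'`. Let `h g₀ ≠ 1`, `t = φ g₀ ≠ 0`. From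
`β (h g f₂) (h g f₂) = β f₂ f₂`: `2 t β f₁ f₂ + t^2 β f₁ f₁ = 0`, for `g = g₀` and for `g = g₀⁻¹`
(value `-t`), so `β f₁ f₁ = 0`, `β f₁ f₂ = 0`. There is `y` with `β f₁ y ≠ 0`; `f₁, f₂, y` is a basis.
`m = β f₂ f₂ ≠ 0` (otherwise `f₂ - (β f₂ y / β f₁ y) f₁` is orthogonal to everything). Put
`e₁ = f₁`, `e₂ = f₂`, `μ = - m`, `e₃ = l y + a f₂ + b f₁` with `l = μ / β f₁ y`,
`a = - l β y f₂ / m`, and `b` with `β e₃ e₃ = 0` (`b = - β (l y + a f₂) (l y + a f₂) / (2 μ)`).
`h g e₃ = z e₃ + x e₂ + y e₁`: pairing with `e₁`, `h g e₂`, `h g e₃` gives `z = 1`, `x = φ g`,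
`y = φ g ^ 2 / 2`. The expansion of `x`: pair with `e₁, e₂, e₃` (a vector orthogonal to the three basis
vectors is 0).
-/

namespace Pool.Agent.LibBT65

open Module

/-- The action induced on the quotient by a fixed line. -/
private noncomputable def quotHomS2 {F X G : Type*} [Field F] [AddCommGroup X] [Module F X]
    [Group G] (h : G →* (X ≃ₗ[F] X)) (W : Submodule F X)
    (hW : ∀ g, W.map (h g : X →ₗ[F] X) = W) : G →* ((X ⧸ W) ≃ₗ[F] (X ⧸ W)) where
  toFun g := Submodule.Quotient.equiv W W (h g) (hW g)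
  map_one' := by
    apply LinearEquiv.ext
    intro x
    obtain ⟨y, rfl⟩ := Submodule.Quotient.mk_surjective W x
    simp
  map_mul' a b := by
    apply LinearEquiv.ext
    intro x
    obtain ⟨y, rfl⟩ := Submodule.Quotient.mk_surjective W x
    simp

private theorem quotHomS2_mk {F X G : Type*} [Field F] [AddCommGroup X] [Module F X] [Group G]
    (h : G →* (X ≃ₗ[F] X)) (W : Submodule F X)
    (hW : ∀ g, W.map (h g : X →ₗ[F] X) = W) (g : G) (x : X) :
    quotHomS2 h W hW g (Submodule.Quotient.mk x) = Submodule.Quotient.mk (h g x) := by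
  simp [quotHomS2]

/-- A vector orthogonal to three independent vectors of a nondegenerate 3-space is 0. -/
private theorem orth_zero {F X : Type*} [Field F] [AddCommGroup X] [Module F X]
    (β : X →ₗ[F] X →ₗ[F] F) (hnd : ∀ x, (∀ y, β x y = 0) → x = 0) (hd : finrank F X = 3)
    (u v w : X) (hli : ∀ a b c : F, a • u + b • v + c • w = 0 → a = 0 ∧ b = 0 ∧ c = 0) (x : X)
    (hu : β x u = 0) (hv : β x v = 0) (hw : β x w = 0) : x = 0 := by
  have : FiniteDimensional F X := Module.finite_of_finrank_pos (by omega)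
  have hL : LinearIndependent F ![u, v, w] := by
    rw [Fintype.linearIndependent_iff]
    intro g hg
    rw [Fin.sum_univ_three] at hg
    obtain ⟨h0, h1, h2⟩ := hli (g 0) (g 1) (g 2) hg
    intro i
    fin_cases i
    · exact h0
    · exact h1
    · exact h2
  have hsp := hL.span_eq_top_of_card_eq_finrank' (by rw [Fintype.card_fin, hd])
  apply hnd
  intro y
  have hy : y ∈ Submodule.span F (Set.range ![u, v, w]) := by rw [hsp]; trivial
  refine Submodule.span_induction (p := fun y _ => β x y = 0) ?_ ?_ ?_ ?_ hy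
  · rintro _ ⟨i, rfl⟩
    fin_cases i
    · exact hu
    · exact hv
    · exact hw
  · exact map_zero _
  · intro a b _ _ ha hb
    rw [map_add, ha, hb, add_zero]
  · intro a b _ hb
    rw [map_smul, hb, smul_zero]

theorem S2 {F X G : Type*} [Field F] [Fintype F] [AddCommGroup X] [Module F X] (p : ℕ)
    [Fact p.Prime] [CharP F p] (two : (2 : F) ≠ 0) (β : X →ₗ[F] X →ₗ[F] F)
    (hsymm : ∀ x y, β x y = β y x) (hnd : ∀ x, (∀ y, β x y = 0) → x = 0)
    (hd : finrank F X = 3) [Group G] [Finite G] (hG : IsPGroup p G) (h : G →* (X ≃ₗ[F] X))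
    (hiso : ∀ g x y, β (h g x) (h g y) = β x y) (hne : ∃ g, h g ≠ 1) :
    ∃ (e₁ e₂ e₃ : X) (μ : F) (φ : G → F), μ ≠ 0 ∧ β e₁ e₁ = 0 ∧ β e₁ e₂ = 0 ∧ β e₁ e₃ = μ ∧
      β e₂ e₂ = -μ ∧ β e₂ e₃ = 0 ∧ β e₃ e₃ = 0 ∧ (∀ g g', φ (g * g') = φ g + φ g') ∧
      (∀ g, h g e₁ = e₁) ∧ (∀ g, h g e₂ = e₂ + φ g • e₁) ∧
      (∀ g, h g e₃ = e₃ + φ g • e₂ + (φ g ^ 2 / 2) • e₁) ∧ (∀ g, φ g = 0 → h g = 1) ∧
      ∀ x, x = (β x e₃ / μ) • e₁ + (-(β x e₂) / μ) • e₂ + (β x e₁ / μ) • e₃ := by
  have : FiniteDimensional F X := Module.finite_of_finrank_pos (by omega)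
  have : Nontrivial X := Module.nontrivial_of_finrank_pos (R := F) (by omega)
  obtain ⟨f₁, hf₁0, hf₁⟩ := exists_fixed p hG h
  set W : Submodule F X := Submodule.span F {f₁} with hWdef
  have hW : ∀ g, W.map (h g : X →ₗ[F] X) = W := by
    intro g
    rw [hWdef, Submodule.map_span, Set.image_singleton]
    congr 2
    exact hf₁ g
  have hWr : finrank F W = 1 := finrank_span_singleton hf₁0
  have hq : finrank F (X ⧸ W) = 2 := by
    have := Submodule.finrank_quotient_add_finrank W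
    omega
  have : Nontrivial (X ⧸ W) := Module.nontrivial_of_finrank_pos (R := F) (by omega)
  obtain ⟨x, hx0, hx⟩ := exists_fixed p hG (quotHomS2 h W hW)
  obtain ⟨f₂, rfl⟩ := Submodule.Quotient.mk_surjective W x
  have hf₂W : f₂ ∉ W := fun hm => hx0 ((Submodule.Quotient.mk_eq_zero W).mpr hm)
  have h12 : ∀ a : F, f₂ ≠ a • f₁ := by
    intro a ha
    exact hf₂W (by rw [ha, hWdef]; exact Submodule.smul_mem _ _ (Submodule.mem_span_singleton_self f₁))
  have hφ : ∀ g, ∃ a : F, h g f₂ = f₂ + a • f₁ := by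
    intro g
    have h1 := hx g
    rw [quotHomS2_mk] at h1
    have h2 : h g f₂ - f₂ ∈ W := (Submodule.Quotient.eq W).mp h1
    rw [hWdef, Submodule.mem_span_singleton] at h2
    obtain ⟨a, ha⟩ := h2
    exact ⟨a, by rw [ha]; abel⟩
  choose φ hφ using hφ
  have hφadd : ∀ g g', φ (g * g') = φ g + φ g' := by
    intro g g'
    have h3 : h (g * g') f₂ = f₂ + (φ g + φ g') • f₁ := by
      rw [map_mul, LinearEquiv.mul_apply, hφ g', map_add, map_smul, hφ g, hf₁ g, add_smul]
      abel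
    rw [hφ (g * g')] at h3
    have h4 := add_left_cancel h3
    exact smul_left_injective F hf₁0 h4
  have hker : ∀ g, φ g = 0 → h g = 1 := by
    intro g hg
    have hfix : h g f₂ = f₂ := by rw [hφ g, hg, zero_smul, add_zero]
    obtain ⟨k, hk⟩ := hG g
    have hk' : h g ^ p ^ k = 1 := by rw [← map_pow, hk, map_one]
    exact B2' p two β hsymm hnd hd (h g) hk' (hiso _) hf₁0 h12 (hf₁ _) hfix
  obtain ⟨g₀, hg₀⟩ := hne
  have ht : φ g₀ ≠ 0 := fun h0 => hg₀ (hker g₀ h0)
  have hrel : ∀ g, 2 * φ g * β f₁ f₂ + φ g ^ 2 * β f₁ f₁ = 0 := by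
    intro g
    have h5 := hiso g f₂ f₂
    rw [hφ g] at h5
    simp only [map_add, map_smul, LinearMap.add_apply, LinearMap.smul_apply, smul_eq_mul] at h5
    rw [hsymm f₂ f₁] at h5
    linear_combination h5
  have hinv : φ g₀⁻¹ = - φ g₀ := by
    have h6 := hφadd g₀ g₀⁻¹
    have h7 := hφadd 1 1
    rw [mul_one] at h7
    rw [mul_inv_cancel] at h6
    linear_combination -h6 - h7
  have hA : β f₁ f₁ = 0 := by
    have h8 := hrel g₀
    have h9 := hrel g₀⁻¹
    rw [hinv] at h9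
    have h10 : 2 * φ g₀ ^ 2 * β f₁ f₁ = 0 := by linear_combination h8 + h9
    rcases mul_eq_zero.mp h10 with h11 | h11
    · exact absurd h11 (mul_ne_zero two (pow_ne_zero 2 ht))
    · exact h11
  have hB : β f₁ f₂ = 0 := by
    have h8 := hrel g₀
    rw [hA, mul_zero, add_zero] at h8
    rcases mul_eq_zero.mp h8 with h11 | h11
    · exact absurd h11 (mul_ne_zero two ht)
    · exact h11
  have hB' : β f₂ f₁ = 0 := by rw [hsymm]; exact hB
  obtain ⟨y, hy⟩ : ∃ y, β f₁ y ≠ 0 := by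
    by_contra hcon
    push Not at hcon
    exact hf₁0 (hnd f₁ hcon)
  have hli : ∀ a b c : F, a • f₁ + b • f₂ + c • y = 0 → a = 0 ∧ b = 0 ∧ c = 0 := by
    intro a b c habc
    have h1 : β f₁ (a • f₁ + b • f₂ + c • y) = 0 := by rw [habc, map_zero]
    simp only [map_add, map_smul, smul_eq_mul, hA, hB, mul_zero, zero_add] at h1
    have hc : c = 0 := (mul_eq_zero.mp h1).resolve_right hy
    rw [hc, zero_smul, add_zero] at habc
    have hb : b = 0 := by
      by_contra hb
      apply h12 (-(a / b))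
      have h2 : f₂ = b⁻¹ • (b • f₂) := by rw [smul_smul, inv_mul_cancel₀ hb, one_smul]
      have h3 : b • f₂ = -(a • f₁) := by
        rw [eq_neg_iff_add_eq_zero, add_comm]
        exact habc
      rw [h2, h3, smul_neg, smul_smul, neg_smul, div_eq_inv_mul]
    rw [hb, zero_smul, add_zero] at habc
    exact ⟨(smul_eq_zero.mp habc).resolve_right hf₁0, hb, hc⟩
  have hm : β f₂ f₂ ≠ 0 := by
    intro hm0
    have h1 : f₂ - (β f₂ y / β f₁ y) • f₁ = 0 := by
      refine orth_zero β hnd hd f₁ f₂ y hli _ ?_ ?_ ?_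
      · rw [map_sub, map_smul, LinearMap.sub_apply, LinearMap.smul_apply, hA, hB', smul_zero,
          sub_zero]
      · rw [map_sub, map_smul, LinearMap.sub_apply, LinearMap.smul_apply, hB, hm0, smul_zero,
          sub_zero]
      · rw [map_sub, map_smul, LinearMap.sub_apply, LinearMap.smul_apply, smul_eq_mul,
          div_mul_cancel₀ _ hy, sub_self]
    exact h12 _ (sub_eq_zero.mp h1)
  obtain ⟨μ, hμdef⟩ : ∃ μ : F, μ = -β f₂ f₂ := ⟨_, rfl⟩
  have hμ : μ ≠ 0 := by rw [hμdef]; exact neg_ne_zero.mpr hm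
  have h22 : β f₂ f₂ = -μ := by rw [hμdef, neg_neg]
  obtain ⟨w, hw1, hw2⟩ : ∃ w : X, β f₁ w = μ ∧ β f₂ w = 0 := by
    refine ⟨(μ / β f₁ y) • y + ((μ / β f₁ y) * β f₂ y / μ) • f₂, ?_, ?_⟩
    · rw [map_add, map_smul, map_smul, hB, smul_zero, add_zero, smul_eq_mul,
        div_mul_cancel₀ _ hy]
    · rw [map_add, map_smul, map_smul, h22, smul_eq_mul, smul_eq_mul]
      field_simp
      ring
  obtain ⟨e₃, h13, h23, h33⟩ : ∃ e : X, β f₁ e = μ ∧ β f₂ e = 0 ∧ β e e = 0 := by
    refine ⟨w + (-(β w w) / (2 * μ)) • f₁, ?_, ?_, ?_⟩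
    · rw [map_add, map_smul, hA, smul_zero, add_zero, hw1]
    · rw [map_add, map_smul, hB', smul_zero, add_zero, hw2]
    · simp only [map_add, map_smul, LinearMap.add_apply, LinearMap.smul_apply, smul_eq_mul]
      rw [hsymm w f₁, hw1, hA]
      field_simp
      ring
  have h31 : β e₃ f₁ = μ := by rw [hsymm]; exact h13
  have h32 : β e₃ f₂ = 0 := by rw [hsymm]; exact h23
  have hli2 : ∀ a b c : F, a • f₁ + b • f₂ + c • e₃ = 0 → a = 0 ∧ b = 0 ∧ c = 0 := by
    intro a b c habc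
    have h1 : β f₁ (a • f₁ + b • f₂ + c • e₃) = 0 := by rw [habc, map_zero]
    have h2 : β f₂ (a • f₁ + b • f₂ + c • e₃) = 0 := by rw [habc, map_zero]
    have h3 : β e₃ (a • f₁ + b • f₂ + c • e₃) = 0 := by rw [habc, map_zero]
    simp only [map_add, map_smul, smul_eq_mul, hA, hB, hB', h22, h13, h23, h31, h32, h33,
      mul_zero, zero_add, add_zero, mul_neg, neg_eq_zero] at h1 h2 h3
    exact ⟨(mul_eq_zero.mp h3).resolve_right hμ, (mul_eq_zero.mp h2).resolve_right hμ,
      (mul_eq_zero.mp h1).resolve_right hμ⟩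
  have hexp : ∀ x, x = (β x e₃ / μ) • f₁ + (-(β x f₂) / μ) • f₂ + (β x f₁ / μ) • e₃ := by
    intro x
    rw [← sub_eq_zero]
    refine orth_zero β hnd hd f₁ f₂ e₃ hli2 _ ?_ ?_ ?_
    · simp only [map_add, map_sub, map_smul, LinearMap.add_apply, LinearMap.sub_apply,
        LinearMap.smul_apply, smul_eq_mul]
      rw [hA, hB', h31]
      field_simp
      ring
    · simp only [map_add, map_sub, map_smul, LinearMap.add_apply, LinearMap.sub_apply,
        LinearMap.smul_apply, smul_eq_mul]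
      rw [hB, h22, h32]
      field_simp
      ring
    · simp only [map_add, map_sub, map_smul, LinearMap.add_apply, LinearMap.sub_apply,
        LinearMap.smul_apply, smul_eq_mul]
      rw [h13, h23, h33]
      field_simp
      ring
  refine ⟨f₁, f₂, e₃, μ, φ, hμ, hA, hB, h13, h22, h23, h33, hφadd, hf₁, hφ, ?_, hker, hexp⟩
  intro g
  have g1 : β (h g e₃) f₁ = μ := by
    have h1 := hiso g e₃ f₁
    rw [hf₁ g, h31] at h1
    exact h1
  have g2 : β (h g e₃) f₂ = -(φ g * μ) := by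
    have h1 := hiso g e₃ f₂
    rw [hφ g, h32, map_add, map_smul, g1, smul_eq_mul] at h1
    linear_combination h1
  have g3 := hexp (h g e₃)
  rw [g1, g2] at g3
  have g4 : -(-(φ g * μ)) / μ = φ g := by field_simp
  rw [g4, div_self hμ, one_smul] at g3
  have g5 := hiso g e₃ e₃
  rw [h33] at g5
  set s : F := β (h g e₃) e₃ / μ with hs
  rw [g3] at g5
  simp only [map_add, map_smul, LinearMap.add_apply, LinearMap.smul_apply, smul_eq_mul] at g5
  rw [hA, hB, hB', h22, h13, h23, h31, h32, h33] at g5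
  have g6 : μ * (2 * s - φ g ^ 2) = 0 := by linear_combination g5
  have g7 : 2 * s - φ g ^ 2 = 0 := (mul_eq_zero.mp g6).resolve_left hμ
  have g8 : s = φ g ^ 2 / 2 := by
    rw [eq_div_iff two]
    linear_combination g7
  rw [g8] at g3
  rw [g3]
  abel

end Pool.Agent.LibBT65
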