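import Mathlib

set_option autoImplicit false

/-!
Row S3 (ONLY MATHLIB; finite fields of characteristic 3; second batch).

`A` is a finite additive group with three additive coordinates `τ1 τ2 τ3 : A → F`, together
injective; `Φ` an additive subgroup of `F`; `hrel` is the relation (R): for `t ∈ Φ` and `a ∈ A` with
`τ3 a = 0` there is `a'` with coordinates `(t τ2 a, 0, 0)` and
`Γ a' = μ (τ2 a) t^3 + t^2 C a + t α a`.

(C) Consequence: let `ρ ∈ F`, `a, a₁ ∈ A` with `τ3 a = τ3 a₁ = 0`, `τ2 a = b`, `τ2 a₁ = ρ b`, and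
`t, ρ t ∈ Φ`. The elements of (R) for `(ρ t, a)` and `(t, a₁)` have the same coordinates
`(ρ t b, 0, 0)`, so they are equal (`hinj` for the difference) and
`t^3 μ b (ρ^3 - ρ) + t^2 (ρ^2 C a - C a₁) + t (ρ α a - α a₁) = 0`.

`S3a`: let `S` be the set of the `b` (see `hB`), an additive subgroup of `F` with `|S|^2 > |F|`. Since
`|F| ≥ 9` there is `ρ ≠ 0, 1, -1`, so `ρ^3 - ρ ≠ 0`. The map `S × S → F`, `(b, b') ↦ ρ b - b'` is not
injective, so there is `b ≠ 0` in `S` with `ρ b ∈ S`. By (C) every `t ∈ Φ` with `ρ t ∈ Φ` is a root of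
a polynomial of degree 3 (leading coefficient `μ b (ρ^3 - ρ) ≠ 0`), so there are at most 3 of them
(`Polynomial.card_roots'`). They form the kernel of `Φ × Φ → F`, `(t, t') ↦ ρ t - t'`, so
`|Φ|^2 ≤ 3 |F|`.
-/

namespace Pool.Agent.LibBT65

private theorem S3_ne {F : Type*} [Field F] (u v w : F) (hu : u ≠ 0) :
    Polynomial.C u * Polynomial.X ^ 3 + Polynomial.C v * Polynomial.X ^ 2 +
      Polynomial.C w * Polynomial.X ≠ 0 := by
  intro h
  have h1 := congrArg (fun Q : Polynomial F => Q.coeff 3) h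
  simp at h1
  exact hu h1

theorem S3a {F A : Type*} [Field F] [Fintype F] [CharP F 3] (hq : 9 ≤ Fintype.card F)
    [AddCommGroup A] [Finite A] (Φ : AddSubgroup F) (τ1 τ2 τ3 Γ C α : A →+ F)
    (hinj : ∀ a, τ1 a = 0 → τ2 a = 0 → τ3 a = 0 → a = 0) (μ : F) (hμ : μ ≠ 0)
    (hrel : ∀ t ∈ Φ, ∀ a, τ3 a = 0 → ∃ a', τ3 a' = 0 ∧ τ2 a' = 0 ∧ τ1 a' = t * τ2 a ∧
      Γ a' = μ * τ2 a * t ^ 3 + t ^ 2 * C a + t * α a)
    (hB : Fintype.card F < Nat.card {b : F // ∃ a, τ3 a = 0 ∧ τ2 a = b} ^ 2) :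
    Nat.card Φ ^ 2 ≤ 3 * Fintype.card F := by
  classical
  have hone : (1 : F) ≠ -1 := by
    intro h
    have h2 : (2 : F) = 0 := by
      have h3 : (1 : F) + 1 = 0 := by
        nth_rewrite 1 [h]
        ring
      rw [← h3]
      norm_num
    have h3 : ((3 : ℕ) : F) = 0 := CharP.cast_eq_zero F 3
    have h4 : (1 : F) = 0 := by
      have : (1 : F) = ((3 : ℕ) : F) - 2 := by
        push_cast
        norm_num
      rw [this, h3, h2, sub_zero]
    exact one_ne_zero h4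
  -- the parameter
  obtain ⟨ρ, hρ0, hρ1, hρm⟩ : ∃ ρ : F, ρ ≠ 0 ∧ ρ ≠ 1 ∧ ρ ≠ -1 := by
    have hc : (({0, 1, -1} : Finset F)).card < (Finset.univ : Finset F).card := by
      have h1 : (({0, 1, -1} : Finset F)).card ≤ 3 := Finset.card_le_three
      rw [Finset.card_univ]
      omega
    obtain ⟨ρ, _, hρ⟩ := Finset.exists_mem_notMem_of_card_lt_card hc
    simp only [Finset.mem_insert, Finset.mem_singleton, not_or] at hρ
    exact ⟨ρ, hρ.1, hρ.2.1, hρ.2.2⟩
  have hρ3 : ρ ^ 3 - ρ ≠ 0 := by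
    have h1 : ρ ^ 3 - ρ = ρ * ((ρ - 1) * (ρ - (-1))) := by ring
    rw [h1]
    exact mul_ne_zero hρ0 (mul_ne_zero (sub_ne_zero.2 hρ1) (sub_ne_zero.2 hρm))
  -- the subgroup of the second coordinates
  obtain ⟨SS, hSS⟩ : ∃ SS : AddSubgroup F, ∀ b, b ∈ SS ↔ ∃ a, τ3 a = 0 ∧ τ2 a = b := by
    refine ⟨(τ3.ker).map τ2, fun b => ?_⟩
    rw [AddSubgroup.mem_map]
    constructor
    · rintro ⟨a, ha, hb⟩
      exact ⟨a, (AddMonoidHom.mem_ker).1 ha, hb⟩
    · rintro ⟨a, ha, hb⟩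
      exact ⟨a, (AddMonoidHom.mem_ker).2 ha, hb⟩
  have hcardS : Nat.card {b : F // ∃ a, τ3 a = 0 ∧ τ2 a = b} = Nat.card SS :=
    Nat.card_congr (Equiv.subtypeEquivRight (fun b => (hSS b).symm))
  rw [hcardS] at hB
  obtain ⟨b, hb0, hbS, hρb⟩ : ∃ b : F, b ≠ 0 ∧ b ∈ SS ∧ ρ * b ∈ SS := by
    have hninj : ¬ Function.Injective (fun x : SS × SS => ρ * (x.1 : F) - (x.2 : F)) := by
      intro hinj'
      have h1 := Nat.card_le_card_of_injective _ hinj'
      rw [Nat.card_prod, Nat.card_eq_fintype_card (α := F), ← pow_two] at h1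
      omega
    rw [Function.not_injective_iff] at hninj
    obtain ⟨x, y, hxy, hne⟩ := hninj
    have hxy' : ρ * ((x.1 : F) - (y.1 : F)) = (x.2 : F) - (y.2 : F) := by
      have h2 : ρ * (x.1 : F) - (x.2 : F) = ρ * (y.1 : F) - (y.2 : F) := hxy
      linear_combination h2
    refine ⟨(x.1 : F) - (y.1 : F), ?_, SS.sub_mem x.1.2 y.1.2, ?_⟩
    · intro h0
      apply hne
      rw [h0, mul_zero] at hxy'
      apply Prod.ext
      · exact Subtype.ext (sub_eq_zero.1 h0)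
      · exact Subtype.ext (sub_eq_zero.1 hxy'.symm)
    · rw [hxy']
      exact SS.sub_mem x.2.2 y.2.2
  obtain ⟨a, ha3, ha2⟩ := (hSS b).1 hbS
  obtain ⟨a₁, ha₁3, ha₁2⟩ := (hSS (ρ * b)).1 hρb
  -- the cubic relation
  have hcub : ∀ t : F, t ∈ Φ → ρ * t ∈ Φ →
      (μ * b * (ρ ^ 3 - ρ)) * t ^ 3 + (ρ ^ 2 * C a - C a₁) * t ^ 2 + (ρ * α a - α a₁) * t = 0 := by
    intro t ht hρt
    obtain ⟨a', h1, h2, h3, h4⟩ := hrel (ρ * t) hρt a ha3
    obtain ⟨a'', h1', h2', h3', h4'⟩ := hrel t ht a₁ ha₁3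
    have heq : a' - a'' = 0 := by
      apply hinj
      · rw [map_sub, h3, h3', ha2, ha₁2]
        ring
      · rw [map_sub, h2, h2', sub_zero]
      · rw [map_sub, h1, h1', sub_zero]
    have hG : Γ a' = Γ a'' := by
      rw [sub_eq_zero.1 heq]
    rw [h4, h4', ha2, ha₁2] at hG
    linear_combination hG
  obtain ⟨P, hP⟩ : ∃ P : Polynomial F, P = Polynomial.C (μ * b * (ρ ^ 3 - ρ)) * Polynomial.X ^ 3 +
      Polynomial.C (ρ ^ 2 * C a - C a₁) * Polynomial.X ^ 2 +
      Polynomial.C (ρ * α a - α a₁) * Polynomial.X := ⟨_, rfl⟩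
  have hlead : μ * b * (ρ ^ 3 - ρ) ≠ 0 := mul_ne_zero (mul_ne_zero hμ hb0) hρ3
  have hP0 : P ≠ 0 := by
    rw [hP]
    exact S3_ne _ _ _ hlead
  have hPdeg : P.natDegree ≤ 3 := by
    rw [hP]
    compute_degree
  have hroots : P.roots.toFinset.card ≤ 3 :=
    (Multiset.toFinset_card_le _).trans ((Polynomial.card_roots' P).trans hPdeg)
  -- the homomorphism
  let φ : Φ × Φ →+ F :=
    { toFun := fun x => ρ * (x.1 : F) - (x.2 : F)
      map_zero' := by simp
      map_add' := by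
        intro x y
        simp only [Prod.fst_add, Prod.snd_add, AddSubgroup.coe_add]
        ring }
  have hφ : ∀ x : Φ × Φ, φ x = ρ * (x.1 : F) - (x.2 : F) := fun x => rfl
  have hkermem : ∀ x : φ.ker, ρ * ((x : Φ × Φ).1 : F) = ((x : Φ × Φ).2 : F) := by
    intro x
    have h1 := (AddMonoidHom.mem_ker).1 x.2
    rw [hφ] at h1
    exact sub_eq_zero.1 h1
  have hker : Nat.card φ.ker ≤ 3 := by
    refine le_trans ?_ hroots
    rw [← Nat.card_eq_finsetCard]
    refine Nat.card_le_card_of_injective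
      (fun x : φ.ker => (⟨((x : Φ × Φ).1 : F), ?_⟩ : P.roots.toFinset)) ?_
    · rw [Multiset.mem_toFinset, Polynomial.mem_roots hP0, Polynomial.IsRoot.def]
      have h1 := hcub ((x : Φ × Φ).1 : F) (x : Φ × Φ).1.2 (by
        rw [hkermem x]
        exact (x : Φ × Φ).2.2)
      rw [hP]
      simp only [Polynomial.eval_add, Polynomial.eval_mul, Polynomial.eval_C, Polynomial.eval_pow,
        Polynomial.eval_X]
      exact h1
    · intro x y hxy
      have h1 : ((x : Φ × Φ).1 : F) = ((y : Φ × Φ).1 : F) :=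
        congrArg (fun z : P.roots.toFinset => (z : F)) hxy
      apply Subtype.ext
      apply Prod.ext
      · exact Subtype.ext h1
      · apply Subtype.ext
        rw [← hkermem x, ← hkermem y, h1]
  have hq1 : Nat.card ((Φ × Φ) ⧸ φ.ker) ≤ Fintype.card F := by
    rw [Nat.card_congr (QuotientAddGroup.quotientKerEquivRange φ).toEquiv,
      ← Nat.card_eq_fintype_card (α := F)]
    exact Nat.card_le_card_of_injective _ Subtype.val_injective
  have htot := AddSubgroup.card_eq_card_quotient_mul_card_addSubgroup φ.ker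
  rw [Nat.card_prod] at htot
  rw [pow_two, htot, mul_comm 3]
  exact Nat.mul_le_mul hq1 hker

end Pool.Agent.LibBT65
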